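import Pool.Agent.Lib.MP_c17912_pr_TR.DNS
import Pool.Agent.Lib.MP_c17912_pr_LN.LA

set_option autoImplicit false

open MeasureTheory ProbabilityTheory Filter
open scoped NNReal ENNReal Topology Real

namespace Pool.Agent.SLE

noncomputable section

namespace TRLDG

theorem V_eq (a b x : ℝ) : Vth a b 0 x = LAAux.V a b x := by
  unfold Vth LAAux.V
  ring

theorem ff_eq (a b x : ℝ) : TRDNS.ff a b 0 x = -LAAux.f a b x := by
  unfold TRDNS.ff LAAux.f
  rw [V_eq]
  ring

theorem LL_eq (a b x : ℝ) : TRDNS.LL a b 0 x = -∫ t in (0 : ℝ)..x, LAAux.f a b t := by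
  unfold TRDNS.LL
  rw [← intervalIntegral.integral_neg]
  apply intervalIntegral.integral_congr
  intro t _
  exact ff_eq a b t

theorem LL_pi (a b : ℝ) : TRDNS.LL a b 0 π = 0 := by
  rw [LL_eq, LAAux.f_int, neg_zero]

/-- The normalising constant. -/
def C (a b : ℝ) : ℝ := ∫ s in (0 : ℝ)..π, TRDNS.ee a b 0 (-1) s

theorem hc {a b : ℝ} (ha : 0 < a) (hb : 0 < b) : (0 : ℝ) ^ 2 < a * b := by
  have := mul_pos ha hb
  simpa using this

theorem C_pos {a b : ℝ} (ha : 0 < a) (hb : 0 < b) : 0 < C a b := by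
  have hee : Continuous (TRDNS.ee a b 0 (-1)) :=
    (TRDNS.ee_smooth ha hb (hc ha hb) (-1) 0).continuous
  unfold C
  refine intervalIntegral.intervalIntegral_pos_of_pos (hee.intervalIntegrable _ _) ?_ Real.pi_pos
  intro s
  exact div_pos (Real.exp_pos _) (Vth_pos ha hb (hc ha hb) s)

theorem dens_eq {a b : ℝ} (ha : 0 < a) (hb : 0 < b) (x : ℝ) :
    dens a b 0 (-1) x = C a b * LAAux.E a b x := by
  have hper : Function.Periodic (TRDNS.ee a b 0 (-1)) π := by
    intro y
    rw [TRDNS.ee_add ha hb (hc ha hb), LL_pi]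
    simp
  have h1 := hper.intervalIntegral_add_eq x 0
  rw [zero_add] at h1
  rw [TRDNS.dens_eq ha hb (hc ha hb), h1, LL_eq]
  unfold C LAAux.E
  rw [neg_one_mul, neg_neg, mul_comm]

theorem Lam_eq {a b : ℝ} (ha : 0 < a) (hb : 0 < b) :
    Lam a b 0 = (4 - (a - b)) / 2 * (C a b * ∫ x in (0 : ℝ)..π, Real.cos (2 * x) *
      LAAux.E a b x) := by
  unfold Lam
  rw [← intervalIntegral.integral_const_mul, ← intervalIntegral.integral_const_mul]
  apply intervalIntegral.integral_congr
  intro x _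
  change H1 a b 0 x * dens a b 0 (-1) x = (4 - (a - b)) / 2 * (C a b * (Real.cos (2 * x) *
      LAAux.E a b x))
  rw [dens_eq ha hb]
  unfold H1
  ring

end TRLDG

/-- TR-LDG. The drift of a diagonal matrix vanishes only for `a - b = 4`.

Proof. For `c = 0` the exponent is `π`-periodic, so `dens a b 0 (-1)` is a positive constant
times the function `LAAux.E a b`, and `∫ cos 2θ E > 0` (`LAAux.num_pos`). -/
theorem Lam_diag {a b : ℝ} (ha : 0 < a) (hb : 0 < b) : Lam a b 0 = 0 ↔ a - b = 4 := by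
  rw [TRLDG.Lam_eq ha hb]
  have h := mul_pos (TRLDG.C_pos ha hb) (LAAux.num_pos ha hb)
  constructor
  · intro h0
    rcases mul_eq_zero.1 h0 with h1 | h1
    · linarith
    · exact absurd h1 h.ne'
  · intro h0
    rw [h0]
    simp

end

end Pool.Agent.SLE
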