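import Pool.Agent.Lib.MP_c17912_pr_TR.Base

set_option autoImplicit false

open MeasureTheory ProbabilityTheory Filter
open scoped NNReal ENNReal Topology Real

namespace Pool.Agent.SLE

noncomputable section

/-- TR-LVL. Elementary properties of the levels. `2^(Nat.log 2 y) ≤ y < 2^(Nat.log 2 y + 1)`. -/
theorem ll_ge (N : ℕ) : 3 ≤ ll N := by
  unfold ll
  omega

theorem two_pow_ll_gt {N : ℕ} (hN : 2 ≤ N) : 4 * Nat.log 2 N < 2 ^ ll N := by
  have _ := hN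
  unfold ll
  have h1 := Nat.lt_pow_succ_log_self (by norm_num : 1 < 2) (Nat.log 2 N)
  have h2 : 2 ^ (Nat.log 2 (Nat.log 2 N) + 3) = 4 * 2 ^ (Nat.log 2 (Nat.log 2 N) + 1) := by
    ring
  rw [h2]
  exact Nat.mul_lt_mul_of_pos_left h1 (by norm_num)

theorem two_pow_ll_le {N : ℕ} (hN : 2 ≤ N) : 2 ^ ll N ≤ 8 * Nat.log 2 N := by
  unfold ll
  have h0 : Nat.log 2 N ≠ 0 := (Nat.log_pos (by norm_num) hN).ne'
  have h1 := Nat.pow_log_le_self 2 h0
  have h2 : 2 ^ (Nat.log 2 (Nat.log 2 N) + 3) = 8 * 2 ^ (Nat.log 2 (Nat.log 2 N)) := by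
    ring
  rw [h2]
  exact Nat.mul_le_mul_left 8 h1

theorem ll_le {N : ℕ} (hN : 2 ≤ N) : ll N ≤ Nat.log 2 N + 3 := by
  have _ := hN
  unfold ll
  have h1 := Nat.log_le_self 2 (Nat.log 2 N)
  omega

theorem lev_strictMono (n : ℕ) : StrictMono (lev n) := by
  refine strictMono_nat_of_lt_succ fun k => ?_
  have h1 := ll_ge (n + lev n k)
  have h2 : lev n (k + 1) = lev n k + ll (n + lev n k) := rfl
  omega

theorem le_lev (n k : ℕ) : 3 * k ≤ lev n k := by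
  induction k with
  | zero => exact Nat.zero_le _
  | succ k ih =>
    have h1 := ll_ge (n + lev n k)
    have h2 : lev n (k + 1) = lev n k + ll (n + lev n k) := rfl
    omega

namespace TRLVL

theorem ev_log : ∀ᶠ n : ℕ in atTop, (6 * (Nat.log 2 n : ℝ) + 15) ≤ (n : ℝ) ^ (1 / 4 : ℝ) := by
  have h1 : ∀ᶠ x : ℝ in atTop, ‖Real.log x‖ ≤ 1 / 24 * ‖x ^ (1 / 4 : ℝ)‖ :=
    (isLittleO_log_rpow_atTop (by norm_num : (0 : ℝ) < 1 / 4)).bound (by norm_num)
  have h2 : ∀ᶠ x : ℝ in atTop, (30 : ℝ) ≤ x ^ (1 / 4 : ℝ) :=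
    (tendsto_rpow_atTop (by norm_num : (0 : ℝ) < 1 / 4)).eventually_ge_atTop 30
  have h3 := (h1.and (h2.and (eventually_ge_atTop (1 : ℝ))))
  have h4 := (tendsto_natCast_atTop_atTop (R := ℝ)).eventually h3
  filter_upwards [h4] with n hn
  obtain ⟨ha, hb, hc⟩ := hn
  have h5 : (Nat.log 2 n : ℝ) ≤ Real.logb 2 n := by
    have := Real.natLog_le_logb n 2
    exact_mod_cast this
  have h6 : Real.logb 2 n ≤ 2 * Real.log n := by
    rw [Real.logb, div_le_iff₀ (Real.log_pos (by norm_num))]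
    have h7 := Real.log_two_gt_d9
    have h8 : 0 ≤ Real.log n := Real.log_nonneg hc
    nlinarith
  have h9 : Real.log n ≤ 1 / 24 * (n : ℝ) ^ (1 / 4 : ℝ) := by
    have h10 : 0 ≤ (n : ℝ) ^ (1 / 4 : ℝ) := by linarith
    rw [Real.norm_eq_abs, Real.norm_eq_abs, abs_of_nonneg h10] at ha
    exact (le_abs_self _).trans ha
  linarith

end TRLVL

/-- The first level at which `4 (n + m)^10 ≤ 4^m` is small compared with `n^(1/4)`. -/
theorem exists_start : ∃ n₀ : ℕ, ∀ n ≥ n₀, ∃ k : ℕ, 1 ≤ lev n k ∧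
    4 * (n + lev n k) ^ 10 ≤ 4 ^ lev n k ∧ (lev n k : ℝ) ≤ (n : ℝ) ^ (1 / 4 : ℝ) := by
  obtain ⟨n₀, hn₀⟩ := eventually_atTop.1 TRLVL.ev_log
  refine ⟨max n₀ 1, fun n hn => ?_⟩
  have hn1 : n₀ ≤ n := (le_max_left _ _).trans hn
  have hn2 : 1 ≤ n := (le_max_right _ _).trans hn
  have hlog := hn₀ n hn1
  obtain ⟨y, hy⟩ : ∃ y, y = Nat.log 2 n := ⟨_, rfl⟩
  rw [← hy] at hlog
  have hnr : (1 : ℝ) ≤ n := by exact_mod_cast hn2
  have hle : (n : ℝ) ^ (1 / 4 : ℝ) ≤ n := by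
    have := Real.rpow_le_rpow_of_exponent_le hnr (by norm_num : (1 / 4 : ℝ) ≤ 1)
    rwa [Real.rpow_one] at this
  have hyn : 6 * y + 15 ≤ n := by
    have : (6 * (y : ℝ) + 15) ≤ n := hlog.trans hle
    exact_mod_cast this
  have hex : ∃ k, 5 * y + 11 ≤ lev n k :=
    ⟨5 * y + 11, by have := le_lev n (5 * y + 11); omega⟩
  classical
  obtain ⟨k, hk⟩ : ∃ k, k = Nat.find hex := ⟨_, rfl⟩
  have hk1 : 5 * y + 11 ≤ lev n k := by rw [hk]; exact Nat.find_spec hex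
  have hk0 : k ≠ 0 := by
    intro h0
    rw [h0] at hk1
    have h1 : lev n 0 = 0 := rfl
    omega
  obtain ⟨k', rfl⟩ := Nat.exists_eq_succ_of_ne_zero hk0
  have hk2 : ¬ 5 * y + 11 ≤ lev n k' := Nat.find_min hex (by omega)
  have h2 : lev n (k' + 1) = lev n k' + ll (n + lev n k') := rfl
  have h3 := ll_le (N := n + lev n k') (by omega)
  have h4 : Nat.log 2 (n + lev n k') ≤ y + 1 := by
    have h5 : n + lev n k' ≤ n * 2 := by omega
    have h6 := Nat.log_mono_right (b := 2) h5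
    rw [Nat.log_mul_base (by norm_num) (by omega), ← hy] at h6
    exact h6
  have hup : lev n (k' + 1) ≤ 6 * y + 15 := by omega
  refine ⟨k' + 1, by rw [Nat.succ_eq_add_one] at hk1; omega, ?_, ?_⟩
  · have hk1' : 5 * y + 11 ≤ lev n (k' + 1) := hk1
    have h7 : n + lev n (k' + 1) ≤ 2 ^ (y + 2) := by
      have h8 := Nat.lt_pow_succ_log_self (by norm_num : 1 < 2) n
      rw [← hy] at h8
      have h9 : 2 ^ (y + 2) = 2 * 2 ^ (y + 1) := by ring
      have h8' : n < 2 ^ (y + 1) := h8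
      omega
    calc 4 * (n + lev n (k' + 1)) ^ 10 ≤ 4 * (2 ^ (y + 2)) ^ 10 :=
          Nat.mul_le_mul_left 4 (Nat.pow_le_pow_left h7 10)
      _ = 2 ^ (2 * (5 * y + 11)) := by
          rw [← pow_mul]
          have : 2 * (5 * y + 11) = 2 + (y + 2) * 10 := by ring
          rw [this, pow_add]
          norm_num
      _ ≤ 2 ^ (2 * lev n (k' + 1)) :=
          Nat.pow_le_pow_right (by norm_num) (by omega)
      _ = 4 ^ lev n (k' + 1) := by
          rw [pow_mul]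
          norm_num
  · have h10 : ((lev n (k' + 1) : ℕ) : ℝ) ≤ 6 * (y : ℝ) + 15 := by exact_mod_cast hup
    exact h10.trans hlog

end

end Pool.Agent.SLE
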