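import Pool.Agent.Lib.MP_c17912_pr_TR.CRU

set_option autoImplicit false

open MeasureTheory ProbabilityTheory Filter
open scoped NNReal ENNReal Topology Real

namespace Pool.Agent.SLE

noncomputable section

namespace TRGRO

/-- First time at which a continuous function reaches a level. -/
theorem first_hit {f : ℝ → ℝ} {a b c : ℝ} (hab : a ≤ b) (hf : ContinuousOn f (Set.Icc a b))
    (ha : f a < c) (hb : c ≤ f b) :
    ∃ v ∈ Set.Icc a b, f v = c ∧ ∀ w ∈ Set.Icc a v, f w ≤ c := by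
  have hcl : IsClosed (Set.Icc a b ∩ f ⁻¹' Set.Ici c) :=
    hf.preimage_isClosed_of_isClosed isClosed_Icc isClosed_Ici
  have hne : (Set.Icc a b ∩ f ⁻¹' Set.Ici c).Nonempty := ⟨b, ⟨hab, le_refl b⟩, hb⟩
  have hbd : BddBelow (Set.Icc a b ∩ f ⁻¹' Set.Ici c) := ⟨a, fun x hx => hx.1.1⟩
  obtain ⟨hv1, hv2⟩ := hcl.csInf_mem hne hbd
  set v := sInf (Set.Icc a b ∩ f ⁻¹' Set.Ici c) with hv
  have hv2' : c ≤ f v := hv2
  have hlt : ∀ w ∈ Set.Icc a b, w < v → f w < c := by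
    intro w hw hwv
    by_contra hcon
    have : v ≤ w := csInf_le hbd ⟨hw, not_lt.mp hcon⟩
    linarith
  have hfv : f v = c := by
    have hsub : Set.Icc a v ⊆ Set.Icc a b := Set.Icc_subset_Icc_right hv1.2
    have hiv := intermediate_value_Icc hv1.1 (hf.mono hsub)
    obtain ⟨w, hw, hwc⟩ := hiv ⟨ha.le, hv2'⟩
    rcases lt_or_eq_of_le hw.2 with h | h
    · have := hlt w (hsub hw) h
      linarith
    · rw [← h]; exact hwc
  refine ⟨v, hv1, hfv, ?_⟩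
  intro w hw
  rcases lt_or_eq_of_le hw.2 with h | h
  · exact (hlt w ⟨hw.1, hw.2.trans hv1.2⟩ h).le
  · rw [h, hfv]

theorem contZ {U : ℝ → ℂ} (hU : Continuous U) {z : ℂ} {T : ℝ} {g : ℝ → ℂ} (hg : Sol U z T g) :
    ContinuousOn (fun u => g u - U u) (Set.Icc 0 T) := by
  refine ContinuousOn.sub ?_ hU.continuousOn
  intro u hu
  exact (hg.2.2 u hu).continuousWithinAt

theorem contK {U : ℝ → ℂ} (hU : Continuous U) {z : ℂ} {T : ℝ} {g : ℝ → ℂ} (hg : Sol U z T g) :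
    ContinuousOn (fun u => 1 / ‖g u - U u‖ ^ 2) (Set.Icc 0 T) := by
  refine ContinuousOn.div continuousOn_const ((contZ hU hg).norm.pow 2) ?_
  intro u hu
  have : g u - U u ≠ 0 := sub_ne_zero.mpr (hg.2.1 u hu)
  positivity

theorem intK {U : ℝ → ℂ} (hU : Continuous U) {z : ℂ} {T : ℝ} {g : ℝ → ℂ} (hg : Sol U z T g)
    {s t : ℝ} (hs : 0 ≤ s) (hst : s ≤ t) (htT : t ≤ T) :
    IntervalIntegrable (fun u => 1 / ‖g u - U u‖ ^ 2) volume s t := by
  refine ContinuousOn.intervalIntegrable ?_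
  rw [Set.uIcc_of_le hst]
  exact (contK hU hg).mono (Set.Icc_subset_Icc hs htT)

theorem lk_nonneg {U g : ℝ → ℂ} {s t : ℝ} (hst : s ≤ t) : 0 ≤ lk U g s t := by
  unfold lk
  refine intervalIntegral.integral_nonneg hst ?_
  intro u _
  positivity

theorem rr_pos (l : ℕ) : 0 < rr l := by unfold rr; positivity

theorem rr_le {l : ℕ} (hl : 3 ≤ l) : rr l ≤ 1 / 8 := by
  unfold rr
  calc (1 / 2 : ℝ) ^ l ≤ (1 / 2) ^ 3 := pow_le_pow_of_le_one (by norm_num) (by norm_num) hl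
    _ = 1 / 8 := by norm_num

theorem rr_sq (l : ℕ) : rr l ^ 2 * 4 ^ l = 1 := by
  unfold rr
  rw [← pow_mul, mul_comm l 2, pow_mul, ← mul_pow]
  norm_num

theorem cell_eq (r : ℝ) (l j : ℕ) (x : ℝ) :
    ((j : ℝ) * 4 ^ l + x) * (r * rr l) ^ 2 = (j : ℝ) * r ^ 2 + x * (r * rr l) ^ 2 := by
  have h := rr_sq l
  have : (j : ℝ) * 4 ^ l * (r * rr l) ^ 2 = (j : ℝ) * r ^ 2 * (rr l ^ 2 * 4 ^ l) := by ring
  rw [add_mul, this, h, mul_one]

/-- The oscillation of `Z` on a subcell. -/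
theorem claim {U : ℝ → ℂ} (hU : Continuous U) {z : ℂ} {r T ρ : ℝ} (hr : 0 < r) (hρ : 0 < ρ)
    (hρ8 : ρ ≤ 1 / 8) {g : ℝ → ℂ} (hg : Sol U z T g) {a b u₀ : ℝ} (ha : 0 ≤ a)
    (hbT : b ≤ T) (hab : b - a ≤ (r * ρ) ^ 2) (hu₀ : u₀ ∈ Set.Icc a b)
    (hZ₀ : ‖g u₀ - U u₀‖ = r)
    (hosc : ∀ u ∈ Set.Icc a b, ∀ v ∈ Set.Icc a b, ‖U u - U v‖ ≤ r / 4)
    {u : ℝ} (hu : u ∈ Set.Icc a b) :
    ‖(g u - U u) - (g u₀ - U u₀)‖ < r - r * ρ := by
  have hrρ : 0 < r * ρ := mul_pos hr hρ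
  have hsmall : r * ρ ≤ r / 8 := by nlinarith
  have hcont := contZ hU hg
  have hkey : ∀ s t : ℝ, s ∈ Set.Icc a b → t ∈ Set.Icc a b → s ≤ t →
      (∀ w ∈ Set.Icc s t, r * ρ ≤ ‖g w - U w‖) →
      ‖(g t - U t) - (g s - U s)‖ ≤ r / 2 := by
    intro s t hs ht hst hw
    have h1 := cr_move hrρ hg (ha.trans hs.1) hst (ht.2.trans hbT) hw
    have h2 : 2 / (r * ρ) * (t - s) ≤ 2 * (r * ρ) := by
      rw [div_mul_eq_mul_div, div_le_iff₀ hrρ]
      have : t - s ≤ (r * ρ) ^ 2 := by linarith [hs.1, ht.2]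
      nlinarith
    have h3 := hosc t ht s hs
    linarith
  have hlow : ∀ w : ℝ, ‖(g w - U w) - (g u₀ - U u₀)‖ ≤ r - r * ρ → r * ρ ≤ ‖g w - U w‖ := by
    intro w hw
    have h1 : ‖g u₀ - U u₀‖ ≤ ‖g w - U w‖ + ‖(g w - U w) - (g u₀ - U u₀)‖ := by
      have : g u₀ - U u₀ = (g w - U w) - ((g w - U w) - (g u₀ - U u₀)) := by ring
      calc ‖g u₀ - U u₀‖ = ‖(g w - U w) - ((g w - U w) - (g u₀ - U u₀))‖ := by rw [← this]
        _ ≤ _ := norm_sub_le _ _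
    linarith
  by_contra hcon
  have hcon' : r - r * ρ ≤ ‖(g u - U u) - (g u₀ - U u₀)‖ := not_lt.mp hcon
  have hpos : (0 : ℝ) < r - r * ρ := by linarith
  rcases le_total u₀ u with h | h
  · obtain ⟨v, hv, hv1, hv2⟩ := first_hit (f := fun w => ‖(g w - U w) - (g u₀ - U u₀)‖)
      (c := r - r * ρ) h
      (((hcont.mono (Set.Icc_subset_Icc (ha.trans hu₀.1) (hu.2.trans hbT))).sub
        continuousOn_const).norm) (by simpa using hpos) hcon'
    have hv1' : ‖(g v - U v) - (g u₀ - U u₀)‖ = r - r * ρ := hv1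
    have := hkey u₀ v hu₀ ⟨hu₀.1.trans hv.1, hv.2.trans hu.2⟩ hv.1
      (fun w hw => hlow w (hv2 w hw))
    linarith
  · have hc2 : ContinuousOn (fun w => ‖(g (u₀ - w) - U (u₀ - w)) - (g u₀ - U u₀)‖)
        (Set.Icc 0 (u₀ - u)) := by
      have hmap : Set.MapsTo (fun w : ℝ => u₀ - w) (Set.Icc 0 (u₀ - u)) (Set.Icc 0 T) := by
        intro w hw
        refine ⟨?_, ?_⟩
        · have : u ≤ u₀ - w := by linarith [hw.2]
          linarith [hu.1]
        · have : u₀ - w ≤ u₀ := by linarith [hw.1]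
          linarith [hu₀.2]
      have h1 : ContinuousOn (fun w : ℝ => g (u₀ - w) - U (u₀ - w)) (Set.Icc 0 (u₀ - u)) :=
        hcont.comp (continuousOn_const.sub continuousOn_id) hmap
      exact (h1.sub continuousOn_const).norm
    obtain ⟨v, hv, hv1, hv2⟩ := first_hit
      (f := fun w => ‖(g (u₀ - w) - U (u₀ - w)) - (g u₀ - U u₀)‖) (a := 0) (b := u₀ - u)
      (c := r - r * ρ)
      (by linarith) hc2 (by simpa using hpos) (by simpa using hcon')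
    have hv1' : ‖(g (u₀ - v) - U (u₀ - v)) - (g u₀ - U u₀)‖ = r - r * ρ := hv1
    have hmem : u₀ - v ∈ Set.Icc a b := ⟨by linarith [hv.2, hu.1], by linarith [hv.1, hu₀.2]⟩
    have := hkey (u₀ - v) u₀ hmem hu₀ (by linarith [hv.1]) (fun w hw => hlow w (by
      have := hv2 (u₀ - w) ⟨by linarith [hw.2], by linarith [hw.1]⟩
      simpa using this))
    rw [norm_sub_rev] at this
    linarith

/-- The last time at which the solution is at distance at most `r`. -/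
theorem last_low {U : ℝ → ℂ} (hU : Continuous U) {z : ℂ} {r T s t : ℝ} {g : ℝ → ℂ}
    (hg : Sol U z T g) (hs : 0 ≤ s) (ht : t ≤ T) (hlow : ∃ u ∈ Set.Icc s t, ‖g u - U u‖ ≤ r)
    (hend : r < ‖g t - U t‖) : ∃ u ∈ Set.Ico s t, ‖g u - U u‖ = r := by
  obtain ⟨u, hu, hur⟩ := hlow
  have hcont := (contZ hU hg).norm
  have hiv := intermediate_value_Icc hu.2
    (hcont.mono (Set.Icc_subset_Icc (hs.trans hu.1) ht))
  obtain ⟨w, hw, hwr⟩ := hiv ⟨hur, hend.le⟩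
  have hwr' : ‖g w - U w‖ = r := hwr
  refine ⟨w, ⟨hu.1.trans hw.1, lt_of_le_of_ne hw.2 ?_⟩, hwr'⟩
  intro h
  rw [h] at hwr'
  linarith

/-- Sums over a product range. -/
theorem sum_range_mul (F : ℕ → ℝ) (M K : ℕ) :
    ∑ m ∈ Finset.range (M * K), F m =
      ∑ j ∈ Finset.range M, ∑ i ∈ Finset.range K, F (j * K + i) := by
  induction M with
  | zero => simp
  | succ M ih =>
    rw [Finset.sum_range_succ, ← ih, Nat.succ_mul, Finset.sum_range_add]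

end TRGRO

open TRGRO

/-- TR-GRO1. A transition contributes to the clock of the next level: if the cell `[s,s+r²]`
(`s = j r²`) contains a time with `|Z| ≤ r` and `|Z| > r` at its right end point, and the path
oscillates by at most `r / 4` on its `4^l` subcells, then one of the subcells has `|Z| > r 2^(-l)`
throughout and clock at least `1 / (4 * 4^l)`.

Proof. By continuity there is a last time `u₀` in the cell with `|Z| ≤ r`; `|Z_{u₀}| = r`. Let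
`I ∋ u₀` be a subcell (length `r² ρ²`, `ρ = 2^(-l) ≤ 1/8`). Claim: `|Z_u - Z_{u₀}| < r - r ρ` for
all `u ∈ I`, hence `r ρ < |Z_u| ≤ 2 r`. If not, take the first such time after (the last before)
`u₀`: between, `|Z| ≥ r ρ`, so `cr_move` gives `|Z_u - Z_{u₀}| ≤ 2 / (r ρ) * r² ρ² + r / 4
= 2 r ρ + r / 4 ≤ r / 2 < 7 / 8 r ≤ r - r ρ`, a contradiction. The clock of `I` is at least
`r² ρ² / (2 r)^2 = 1 / (4 * 4^l)`. -/
theorem gr_sub {U : ℝ → ℂ} (hU : Continuous U) {z : ℂ} {r T : ℝ} (hr : 0 < r) {l j : ℕ}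
    (hl : 3 ≤ l) {g : ℝ → ℂ} (hg : Sol U z T g) (hT : ((j : ℝ) + 1) * r ^ 2 ≤ T)
    (hlow : low U g r j) (hend : r < ‖g (((j : ℝ) + 1) * r ^ 2) - U (((j : ℝ) + 1) * r ^ 2)‖)
    (hosc : ∀ i < 4 ^ l, ∀ u ∈ Set.Icc (((j * 4 ^ l + i : ℕ) : ℝ) * (r * rr l) ^ 2)
        ((((j * 4 ^ l + i : ℕ) : ℝ) + 1) * (r * rr l) ^ 2),
      ∀ v ∈ Set.Icc (((j * 4 ^ l + i : ℕ) : ℝ) * (r * rr l) ^ 2)
        ((((j * 4 ^ l + i : ℕ) : ℝ) + 1) * (r * rr l) ^ 2), ‖U u - U v‖ ≤ r / 4) :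
    ∃ i < 4 ^ l, ¬ low U g (r * rr l) (j * 4 ^ l + i) ∧
      1 / (4 * 4 ^ l) ≤ lk U g (((j * 4 ^ l + i : ℕ) : ℝ) * (r * rr l) ^ 2)
        ((((j * 4 ^ l + i : ℕ) : ℝ) + 1) * (r * rr l) ^ 2) := by
  have hρ := rr_pos l
  have hρ8 := rr_le hl
  have hsq := rr_sq l
  set ρ := rr l with hρdef
  have hrρ : 0 < r * ρ := mul_pos hr hρ
  have hh : 0 < (r * ρ) ^ 2 := by positivity
  have hj0 : (0 : ℝ) ≤ (j : ℝ) * r ^ 2 := by positivity
  obtain ⟨u₀, hu₀, hZ₀⟩ := last_low hU hg hj0 hT hlow hend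
  set x : ℝ := (u₀ - (j : ℝ) * r ^ 2) / (r * ρ) ^ 2 with hx
  have hx0 : 0 ≤ x := div_nonneg (by linarith [hu₀.1]) hh.le
  have h4r : (4 : ℝ) ^ l * (r * ρ) ^ 2 = r ^ 2 := by
    have : (4 : ℝ) ^ l * (r * ρ) ^ 2 = r ^ 2 * (ρ ^ 2 * 4 ^ l) := by ring
    rw [this, hsq, mul_one]
  have hx1 : x < 4 ^ l := by
    rw [hx, div_lt_iff₀ hh, h4r]
    have := hu₀.2
    linarith
  have hxu : u₀ = (j : ℝ) * r ^ 2 + x * (r * ρ) ^ 2 := by
    rw [hx, div_mul_cancel₀ _ hh.ne']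
    ring
  set i : ℕ := ⌊x⌋₊ with hi
  have hi1 : (i : ℝ) ≤ x := Nat.floor_le hx0
  have hi2 : x < (i : ℝ) + 1 := Nat.lt_floor_add_one x
  have hi4 : i < 4 ^ l := by
    have : (i : ℝ) < ((4 ^ l : ℕ) : ℝ) := by push_cast; linarith
    exact_mod_cast this
  have hi4' : (i : ℝ) + 1 ≤ 4 ^ l := by
    have : i + 1 ≤ 4 ^ l := hi4
    exact_mod_cast this
  have ha : ((j * 4 ^ l + i : ℕ) : ℝ) * (r * ρ) ^ 2 = (j : ℝ) * r ^ 2 + i * (r * ρ) ^ 2 := by
    have := cell_eq r l j (i : ℝ)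
    push_cast
    exact this
  have hb : (((j * 4 ^ l + i : ℕ) : ℝ) + 1) * (r * ρ) ^ 2 =
      (j : ℝ) * r ^ 2 + ((i : ℝ) + 1) * (r * ρ) ^ 2 := by
    have := cell_eq r l j ((i : ℝ) + 1)
    push_cast
    rw [add_assoc]
    exact this
  have hab : (j : ℝ) * r ^ 2 + i * (r * ρ) ^ 2 ≤
      (j : ℝ) * r ^ 2 + ((i : ℝ) + 1) * (r * ρ) ^ 2 := by nlinarith
  have ha0 : (0 : ℝ) ≤ (j : ℝ) * r ^ 2 + i * (r * ρ) ^ 2 := by positivity
  have hbT : (j : ℝ) * r ^ 2 + ((i : ℝ) + 1) * (r * ρ) ^ 2 ≤ T := by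
    have : ((i : ℝ) + 1) * (r * ρ) ^ 2 ≤ 4 ^ l * (r * ρ) ^ 2 :=
      mul_le_mul_of_nonneg_right hi4' hh.le
    rw [h4r] at this
    linarith
  have hmem : u₀ ∈ Set.Icc ((j : ℝ) * r ^ 2 + i * (r * ρ) ^ 2)
      ((j : ℝ) * r ^ 2 + ((i : ℝ) + 1) * (r * ρ) ^ 2) := by
    constructor
    · rw [hxu]
      have := mul_le_mul_of_nonneg_right hi1 hh.le
      linarith
    · have h1 := mul_le_mul_of_nonneg_right hi2.le hh.le
      linarith [hxu.le]
  have hosc' := hosc i hi4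
  rw [ha, hb] at hosc'
  have hcl : ∀ u ∈ Set.Icc ((j : ℝ) * r ^ 2 + i * (r * ρ) ^ 2)
      ((j : ℝ) * r ^ 2 + ((i : ℝ) + 1) * (r * ρ) ^ 2),
      ‖(g u - U u) - (g u₀ - U u₀)‖ < r - r * ρ := fun u hu =>
    claim hU hr hρ hρ8 hg ha0 hbT (by linarith) hmem hZ₀ hosc' hu
  have hlo : ∀ u ∈ Set.Icc ((j : ℝ) * r ^ 2 + i * (r * ρ) ^ 2)
      ((j : ℝ) * r ^ 2 + ((i : ℝ) + 1) * (r * ρ) ^ 2), r * ρ < ‖g u - U u‖ := by
    intro u hu
    have h1 : ‖g u₀ - U u₀‖ ≤ ‖g u - U u‖ + ‖(g u - U u) - (g u₀ - U u₀)‖ := by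
      have : g u₀ - U u₀ = (g u - U u) - ((g u - U u) - (g u₀ - U u₀)) := by ring
      calc ‖g u₀ - U u₀‖ = ‖(g u - U u) - ((g u - U u) - (g u₀ - U u₀))‖ := by rw [← this]
        _ ≤ _ := norm_sub_le _ _
    linarith [hcl u hu]
  have hup : ∀ u ∈ Set.Icc ((j : ℝ) * r ^ 2 + i * (r * ρ) ^ 2)
      ((j : ℝ) * r ^ 2 + ((i : ℝ) + 1) * (r * ρ) ^ 2), ‖g u - U u‖ ≤ 2 * r := by
    intro u hu
    have h1 : ‖g u - U u‖ ≤ ‖(g u - U u) - (g u₀ - U u₀)‖ + ‖g u₀ - U u₀‖ := by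
      have : g u - U u = ((g u - U u) - (g u₀ - U u₀)) + (g u₀ - U u₀) := by ring
      calc ‖g u - U u‖ = ‖((g u - U u) - (g u₀ - U u₀)) + (g u₀ - U u₀)‖ := by rw [← this]
        _ ≤ _ := norm_add_le _ _
    linarith [hcl u hu]
  refine ⟨i, hi4, ?_, ?_⟩
  · rintro ⟨u, hu, hur⟩
    rw [ha, hb] at hu
    linarith [hlo u hu]
  · rw [ha, hb]
    unfold lk
    have hint := intK hU hg ha0 hab hbT
    have hconst : ∫ _u in ((j : ℝ) * r ^ 2 + i * (r * ρ) ^ 2)..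
        ((j : ℝ) * r ^ 2 + ((i : ℝ) + 1) * (r * ρ) ^ 2), 1 / (2 * r) ^ 2 = 1 / (4 * 4 ^ l) := by
      rw [intervalIntegral.integral_const, smul_eq_mul]
      have h4 : (0 : ℝ) < 4 ^ l := by positivity
      have hr0 := hr.ne'
      have hρ2 : ρ ^ 2 = 1 / 4 ^ l := by
        rw [eq_div_iff h4.ne']; exact hsq
      have : (j : ℝ) * r ^ 2 + ((i : ℝ) + 1) * (r * ρ) ^ 2 -
          ((j : ℝ) * r ^ 2 + i * (r * ρ) ^ 2) = r ^ 2 * ρ ^ 2 := by ring
      rw [this, hρ2]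
      field_simp
      norm_num
    rw [← hconst]
    refine intervalIntegral.integral_mono_on hab (by simp) hint ?_
    intro u hu
    have h1 := hlo u hu
    have h2 := hup u hu
    have h3 : 0 < ‖g u - U u‖ := hrρ.trans h1
    exact one_div_le_one_div_of_le (by positivity) (pow_le_pow_left₀ h3.le h2 2)

open Classical in
/-- TR-GRO2. Growth of the clock from one level to the next.

Proof. The `M * 4^l` cells of the finer mesh are the `j * 4^l + i`, `j < M`, `i < 4^l`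
(`Finset.sum` over `range (M * 4^l)` as a double sum, `Finset.sum_range_succ_mul_comm`-type or
`Finset.range_mul`/`Nat.sum_div_mod`...). If the cell `j` is not low at scale `r`, all its
subcells are not low at scale `r * rr l`, and their clocks add up to the clock of the cell
`j`. If the cell `j` is low, the contribution is nonnegative, and at least `1 / (4 * 4^l)` if
`tr U g r j`, `j + 1 < M` and `good j` (`gr_sub`; the cell `j+1` is not low, so `|Z| > r` at its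
left end point). -/
theorem grow_step {U : ℝ → ℂ} (hU : Continuous U) {z : ℂ} {r : ℝ} (hr : 0 < r) {l M : ℕ}
    (hl : 3 ≤ l) {g : ℝ → ℂ} (hg : Sol U z (M * r ^ 2) g) (good : ℕ → Prop)
    (hgood : ∀ j, good j → ∀ i < 4 ^ l,
      ∀ u ∈ Set.Icc (((j * 4 ^ l + i : ℕ) : ℝ) * (r * rr l) ^ 2)
        ((((j * 4 ^ l + i : ℕ) : ℝ) + 1) * (r * rr l) ^ 2),
      ∀ v ∈ Set.Icc (((j * 4 ^ l + i : ℕ) : ℝ) * (r * rr l) ^ 2)
        ((((j * 4 ^ l + i : ℕ) : ℝ) + 1) * (r * rr l) ^ 2), ‖U u - U v‖ ≤ r / 4) :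
    XX U g r M + 1 / (4 * 4 ^ l) *
        ((Finset.range (M - 1)).filter fun j => tr U g r j ∧ good j).card ≤
      XX U g (r * rr l) (M * 4 ^ l) := by
  have hρ := rr_pos l
  have hρ8 := rr_le hl
  have hsq := rr_sq l
  have hrρ : 0 < r * rr l := mul_pos hr hρ
  have hh : 0 < (r * rr l) ^ 2 := by positivity
  have h4r : (4 : ℝ) ^ l * (r * rr l) ^ 2 = r ^ 2 := by
    have : (4 : ℝ) ^ l * (r * rr l) ^ 2 = r ^ 2 * (rr l ^ 2 * 4 ^ l) := by ring
    rw [this, hsq, mul_one]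
  have hcast : ((4 ^ l : ℕ) : ℝ) = 4 ^ l := by push_cast; ring
  have hfil : (((Finset.range (M - 1)).filter fun j => tr U g r j ∧ good j).card : ℝ) =
      ∑ j ∈ Finset.range M, if (j < M - 1 ∧ tr U g r j ∧ good j) then (1 : ℝ) else 0 := by
    rw [← Finset.sum_filter, Finset.sum_const, nsmul_eq_mul, mul_one]
    congr 2
    ext j
    simp only [Finset.mem_filter, Finset.mem_range]
    constructor
    · rintro ⟨h1, h2⟩
      exact ⟨by omega, h1, h2⟩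
    · rintro ⟨_, h1, h2⟩
      exact ⟨h1, h2⟩
  rw [hfil]
  unfold XX
  rw [sum_range_mul, Finset.mul_sum, ← Finset.sum_add_distrib]
  refine Finset.sum_le_sum ?_
  intro j hj
  rw [Finset.mem_range] at hj
  have hjM : ((j : ℝ) + 1) ≤ M := by exact_mod_cast hj
  have hjT : ((j : ℝ) + 1) * r ^ 2 ≤ (M : ℝ) * r ^ 2 :=
    mul_le_mul_of_nonneg_right hjM (by positivity)
  have hcell : ∀ i : ℕ, ((j * 4 ^ l + i : ℕ) : ℝ) * (r * rr l) ^ 2 =
      (j : ℝ) * r ^ 2 + i * (r * rr l) ^ 2 := by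
    intro i
    have := cell_eq r l j (i : ℝ)
    push_cast
    exact this
  have hcell' : ∀ i : ℕ, (((j * 4 ^ l + i : ℕ) : ℝ) + 1) * (r * rr l) ^ 2 =
      (j : ℝ) * r ^ 2 + ((i + 1 : ℕ) : ℝ) * (r * rr l) ^ 2 := by
    intro i
    have := cell_eq r l j ((i : ℝ) + 1)
    push_cast
    rw [add_assoc]
    exact this
  have hnn : ∀ i ∈ Finset.range (4 ^ l),
      0 ≤ (if low U g (r * rr l) (j * 4 ^ l + i) then (0 : ℝ) else
        lk U g (((j * 4 ^ l + i : ℕ) : ℝ) * (r * rr l) ^ 2)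
          ((((j * 4 ^ l + i : ℕ) : ℝ) + 1) * (r * rr l) ^ 2)) := by
    intro i _
    split_ifs
    · exact le_refl 0
    · refine lk_nonneg ?_
      nlinarith
  by_cases hlow : low U g r j
  · rw [if_pos hlow, zero_add]
    by_cases hf : j < M - 1 ∧ tr U g r j ∧ good j
    · rw [if_pos hf, mul_one]
      obtain ⟨h1, h2, h3⟩ := hf
      have hend : r < ‖g (((j : ℝ) + 1) * r ^ 2) - U (((j : ℝ) + 1) * r ^ 2)‖ := by
        by_contra hcon
        refine h2.2 ⟨((j : ℝ) + 1) * r ^ 2, ⟨?_, ?_⟩, not_lt.mp hcon⟩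
        · push_cast
          exact le_refl _
        · push_cast
          nlinarith [sq_nonneg r]
      obtain ⟨i, hi, hi1, hi2⟩ := gr_sub hU hr hl hg hjT hlow hend (hgood j h3)
      refine le_trans ?_ (Finset.single_le_sum hnn (Finset.mem_range.mpr hi))
      rw [if_neg hi1]
      exact hi2
    · rw [if_neg hf, mul_zero]
      exact Finset.sum_nonneg hnn
  · rw [if_neg hlow]
    have hf : ¬ (j < M - 1 ∧ tr U g r j ∧ good j) := fun h => hlow h.2.1.1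
    rw [if_neg hf, mul_zero, add_zero]
    have hsub : ∀ i ∈ Finset.range (4 ^ l), ¬ low U g (r * rr l) (j * 4 ^ l + i) := by
      rintro i hi ⟨u, hu, hur⟩
      rw [Finset.mem_range] at hi
      refine hlow ⟨u, ⟨?_, ?_⟩, ?_⟩
      · have := hu.1
        rw [hcell] at this
        have h0 : (0 : ℝ) ≤ i * (r * rr l) ^ 2 := by positivity
        linarith
      · have := hu.2
        rw [hcell'] at this
        have h0 : ((i + 1 : ℕ) : ℝ) * (r * rr l) ^ 2 ≤ 4 ^ l * (r * rr l) ^ 2 := by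
          refine mul_le_mul_of_nonneg_right ?_ hh.le
          have : i + 1 ≤ 4 ^ l := hi
          exact_mod_cast this
        rw [h4r] at h0
        linarith
      · have : r * rr l ≤ r := by nlinarith
        linarith
    have heq : ∑ i ∈ Finset.range (4 ^ l), (if low U g (r * rr l) (j * 4 ^ l + i) then (0 : ℝ)
        else lk U g (((j * 4 ^ l + i : ℕ) : ℝ) * (r * rr l) ^ 2)
          ((((j * 4 ^ l + i : ℕ) : ℝ) + 1) * (r * rr l) ^ 2)) =
        ∑ i ∈ Finset.range (4 ^ l), ∫ u in ((j : ℝ) * r ^ 2 + (i : ℝ) * (r * rr l) ^ 2)..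
          ((j : ℝ) * r ^ 2 + ((i + 1 : ℕ) : ℝ) * (r * rr l) ^ 2), 1 / ‖g u - U u‖ ^ 2 := by
      refine Finset.sum_congr rfl ?_
      intro i hi
      rw [if_neg (hsub i hi), hcell, hcell']
      rfl
    rw [heq]
    have hadj := intervalIntegral.sum_integral_adjacent_intervals
      (f := fun u => 1 / ‖g u - U u‖ ^ 2) (μ := volume)
      (a := fun i : ℕ => (j : ℝ) * r ^ 2 + (i : ℝ) * (r * rr l) ^ 2) (n := 4 ^ l) (by
        intro i hi
        refine intK hU hg ?_ ?_ ?_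
        · positivity
        · have : (i : ℝ) ≤ ((i + 1 : ℕ) : ℝ) := by push_cast; linarith
          nlinarith
        · have h0 : ((i + 1 : ℕ) : ℝ) * (r * rr l) ^ 2 ≤ 4 ^ l * (r * rr l) ^ 2 := by
            refine mul_le_mul_of_nonneg_right ?_ hh.le
            have : i + 1 ≤ 4 ^ l := hi
            exact_mod_cast this
          rw [h4r] at h0
          linarith)
    rw [hadj]
    unfold lk
    have e1 : (j : ℝ) * r ^ 2 + ((0 : ℕ) : ℝ) * (r * rr l) ^ 2 = (j : ℝ) * r ^ 2 := by simp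
    have e2 : (j : ℝ) * r ^ 2 + ((4 ^ l : ℕ) : ℝ) * (r * rr l) ^ 2 = ((j : ℝ) + 1) * r ^ 2 := by
      rw [hcast, h4r]; ring
    rw [e1, e2]

end

end Pool.Agent.SLE
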