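import Pool.Agent.Lib.MP_c17912_pr_TR.CRU
import Pool.Agent.Lib.MP_c17912_pr.Flow

set_option autoImplicit false

open MeasureTheory ProbabilityTheory Filter
open scoped NNReal ENNReal Topology Real

namespace Pool.Agent.SLE

noncomputable section

open Classical in
/-- TR-SLO1. The number of low cells.

Proof. A maximal run of low cells has less than `D` elements. Every low cell `j < T` is in a
maximal run which ends with a transition or at `T - 1`; map `j` to the end `e ≥ j` of its run;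
`e - j < D`. The number of possible ends is at most `NN + 1`. -/
theorem card_low (P : ℕ → Prop) {T D : ℕ} (hD : ∀ s, s + D ≤ T → ∃ i < D, ¬ P (s + i)) :
    ((Finset.range T).filter P).card ≤
      (((Finset.range (T - 1)).filter fun j => P j ∧ ¬ P (j + 1)).card + 1) * D := by
  set E : Finset ℕ := insert (T - 1) ((Finset.range (T - 1)).filter fun j => P j ∧ ¬ P (j + 1))
    with hE
  have hsub : (Finset.range T).filter P ⊆ E.biUnion fun e => Finset.Icc (e + 1 - D) e := by
    intro j hj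
    rw [Finset.mem_filter, Finset.mem_range] at hj
    obtain ⟨hjT, hPj⟩ := hj
    rw [Finset.mem_biUnion]
    by_cases hex : ∃ i, j + i < T ∧ ¬ P (j + i)
    · have hspec := Nat.find_spec hex
      have hmin : ∀ k < Nat.find hex, j + k < T → P (j + k) := fun k hk hk2 => by
        by_contra hcon
        exact Nat.find_min hex hk ⟨hk2, hcon⟩
      set i := Nat.find hex with hi
      have hi0 : i ≠ 0 := by
        intro h0
        rw [h0] at hspec
        exact hspec.2 hPj
      have hiD : j + i < j + D := by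
        by_cases hjD : j + D ≤ T
        · obtain ⟨k, hk, hk2⟩ := hD j hjD
          have : i ≤ k := Nat.find_min' hex ⟨by omega, hk2⟩
          omega
        · omega
      refine ⟨j + i - 1, ?_, ?_⟩
      · rw [hE, Finset.mem_insert, Finset.mem_filter, Finset.mem_range]
        refine Or.inr ⟨by omega, ?_, ?_⟩
        · have := hmin (i - 1) (by omega) (by omega)
          have e : j + i - 1 = j + (i - 1) := by omega
          rw [e]
          exact this
        · have e : j + i - 1 + 1 = j + i := by omega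
          rw [e]
          exact hspec.2
      · rw [Finset.mem_Icc]
        omega
    · refine ⟨T - 1, Finset.mem_insert_self _ _, ?_⟩
      have hjD : ¬ j + D ≤ T := by
        intro hjD
        obtain ⟨k, hk, hk2⟩ := hD j hjD
        exact hex ⟨k, by omega, hk2⟩
      rw [Finset.mem_Icc]
      omega
  refine (Finset.card_le_card hsub).trans ?_
  refine (Finset.card_biUnion_le_card_mul _ _ D fun e _ => ?_).trans ?_
  · rw [Nat.card_Icc]
    omega
  · exact Nat.mul_le_mul_right D (Finset.card_insert_le _ _)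

/-- The contribution of one cell which is not low is nonnegative. -/
private theorem SLO_nonneg {U g : ℝ → ℂ} (j : ℕ) :
    0 ≤ lk U g ((j : ℝ) * 1 ^ 2) (((j : ℝ) + 1) * 1 ^ 2) := by
  unfold lk
  refine intervalIntegral.integral_nonneg (by nlinarith) fun u _ => by positivity

/-- The contribution of one cell. -/
private theorem SLO_cell {U : ℝ → ℂ} (hU : Continuous U) {z : ℂ} {g : ℝ → ℂ} {T i : ℕ} {B : ℝ}
    (hi : i + 1 ≤ T) (hg : Sol U z T g)
    (hb : ∀ u ∈ Set.Icc (i : ℝ) (i + 1), ‖g u - U u‖ ≤ B) :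
    1 / B ^ 2 ≤ lk U g ((i : ℝ) * 1 ^ 2) (((i : ℝ) + 1) * 1 ^ 2) := by
  have hiT : (i : ℝ) + 1 ≤ T := by exact_mod_cast hi
  have hsubset : Set.Icc (i : ℝ) (i + 1) ⊆ Set.Icc 0 (T : ℝ) := fun u hu =>
    ⟨(Nat.cast_nonneg i).trans hu.1, hu.2.trans hiT⟩
  have hc : ContinuousOn (fun s => g s - U s) (Set.Icc (i : ℝ) (i + 1)) :=
    (ContinuousOn.sub (fun s hs' => (hg.2.2 s hs').continuousWithinAt)
      hU.continuousOn).mono hsubset
  have hc2 : ContinuousOn (fun u => 1 / ‖g u - U u‖ ^ 2) (Set.Icc (i : ℝ) (i + 1)) := by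
    refine continuousOn_const.div (hc.norm.pow 2) fun u hu => ?_
    have : g u - U u ≠ 0 := sub_ne_zero.2 (hg.2.1 u (hsubset hu))
    positivity
  unfold lk
  simp only [one_pow, mul_one]
  have hle : (i : ℝ) ≤ i + 1 := by linarith
  have h1 : ∫ _ in (i : ℝ)..(i + 1), (1 / B ^ 2 : ℝ) = 1 / B ^ 2 := by
    rw [intervalIntegral.integral_const]
    simp
  rw [← h1]
  refine intervalIntegral.integral_mono_on hle (by simp) ?_ fun u hu => ?_
  · rw [← Set.uIcc_of_le hle] at hc2
    exact hc2.intervalIntegrable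
  · have : g u - U u ≠ 0 := sub_ne_zero.2 (hg.2.1 u (hsubset hu))
    have hpos : 0 < ‖g u - U u‖ := by positivity
    have := hb u hu
    gcongr

/-- TR-SLO2. The start for a long solution.

Proof. For `j₀ ≤ j < n` the cells `4^j ≤ i < 4^(j+1)` are in `[0,T]`; there are `3 * 4^j` of them
and at most `4^j₀ ≤ 4^j` are low (`card_low`), so at least `4^j` are not low. For `u ≤ 4^(j+1)`:
`|Z_u| ≤ ‖z‖ + 3 y 2^(j+1) + 5 * 2^(j+1) ≤ 17 y 2^j` (`cr_upper` on `[0, 4^(j+1)]`), so such
a cell contributes at least `1 / (289 y^2 4^j)` to `XX`. Sum over `j`. -/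
theorem start_long {U : ℝ → ℂ} (hU : Continuous U) {z : ℂ} {g : ℝ → ℂ} {n T D j₀ : ℕ} {y : ℝ}
    (hT : 4 ^ n ≤ T) (hg : Sol U z T g) (hz : ‖z‖ ≤ 1) (hy : 1 ≤ y)
    (hw : ∀ j ≤ n, ∀ u ∈ Set.Icc (0 : ℝ) (4 ^ j), ‖U u‖ ≤ y * 2 ^ j)
    (hno : ∀ s, s + D ≤ T → ¬ rider U g 1 s D)
    (hj₀ : (NN U g 1 T + 1) * D ≤ 4 ^ j₀) :
    ((n : ℝ) - j₀) / (289 * y ^ 2) ≤ XX U g 1 T := by
  classical
  have hy0 : 0 < y := by linarith
  -- terms
  set f : ℕ → ℝ := fun j =>
    if low U g 1 j then 0 else lk U g ((j : ℝ) * 1 ^ 2) (((j : ℝ) + 1) * 1 ^ 2) with hf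
  have hf0 : ∀ j, 0 ≤ f j := by
    intro j
    rw [hf]
    dsimp only
    split_ifs
    · exact le_rfl
    · exact SLO_nonneg j
  have hXX : XX U g 1 T = ∑ j ∈ Finset.range T, f j := by
    unfold XX
    refine Finset.sum_congr rfl fun j _ => ?_
    rw [hf]
  rw [hXX]
  rcases Nat.lt_or_ge j₀ n with hjn | hjn
  swap
  · have h1 : (n : ℝ) - j₀ ≤ 0 := by
      have : (n : ℝ) ≤ j₀ := by exact_mod_cast hjn
      linarith
    have h2 : ((n : ℝ) - j₀) / (289 * y ^ 2) ≤ 0 :=
      div_nonpos_of_nonpos_of_nonneg h1 (by positivity)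
    exact h2.trans (Finset.sum_nonneg fun j _ => hf0 j)
  -- number of the low cells
  have hlow : ((Finset.range T).filter fun j => low U g 1 j).card ≤ 4 ^ j₀ := by
    have h1 := card_low (fun j => low U g 1 j) (T := T) (D := D) (fun s hs => by
      have := hno s hs
      unfold rider at this
      push Not at this
      exact this)
    refine le_trans ?_ (le_trans h1 (le_trans ?_ hj₀))
    · refine le_of_eq ?_
      congr
    · refine le_of_eq ?_
      unfold NN tr
      congr
  -- the blocks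
  have hblock : ∀ j ∈ Finset.Ico j₀ n,
      1 / (289 * y ^ 2) ≤ ∑ i ∈ Finset.Ico (4 ^ j) (4 ^ (j + 1)), f i := by
    intro j hj
    rw [Finset.mem_Ico] at hj
    have h4 : (4 : ℕ) ^ (j + 1) ≤ T := (Nat.pow_le_pow_right (by norm_num) hj.2).trans hT
    have hup : ∀ u ∈ Set.Icc (0 : ℝ) (4 ^ (j + 1)), ‖g u - U u‖ ≤ 17 * y * 2 ^ j := by
      intro u hu
      have h4' : (4 : ℝ) ^ (j + 1) ≤ (T : ℝ) := by exact_mod_cast h4
      have h1 := cr_upper hU (t := (4 : ℝ) ^ (j + 1)) (by positivity)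
        (Sol.restrict hg h4') (hw (j + 1) hj.2) u hu
      have hs : √((4 : ℝ) ^ (j + 1)) = 2 ^ (j + 1) := by
        rw [show (4 : ℝ) ^ (j + 1) = (2 ^ (j + 1)) ^ 2 by
          rw [← pow_mul, mul_comm, pow_mul]; norm_num]
        exact Real.sqrt_sq (by positivity)
      rw [hs] at h1
      have h2 : (1 : ℝ) ≤ 2 ^ j := one_le_pow₀ (by norm_num)
      have h3 : (2 : ℝ) ^ (j + 1) = 2 * 2 ^ j := by rw [pow_succ]; ring
      rw [h3] at h1
      have h5 : (1 : ℝ) ≤ y * 2 ^ j := by nlinarith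
      have h6 : (2 : ℝ) ^ j ≤ y * 2 ^ j := by nlinarith
      nlinarith
    set S : Finset ℕ := (Finset.Ico (4 ^ j) (4 ^ (j + 1))).filter fun i => ¬ low U g 1 i with hS
    have hcard : 4 ^ j ≤ S.card := by
      have h1 : ((Finset.Ico (4 ^ j) (4 ^ (j + 1))).filter fun i => low U g 1 i).card ≤ 4 ^ j := by
        refine le_trans (Finset.card_le_card ?_)
          (hlow.trans (Nat.pow_le_pow_right (by norm_num) hj.1))
        intro i hi
        rw [Finset.mem_filter, Finset.mem_Ico] at hi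
        rw [Finset.mem_filter, Finset.mem_range]
        exact ⟨by omega, hi.2⟩
      have h2 := Finset.card_filter_add_card_filter_not (s := Finset.Ico (4 ^ j) (4 ^ (j + 1)))
        (fun i => low U g 1 i)
      rw [Nat.card_Ico, pow_succ] at h2
      rw [pow_succ] at h1
      rw [hS, pow_succ]
      omega
    have hsum : ∑ i ∈ S, (1 / (17 * y * 2 ^ j) ^ 2 : ℝ) ≤
        ∑ i ∈ Finset.Ico (4 ^ j) (4 ^ (j + 1)), f i := by
      refine le_trans (Finset.sum_le_sum (g := f) fun i hi => ?_)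
        (Finset.sum_le_sum_of_subset_of_nonneg (Finset.filter_subset _ _) fun i _ _ => hf0 i)
      rw [hS, Finset.mem_filter, Finset.mem_Ico] at hi
      rw [hf]
      dsimp only
      rw [if_neg hi.2]
      refine SLO_cell hU (by omega) hg fun u hu => hup u ?_
      have h5 : (i : ℝ) + 1 ≤ 4 ^ (j + 1) := by exact_mod_cast (show i + 1 ≤ 4 ^ (j + 1) by omega)
      exact ⟨(Nat.cast_nonneg i).trans hu.1, hu.2.trans h5⟩
    refine le_trans ?_ hsum
    rw [Finset.sum_const, nsmul_eq_mul]
    have h6 : (4 : ℝ) ^ j ≤ S.card := by exact_mod_cast hcard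
    have h7 : (17 * y * 2 ^ j : ℝ) ^ 2 = 289 * y ^ 2 * 4 ^ j := by
      rw [mul_pow, mul_pow, ← pow_mul, mul_comm j 2, pow_mul]
      norm_num
    rw [h7]
    have h8 : (1 : ℝ) / (289 * y ^ 2) = 4 ^ j * (1 / (289 * y ^ 2 * 4 ^ j)) := by
      field_simp
    rw [h8]
    exact mul_le_mul_of_nonneg_right h6 (by positivity)
  -- telescoping
  have htel : ∀ k, j₀ ≤ k → k ≤ n →
      ((k : ℝ) - j₀) / (289 * y ^ 2) ≤ ∑ i ∈ Finset.range (4 ^ k), f i := by
    intro k hk
    induction k, hk using Nat.le_induction with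
    | base =>
      intro _
      rw [sub_self, zero_div]
      exact Finset.sum_nonneg fun j _ => hf0 j
    | succ k hk ih =>
      intro hkn
      have h1 := ih (by omega)
      have h2 := hblock k (Finset.mem_Ico.2 ⟨hk, by omega⟩)
      have h3 : ∑ i ∈ Finset.range (4 ^ (k + 1)), f i =
          ∑ i ∈ Finset.range (4 ^ k), f i + ∑ i ∈ Finset.Ico (4 ^ k) (4 ^ (k + 1)), f i := by
        rw [Finset.sum_range_add_sum_Ico f
          (Nat.pow_le_pow_right (by norm_num) (Nat.le_succ k))]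
      rw [h3]
      push_cast
      have h4 : ((k : ℝ) + 1 - j₀) / (289 * y ^ 2) =
          ((k : ℝ) - j₀) / (289 * y ^ 2) + 1 / (289 * y ^ 2) := by ring
      rw [h4]
      exact add_le_add h1 h2
  refine (htel n hjn.le le_rfl).trans ?_
  exact Finset.sum_le_sum_of_subset_of_nonneg (Finset.range_subset_range.2 hT) fun i _ _ => hf0 i

end

end Pool.Agent.SLE
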