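import Pool.Agent.Lib.MP_c17912_pr_TR.LVL

set_option autoImplicit false

open MeasureTheory ProbabilityTheory Filter
open scoped NNReal ENNReal Topology Real

namespace Pool.Agent.SLE

noncomputable section

namespace TRGRW

/-- The binary logarithm is at most twice the natural one. -/
theorem nlog_le (N : ℕ) : (Nat.log 2 N : ℝ) ≤ 2 * Real.log N := by
  have h5 : (Nat.log 2 N : ℝ) ≤ Real.logb 2 N := by
    have := Real.natLog_le_logb N 2
    exact_mod_cast this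
  have h6 : Real.logb 2 N ≤ 2 * Real.log N := by
    rw [Real.logb, div_le_iff₀ (Real.log_pos (by norm_num))]
    have h7 := Real.log_two_gt_d9
    have h8 : 0 ≤ Real.log N := Real.log_natCast_nonneg N
    nlinarith
  linarith

theorem two_pow_ll_le' {N : ℕ} (hN : 2 ≤ N) : (2 : ℝ) ^ ll N ≤ 16 * Real.log N := by
  have h1 : ((2 ^ ll N : ℕ) : ℝ) ≤ ((8 * Nat.log 2 N : ℕ) : ℝ) := by
    exact_mod_cast two_pow_ll_le hN
  push_cast at h1
  have h2 := nlog_le N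
  linarith

/-- `4 ^ ll N` is at most `256 (log N) ^ 2`. -/
theorem four_pow_ll_le {N : ℕ} (hN : 2 ≤ N) : (4 : ℝ) ^ ll N ≤ 256 * Real.log N ^ 2 := by
  have h3 := two_pow_ll_le' hN
  have h4 : (4 : ℝ) ^ ll N = ((2 : ℝ) ^ ll N) ^ 2 := by
    rw [← pow_mul, mul_comm, pow_mul]; norm_num
  rw [h4]
  have h5 : (0 : ℝ) ≤ (2 : ℝ) ^ ll N := by positivity
  nlinarith

theorem ll_le_log {N : ℕ} (hN : 2 ≤ N) : (ll N : ℝ) ≤ 16 * Real.log N := by
  have h3 := two_pow_ll_le' hN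
  have h6 : ((ll N : ℕ) : ℝ) ≤ (2 : ℝ) ^ ll N := by
    exact_mod_cast (Nat.lt_two_pow_self (n := ll N)).le
  linarith

/-- The eventual inequalities. -/
theorem ev (C c₁ D K : ℝ) (hc : 0 < c₁) (hD : 0 ≤ D) (hK : 0 < K) :
    ∃ T : ℝ, 3 ≤ T ∧ ∀ t ≥ T, 1 ≤ Real.log t ∧ Real.log t ≤ √t ∧
      K * Real.log t ^ 4 ≤ t ^ (9 / 16 : ℝ) ∧ 4 * C * √t ≤ c₁ * t ^ (9 / 16 : ℝ) ∧
      1 + 8 * √t ≤ t ^ (5 / 8 : ℝ) ∧
      (t ^ (9 / 16 : ℝ) + D * (t ^ (1 / 4 : ℝ) + 32 * Real.log t)) *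
        (8 * (256 * (2 * Real.log t) ^ 2)) ≤ t ^ (5 / 8 : ℝ) := by
  have hM : 0 < 8192 * (1 + 33 * D) := by positivity
  have e1 : ∀ᶠ t : ℝ in atTop, ‖Real.log t ^ (4 : ℝ)‖ ≤ K⁻¹ * ‖t ^ (9 / 16 : ℝ)‖ :=
    (isLittleO_log_rpow_rpow_atTop 4 (by norm_num : (0 : ℝ) < 9 / 16)).bound (by positivity)
  have e2 : ∀ᶠ t : ℝ in atTop, ‖Real.log t‖ ≤ 1 * ‖t ^ (1 / 4 : ℝ)‖ :=
    (isLittleO_log_rpow_atTop (by norm_num : (0 : ℝ) < 1 / 4)).bound (by norm_num)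
  have e3 : ∀ᶠ t : ℝ in atTop, 4 * C / c₁ ≤ t ^ (1 / 16 : ℝ) :=
    (tendsto_rpow_atTop (by norm_num : (0 : ℝ) < 1 / 16)).eventually_ge_atTop _
  have e4 : ∀ᶠ t : ℝ in atTop, (9 : ℝ) ≤ t ^ (1 / 8 : ℝ) :=
    (tendsto_rpow_atTop (by norm_num : (0 : ℝ) < 1 / 8)).eventually_ge_atTop _
  have e5 : ∀ᶠ t : ℝ in atTop, ‖Real.log t ^ (2 : ℝ)‖ ≤
      (8192 * (1 + 33 * D))⁻¹ * ‖t ^ (1 / 16 : ℝ)‖ :=
    (isLittleO_log_rpow_rpow_atTop 2 (by norm_num : (0 : ℝ) < 1 / 16)).bound (by positivity)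
  have e6 : ∀ᶠ t : ℝ in atTop, (1 : ℝ) ≤ Real.log t :=
    Real.tendsto_log_atTop.eventually_ge_atTop _
  obtain ⟨T, hT⟩ := eventually_atTop.1 (e1.and (e2.and (e3.and (e4.and (e5.and e6)))))
  refine ⟨max T 3, le_max_right _ _, fun t ht => ?_⟩
  obtain ⟨f1, f2, f3, f4, f5, f6⟩ := hT t ((le_max_left _ _).trans ht)
  have ht3 : (3 : ℝ) ≤ t := (le_max_right _ _).trans ht
  have ht1 : (1 : ℝ) ≤ t := by linarith
  have ht0 : (0 : ℝ) < t := by linarith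
  have hlog0 : 0 ≤ Real.log t := by linarith
  have p1 : 0 < t ^ (9 / 16 : ℝ) := Real.rpow_pos_of_pos ht0 _
  have p2 : 0 < t ^ (1 / 4 : ℝ) := Real.rpow_pos_of_pos ht0 _
  have p3 : 0 < t ^ (1 / 16 : ℝ) := Real.rpow_pos_of_pos ht0 _
  rw [Real.norm_of_nonneg (by positivity), Real.norm_of_nonneg p1.le] at f1
  rw [Real.norm_of_nonneg hlog0, Real.norm_of_nonneg p2.le, one_mul] at f2
  rw [Real.norm_of_nonneg (by positivity), Real.norm_of_nonneg p3.le] at f5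
  have g1 : Real.log t ^ (4 : ℝ) = Real.log t ^ 4 := by
    have := Real.rpow_natCast (Real.log t) 4
    push_cast at this
    exact this
  have g5 : Real.log t ^ (2 : ℝ) = Real.log t ^ 2 := by
    have := Real.rpow_natCast (Real.log t) 2
    push_cast at this
    exact this
  rw [g1] at f1
  rw [g5] at f5
  have hs : √t = t ^ (1 / 2 : ℝ) := Real.sqrt_eq_rpow t
  have q1 : t ^ (9 / 16 : ℝ) = √t * t ^ (1 / 16 : ℝ) := by
    rw [hs, ← Real.rpow_add ht0]; norm_num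
  have q2 : t ^ (5 / 8 : ℝ) = √t * t ^ (1 / 8 : ℝ) := by
    rw [hs, ← Real.rpow_add ht0]; norm_num
  have q3 : t ^ (5 / 8 : ℝ) = t ^ (9 / 16 : ℝ) * t ^ (1 / 16 : ℝ) := by
    rw [← Real.rpow_add ht0]; norm_num
  have hs1 : 1 ≤ √t := by rw [Real.one_le_sqrt]; exact ht1
  refine ⟨f6, ?_, ?_, ?_, ?_, ?_⟩
  · rw [hs]
    exact f2.trans (Real.rpow_le_rpow_of_exponent_le ht1 (by norm_num))
  · have := mul_le_mul_of_nonneg_left f1 hK.le
    rwa [← mul_assoc, mul_inv_cancel₀ hK.ne', one_mul] at this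
  · rw [q1]
    have h := mul_le_mul_of_nonneg_left f3 hc.le
    rw [mul_div_cancel₀ _ hc.ne'] at h
    nlinarith
  · rw [q2]
    nlinarith
  · have r1 : t ^ (1 / 4 : ℝ) ≤ t ^ (9 / 16 : ℝ) :=
      Real.rpow_le_rpow_of_exponent_le ht1 (by norm_num)
    have r2 : t ^ (9 / 16 : ℝ) + D * (t ^ (1 / 4 : ℝ) + 32 * Real.log t) ≤
        (1 + 33 * D) * t ^ (9 / 16 : ℝ) := by nlinarith
    have r3 : 8 * (256 * (2 * Real.log t) ^ 2) = 8192 * Real.log t ^ 2 := by ring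
    have r4 : (1 + 33 * D) * (8192 * Real.log t ^ 2) ≤ t ^ (1 / 16 : ℝ) := by
      have := mul_le_mul_of_nonneg_left f5 hM.le
      rw [← mul_assoc, mul_inv_cancel₀ hM.ne', one_mul] at this
      calc (1 + 33 * D) * (8192 * Real.log t ^ 2)
          = 8192 * (1 + 33 * D) * Real.log t ^ 2 := by ring
        _ ≤ _ := this
    rw [r3, q3]
    calc (t ^ (9 / 16 : ℝ) + D * (t ^ (1 / 4 : ℝ) + 32 * Real.log t)) * (8192 * Real.log t ^ 2)
        ≤ ((1 + 33 * D) * t ^ (9 / 16 : ℝ)) * (8192 * Real.log t ^ 2) :=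
          mul_le_mul_of_nonneg_right r2 (by positivity)
      _ = t ^ (9 / 16 : ℝ) * ((1 + 33 * D) * (8192 * Real.log t ^ 2)) := by ring
      _ ≤ _ := mul_le_mul_of_nonneg_left r4 p1.le

theorem step {C c₁ D K L q l x UB : ℝ} (hC0 : 0 < C) (hc : 0 < c₁) (hD0 : 0 < D)
    (hKc : c₁ * K = 16 * D * 8 * 256 * C) (c1 : 1 ≤ L) (hq0 : 0 < q) (hq1 : q ≤ 256 * L ^ 2)
    (hl1 : l ≤ 16 * L) (c3 : K * L ^ 4 ≤ x) (h7 : c₁ * x / 2 ≤ (C * L) * UB) :
    D * l ≤ UB / (4 * q) := by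
  have ha : 0 < C * L := by positivity
  have e1 : l * q ≤ 16 * L * (256 * L ^ 2) := mul_le_mul hl1 hq1 hq0.le (by positivity)
  have e2 : c₁ * (K * L ^ 4) ≤ c₁ * x := mul_le_mul_of_nonneg_left c3 hc.le
  have e3 : c₁ * (K * L ^ 4) = 2 * ((C * L) * (D * (4 * (16 * L * (256 * L ^ 2))))) := by
    rw [← mul_assoc, hKc]; ring
  have e4 : (C * L) * (D * l * (4 * q)) ≤
      (C * L) * (D * (4 * (16 * L * (256 * L ^ 2)))) := by
    apply mul_le_mul_of_nonneg_left _ ha.le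
    calc D * l * (4 * q) = D * (4 * (l * q)) := by ring
      _ ≤ _ := mul_le_mul_of_nonneg_left
        (mul_le_mul_of_nonneg_left e1 (by norm_num)) hD0.le
  have h8 : (C * L) * (D * l * (4 * q)) ≤ c₁ * x / 2 := by linarith
  have h9 : D * l * (4 * q) ≤ UB := le_of_mul_le_mul_left (h8.trans h7) ha
  rw [le_div_iff₀ (by positivity)]
  exact h9

theorem sqrt_add_le {a b : ℝ} (ha : 0 ≤ a) (hb : 0 ≤ b) : √(a + b) ≤ √a + √b := by
  rw [Real.sqrt_le_left (by positivity)]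
  have h1 := Real.sq_sqrt ha
  have h2 := Real.sq_sqrt hb
  have h3 : 0 ≤ √a * √b := by positivity
  nlinarith

end TRGRW

/-- TR-GRW. The growth contradiction (analysis).

Proof. Write `m_k = lev n k`, `N_k = n + m_k`, `L_k = log N_k`, `y_k = Nat.log 2 N_k`
(`L_k ≤ y_k + 1`, `y_k ≤ 2 L_k`), `v_k = C (m_k + √n)`, `a_k = C L_k`; `4 ^ ll N_k ≤ 64 y_k^2`.
1. From `h1`: `B_k ≤ ((U_k + 1) a_k + v_k) / (4 a_k) = (U_k + 1) / 4 + v_k / (4 a_k)`
   (`c₁ x_k ≥ 0`), and `U_k + 1 ≥ (c₁ x_k - v_k) / a_k`.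
2. So `U_k - B_k ≥ 3/4 (U_k + 1) - 1 - v_k / (4 a_k)`; if `c₁ x_k ≥ 8 v_k + 8 a_k` then
   `U_k - B_k ≥ c₁ x_k / (4 a_k)`, and by `h2`
   `x_{k+1} ≥ x_k (1 + c₁ / (16 a_k * 64 y_k^2)) ≥ x_k exp (ll N_k / L_k^4)` for `n ≥ n₀`
   (the first factor is `≥ 1 + c / L_k^3`, and `ll N_k ≤ 2 log L_k + 10`-ish; crude:
   `ll N ≤ Nat.log 2 (Nat.log 2 N) + 3` is `≤ √L_k` for large `n`).
3. Start: at `k₀`: `U ≥ n^(5/8)` and `v_{k₀} ≤ 2 C √n` give `U - B ≥ U / 2` and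
   `x_{k₀+1} ≥ n^(5/8) / (8 * 64 y^2) ≥ n^(9/16)`.
4. Induction on `k ≥ k₀ + 1`: `x_k ≥ n^(9/16) exp ((m_k - m_{k₀+1}) / L_k^4)` (use
   `L_k ≤ L_{k+1}`), and for `n ≥ n₀` the right side `E(m)` (`m = m_k`) satisfies
   `c₁ E ≥ 8 C (m + √n) + 8 C log (n + m)`: if `m ≤ n^(17/32)` the right side is
   `≤ 20 C n^(17/32)` and `E ≥ n^(9/16)`; if `m > n^(17/32)` then `n ≤ m^2`, `m_{k₀+1} ≤ m / 2`
   (`m_{k₀+1} ≤ n^(1/4) + ll ≤ 2 n^(1/4)`), `E ≥ exp (m / (2 (log (m + m^2))^4)) ≥ exp (√m)` for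
   `m` large, which beats `C' m`.
5. At `k₁`: `U_{k₁} = 0` and `h1` give `c₁ x_{k₁} ≤ a_{k₁} + v_{k₁}`, contradiction with 4. -/
theorem growth_contra {C c₁ : ℝ} (hC : 1 ≤ C) (hc : 0 < c₁) :
    ∃ n₀ : ℕ, ∀ n ≥ n₀, ∀ (x U B : ℕ → ℝ) (k₀ k₁ : ℕ), (∀ k, 0 ≤ x k) → (∀ k, 0 ≤ U k) →
      (∀ k, 0 ≤ B k) → (lev n k₀ : ℝ) ≤ (n : ℝ) ^ (1 / 4 : ℝ) →
      (∀ k ≥ k₀, c₁ * x k + 4 * C * Real.log ((n : ℝ) + lev n k) * B k ≤
        (U k + 1) * (C * Real.log ((n : ℝ) + lev n k)) + C * (lev n k + √n)) →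
      (∀ k ≥ k₀, x k + (U k - B k) / (4 * 4 ^ ll (n + lev n k)) ≤ x (k + 1)) →
      (n : ℝ) ^ (5 / 8 : ℝ) ≤ U k₀ → k₀ < k₁ → U k₁ = 0 → False := by
  have hC0 : 0 < C := by linarith
  obtain ⟨D, hDdef⟩ : ∃ D : ℝ, D = 4 * C / c₁ + 1 := ⟨_, rfl⟩
  have hq : 0 < 4 * C / c₁ := by positivity
  have hD1 : 1 ≤ D := by linarith
  have hD0 : 0 < D := by linarith
  have hDc : 4 * C ≤ c₁ * D := by
    rw [hDdef, mul_add, mul_div_cancel₀ _ hc.ne']
    linarith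
  obtain ⟨K, hKdef⟩ : ∃ K : ℝ, K = 16 * D * 8 * 256 * C / c₁ := ⟨_, rfl⟩
  have hK : 0 < K := by rw [hKdef]; positivity
  have hKc : c₁ * K = 16 * D * 8 * 256 * C := by
    rw [hKdef, mul_div_cancel₀ _ hc.ne']
  obtain ⟨T, hT3, hT⟩ := TRGRW.ev C c₁ D K hc hD0.le hK
  obtain ⟨n₀, hn₀⟩ := exists_nat_ge T
  refine ⟨n₀, fun n hn x U B k₀ k₁ hx hU hB hlev h1 h2 hU0 hk hU1 => ?_⟩
  have hnT : T ≤ (n : ℝ) := hn₀.trans (by exact_mod_cast hn)
  have hn3 : (3 : ℝ) ≤ n := hT3.trans hnT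
  have hn3' : 3 ≤ n := by exact_mod_cast hn3
  have hN2 : ∀ k, 2 ≤ n + lev n k := fun k => by omega
  obtain ⟨b1, b2, b3, b4, b5, b6⟩ := hT n hnT
  have hNT : ∀ k, T ≤ (n : ℝ) + lev n k := fun k => by
    have : (0 : ℝ) ≤ (lev n k : ℝ) := Nat.cast_nonneg _
    linarith
  have hcast : ∀ k, ((n + lev n k : ℕ) : ℝ) = (n : ℝ) + lev n k := fun k => by push_cast; rfl
  -- the algebra of one step
  have hkey : ∀ k ≥ k₀, c₁ * x k - C * (lev n k + √n) - C * Real.log ((n : ℝ) + lev n k) ≤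
      C * Real.log ((n : ℝ) + lev n k) * (U k - B k) := by
    intro k hk
    have ha : 0 < C * Real.log ((n : ℝ) + lev n k) := by
      have := (hT _ (hNT k)).1
      positivity
    have h3 := h1 k hk
    have h4 := mul_nonneg ha.le (hB k)
    nlinarith
  -- the invariant is strong enough
  have hbig : ∀ k, (n : ℝ) ^ (9 / 16 : ℝ) + D * lev n k ≤ x k →
      2 * (C * (lev n k + √n) + C * Real.log ((n : ℝ) + lev n k)) ≤ c₁ * x k := by
    intro k hk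
    have c2 := (hT _ (hNT k)).2.1
    have h3 : √((n : ℝ) + lev n k) ≤ √n + √(lev n k) :=
      TRGRW.sqrt_add_le (by positivity) (by positivity)
    have h4 : √(lev n k : ℝ) ≤ lev n k := by
      rcases Nat.eq_zero_or_pos (lev n k) with h0 | h0
      · rw [h0]; simp
      · have h5 : (1 : ℝ) ≤ lev n k := by exact_mod_cast h0
        rw [Real.sqrt_le_left (by positivity)]
        nlinarith
    have h5 : C * Real.log ((n : ℝ) + lev n k) ≤ C * (√n + lev n k) :=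
      mul_le_mul_of_nonneg_left (by linarith) hC0.le
    have h6 := mul_le_mul_of_nonneg_left hk hc.le
    have h7 : (0 : ℝ) ≤ (lev n k : ℝ) := Nat.cast_nonneg _
    have h8 := mul_le_mul_of_nonneg_right hDc h7
    nlinarith
  have hinv : ∀ k, k₀ + 1 ≤ k → (n : ℝ) ^ (9 / 16 : ℝ) + D * lev n k ≤ x k := by
    intro k hk
    induction k, hk using Nat.le_induction with
    | base =>
      have hL := (hT _ (hNT k₀)).1
      have hL2 : Real.log ((n : ℝ) + lev n k₀) ≤ 2 * Real.log n := by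
        have h3 : (lev n k₀ : ℝ) ≤ n := by
          refine hlev.trans ?_
          have := Real.rpow_le_rpow_of_exponent_le (by linarith : (1 : ℝ) ≤ n)
            (by norm_num : (1 / 4 : ℝ) ≤ 1)
          rwa [Real.rpow_one] at this
        have h4 : (n : ℝ) + lev n k₀ ≤ (n : ℝ) ^ 2 := by nlinarith
        have h5 := Real.log_le_log (by positivity) h4
        rw [Real.log_pow] at h5
        exact_mod_cast h5
      have hq1 := TRGRW.four_pow_ll_le (hN2 k₀)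
      have hl1 := TRGRW.ll_le_log (hN2 k₀)
      rw [hcast] at hq1 hl1
      have hq2 : (4 : ℝ) ^ ll (n + lev n k₀) ≤ 256 * (2 * Real.log n) ^ 2 := by
        refine hq1.trans ?_
        have := pow_le_pow_left₀ (by linarith : (0 : ℝ) ≤ Real.log ((n : ℝ) + lev n k₀)) hL2 2
        linarith
      have hqpos : (0 : ℝ) < 4 ^ ll (n + lev n k₀) := by positivity
      have hlev1 : (lev n (k₀ + 1) : ℝ) ≤ (n : ℝ) ^ (1 / 4 : ℝ) + 32 * Real.log n := by
        have h3 : lev n (k₀ + 1) = lev n k₀ + ll (n + lev n k₀) := rfl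
        rw [h3]
        push_cast
        linarith
      -- the count is at least half of `U`
      have hUB : (n : ℝ) ^ (5 / 8 : ℝ) / 2 ≤ U k₀ - B k₀ := by
        have h3 := h1 k₀ le_rfl
        obtain ⟨L, hLd⟩ : ∃ L, L = Real.log ((n : ℝ) + lev n k₀) := ⟨_, rfl⟩
        rw [← hLd] at h3 hL
        have h4 : (lev n k₀ : ℝ) ≤ √n := by
          rw [Real.sqrt_eq_rpow]
          exact hlev.trans (Real.rpow_le_rpow_of_exponent_le (by linarith) (by norm_num))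
        have h5 : 4 * C * L * B k₀ ≤ (U k₀ + 1) * (C * L) + C * (2 * √n) := by
          have := mul_nonneg hc.le (hx k₀)
          nlinarith
        have h6 : C * (2 * √n) ≤ C * L * (2 * √n) := by
          have h7 : 0 ≤ C * (2 * √n) := by positivity
          nlinarith
        have h7 : (C * L) * (4 * B k₀) ≤ (C * L) * (U k₀ + 1 + 2 * √n) := by nlinarith
        have h8 : 4 * B k₀ ≤ U k₀ + 1 + 2 * √n := le_of_mul_le_mul_left h7 (by positivity)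
        linarith
      have h3 := h2 k₀ le_rfl
      have h4 : (n : ℝ) ^ (9 / 16 : ℝ) + D * ((n : ℝ) ^ (1 / 4 : ℝ) + 32 * Real.log n) ≤
          (U k₀ - B k₀) / (4 * 4 ^ ll (n + lev n k₀)) := by
        rw [le_div_iff₀ (by positivity)]
        have h5 : ((n : ℝ) ^ (9 / 16 : ℝ) + D * ((n : ℝ) ^ (1 / 4 : ℝ) + 32 * Real.log n)) *
            (8 * 4 ^ ll (n + lev n k₀)) ≤ (n : ℝ) ^ (5 / 8 : ℝ) := by
          refine le_trans ?_ b6
          have h6 : 0 ≤ (n : ℝ) ^ (9 / 16 : ℝ) +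
              D * ((n : ℝ) ^ (1 / 4 : ℝ) + 32 * Real.log n) := by positivity
          exact mul_le_mul_of_nonneg_left (by linarith) h6
        linarith
      have h5 := mul_le_mul_of_nonneg_left hlev1 hD0.le
      have h6 := hx k₀
      linarith
    | succ k hk ih =>
      obtain ⟨c1, c2, c3, -⟩ := hT _ (hNT k)
      have hkk : k₀ ≤ k := by omega
      have h3 := hkey k hkk
      have h4 := h2 k hkk
      have hq1 := TRGRW.four_pow_ll_le (hN2 k)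
      have hl1 := TRGRW.ll_le_log (hN2 k)
      rw [hcast] at hq1 hl1
      have hm : lev n (k + 1) = lev n k + ll (n + lev n k) := rfl
      rw [hm]
      push_cast
      have h5 := hbig k ih
      have h6 : ((n : ℝ) + lev n k) ^ (9 / 16 : ℝ) ≤ x k := by
        have h7 := Real.rpow_add_le_add_rpow (p := 9 / 16) (a := n) (b := lev n k)
          (by positivity) (by positivity) (by norm_num) (by norm_num)
        have h8 : (lev n k : ℝ) ^ (9 / 16 : ℝ) ≤ lev n k := by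
          rcases Nat.eq_zero_or_pos (lev n k) with h0 | h0
          · rw [h0]
            norm_num
          · have h5 : (1 : ℝ) ≤ lev n k := by exact_mod_cast h0
            have := Real.rpow_le_rpow_of_exponent_le h5 (by norm_num : (9 / 16 : ℝ) ≤ 1)
            rwa [Real.rpow_one] at this
        have h9 : (lev n k : ℝ) ≤ D * lev n k := le_mul_of_one_le_left (Nat.cast_nonneg _) hD1
        exact h7.trans ((add_le_add_right (h8.trans h9) _).trans ih)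
      obtain ⟨L, hLd⟩ : ∃ L, L = Real.log ((n : ℝ) + lev n k) := ⟨_, rfl⟩
      obtain ⟨q, hqd⟩ : ∃ q : ℝ, q = 4 ^ ll (n + lev n k) := ⟨_, rfl⟩
      obtain ⟨l, hld⟩ : ∃ l : ℝ, l = ll (n + lev n k) := ⟨_, rfl⟩
      have hq0 : 0 < q := by rw [hqd]; positivity
      rw [← hLd] at c1 c2 c3 h3 h5 hq1 hl1
      rw [← hqd] at h4 hq1
      rw [← hld] at hl1 ⊢
      have h7 : c₁ * x k / 2 ≤ (C * L) * (U k - B k) := by linarith
      have h10 : D * l ≤ (U k - B k) / (4 * q) :=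
        TRGRW.step hC0 hc hD0 hKc c1 hq0 hq1 hl1 (c3.trans h6) h7
      linarith
  have h3 := hinv k₁ (by omega)
  have h4 := hbig k₁ h3
  have h5 := h1 k₁ (by omega)
  rw [hU1] at h5
  have hL := (hT _ (hNT k₁)).1
  have h6 : 0 < C * Real.log ((n : ℝ) + lev n k₁) := by positivity
  have h7 : 0 ≤ C * (lev n k₁ + √n) := by positivity
  have h8 := mul_nonneg h6.le (hB k₁)
  nlinarith

end

end Pool.Agent.SLE
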