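import Pool.Agent.Lib.MP_c17912_pr_TR.STA
import Pool.Agent.Lib.MP_c17912_pr_TR.GRW
import Pool.Agent.Lib.MP_c17912_pr.Flow

set_option autoImplicit false

open MeasureTheory ProbabilityTheory Filter
open scoped NNReal ENNReal Topology Real

namespace Pool.Agent.SLE

noncomputable section

variable {Ω : Type*} [MeasurableSpace Ω] {μ : Measure Ω}

namespace TRCOR

theorem rr_pos (m : ℕ) : 0 < rr m := by
  unfold rr
  positivity

theorem rr_sq (m : ℕ) : (4 : ℝ) ^ m * rr m ^ 2 = 1 := by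
  unfold rr
  rw [← pow_mul, mul_comm m 2, pow_mul, ← mul_pow]
  norm_num

theorem XX_nonneg (U g : ℝ → ℂ) (r : ℝ) (M : ℕ) : 0 ≤ XX U g r M := by
  unfold XX
  refine Finset.sum_nonneg fun j _ => ?_
  split_ifs
  · exact le_rfl
  · unfold lk
    refine intervalIntegral.integral_nonneg ?_ fun u _ => by positivity
    nlinarith [sq_nonneg r]

/-- the growth of the two sides -/
theorem num {C c₁ : ℝ} (hC : 1 ≤ C) (hc : 0 < c₁) : ∃ n₁ : ℕ, ∀ n ≥ n₁, ∀ m : ℝ, 0 ≤ m →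
    m ≤ (n : ℝ) ^ (1 / 4 : ℝ) →
    ((n : ℝ) ^ (5 / 8 : ℝ) + 1) * (C * Real.log ((n : ℝ) + m)) + C * (m + √n) <
      c₁ * (n : ℝ) ^ (11 / 16 : ℝ) := by
  have h1 : (fun x : ℝ => 2 * C * Real.log x + 2 * C * (Real.log 2 + 1)) =o[atTop]
      fun x : ℝ => x ^ (1 / 16 : ℝ) := by
    refine ((isLittleO_log_rpow_atTop (by norm_num)).const_mul_left (2 * C)).add ?_
    refine Asymptotics.isLittleO_const_left.2 (Or.inr ?_)
    exact tendsto_norm_atTop_atTop.comp (tendsto_rpow_atTop (by norm_num))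
  have h2 := h1.def (half_pos hc)
  have h3 := tendsto_natCast_atTop_atTop.eventually h2
  obtain ⟨n₁, hn₁⟩ := eventually_atTop.1 h3
  refine ⟨max n₁ 1, fun n hn m hm0 hm => ?_⟩
  have hn1 : (1 : ℝ) ≤ n := by exact_mod_cast (le_max_right n₁ 1).trans hn
  have hn0 : (0 : ℝ) < n := by linarith
  have h4 := hn₁ n ((le_max_left _ _).trans hn)
  have h16 : (0 : ℝ) < (n : ℝ) ^ (1 / 16 : ℝ) := Real.rpow_pos_of_pos hn0 _
  rw [Real.norm_of_nonneg h16.le] at h4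
  have h5 : 2 * C * Real.log n + 2 * C * (Real.log 2 + 1) ≤ c₁ / 2 * (n : ℝ) ^ (1 / 16 : ℝ) :=
    (le_abs_self _).trans h4
  have h58 : (1 : ℝ) ≤ (n : ℝ) ^ (5 / 8 : ℝ) := Real.one_le_rpow hn1 (by norm_num)
  have hm1 : m ≤ (n : ℝ) ^ (5 / 8 : ℝ) :=
    hm.trans (Real.rpow_le_rpow_of_exponent_le hn1 (by norm_num))
  have hm2 : m ≤ n := by
    refine hm.trans ?_
    have := Real.rpow_le_rpow_of_exponent_le hn1 (by norm_num : (1 / 4 : ℝ) ≤ 1)
    rwa [Real.rpow_one] at this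
  have hsq : √(n : ℝ) ≤ (n : ℝ) ^ (5 / 8 : ℝ) := by
    rw [Real.sqrt_eq_rpow]
    exact Real.rpow_le_rpow_of_exponent_le hn1 (by norm_num)
  have hlog : Real.log ((n : ℝ) + m) ≤ Real.log 2 + Real.log n := by
    rw [← Real.log_mul two_ne_zero hn0.ne']
    exact Real.log_le_log (by linarith) (by linarith)
  have hlog0 : 0 ≤ Real.log ((n : ℝ) + m) := Real.log_nonneg (by linarith)
  have hsplit : (n : ℝ) ^ (11 / 16 : ℝ) = (n : ℝ) ^ (5 / 8 : ℝ) * (n : ℝ) ^ (1 / 16 : ℝ) := by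
    rw [← Real.rpow_add hn0]
    norm_num
  have hC0 : 0 < C := by linarith
  calc ((n : ℝ) ^ (5 / 8 : ℝ) + 1) * (C * Real.log ((n : ℝ) + m)) + C * (m + √n) ≤
        (2 * (n : ℝ) ^ (5 / 8 : ℝ)) * (C * Real.log ((n : ℝ) + m)) +
          C * (2 * (n : ℝ) ^ (5 / 8 : ℝ)) := by
        refine add_le_add (mul_le_mul_of_nonneg_right (by linarith) (by positivity)) ?_
        exact mul_le_mul_of_nonneg_left (by linarith) hC0.le
    _ = (n : ℝ) ^ (5 / 8 : ℝ) * (2 * C * Real.log ((n : ℝ) + m) + 2 * C) := by ring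
    _ ≤ (n : ℝ) ^ (5 / 8 : ℝ) * (2 * C * Real.log n + 2 * C * (Real.log 2 + 1)) := by
        refine mul_le_mul_of_nonneg_left ?_ (by linarith)
        nlinarith
    _ ≤ (n : ℝ) ^ (5 / 8 : ℝ) * (c₁ / 2 * (n : ℝ) ^ (1 / 16 : ℝ)) :=
        mul_le_mul_of_nonneg_left h5 (by linarith)
    _ < (n : ℝ) ^ (5 / 8 : ℝ) * (c₁ * (n : ℝ) ^ (1 / 16 : ℝ)) := by
        refine mul_lt_mul_of_pos_left ?_ (by linarith)
        exact mul_lt_mul_of_pos_right (by linarith) h16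
    _ = c₁ * (n : ℝ) ^ (11 / 16 : ℝ) := by
        rw [hsplit]
        ring

end TRCOR

open TRCOR

/-- TR-CRD. From a certain level on there are no low cells.

Proof. `|Z|` has a positive minimum `d` on `[0,T]` (`FlowAux.exists_lower`), and
`rr (lev n k) = 2^(-lev n k) < d` for large `k` (`lev n k ≥ 3 k`). The cells `j + 1 < T 4^m` are
in `[0,T]`. So `NN = 0` (a transition needs a low cell). -/
theorem exists_no_low {U : ℝ → ℂ} (hU : Continuous U) {z : ℂ} {g : ℝ → ℂ} {T : ℕ}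
    (hg : Sol U z T g) (n : ℕ) :
    ∃ k₂, ∀ k ≥ k₂, NN U g (rr (lev n k)) (T * 4 ^ lev n k) = 0 := by
  obtain ⟨d, hd, hlow⟩ := FlowAux.exists_lower hU hg
  obtain ⟨k₂, hk₂⟩ := exists_pow_lt_of_lt_one hd (by norm_num : (1 / 2 : ℝ) < 1)
  refine ⟨k₂, fun k hk => ?_⟩
  have hr : rr (lev n k) < d := by
    refine lt_of_le_of_lt ?_ hk₂
    unfold rr
    refine pow_le_pow_of_le_one (by norm_num) (by norm_num) ?_
    have := le_lev n k
    omega
  classical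
  unfold NN
  refine Finset.card_eq_zero.2 (Finset.eq_empty_of_forall_notMem fun j hjm => ?_)
  obtain ⟨hj, htr⟩ := Finset.mem_filter.1 hjm
  rw [Finset.mem_range] at hj
  obtain ⟨u, hu, hle⟩ := htr.1
  have hr2 : 0 ≤ rr (lev n k) ^ 2 := sq_nonneg _
  have hj' : (j : ℝ) + 1 ≤ (T : ℝ) * 4 ^ lev n k := by
    have : j + 1 ≤ T * 4 ^ lev n k := by omega
    exact_mod_cast this
  have h0 : 0 ≤ u := le_trans (mul_nonneg (Nat.cast_nonneg j) hr2) hu.1
  have h1 : u ≤ T := by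
    refine hu.2.trans ?_
    calc ((j : ℝ) + 1) * rr (lev n k) ^ 2 ≤ (T : ℝ) * 4 ^ lev n k * rr (lev n k) ^ 2 :=
          mul_le_mul_of_nonneg_right hj' hr2
      _ = T := by
          rw [mul_assoc, rr_sq, mul_one]
  have := hlow u ⟨h0, h1⟩
  linarith

/-- TR-COR. The core: outside the exceptional event, for every solution on `[0,T]` (start and
end at distance `≤ n + 4`) and every level `k₀` with `lev n k₀ ≤ n^(1/4)`: if there are no long
riders at the scales `M ≥ lev n k₀`, then the number of transitions and the clock at the level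
`k₀` are small.

Proof. Take `A` from `stars` (constants `C, c₁`). For `ω ∉ A` choose `B k` from `stars`;
`x k = XX ..` (nonnegative: `lk ≥ 0` for each cell), `U k = NN ..`. If
`n^(5/8) ≤ NN` at level `k₀`, then `growth_contra` with `k₁ > k₀` from `exists_no_low` gives
`False` (for `k ≥ k₀` the absence of riders at `M = lev n k ≥ lev n k₀` gives the inequality).
So `NN < n^(5/8)`, and the inequality at `k₀` gives
`c₁ XX ≤ (n^(5/8) + 1) C log (n + n^(1/4)) + C (n^(1/4) + √n) < c₁ n^(11/16)` for `n ≥ n₀`. -/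
theorem core [IsProbabilityMeasure μ] {a b c K : ℝ} (ha : 0 ≤ a) (hb : 0 ≤ b) (hK : 0 ≤ K)
    (hS : HasS a b c) :
    ∃ n₀ : ℕ, ∀ n ≥ n₀, ∀ W : ℝ → Ω → ℂ, Gau a b c K W μ →
      ∃ A, MeasurableSet A ∧ μ A ≤ ENNReal.ofReal (Real.exp (-(n : ℝ) ^ (1 / 4 : ℝ))) ∧
        ∀ ω ∉ A, ∀ (T : ℕ) (z : ℂ) (g : ℝ → ℂ), T ≤ 4 ^ (n + 2) → ‖z‖ ≤ n + 4 →
          Sol (fun t => W t ω) z T g → ‖g T - W T ω‖ ≤ n + 4 → ∀ k₀ : ℕ,
            (lev n k₀ : ℝ) ≤ (n : ℝ) ^ (1 / 4 : ℝ) →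
            (∀ M ≥ lev n k₀, ∀ s, s + (n + M) ^ 10 ≤ T * 4 ^ M →
              ¬ rider (fun t => W t ω) g (rr M) s ((n + M) ^ 10)) →
            (NN (fun t => W t ω) g (rr (lev n k₀)) (T * 4 ^ lev n k₀) : ℝ) <
                (n : ℝ) ^ (5 / 8 : ℝ) ∧
              XX (fun t => W t ω) g (rr (lev n k₀)) (T * 4 ^ lev n k₀) <
                (n : ℝ) ^ (11 / 16 : ℝ) := by
  obtain ⟨C, c₁, hC, hc, n₀, hst⟩ := stars (μ := μ) ha hb hK hS
  obtain ⟨n₁, hgr⟩ := growth_contra hC hc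
  obtain ⟨n₂, hnum⟩ := num hC hc
  refine ⟨max (max n₀ n₁) (max n₂ 1), fun n hn W hW => ?_⟩
  have hn0 : n₀ ≤ n := ((le_max_left _ _).trans (le_max_left _ _)).trans hn
  have hn1 : n₁ ≤ n := ((le_max_right _ _).trans (le_max_left _ _)).trans hn
  have hn2 : n₂ ≤ n := ((le_max_left _ _).trans (le_max_right _ _)).trans hn
  have hn3 : 1 ≤ n := ((le_max_right _ _).trans (le_max_right _ _)).trans hn
  obtain ⟨A, hA, hμ, hst⟩ := hst n hn0 W hW
  refine ⟨A, hA, hμ, fun ω hω T z g hT hz hg hend k₀ hk₀ hrid => ?_⟩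
  choose B hB h1 h2 using hst ω hω T z g hT hz hg hend
  have hU : Continuous fun t => W t ω := hW.cont ω
  have hmono := (lev_strictMono n).monotone
  have hineq : ∀ k ≥ k₀, c₁ * XX (fun t => W t ω) g (rr (lev n k)) (T * 4 ^ lev n k) +
      4 * C * Real.log ((n : ℝ) + lev n k) * B k ≤
        (NN (fun t => W t ω) g (rr (lev n k)) (T * 4 ^ lev n k) + 1) *
          (C * Real.log ((n : ℝ) + lev n k)) + C * (lev n k + √n) := fun k hk =>
    h2 k fun s hs => hrid (lev n k) (hmono hk) s hs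
  have hNN : (NN (fun t => W t ω) g (rr (lev n k₀)) (T * 4 ^ lev n k₀) : ℝ) <
      (n : ℝ) ^ (5 / 8 : ℝ) := by
    by_contra hcon
    obtain ⟨k₂, hk₂⟩ := exists_no_low hU hg n
    refine hgr n hn1
      (fun k => XX (fun t => W t ω) g (rr (lev n k)) (T * 4 ^ lev n k))
      (fun k => (NN (fun t => W t ω) g (rr (lev n k)) (T * 4 ^ lev n k) : ℝ)) B k₀
      (max k₂ (k₀ + 1)) (fun k => XX_nonneg _ _ _ _) (fun k => Nat.cast_nonneg _) hB hk₀ hineq
      (fun k _ => h1 k) (not_lt.1 hcon) (lt_of_lt_of_le (Nat.lt_succ_self k₀) (le_max_right _ _)) ?_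
    show (NN (fun t => W t ω) g (rr (lev n (max k₂ (k₀ + 1))))
      (T * 4 ^ lev n (max k₂ (k₀ + 1))) : ℝ) = 0
    rw [hk₂ _ (le_max_left _ _), Nat.cast_zero]
  refine ⟨hNN, ?_⟩
  have h3 := hineq k₀ le_rfl
  have h4 := hnum n hn2 (lev n k₀) (Nat.cast_nonneg _) hk₀
  have hn3' : (1 : ℝ) ≤ n := by exact_mod_cast hn3
  have hlog : 0 ≤ Real.log ((n : ℝ) + lev n k₀) :=
    Real.log_nonneg (by
      have : (0 : ℝ) ≤ lev n k₀ := Nat.cast_nonneg _
      linarith)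
  have hC0 : 0 < C := by linarith
  have h5 : 0 ≤ 4 * C * Real.log ((n : ℝ) + lev n k₀) * B k₀ :=
    mul_nonneg (mul_nonneg (by linarith) hlog) (hB k₀)
  have h6 : (NN (fun t => W t ω) g (rr (lev n k₀)) (T * 4 ^ lev n k₀) + 1) *
      (C * Real.log ((n : ℝ) + lev n k₀)) ≤
      ((n : ℝ) ^ (5 / 8 : ℝ) + 1) * (C * Real.log ((n : ℝ) + lev n k₀)) :=
    mul_le_mul_of_nonneg_right (by linarith) (mul_nonneg hC0.le hlog)
  have h7 : c₁ * XX (fun t => W t ω) g (rr (lev n k₀)) (T * 4 ^ lev n k₀) <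
      c₁ * (n : ℝ) ^ (11 / 16 : ℝ) := by linarith
  exact lt_of_mul_lt_mul_left h7 hc.le

end

end Pool.Agent.SLE
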