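import Pool.Agent.Lib.MP_c17912_pr_TR.Base
import Pool.Agent.Lib.MP_c17912_pr_LN.GM
import Pool.Agent.Lib.MP_c17912_pr.Gau

set_option autoImplicit false

open MeasureTheory ProbabilityTheory Filter
open scoped NNReal ENNReal Topology Real

namespace Pool.Agent.SLE

noncomputable section

variable {Ω : Type*} [MeasurableSpace Ω] {μ : Measure Ω} {a b c K : ℝ} {W : ℝ → Ω → ℂ}

namespace TROSE

omit [MeasurableSpace Ω] in
lemma blk_mono {s t s' t' : ℝ} (hs : s' ≤ s) (ht : t ≤ t') : Blk W s t ≤ Blk W s' t' := by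
  refine iSup_le fun ⟨v, hv⟩ => ?_
  rw [← measurable_iff_comap_le]
  have h1 := DrvSubAux.meas_Blk (W := W) (s := s') (t := t') (u := v)
    ⟨hs.trans hv.1, hv.2.trans ht⟩
  have h2 := DrvSubAux.meas_Blk (W := W) (s := s') (t := t') (u := s)
    ⟨hs, (hv.1.trans hv.2).trans ht⟩
  have h3 := h1.sub h2
  have e : (fun ω => W v ω - W s ω) = (fun ω => W v ω - W s' ω) - fun ω => W s ω - W s' ω := by
    funext ω
    simp
  show Measurable[Blk W s' t'] (fun ω => W v ω - W s ω)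
  rw [e]
  exact h3

/-- oscillation on one cell -/
lemma cell [IsProbabilityMeasure μ] (hW : Gau a b c K W μ) {s T l S : ℝ} (hs : 0 ≤ s)
    (hT : 0 < T) (hl : 0 < l) (hS : 0 < S) (hab : a + b ≤ S) :
    ∃ A, MeasurableSet[Blk W s (s + T)] A ∧
      μ A ≤ ENNReal.ofReal (4 * Real.exp (-(l ^ 2 / (4 * S * T)))) ∧
      ∀ ω ∉ A, ∀ u ∈ Set.Icc s (s + T), ∀ v ∈ Set.Icc s (s + T), ‖W u ω - W v ω‖ ≤ 2 * l := by
  obtain ⟨A, hA, hμ, hb⟩ := maximal_gauss (hW.subP hs one_pos) hT hl hS hab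
  have hle := Blk_sub_le (W := W) hs one_pos T
  rw [one_pow, one_mul] at hle
  refine ⟨A, hle A hA, hμ, fun ω hω => ?_⟩
  have key : ∀ u ∈ Set.Icc s (s + T), ‖W u ω - W s ω‖ ≤ l := by
    intro u hu
    have h1 := hb ω hω (u - s) ⟨by linarith [hu.1], by linarith [hu.2]⟩
    have h2 : subP W s 1 (u - s) ω = W u ω - W s ω := by
      simp only [subP, psub]
      rw [max_eq_left (by linarith [hu.1]), one_pow, one_mul, inv_one, one_smul,
        add_sub_cancel]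
    rwa [h2] at h1
  intro u hu v hv
  have h1 := key u hu
  have h2 := key v hv
  have h3 : W u ω - W v ω = (W u ω - W s ω) - (W v ω - W s ω) := by ring
  rw [h3]
  refine (norm_sub_le _ _).trans ?_
  linarith

lemma union_le (A : ℕ → Set Ω) {C : ℝ} (h : ∀ i, μ (A i) ≤ ENNReal.ofReal C) (n : ℕ) :
    μ (⋃ i ∈ Finset.range n, A i) ≤ ENNReal.ofReal (n * C) := by
  refine (measure_biUnion_finset_le _ _).trans ?_
  refine (Finset.sum_le_card_nsmul _ _ _ fun i _ => h i).trans ?_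
  rw [Finset.card_range, nsmul_eq_mul, ENNReal.ofReal_mul (Nat.cast_nonneg n),
    ENNReal.ofReal_natCast]

lemma S_pos (hW : Gau a b c K W μ) : 0 < a + b + 1 := by
  have := hW.a_nonneg
  have := hW.b_nonneg
  linarith

end TROSE

/-- TR-OSE1. Oscillation on the first `N` unit cells.

Proof. `maximal_gauss` (LN/GM) for `subP W j 1` (`Gau.subP`, MP_c17912_pr/Gau.lean), `T = 1`,
`l = x / 2`, `S = a + b + 1`; the oscillation is at most twice the maximal displacement from the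
left end point; union over `j < N` (`measure_biUnion_finset_le`). -/
theorem osc_ev [IsProbabilityMeasure μ] (hW : Gau a b c K W μ) (N : ℕ) {x : ℝ} (hx : 0 < x) :
    ∃ A, MeasurableSet A ∧
      μ A ≤ ENNReal.ofReal (N * (4 * Real.exp (-(x ^ 2 / (16 * (a + b + 1)))))) ∧
      ∀ ω ∉ A, Osc (fun t => W t ω) 1 x N := by
  have hS := TROSE.S_pos hW
  have h0 : ∀ j : ℕ, ∃ A, MeasurableSet[Blk W j ((j : ℝ) + 1)] A ∧
      μ A ≤ ENNReal.ofReal (4 * Real.exp (-((x / 2) ^ 2 / (4 * (a + b + 1) * 1)))) ∧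
      ∀ ω ∉ A, ∀ u ∈ Set.Icc (j : ℝ) ((j : ℝ) + 1), ∀ v ∈ Set.Icc (j : ℝ) ((j : ℝ) + 1),
        ‖W u ω - W v ω‖ ≤ 2 * (x / 2) := fun j =>
    TROSE.cell hW (Nat.cast_nonneg j) one_pos (half_pos hx) hS (by linarith)
  choose A hA hμ hb using h0
  have e : (x / 2) ^ 2 / (4 * (a + b + 1) * 1) = x ^ 2 / (16 * (a + b + 1)) := by
    field_simp
    ring
  rw [e] at hμ
  refine ⟨⋃ i ∈ Finset.range N, A i, ?_, TROSE.union_le A hμ N, ?_⟩
  · exact Finset.measurableSet_biUnion _ fun i _ => Blk_le hW.toDrv _ _ _ (hA i)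
  · intro ω hω j hj u hu v hv
    rw [one_pow, mul_one, mul_one] at hu hv
    have h1 : ω ∉ A j := fun h => hω (Set.mem_biUnion (Finset.mem_range.2 hj) h)
    have h2 := hb j ω h1 u hu v hv
    show ‖W u ω - W v ω‖ ≤ x
    linarith

/-- TR-OSE2. The bad event of one unit cell: large oscillation on one of the `4^l` subcells.

Proof. `maximal_gauss` for `subP W (j + i / 4^l) 1`, `T = 1 / 4^l`, `l = 1/8`, `S = a + b + 1`:
probability at most `4 exp (-(1/64) / (4 S / 4^l))`. The event is measurable for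
`Blk (subP W s 1) 0 T ≤ Blk W s (s + T)` (`Blk_sub_le`), which is contained in `Blk W j (j+1)`
(increments in a subinterval; as in `Blk_le_Blk`). -/
theorem bad_ev [IsProbabilityMeasure μ] (hW : Gau a b c K W μ) (l j : ℕ) :
    ∃ A, MeasurableSet[Blk W j ((j : ℝ) + 1)] A ∧
      μ A ≤ ENNReal.ofReal (4 ^ l * (4 * Real.exp (-(4 ^ l / (256 * (a + b + 1)))))) ∧
      ∀ ω ∉ A, ∀ i : ℕ, i < 4 ^ l →
        ∀ u ∈ Set.Icc ((j : ℝ) + i / 4 ^ l) ((j : ℝ) + (i + 1) / 4 ^ l),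
        ∀ v ∈ Set.Icc ((j : ℝ) + i / 4 ^ l) ((j : ℝ) + (i + 1) / 4 ^ l),
          ‖W u ω - W v ω‖ ≤ 1 / 4 := by
  have hS := TROSE.S_pos hW
  have h4 : (0 : ℝ) < 4 ^ l := by positivity
  have h0 : ∀ i : ℕ, ∃ A, MeasurableSet[Blk W ((j : ℝ) + i / 4 ^ l)
      ((j : ℝ) + i / 4 ^ l + 1 / 4 ^ l)] A ∧
      μ A ≤ ENNReal.ofReal (4 * Real.exp (-((1 / 8) ^ 2 / (4 * (a + b + 1) * (1 / 4 ^ l))))) ∧
      ∀ ω ∉ A, ∀ u ∈ Set.Icc ((j : ℝ) + i / 4 ^ l) ((j : ℝ) + i / 4 ^ l + 1 / 4 ^ l),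
        ∀ v ∈ Set.Icc ((j : ℝ) + i / 4 ^ l) ((j : ℝ) + i / 4 ^ l + 1 / 4 ^ l),
        ‖W u ω - W v ω‖ ≤ 2 * (1 / 8) := fun i =>
    TROSE.cell hW (by positivity) (by positivity) (by norm_num) hS (by linarith)
  choose A hA hμ hb using h0
  have e : (1 / 8 : ℝ) ^ 2 / (4 * (a + b + 1) * (1 / 4 ^ l)) = 4 ^ l / (256 * (a + b + 1)) := by
    field_simp
    norm_num
  rw [e] at hμ
  have e2 : ∀ i : ℕ, (j : ℝ) + i / 4 ^ l + 1 / 4 ^ l = (j : ℝ) + (i + 1) / 4 ^ l := by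
    intro i
    ring
  have hU := TROSE.union_le A hμ (4 ^ l)
  push_cast at hU
  refine ⟨⋃ i ∈ Finset.range (4 ^ l), A i, ?_, hU, ?_⟩
  · refine @Finset.measurableSet_biUnion _ _ (Blk W j ((j : ℝ) + 1)) _ _ fun i hi => ?_
    have hi' : ((i : ℝ) + 1) ≤ 4 ^ l := by
      have := Finset.mem_range.1 hi
      exact_mod_cast Nat.succ_le_of_lt this
    refine TROSE.blk_mono ?_ ?_ _ (hA i)
    · have : (0 : ℝ) ≤ i / 4 ^ l := by positivity
      linarith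
    · rw [e2]
      have : ((i : ℝ) + 1) / 4 ^ l ≤ 1 := by
        rw [div_le_one h4]
        exact hi'
      linarith
  · intro ω hω i hi u hu v hv
    have h1 : ω ∉ A i := fun h => hω (Set.mem_biUnion (Finset.mem_range.2 hi) h)
    have h2 := hb i ω h1 u (by rw [e2]; exact hu) v (by rw [e2]; exact hv)
    linarith

/-- TR-OSE3. Maximal displacement at dyadic times.

Proof. `maximal_gauss` with `T = 4^j`, `l = y 2^j`, union over `j ≤ N`. -/
theorem max_ev [IsProbabilityMeasure μ] (hW : Gau a b c K W μ) (N : ℕ) {y : ℝ} (hy : 0 < y) :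
    ∃ A, MeasurableSet A ∧
      μ A ≤ ENNReal.ofReal ((N + 1) * (4 * Real.exp (-(y ^ 2 / (4 * (a + b + 1)))))) ∧
      ∀ ω ∉ A, ∀ j ≤ N, ∀ u ∈ Set.Icc (0 : ℝ) (4 ^ j), ‖W u ω‖ ≤ y * 2 ^ j := by
  have hS := TROSE.S_pos hW
  have h0 : ∀ j : ℕ, ∃ A, MeasurableSet[Blk W 0 (4 ^ j)] A ∧
      μ A ≤ ENNReal.ofReal (4 * Real.exp (-((y * 2 ^ j) ^ 2 / (4 * (a + b + 1) * 4 ^ j)))) ∧
      ∀ ω ∉ A, ∀ t ∈ Set.Icc (0 : ℝ) (4 ^ j), ‖W t ω‖ ≤ y * 2 ^ j := fun j =>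
    maximal_gauss hW (by positivity) (by positivity) hS (by linarith)
  choose A hA hμ hb using h0
  have e : ∀ j : ℕ, (y * 2 ^ j) ^ 2 / (4 * (a + b + 1) * 4 ^ j) = y ^ 2 / (4 * (a + b + 1)) := by
    intro j
    have h1 : (4 : ℝ) ^ j = (2 ^ j) ^ 2 := by
      rw [← pow_mul, mul_comm, pow_mul]
      norm_num
    rw [h1]
    field_simp
  have hμ' : ∀ j, μ (A j) ≤ ENNReal.ofReal (4 * Real.exp (-(y ^ 2 / (4 * (a + b + 1))))) := by
    intro j
    rw [← e j]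
    exact hμ j
  have hU := TROSE.union_le A hμ' (N + 1)
  push_cast at hU
  refine ⟨⋃ i ∈ Finset.range (N + 1), A i, ?_, hU, ?_⟩
  · exact Finset.measurableSet_biUnion _ fun i _ => Blk_le hW.toDrv _ _ _ (hA i)
  · intro ω hω j hj u hu
    have h1 : ω ∉ A j := fun h =>
      hω (Set.mem_biUnion (Finset.mem_range.2 (Nat.lt_succ_of_le hj)) h)
    exact hb j ω h1 u hu

end

end Pool.Agent.SLE
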