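import Pool.Agent.Lib.MP_c17912_pr_TR.DSC
import Pool.Agent.Lib.MP_c17912_pr_TR.SLO
import Pool.Agent.Lib.MP_c17912_pr_TR.OSE

set_option autoImplicit false

open MeasureTheory ProbabilityTheory Filter
open scoped NNReal ENNReal Topology Real

namespace Pool.Agent.SLE

noncomputable section

variable {Ω : Type*} [MeasurableSpace Ω] {μ : Measure Ω}

namespace TRGOL

theorem pow_le : ∃ n₀ : ℕ, ∀ n ≥ n₀, (n + 1) ^ 11 ≤ 4 ^ (n / 2) := by
  have h := (tendsto_pow_const_div_const_pow_of_one_lt 11 (one_lt_two : (1 : ℝ) < 2)).comp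
    (tendsto_add_atTop_nat 1)
  have h2 := h.eventually (gt_mem_nhds (show (0 : ℝ) < 1 / 4 by norm_num))
  obtain ⟨n₀, hn₀⟩ := eventually_atTop.mp h2
  refine ⟨n₀ + 1, fun n hn => ?_⟩
  have h3 := hn₀ n (by omega)
  simp only [Function.comp] at h3
  rw [div_lt_iff₀ (by positivity)] at h3
  have h4 : (((n + 1) ^ 11 : ℕ) : ℝ) < ((2 ^ (n - 1) : ℕ) : ℝ) := by
    have : (2 : ℝ) ^ (n + 1) = 4 * 2 ^ (n - 1) := by
      obtain ⟨m, rfl⟩ : ∃ m, n = m + 1 := ⟨n - 1, by omega⟩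
      simp only [Nat.add_sub_cancel]
      ring
    push_cast at h3 ⊢
    rw [this] at h3
    linarith
  have h5 : (n + 1) ^ 11 < 2 ^ (n - 1) := by exact_mod_cast h4
  refine h5.le.trans ?_
  rw [show (4 : ℕ) = 2 ^ 2 by norm_num, ← pow_mul]
  exact Nat.pow_le_pow_right (by norm_num) (by omega)

theorem num (S : ℝ) (hS : 1 ≤ S) : ∃ n₀ : ℕ, ∀ n ≥ n₀, ∃ t : ℝ, 4 ≤ t ∧ 16 * S ≤ t ^ 4 ∧
    (n : ℝ) = t ^ 80 ∧ (n : ℝ) ^ (1 / 4 : ℝ) = t ^ 20 ∧ (n : ℝ) ^ (1 / 5 : ℝ) = t ^ 16 ∧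
    (n : ℝ) ^ (1 / 8 : ℝ) = t ^ 10 ∧ (n : ℝ) ^ (11 / 16 : ℝ) = t ^ 55 ∧
    (n : ℝ) ^ (5 / 8 : ℝ) = t ^ 50 ∧ (n + 1) ^ 11 ≤ 4 ^ (n / 2) ∧ 64 * S ≤ n ∧ 8 ≤ n := by
  obtain ⟨n₁, hn₁⟩ := pow_le
  obtain ⟨n₂, hn₂⟩ := exists_nat_ge ((16 * S + 64) ^ 80 : ℝ)
  refine ⟨max n₁ n₂, fun n hn => ?_⟩
  have hn1 : n₁ ≤ n := (le_max_left _ _).trans hn
  have hn2 : (n₂ : ℝ) ≤ n := by exact_mod_cast (le_max_right n₁ n₂).trans hn
  have h0 : (0 : ℝ) ≤ n := by positivity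
  have hT : 16 * S + 64 ≤ (n : ℝ) ^ (1 / 80 : ℝ) := by
    have : ((16 * S + 64) ^ 80 : ℝ) ^ (1 / 80 : ℝ) ≤ (n : ℝ) ^ (1 / 80 : ℝ) :=
      Real.rpow_le_rpow (by positivity) (hn₂.trans hn2) (by norm_num)
    rwa [← Real.rpow_natCast, ← Real.rpow_mul (by positivity), show ((80 : ℕ) : ℝ) * (1 / 80) = 1
      by norm_num, Real.rpow_one] at this
  set t : ℝ := (n : ℝ) ^ (1 / 80 : ℝ) with ht
  have hp : ∀ (k : ℕ) (r : ℝ), r = 1 / 80 * k → (n : ℝ) ^ r = t ^ k := by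
    intro k r hr
    rw [ht, ← Real.rpow_natCast, ← Real.rpow_mul h0, hr]
  have h80 : (n : ℝ) = t ^ 80 := by
    have := hp 80 1 (by norm_num)
    rwa [Real.rpow_one] at this
  have ht1 : 1 ≤ t := by nlinarith
  have hle : 16 * S + 64 ≤ n := by
    rw [h80]
    refine hT.trans ?_
    calc t = t ^ 1 := by ring
      _ ≤ t ^ 80 := pow_le_pow_right₀ ht1 (by norm_num)
  have hle2 : 64 * S ≤ n := by
    rw [h80]
    have h2 : t ^ 2 ≤ t ^ 80 := pow_le_pow_right₀ ht1 (by norm_num)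
    nlinarith
  refine ⟨t, by nlinarith, ?_, h80, hp 20 _ (by norm_num), hp 16 _ (by norm_num),
    hp 10 _ (by norm_num), hp 55 _ (by norm_num), hp 50 _ (by norm_num), hn₁ n hn1, hle2, ?_⟩
  · calc 16 * S ≤ t := by linarith
      _ = t ^ 1 := by ring
      _ ≤ t ^ 4 := pow_le_pow_right₀ ht1 (by norm_num)
  · have : (8 : ℝ) ≤ n := by linarith
    exact_mod_cast this

theorem prob {S t : ℝ} {n : ℕ} (hS : 1 ≤ S) (ht : 4 ≤ t) (h4 : 16 * S ≤ t ^ 4)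
    (hn : (n : ℝ) = t ^ 80) (h64 : 64 * S ≤ n) (h8 : 8 ≤ n) :
    Real.exp (-t ^ 20) + (Real.exp (-(n : ℝ)) +
      (((4 ^ (n + 1) + 1 : ℕ) : ℝ) * (4 * Real.exp (-((n : ℝ) ^ 2 / (16 * S)))) +
      ((n : ℝ) + 1) * (4 * Real.exp (-((t ^ 10) ^ 2 / (4 * S)))))) ≤ Real.exp (-t ^ 16) := by
  have ht0 : 0 < t := by linarith
  have hSp : 0 < S := by linarith
  have h4' : (256 : ℝ) ≤ t ^ 4 := by
    calc (256 : ℝ) = 4 ^ 4 := by norm_num
      _ ≤ t ^ 4 := pow_le_pow_left₀ (by norm_num) ht 4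
  have h16 : (1 : ℝ) ≤ t ^ 16 := one_le_pow₀ (by linarith)
  have e4 : (4 : ℝ) ≤ Real.exp 2 := by
    have := Real.add_one_le_exp (1 : ℝ)
    have h2 : Real.exp 2 = Real.exp 1 * Real.exp 1 := by rw [← Real.exp_add]; norm_num
    rw [h2]; nlinarith
  have key : ∀ x : ℝ, t ^ 16 + 2 ≤ x → Real.exp (-x) ≤ 1 / 4 * Real.exp (-t ^ 16) := by
    intro x hx
    have h1 : Real.exp (-x) ≤ Real.exp (-2) * Real.exp (-t ^ 16) := by
      rw [← Real.exp_add]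
      exact Real.exp_le_exp.mpr (by linarith)
    have h2 : Real.exp (-2) ≤ 1 / 4 := by
      rw [Real.exp_neg, ← one_div]
      exact one_div_le_one_div_of_le (by norm_num) e4
    exact h1.trans (mul_le_mul_of_nonneg_right h2 (Real.exp_pos _).le)
  have h20 : t ^ 16 + 2 ≤ t ^ 20 := by
    have : t ^ 20 = t ^ 16 * t ^ 4 := by ring
    nlinarith
  have hn20 : t ^ 20 ≤ n := by
    rw [hn]; exact pow_le_pow_right₀ (by linarith) (by norm_num)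
  have t1 := key _ h20
  have t2 := key n (h20.trans hn20)
  have hnp : (8 : ℝ) ≤ n := by exact_mod_cast h8
  have t3 : ((4 ^ (n + 1) + 1 : ℕ) : ℝ) * (4 * Real.exp (-((n : ℝ) ^ 2 / (16 * S)))) ≤
      1 / 4 * Real.exp (-t ^ 16) := by
    have a1 : ((4 ^ (n + 1) + 1 : ℕ) : ℝ) * 4 ≤ Real.exp (2 * ((n : ℝ) + 3)) := by
      have : ((4 ^ (n + 1) + 1 : ℕ) : ℝ) * 4 ≤ 4 ^ (n + 3) := by
        push_cast
        have h1 : (1 : ℝ) ≤ 4 ^ (n + 1) := one_le_pow₀ (by norm_num)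
        have h2 : (4 : ℝ) ^ (n + 3) = 16 * 4 ^ (n + 1) := by ring
        rw [h2]; linarith
      refine this.trans ?_
      calc (4 : ℝ) ^ (n + 3) ≤ (Real.exp 2) ^ (n + 3) :=
            pow_le_pow_left₀ (by norm_num) e4 _
        _ = Real.exp (2 * ((n : ℝ) + 3)) := by
            rw [← Real.exp_nat_mul]; congr 1; push_cast; ring
    have a2 : 4 * (n : ℝ) ≤ (n : ℝ) ^ 2 / (16 * S) := by
      rw [le_div_iff₀ (by positivity)]
      nlinarith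
    have a3 : Real.exp (-((n : ℝ) ^ 2 / (16 * S))) ≤ Real.exp (-(4 * (n : ℝ))) :=
      Real.exp_le_exp.mpr (by linarith)
    calc ((4 ^ (n + 1) + 1 : ℕ) : ℝ) * (4 * Real.exp (-((n : ℝ) ^ 2 / (16 * S))))
        = (((4 ^ (n + 1) + 1 : ℕ) : ℝ) * 4) * Real.exp (-((n : ℝ) ^ 2 / (16 * S))) := by ring
      _ ≤ Real.exp (2 * ((n : ℝ) + 3)) * Real.exp (-(4 * (n : ℝ))) := by gcongr
      _ = Real.exp (-(2 * (n : ℝ) - 6)) := by rw [← Real.exp_add]; congr 1; ring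
      _ ≤ 1 / 4 * Real.exp (-t ^ 16) := by
          refine key _ ?_
          have : t ^ 16 + 2 ≤ (n : ℝ) - 6 := by
            have h60 : t ^ 80 = t ^ 16 * t ^ 64 := by ring
            have h64' : (256 : ℝ) ≤ t ^ 64 :=
              h4'.trans (pow_le_pow_right₀ (by linarith) (by norm_num))
            rw [hn, h60]; nlinarith
          linarith
  have t4 : ((n : ℝ) + 1) * (4 * Real.exp (-((t ^ 10) ^ 2 / (4 * S)))) ≤
      1 / 4 * Real.exp (-t ^ 16) := by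
    have a1 : 4 * t ^ 16 ≤ (t ^ 10) ^ 2 / (4 * S) := by
      rw [le_div_iff₀ (by positivity)]
      have : (t ^ 10) ^ 2 = t ^ 16 * t ^ 4 := by ring
      rw [this]
      have h16' : (0 : ℝ) ≤ t ^ 16 := by positivity
      nlinarith
    have a2 : 4 * ((n : ℝ) + 1) * Real.exp (-(3 * t ^ 16)) ≤ 1 / 4 := by
      have b1 := Real.pow_div_factorial_le_exp (3 * t ^ 16) (by positivity) 6
      have b2 : 16 * ((n : ℝ) + 1) ≤ Real.exp (3 * t ^ 16) := by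
        refine le_trans ?_ b1
        rw [show ((Nat.factorial 6 : ℕ) : ℝ) = 720 by norm_num [Nat.factorial]]
        have c1 : (3 * t ^ 16) ^ 6 / 720 = 729 / 720 * (t ^ 16 * t ^ 80) := by ring
        rw [c1, hn]
        have c2 : (256 : ℝ) ≤ t ^ 16 := h4'.trans (pow_le_pow_right₀ (by linarith) (by norm_num))
        have c3 : (1 : ℝ) ≤ t ^ 80 := one_le_pow₀ (by linarith)
        nlinarith
      rw [Real.exp_neg, ← div_eq_mul_inv, div_le_iff₀ (Real.exp_pos _)]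
      linarith
    have a3 : Real.exp (-((t ^ 10) ^ 2 / (4 * S))) ≤
        Real.exp (-(3 * t ^ 16)) * Real.exp (-t ^ 16) := by
      rw [← Real.exp_add]
      exact Real.exp_le_exp.mpr (by linarith)
    calc ((n : ℝ) + 1) * (4 * Real.exp (-((t ^ 10) ^ 2 / (4 * S))))
        ≤ ((n : ℝ) + 1) * (4 * (Real.exp (-(3 * t ^ 16)) * Real.exp (-t ^ 16))) := by gcongr
      _ = 4 * ((n : ℝ) + 1) * Real.exp (-(3 * t ^ 16)) * Real.exp (-t ^ 16) := by ring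
      _ ≤ 1 / 4 * Real.exp (-t ^ 16) :=
          mul_le_mul_of_nonneg_right a2 (Real.exp_pos _).le
  linarith

theorem sol_restrict {U : ℝ → ℂ} {z : ℂ} {s t : ℝ} {g : ℝ → ℂ} (h : Sol U z s g)
    (hts : t ≤ s) : Sol U z t g := by
  refine ⟨h.1, fun u hu => h.2.1 u ⟨hu.1, hu.2.trans hts⟩, fun u hu => ?_⟩
  exact (h.2.2 u ⟨hu.1, hu.2.trans hts⟩).mono (Set.Icc_subset_Icc_right hts)

end TRGOL

/-- TR-GOL. The goal estimate: no point of the unit disc is at distance `≤ 1` of the tip at a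
time in `[4^n, 4^(n+1)]`.

Proof. `A` = the events of `core` and `desc`, `osc_ev` with `N = 4^(n+1) + 1`, `x = n`, and
`max_ev` with `N = n`, `y = n^(1/8)`; total probability at most `exp (-n^(1/5))` for `n ≥ n₀`.
Suppose `‖z‖ ≤ 1`, `s ∈ [4^n, 4^(n+1)]`, `Sol` on `[0,s]`, `|Z_s| ≤ 1`. Let `T = ⌊s⌋₊`:
`4^n ≤ T ≤ 4^(n+1)`. `cr_low` on `[T, s]` (the oscillation on the cell `T < N` is `≤ n`) gives
`|Z_T| ≤ n + 3`. `desc` (for the restriction to `[0,T]`) shows that there are no long riders, so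
`core` with `k₀ = 0` (`lev n 0 = 0`, `rr 0 = 1`) gives `NN < n^(5/8)` and `XX < n^(11/16)` at
the scale `1`. `start_long` with `D = n^10`, `y = n^(1/8)`, `j₀ = ⌈6 log₂ n⌉ + ..` with
`(NN + 1) n^10 ≤ 4^j₀`, `j₀ ≤ n / 2`: `n / 2 / (289 n^(1/4)) ≤ XX < n^(11/16)`, false for large
`n`. -/
theorem goal [IsProbabilityMeasure μ] {a b c K : ℝ} (ha : 0 ≤ a) (hb : 0 ≤ b) (hK : 0 ≤ K)
    (hS : HasS a b c) :
    ∃ n₀ : ℕ, ∀ n ≥ n₀, ∀ W : ℝ → Ω → ℂ, Gau a b c K W μ →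
      ∃ A, MeasurableSet A ∧ μ A ≤ ENNReal.ofReal (Real.exp (-(n : ℝ) ^ (1 / 5 : ℝ))) ∧
        ∀ ω ∉ A, ∀ z : ℂ, ‖z‖ ≤ 1 → ∀ s ∈ Set.Icc ((4 : ℝ) ^ n) (4 ^ (n + 1)), ∀ g : ℝ → ℂ,
          Sol (fun t => W t ω) z s g → 1 < ‖g s - W s ω‖ := by
  obtain ⟨n₁, hcore⟩ := core (μ := μ) ha hb hK hS
  obtain ⟨n₂, hdesc⟩ := desc (μ := μ) ha hb hK hS
  obtain ⟨n₃, hnum⟩ := TRGOL.num (a + b + 1) (by linarith)
  refine ⟨max n₁ (max n₂ n₃), fun n hn W hW => ?_⟩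
  obtain ⟨t, ht4, ht16, h80, h20, h16, h10, h55, h50, hpow, h64, h8⟩ := hnum n
    ((le_max_right _ _).trans ((le_max_right _ _).trans hn))
  obtain ⟨A₁, hA₁m, hA₁p, hA₁⟩ := hcore n ((le_max_left _ _).trans hn) W hW
  obtain ⟨A₂, hA₂m, hA₂p, hA₂⟩ := hdesc n
    ((le_max_left _ _).trans ((le_max_right _ _).trans hn)) W hW
  have hnpos : (0 : ℝ) < n := by
    have : (8 : ℝ) ≤ n := by exact_mod_cast h8
    linarith
  have htpos : 0 < t := by linarith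
  obtain ⟨A₃, hA₃m, hA₃p, hA₃⟩ := osc_ev hW (4 ^ (n + 1) + 1) hnpos
  obtain ⟨A₄, hA₄m, hA₄p, hA₄⟩ := max_ev hW n (y := t ^ 10) (by positivity)
  refine ⟨A₁ ∪ (A₂ ∪ (A₃ ∪ A₄)), hA₁m.union (hA₂m.union (hA₃m.union hA₄m)), ?_, ?_⟩
  · have hp := TRGOL.prob (S := a + b + 1) (by linarith) ht4 ht16 h80 h64 h8
    rw [h16]
    refine le_trans ?_ (ENNReal.ofReal_le_ofReal hp)
    rw [ENNReal.ofReal_add (by positivity) (by positivity),
      ENNReal.ofReal_add (by positivity) (by positivity),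
      ENNReal.ofReal_add (by positivity) (by positivity)]
    refine (measure_union_le _ _).trans (add_le_add (hA₁p.trans (by rw [h20])) ?_)
    refine (measure_union_le _ _).trans (add_le_add hA₂p ?_)
    exact (measure_union_le _ _).trans (add_le_add hA₃p hA₄p)
  intro ω hω z hz s hs g hg
  simp only [Set.mem_union, not_or] at hω
  obtain ⟨hω1, hω2, hω3, hω4⟩ := hω
  by_contra hcon
  rw [not_lt] at hcon
  have hs0 : 0 ≤ s := le_trans (by positivity) hs.1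
  set T := ⌊s⌋₊ with hT
  have hTs : (T : ℝ) ≤ s := Nat.floor_le hs0
  have hsT : s < (T : ℝ) + 1 := Nat.lt_floor_add_one s
  have hT1 : 4 ^ n ≤ T := Nat.le_floor (by exact_mod_cast hs.1)
  have hT2 : T ≤ 4 ^ (n + 1) := by
    have : (T : ℝ) ≤ ((4 ^ (n + 1) : ℕ) : ℝ) := by
      push_cast
      exact hTs.trans hs.2
    exact_mod_cast this
  have hT3 : T ≤ 4 ^ (n + 2) := hT2.trans (Nat.pow_le_pow_right (by norm_num) (by omega))
  have hcont : Continuous fun t => W t ω := hW.cont ω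
  have hgT : Sol (fun t => W t ω) z T g := TRGOL.sol_restrict hg hTs
  have hZT : ‖g T - W T ω‖ ≤ n + 4 := by
    have hosc := hA₃ ω hω3 T (by omega)
    simp only [one_pow, mul_one] at hosc
    have hsub : Set.Icc (T : ℝ) s ⊆ Set.Icc (T : ℝ) ((T : ℝ) + 1) :=
      Set.Icc_subset_Icc_right hsT.le
    have := cr_low hcont hg (Nat.cast_nonneg T) hTs hsT.le le_rfl (x := (n : ℝ))
      (fun u hu v hv => hosc u (hsub hu) v (hsub hv)) ⟨s, ⟨hTs, le_rfl⟩, hcon⟩ T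
      ⟨le_rfl, hTs⟩
    linarith
  have hno := hA₂ ω hω2 T z g hT3 hgT
  have hlev : lev n 0 = 0 := rfl
  have hrr : rr 0 = 1 := by simp [rr]
  obtain ⟨hNN, hXX⟩ := hA₁ ω hω1 T z g hT3 (by linarith) hgT hZT 0
    (by rw [hlev, h20, Nat.cast_zero]; positivity) (fun M _ s' hs' => hno M s' hs')
  rw [hlev, hrr, pow_zero, mul_one, h50] at hNN
  rw [hlev, hrr, pow_zero, mul_one, h55] at hXX
  have ht1 : 1 ≤ t := by linarith
  have hj₀ : (NN (fun t => W t ω) g 1 T + 1) * n ^ 10 ≤ 4 ^ (n / 2) := by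
    refine le_trans ?_ hpow
    have : NN (fun t => W t ω) g 1 T ≤ n := by
      have h1 : (NN (fun t => W t ω) g 1 T : ℝ) ≤ n := by
        rw [h80]
        exact hNN.le.trans (pow_le_pow_right₀ ht1 (by norm_num))
      exact_mod_cast h1
    calc (NN (fun t => W t ω) g 1 T + 1) * n ^ 10 ≤ (n + 1) * (n + 1) ^ 10 :=
          Nat.mul_le_mul (by omega) (Nat.pow_le_pow_left (by omega) _)
      _ = (n + 1) ^ 11 := by ring
  have hst := start_long hcont hT1 hgT hz (one_le_pow₀ ht1 : (1 : ℝ) ≤ t ^ 10)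
    (fun j hj u hu => hA₄ ω hω4 j hj u hu)
    (fun s' hs' => by
      have := hno 0 s' (by simpa using hs')
      rwa [hrr, add_zero] at this) hj₀
  have hhalf : (n : ℝ) / 2 ≤ (n : ℝ) - ((n / 2 : ℕ) : ℝ) := by
    have : ((n / 2 : ℕ) : ℝ) ≤ (n : ℝ) / 2 := Nat.cast_div_le
    linarith
  have hfin : t ^ 55 ≤ ((n : ℝ) - ((n / 2 : ℕ) : ℝ)) / (289 * (t ^ 10) ^ 2) := by
    rw [le_div_iff₀ (by positivity)]
    refine le_trans ?_ hhalf
    rw [h80]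
    have h5 : (1024 : ℝ) ≤ t ^ 5 := by
      calc (1024 : ℝ) = 4 ^ 5 := by norm_num
        _ ≤ t ^ 5 := pow_le_pow_left₀ (by norm_num) ht4 5
    have e1 : t ^ 55 * (289 * (t ^ 10) ^ 2) = 289 * t ^ 75 := by ring
    have e2 : t ^ 80 = t ^ 75 * t ^ 5 := by ring
    have e3 : 0 < t ^ 75 := by positivity
    rw [e1, e2]
    nlinarith
  linarith

end

end Pool.Agent.SLE
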