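import Pool.Agent.Lib.MP_c17912_pr_TR.LamDefs
import Pool.Agent.Lib.MP_c17912_pr_LN.PE

set_option autoImplicit false

open MeasureTheory ProbabilityTheory Filter
open scoped NNReal ENNReal Topology Real

namespace Pool.Agent.SLE

noncomputable section

/-- TR-DNS1. `Vth` is positive for a nondegenerate matrix. -/
theorem Vth_pos {a b c : ℝ} (ha : 0 < a) (hb : 0 < b) (hc : c ^ 2 < a * b) (θ : ℝ) :
    0 < Vth a b c θ := by
  unfold Vth
  have h1 := Real.sin_sq_add_cos_sq θ
  have h2 : 0 < a * b - c ^ 2 := by linarith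
  by_cases hk : Real.cos θ = 0
  · rw [hk] at h1 ⊢
    nlinarith
  · have h3 : 0 < Real.cos θ ^ 2 := by positivity
    have h4 : 0 < a * (a * Real.sin θ ^ 2 - 2 * c * (Real.sin θ * Real.cos θ)
        + b * Real.cos θ ^ 2) := by
      have h5 : a * (a * Real.sin θ ^ 2 - 2 * c * (Real.sin θ * Real.cos θ)
        + b * Real.cos θ ^ 2) = (a * Real.sin θ - c * Real.cos θ) ^ 2 +
          (a * b - c ^ 2) * Real.cos θ ^ 2 := by ring
      rw [h5]
      positivity
    exact (mul_pos_iff_of_pos_left ha).1 h4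

namespace TRDNS

/-- The integrand of the exponent. -/
def ff (a b c t : ℝ) : ℝ := 4 * Real.sin (2 * t) / Vth a b c t

/-- The exponent. -/
def LL (a b c x : ℝ) : ℝ := ∫ t in (0 : ℝ)..x, ff a b c t

/-- The integrand of the density. -/
def ee (a b c σ s : ℝ) : ℝ := Real.exp (-(σ * LL a b c s)) / Vth a b c s

theorem V_smooth (a b c : ℝ) (n : ℕ) : ContDiff ℝ n (Vth a b c) := by
  have h : Vth a b c = fun θ => a * Real.sin θ ^ 2 - 2 * c * (Real.sin θ * Real.cos θ) +
    b * Real.cos θ ^ 2 := rfl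
  rw [h]
  fun_prop

theorem V_per (a b c : ℝ) : Function.Periodic (Vth a b c) π := by
  intro x
  unfold Vth
  rw [Real.sin_add_pi, Real.cos_add_pi]
  ring

theorem ff_smooth {a b c : ℝ} (ha : 0 < a) (hb : 0 < b) (hc : c ^ 2 < a * b) (n : ℕ) :
    ContDiff ℝ n (ff a b c) := by
  have h : ContDiff ℝ n fun t : ℝ => 4 * Real.sin (2 * t) := by fun_prop
  exact h.div (V_smooth a b c n) fun x => (Vth_pos ha hb hc x).ne'

theorem ff_per (a b c : ℝ) : Function.Periodic (ff a b c) π := by
  intro x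
  unfold ff
  rw [V_per a b c x, mul_add, Real.sin_add_two_pi]

theorem LL_smooth {a b c : ℝ} (ha : 0 < a) (hb : 0 < b) (hc : c ^ 2 < a * b) (n : ℕ) :
    ContDiff ℝ n (LL a b c) :=
  PEAux.prim_smooth (fun k => ff_smooth ha hb hc k) n

theorem LL_deriv {a b c : ℝ} (ha : 0 < a) (hb : 0 < b) (hc : c ^ 2 < a * b) (x : ℝ) :
    HasDerivAt (LL a b c) (ff a b c x) x :=
  PEAux.prim_deriv (ff_smooth ha hb hc 0).continuous x

theorem LL_add {a b c : ℝ} (ha : 0 < a) (hb : 0 < b) (hc : c ^ 2 < a * b) (x : ℝ) :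
    LL a b c (x + π) = LL a b c x + LL a b c π := by
  have hf : Continuous (ff a b c) := (ff_smooth ha hb hc 0).continuous
  have h1 := intervalIntegral.integral_add_adjacent_intervals
    (hf.intervalIntegrable (μ := volume) 0 x) (hf.intervalIntegrable (μ := volume) x (x + π))
  have h2 := (ff_per a b c).intervalIntegral_add_eq x 0
  rw [zero_add] at h2
  rw [h2] at h1
  exact h1.symm

theorem ee_smooth {a b c : ℝ} (ha : 0 < a) (hb : 0 < b) (hc : c ^ 2 < a * b) (σ : ℝ) (n : ℕ) :
    ContDiff ℝ n (ee a b c σ) := by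
  have h : ContDiff ℝ n fun s : ℝ => Real.exp (-(σ * LL a b c s)) :=
    ((contDiff_const.mul (LL_smooth ha hb hc n)).neg).exp
  exact h.div (V_smooth a b c n) fun x => (Vth_pos ha hb hc x).ne'

theorem ee_add {a b c : ℝ} (ha : 0 < a) (hb : 0 < b) (hc : c ^ 2 < a * b) (σ x : ℝ) :
    ee a b c σ (x + π) = Real.exp (-(σ * LL a b c π)) * ee a b c σ x := by
  unfold ee
  rw [V_per a b c x, LL_add ha hb hc, mul_add, neg_add, Real.exp_add]
  ring

theorem dens_eq {a b c : ℝ} (ha : 0 < a) (hb : 0 < b) (hc : c ^ 2 < a * b) (σ x : ℝ) :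
    dens a b c σ x = Real.exp (σ * LL a b c x) * ∫ s in x..(x + π), ee a b c σ s := by
  have hf : Continuous (ff a b c) := (ff_smooth ha hb hc 0).continuous
  unfold dens
  rw [← intervalIntegral.integral_const_mul]
  apply intervalIntegral.integral_congr
  intro s _
  have h1 : (∫ t in s..x, 4 * Real.sin (2 * t) / Vth a b c t) = LL a b c x - LL a b c s :=
    (intervalIntegral.integral_interval_sub_left (hf.intervalIntegrable (μ := volume) 0 x)
      (hf.intervalIntegrable (μ := volume) 0 s)).symm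
  change Real.exp (σ * ∫ t in s..x, 4 * Real.sin (2 * t) / Vth a b c t) / Vth a b c s =
    Real.exp (σ * LL a b c x) * ee a b c σ s
  rw [h1, mul_sub, sub_eq_add_neg, Real.exp_add]
  unfold ee
  ring

theorem ee_int {a b c : ℝ} (ha : 0 < a) (hb : 0 < b) (hc : c ^ 2 < a * b) (σ x : ℝ) :
    (∫ s in x..(x + π), ee a b c σ s) =
      (∫ s in (0 : ℝ)..(x + π), ee a b c σ s) - ∫ s in (0 : ℝ)..x, ee a b c σ s := by
  have hf : Continuous (ee a b c σ) := (ee_smooth ha hb hc σ 0).continuous
  exact (intervalIntegral.integral_interval_sub_left (hf.intervalIntegrable (μ := volume) 0 _)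
      (hf.intervalIntegrable (μ := volume) 0 x)).symm

theorem ee_int_add {a b c : ℝ} (ha : 0 < a) (hb : 0 < b) (hc : c ^ 2 < a * b) (σ x : ℝ) :
    (∫ s in (x + π)..(x + π + π), ee a b c σ s) =
      Real.exp (-(σ * LL a b c π)) * ∫ s in x..(x + π), ee a b c σ s := by
  rw [← intervalIntegral.integral_comp_add_right (fun s => ee a b c σ s) π,
    ← intervalIntegral.integral_const_mul]
  apply intervalIntegral.integral_congr
  intro s _
  exact ee_add ha hb hc σ s

theorem V_shift (a b c t : ℝ) : Vth a b c (t + π / 2) = Vth b a (-c) t := by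
  unfold Vth
  rw [Real.sin_add_pi_div_two, Real.cos_add_pi_div_two]
  ring

theorem sin_shift (t : ℝ) : Real.sin (2 * (t + π / 2)) = -Real.sin (2 * t) := by
  rw [show 2 * (t + π / 2) = 2 * t + π by ring, Real.sin_add_pi]

theorem cos_shift (t : ℝ) : Real.cos (2 * (t + π / 2)) = -Real.cos (2 * t) := by
  rw [show 2 * (t + π / 2) = 2 * t + π by ring, Real.cos_add_pi]

theorem dens_shift (a b c x : ℝ) :
    dens a b c 1 (x + π / 2) = dens b a (-c) (-1) x := by
  unfold dens
  rw [show x + π / 2 + π = (x + π) + π / 2 by ring,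
    ← intervalIntegral.integral_comp_add_right (fun s => Real.exp (1 * ∫ t in s..(x + π / 2),
      4 * Real.sin (2 * t) / Vth a b c t) / Vth a b c s) (π / 2)]
  apply intervalIntegral.integral_congr
  intro s _
  have h1 : (∫ t in (s + π / 2)..(x + π / 2), 4 * Real.sin (2 * t) / Vth a b c t) =
      -∫ t in s..x, 4 * Real.sin (2 * t) / Vth b a (-c) t := by
    rw [← intervalIntegral.integral_comp_add_right
      (fun t => 4 * Real.sin (2 * t) / Vth a b c t) (π / 2), ← intervalIntegral.integral_neg]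
    apply intervalIntegral.integral_congr
    intro t _
    change 4 * Real.sin (2 * (t + π / 2)) / Vth a b c (t + π / 2) =
      -(4 * Real.sin (2 * t) / Vth b a (-c) t)
    rw [sin_shift, V_shift]
    ring
  change Real.exp (1 * ∫ t in (s + π / 2)..(x + π / 2), 4 * Real.sin (2 * t) / Vth a b c t) /
    Vth a b c (s + π / 2) = Real.exp (-1 * ∫ t in s..x, 4 * Real.sin (2 * t) /
      Vth b a (-c) t) / Vth b a (-c) s
  rw [h1, V_shift]
  congr 2
  ring

end TRDNS

/-- TR-DNS2. Properties of the density.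

Proof. `L x = ∫ 4 sin (2 t) / V t on [0,x]` (smooth, `L' = 4 sin (2x) / V`,
`L (x + π) = L x + L π` by periodicity of the integrand). `dens x = exp (σ L x) (S (x + π) - S x)`
with `S x = ∫ exp (-σ L s) / V s on [0,x]`; so it is smooth and positive, and
`dens' = σ L' dens + exp (σ L x) (exp (-σ L (x + π)) - exp (-σ L x)) / V
= (4 σ sin (2 x) dens + exp (-σ L π) - 1) / V`. Periodicity: `S (x + π) - S x` at `x + π` is
`exp (-σ L π)` times its value at `x` (substitution), and `exp (σ L (x + π)) =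
exp (σ L π) exp (σ L x)`. -/
theorem dens_props {a b c : ℝ} (ha : 0 < a) (hb : 0 < b) (hc : c ^ 2 < a * b) (σ : ℝ) :
    (∀ n : ℕ, ContDiff ℝ n (dens a b c σ)) ∧ Function.Periodic (dens a b c σ) π ∧
      (∀ x, 0 < dens a b c σ x) ∧
      ∃ κ, ∀ x, Vth a b c x / 2 * deriv (dens a b c σ) x -
        σ * 2 * Real.sin (2 * x) * dens a b c σ x = κ := by
  have hee : Continuous (TRDNS.ee a b c σ) := (TRDNS.ee_smooth ha hb hc σ 0).continuous
  have hfun : dens a b c σ = fun x => Real.exp (σ * TRDNS.LL a b c x) *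
      ((∫ s in (0 : ℝ)..(x + π), TRDNS.ee a b c σ s) -
        ∫ s in (0 : ℝ)..x, TRDNS.ee a b c σ s) := by
    funext x
    rw [TRDNS.dens_eq ha hb hc, TRDNS.ee_int ha hb hc]
  refine ⟨?_, ?_, ?_, (Real.exp (-(σ * TRDNS.LL a b c π)) - 1) / 2, ?_⟩
  · intro n
    have hS : ContDiff ℝ n (fun x => ∫ s in (0 : ℝ)..x, TRDNS.ee a b c σ s) :=
      PEAux.prim_smooth (fun k => TRDNS.ee_smooth ha hb hc σ k) n
    have hS2 : ContDiff ℝ n (fun x => ∫ s in (0 : ℝ)..(x + π), TRDNS.ee a b c σ s) :=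
      hS.comp (contDiff_id.add contDiff_const)
    rw [hfun]
    exact ((contDiff_const.mul (TRDNS.LL_smooth ha hb hc n)).exp).mul (hS2.sub hS)
  · intro x
    rw [TRDNS.dens_eq ha hb hc, TRDNS.dens_eq ha hb hc, TRDNS.ee_int_add ha hb hc,
      TRDNS.LL_add ha hb hc, mul_add, Real.exp_add, Real.exp_neg]
    field_simp
  · intro x
    rw [TRDNS.dens_eq ha hb hc]
    refine mul_pos (Real.exp_pos _) ?_
    refine intervalIntegral.intervalIntegral_pos_of_pos (hee.intervalIntegrable _ _) ?_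
      (by linarith [Real.pi_pos])
    intro s
    exact div_pos (Real.exp_pos _) (Vth_pos ha hb hc s)
  · intro x
    have hV := Vth_pos ha hb hc x
    have hL := TRDNS.LL_deriv ha hb hc x
    have h1 : HasDerivAt (fun x => ∫ s in (0 : ℝ)..x, TRDNS.ee a b c σ s)
        (TRDNS.ee a b c σ x) x := PEAux.prim_deriv hee x
    have h2 : HasDerivAt (fun x => ∫ s in (0 : ℝ)..(x + π), TRDNS.ee a b c σ s)
        (TRDNS.ee a b c σ (x + π)) x :=
      (PEAux.prim_deriv hee (x + π)).comp_add_const x π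
    have h3 : HasDerivAt (fun x => Real.exp (σ * TRDNS.LL a b c x))
        (Real.exp (σ * TRDNS.LL a b c x) * (σ * TRDNS.ff a b c x)) x :=
      (hL.const_mul σ).exp
    have h4 := h3.mul (h2.sub h1)
    have h5 : deriv (dens a b c σ) x = Real.exp (σ * TRDNS.LL a b c x) * (σ * TRDNS.ff a b c x) *
        ((∫ s in (0 : ℝ)..(x + π), TRDNS.ee a b c σ s) -
          ∫ s in (0 : ℝ)..x, TRDNS.ee a b c σ s) +
        Real.exp (σ * TRDNS.LL a b c x) *
          (TRDNS.ee a b c σ (x + π) - TRDNS.ee a b c σ x) := by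
      rw [hfun]
      exact h4.deriv
    have h6 : Real.exp (σ * TRDNS.LL a b c x) * TRDNS.ee a b c σ x = 1 / Vth a b c x := by
      unfold TRDNS.ee
      rw [← mul_div_assoc, ← Real.exp_add, add_neg_cancel, Real.exp_zero]
    have h7 : Vth a b c x * TRDNS.ff a b c x = 4 * Real.sin (2 * x) := by
      unfold TRDNS.ff
      field_simp
    have h8 : deriv (dens a b c σ) x = σ * TRDNS.ff a b c x * dens a b c σ x +
        (Real.exp (-(σ * TRDNS.LL a b c π)) - 1) * (1 / Vth a b c x) := by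
      rw [h5, TRDNS.ee_add ha hb hc, ← h6, TRDNS.dens_eq ha hb hc, TRDNS.ee_int ha hb hc]
      ring
    rw [h8]
    have h9 : Vth a b c x * (1 / Vth a b c x) = 1 := by field_simp
    linear_combination (σ * dens a b c σ x / 2) * h7 +
      ((Real.exp (-(σ * TRDNS.LL a b c π)) - 1) / 2) * h9

/-- TR-DNS3. The backward drift.

Proof. Substitute `θ = φ + π / 2`: `cos (2θ) = -cos (2φ)`, `sin (2θ) = -sin (2φ)`,
`Vth a b c (φ + π/2) = Vth b a (-c) φ`, `dens a b c 1 (φ + π/2) = dens b a (-c) (-1) φ`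
(the same substitution in both integrals); the integrand is `π`-periodic, so the integral over
`[-π/2, π/2]` is that over `[0, π]`. -/
theorem Lam_back {a b c : ℝ} (ha : 0 < a) (hb : 0 < b) (hc : c ^ 2 < a * b) :
    ∫ θ in (0 : ℝ)..π, (2 * Real.cos (2 * θ) +
        ((a - b) * Real.cos (2 * θ) + 2 * c * Real.sin (2 * θ)) / 2) * dens a b c 1 θ =
      -Lam b a (-c) := by
  have hd := dens_props ha hb hc 1
  have hper : Function.Periodic (fun θ => (2 * Real.cos (2 * θ) +
      ((a - b) * Real.cos (2 * θ) + 2 * c * Real.sin (2 * θ)) / 2) * dens a b c 1 θ) π := by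
    intro x
    change (2 * Real.cos (2 * (x + π)) + ((a - b) * Real.cos (2 * (x + π)) +
      2 * c * Real.sin (2 * (x + π))) / 2) * dens a b c 1 (x + π) = _
    rw [hd.2.1 x, mul_add, Real.sin_add_two_pi, Real.cos_add_two_pi]
  have h1 := hper.intervalIntegral_add_eq 0 (π / 2)
  rw [zero_add] at h1
  rw [h1, show π / 2 + π = π + π / 2 by ring, ← zero_add (π / 2), ← add_assoc, add_zero,
    ← intervalIntegral.integral_comp_add_right (fun θ => (2 * Real.cos (2 * θ) +
      ((a - b) * Real.cos (2 * θ) + 2 * c * Real.sin (2 * θ)) / 2) * dens a b c 1 θ) (π / 2)]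
  unfold Lam
  rw [← intervalIntegral.integral_neg]
  apply intervalIntegral.integral_congr
  intro x _
  change (2 * Real.cos (2 * (x + π / 2)) + ((a - b) * Real.cos (2 * (x + π / 2)) +
    2 * c * Real.sin (2 * (x + π / 2))) / 2) * dens a b c 1 (x + π / 2) =
      -(H1 b a (-c) x * dens b a (-c) (-1) x)
  rw [TRDNS.dens_shift, TRDNS.sin_shift, TRDNS.cos_shift]
  unfold H1
  ring

end

end Pool.Agent.SLE
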