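import Pool.Agent.Lib.MP_c17912_pr_TR.OCD
import Pool.Agent.Lib.MP_c17912_pr.Euler

set_option autoImplicit false

open MeasureTheory ProbabilityTheory Filter
open scoped NNReal ENNReal Topology Real

namespace Pool.Agent.SLE

noncomputable section

variable {Ω : Type*} [MeasurableSpace Ω] {μ : Measure Ω}

namespace TROCC

/-- Superadditivity of the lower limit. -/
theorem add_liminf (a b : ℕ → ℝ≥0∞) :
    liminf a atTop + liminf b atTop ≤ liminf (fun l => a l + b l) atTop := by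
  rw [liminf_eq_iSup_iInf_of_nat, liminf_eq_iSup_iInf_of_nat, liminf_eq_iSup_iInf_of_nat,
    ENNReal.iSup_add_iSup_of_monotone]
  · exact iSup_mono fun n => le_iInf₂ fun i hi => add_le_add (iInf₂_le i hi) (iInf₂_le i hi)
  · intro m n hmn
    exact le_iInf₂ fun i hi => iInf₂_le i (le_trans hmn hi)
  · intro m n hmn
    exact le_iInf₂ fun i hi => iInf₂_le i (le_trans hmn hi)

/-- Superadditivity of the lower limit. -/
theorem sum_liminf (N : ℕ) (u : ℕ → ℕ → ℝ≥0∞) :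
    ∑ t ∈ Finset.range N, liminf (fun l => u t l) atTop ≤
      liminf (fun l => ∑ t ∈ Finset.range N, u t l) atTop := by
  induction N with
  | zero => simp
  | succ N ih =>
    rw [Finset.sum_range_succ]
    refine (add_le_add ih le_rfl).trans ?_
    refine (add_liminf _ _).trans (le_of_eq ?_)
    congr 1
    funext l
    rw [Finset.sum_range_succ]

/-- The blocks of length `M` add up. -/
theorem sum_blocks (a : ℕ → ℝ≥0∞) (M N : ℕ) :
    ∑ t ∈ Finset.range N, ∑ j ∈ Finset.Ioc (t * M) ((t + 1) * M), a j ≤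
      ∑ j ∈ Finset.range (N * M + 1), a j := by
  have h1 : ∑ t ∈ Finset.range N, ∑ j ∈ Finset.Ioc (t * M) ((t + 1) * M), a j =
      ∑ j ∈ Finset.Ioc 0 (N * M), a j := by
    induction N with
    | zero => simp
    | succ N ih =>
      rw [Finset.sum_range_succ, ih]
      exact Finset.sum_Ioc_consecutive a (Nat.zero_le _) (Nat.mul_le_mul_right M (Nat.le_succ N))
  rw [h1]
  refine Finset.sum_le_sum_of_subset ?_
  intro j hj
  rw [Finset.mem_Ioc] at hj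
  rw [Finset.mem_range]
  omega

/-- The potential is measurable. -/
theorem kk_meas (lam c₀ : ℝ) : Measurable (kk lam c₀) := by
  unfold kk
  have h1 : Measurable fun z : ℂ => (1 / z ^ 2).re :=
    Complex.measurable_re.comp (measurable_const.div (measurable_id.pow_const 2))
  have h2 : Measurable fun z : ℂ => c₀ / ‖z‖ ^ 2 :=
    measurable_const.div (measurable_norm.pow_const 2)
  exact (h1.const_mul _).add h2

/-- The potential is continuous away from the origin. -/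
theorem kk_cont (lam c₀ : ℝ) : ContinuousOn (kk lam c₀) {0}ᶜ := by
  unfold kk
  have hne : ∀ z ∈ ({0}ᶜ : Set ℂ), z ^ 2 ≠ 0 := fun z hz => pow_ne_zero 2 hz
  have hne' : ∀ z ∈ ({0}ᶜ : Set ℂ), ‖z‖ ^ 2 ≠ 0 := fun z hz => pow_ne_zero 2 (norm_ne_zero_iff.2 hz)
  have h1 : ContinuousOn (fun z : ℂ => (1 / z ^ 2).re) {0}ᶜ :=
    Complex.continuous_re.comp_continuousOn
      (continuousOn_const.div (continuous_id.pow 2).continuousOn hne)
  have h2 : ContinuousOn (fun z : ℂ => c₀ / ‖z‖ ^ 2) {0}ᶜ :=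
    continuousOn_const.div (continuous_norm.pow 2).continuousOn hne'
  exact (continuousOn_const.mul h1).add h2

/-- The event counted at time `j` is known at time `j h`. -/
theorem OcS_meas {W : ℝ → Ω → ℂ} {h : ℝ} (hh : 0 < h) (z₀ : ℂ) (δ R ε θ e : ℝ) (j : ℕ) {u : ℝ}
    (hu : (j : ℝ) * h ≤ u) : MeasurableSet[Blk W 0 u] (OcS W z₀ h δ R ε θ e j) := by
  have hi : ∀ i ≤ j, (i : ℝ) * h ≤ u := fun i hij => by
    have : (i : ℝ) ≤ j := by exact_mod_cast hij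
    nlinarith
  have hn : ∀ i ≤ j, Measurable[Blk W 0 u] (fun ω => ‖DiscAux.Z W z₀ h i ω‖) := fun i hij =>
    measurable_norm.comp (DiscAux.Z_meas hh z₀ i u (hi i hij))
  have h1 : AnS W z₀ h δ R j = ⋂ i ∈ Finset.range (j + 1), DiscAux.Ann W z₀ h δ R i := by
    ext ω
    simp [AnS, DiscAux.Ann]
  have h2 : FlS W z₀ h ε θ j = ⋃ i ∈ Finset.range (j + 1),
      (fun ω => DiscAux.A W z₀ h (kk 1 ε) i ω - Real.log ‖DiscAux.Z W z₀ h i ω‖) ⁻¹'
        Set.Ici θ := by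
    ext ω
    simp [FlS]
  have h3 : {ω | ‖DiscAux.Z W z₀ h j ω‖ ≤ e} =
      (fun ω => ‖DiscAux.Z W z₀ h j ω‖) ⁻¹' Set.Iic e := rfl
  unfold OcS
  refine MeasurableSet.inter (MeasurableSet.inter ?_ ?_) ?_
  · rw [h1]
    refine MeasurableSet.biInter (Finset.range (j + 1)).countable_toSet fun i hi' => ?_
    have hij : i ≤ j := by
      have : i < j + 1 := by simpa using hi'
      omega
    exact DiscAux.Ann_meas hh z₀ i (hi i hij)
  · rw [h2]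
    refine MeasurableSet.biUnion (Finset.range (j + 1)).countable_toSet fun i hi' => ?_
    have hij : i ≤ j := by
      have : i < j + 1 := by simpa using hi'
      omega
    have h4 := (DiscAux.A_meas hh (kk_meas 1 ε) z₀ i (hi i hij)).sub
      (Real.measurable_log.comp (hn i hij))
    exact h4 measurableSet_Ici
  · rw [h3]
    exact hn j le_rfl measurableSet_Iic

/-- The discrete occupation functional. -/
def Yl (W : ℝ → Ω → ℂ) (z₀ : ℂ) (c₁ ε θ e R : ℝ) (n t : ℕ) (ω : Ω) : ℝ≥0∞ :=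
  ∑ j ∈ Finset.Ioc ((t - 1) * 2 ^ n) (t * 2 ^ n), ENNReal.ofReal ((1 / 2) ^ n) *
    (OcS W z₀ ((1 / 2) ^ n) (1 / 2) R ε θ e j).indicator
      (fun ω => ENNReal.ofReal (Real.exp (DiscAux.A W z₀ ((1 / 2) ^ n) (kk 0 c₁) j ω))) ω

theorem Yl_meas {W : ℝ → Ω → ℂ} (z₀ : ℂ) (c₁ ε θ e R : ℝ) (n t : ℕ) :
    Measurable[Blk W 0 t] (Yl W z₀ c₁ ε θ e R n t) := by
  unfold Yl
  refine Finset.measurable_sum _ fun j hj => ?_
  rw [Finset.mem_Ioc] at hj
  have hh : (0 : ℝ) < (1 / 2) ^ n := by positivity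
  have h2 : (2 : ℝ) ^ n * (1 / 2) ^ n = 1 := by rw [← mul_pow]; norm_num
  have hu : (j : ℝ) * (1 / 2) ^ n ≤ (t : ℝ) := by
    have h3 : (j : ℝ) ≤ t * 2 ^ n := by exact_mod_cast hj.2
    calc (j : ℝ) * (1 / 2) ^ n ≤ t * 2 ^ n * (1 / 2) ^ n := mul_le_mul_of_nonneg_right h3 hh.le
      _ = t := by rw [mul_assoc, h2, mul_one]
  refine Measurable.const_mul ?_ _
  exact (ENNReal.measurable_ofReal.comp (Real.measurable_exp.comp
    (DiscAux.A_meas hh (kk_meas 0 c₁) z₀ j hu))).indicator (OcS_meas hh z₀ _ _ _ _ _ j hu)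

/-- The expectation of the discrete occupation functional. -/
theorem Yl_int {a b c K : ℝ} {W : ℝ → Ω → ℂ} (hW : Drv a b c K W μ) (z₀ : ℂ)
    (c₁ ε θ e R : ℝ) (n N : ℕ) :
    ∫⁻ ω, ∑ t ∈ Finset.range N, Yl W z₀ c₁ ε θ e R n (t + 1) ω ∂μ ≤
      ∑ j ∈ Finset.range (N * 2 ^ n + 1), ENNReal.ofReal ((1 / 2) ^ n) *
        ∫⁻ ω in OcS W z₀ ((1 / 2) ^ n) (1 / 2) R ε θ e j,
          ENNReal.ofReal (Real.exp (DiscAux.A W z₀ ((1 / 2) ^ n) (kk 0 c₁) j ω)) ∂μ := by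
  have hh : (0 : ℝ) < (1 / 2) ^ n := by positivity
  have hO : ∀ j : ℕ, MeasurableSet (OcS W z₀ ((1 / 2) ^ n) (1 / 2) R ε θ e j) := fun j =>
    Blk_le hW _ _ _ (OcS_meas hh z₀ _ _ _ _ _ j le_rfl)
  have hE : ∀ j : ℕ, Measurable fun ω =>
      ENNReal.ofReal (Real.exp (DiscAux.A W z₀ ((1 / 2) ^ n) (kk 0 c₁) j ω)) := fun j =>
    (ENNReal.measurable_ofReal.comp (Real.measurable_exp.comp
      (DiscAux.A_meas hh (kk_meas 0 c₁) z₀ j le_rfl))).mono (Blk_le hW _ _) le_rfl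
  have h1 : ∀ j : ℕ, ENNReal.ofReal ((1 / 2) ^ n) *
        ∫⁻ ω in OcS W z₀ ((1 / 2) ^ n) (1 / 2) R ε θ e j,
          ENNReal.ofReal (Real.exp (DiscAux.A W z₀ ((1 / 2) ^ n) (kk 0 c₁) j ω)) ∂μ =
      ∫⁻ ω, ENNReal.ofReal ((1 / 2) ^ n) *
        (OcS W z₀ ((1 / 2) ^ n) (1 / 2) R ε θ e j).indicator
          (fun ω => ENNReal.ofReal (Real.exp (DiscAux.A W z₀ ((1 / 2) ^ n) (kk 0 c₁) j ω))) ω
          ∂μ := by
    intro j
    rw [lintegral_const_mul _ ((hE j).indicator (hO j)), lintegral_indicator (hO j)]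
  simp_rw [h1]
  rw [← lintegral_finsetSum _ (fun j _ => ((hE j).indicator (hO j)).const_mul _)]
  refine lintegral_mono fun ω => ?_
  have h2 := sum_blocks (fun j => ENNReal.ofReal ((1 / 2) ^ n) *
        (OcS W z₀ ((1 / 2) ^ n) (1 / 2) R ε θ e j).indicator
          (fun ω => ENNReal.ofReal (Real.exp (DiscAux.A W z₀ ((1 / 2) ^ n) (kk 0 c₁) j ω))) ω)
    (2 ^ n) N
  exact h2

omit [MeasurableSpace Ω] in
/-- The lower bound of the discrete occupation functional. -/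
theorem low_bound {W : ℝ → Ω → ℂ} {z₀ : ℂ} {c₁ ε θ e : ℝ} (hc₁ : 0 < c₁) (he : 1 ≤ e) {ω : Ω}
    {t : ℕ} {g : ℝ → ℂ} (hU : Continuous fun t => W t ω) (h0 : W 0 ω = 0) (ht : 1 ≤ t)
    (hs : Sol (fun t => W t ω) z₀ t g) (hc : ∀ u ∈ Set.Icc (0 : ℝ) t, 3 / 4 ≤ ‖g u - W u ω‖)
    (hle : ∀ u ∈ Set.Icc ((t : ℝ) - 1) t, ‖g u - W u ω‖ ≤ e)
    (hfl : ∃ u ∈ Set.Icc (0 : ℝ) ((t : ℝ) - 1), θ < ph (fun t => W t ω) g ε u) :
    ∃ R₀ : ℝ, ∀ᶠ n : ℕ in atTop, ∀ R, R₀ ≤ R →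
      ENNReal.ofReal (Real.exp (c₁ * lk (fun t => W t ω) g 0 t - (2 * c₁ + 1))) ≤
        Yl W z₀ c₁ ε θ (2 * e) R n t ω := by
  set U : ℝ → ℂ := fun t => W t ω with hUdef
  have htR : (1 : ℝ) ≤ t := by exact_mod_cast ht
  have ht0 : (0 : ℝ) ≤ t := by linarith
  have ht1 : (0 : ℝ) ≤ (t : ℝ) - 1 := by linarith
  have hZc := EulerAux.contZ hU hs
  obtain ⟨s₁, hs₁, hmax⟩ := isCompact_Icc.exists_isMaxOn (⟨0, le_rfl, ht0⟩ :
    (Set.Icc (0 : ℝ) t).Nonempty) hZc.norm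
  obtain ⟨C, hCdef⟩ : ∃ C, C = ‖g s₁ - U s₁‖ := ⟨_, rfl⟩
  have hC : ∀ s ∈ Set.Icc (0 : ℝ) t, ‖g s - U s‖ ≤ C := fun s hs' => by
    rw [hCdef]; exact hmax hs'
  have hcU : ∀ u ∈ Set.Icc (0 : ℝ) t, 3 / 4 ≤ ‖g u - U u‖ := hc
  obtain ⟨u, hu, hph⟩ := hfl
  have hut : u ≤ t := by linarith [hu.2]
  have hsu : Sol U z₀ u g := hs.restrict hut
  have hs1 : Sol U z₀ ((t : ℝ) - 1) g := hs.restrict (by linarith)
  have hcm : ∀ {x : ℝ}, x ≤ t → ∀ s ∈ Set.Icc (0 : ℝ) x, s ∈ Set.Icc (0 : ℝ) t :=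
    fun hx s hs' => ⟨hs'.1, hs'.2.trans hx⟩
  -- the flag
  have hupos : 0 < ‖g u - U u‖ := by
    have := hcU u ⟨hu.1, hut⟩
    linarith
  have hF : ContinuousOn (fun z : ℂ => ‖z‖⁻¹) {0}ᶜ :=
    continuous_norm.continuousOn.inv₀ fun z hz => norm_ne_zero_iff.2 hz
  have hexp : ∀ (x : ℝ) {y : ℝ}, 0 < y → Real.exp x * y⁻¹ = Real.exp (x - Real.log y) := by
    intro x y hy
    rw [Real.exp_sub, Real.exp_log hy, div_eq_mul_inv]
  have hev1 := euler_event hU h0 (kk_cont 1 ε) hF (T := (t : ℝ) - 1) (δ := 1 / 2) (R := C + 1)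
    (m := Real.exp θ) hu.1 hu.2 (by norm_num) hsu
    (fun s hs' => ⟨by linarith [hcU s (hcm hut s hs')], by linarith [hC s (hcm hut s hs')]⟩)
    (by
      rw [hexp _ hupos]
      exact Real.exp_lt_exp.2 hph)
  -- the sum
  have hev2 := EulerAux.sum_close hU h0 (kk_cont 0 c₁) (δ := 1 / 2) (R := C + 1) (c := 3 / 4)
    (C := C) ht1 (by norm_num) hs1 (fun s hs' => hcU s (hcm (by linarith) s hs')) (by norm_num)
    (fun s hs' => hC s (hcm (by linarith) s hs')) (by linarith) one_pos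
  -- the scheme
  have hev3 := EulerAux.eul_close hU h0 (δ := 1 / 2) (c := 3 / 4) ht0 (by norm_num) hs hcU
    (by norm_num) (η := 1 / 4) (by norm_num)
  -- the clock
  have hint : ∀ x y : ℝ, 0 ≤ x → x ≤ y → y ≤ t →
      IntervalIntegrable (fun s => 1 / ‖g s - U s‖ ^ 2) volume x y := by
    intro x y hx hxy hy
    apply ContinuousOn.intervalIntegrable
    rw [Set.uIcc_of_le hxy]
    refine continuousOn_const.div ((hZc.mono (Set.Icc_subset_Icc hx hy)).norm.pow 2) ?_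
    intro s hs'
    have := hcU s ⟨hx.trans hs'.1, hs'.2.trans hy⟩
    positivity
  have hlk : lk U g 0 t ≤ lk U g 0 ((t : ℝ) - 1) + 2 := by
    have h1 : lk U g 0 t = lk U g 0 ((t : ℝ) - 1) + lk U g ((t : ℝ) - 1) t :=
      (intervalIntegral.integral_add_adjacent_intervals (hint _ _ le_rfl ht1 (by linarith))
        (hint _ _ ht1 (by linarith) le_rfl)).symm
    have h2 : lk U g ((t : ℝ) - 1) t ≤ ∫ s in ((t : ℝ) - 1)..t, (2 : ℝ) := by
      refine intervalIntegral.integral_mono_on (by linarith) (hint _ _ ht1 (by linarith) le_rfl)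
        intervalIntegrable_const ?_
      intro s hs'
      have h3 := hcU s ⟨ht1.trans hs'.1, hs'.2⟩
      rw [div_le_iff₀ (by positivity)]
      nlinarith
    rw [intervalIntegral.integral_const] at h2
    simp only [sub_sub_cancel, smul_eq_mul, one_mul] at h2
    rw [h1]
    linarith
  have hkk : ∫ s in (0 : ℝ)..((t : ℝ) - 1), kk 0 c₁ (g s - U s) = c₁ * lk U g 0 ((t : ℝ) - 1) := by
    rw [lk, ← intervalIntegral.integral_const_mul]
    congr 1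
    funext s
    simp only [kk]
    ring
  refine ⟨C + 1, ?_⟩
  filter_upwards [hev1, hev2, hev3] with n h1 h2 h3 R hR
  obtain ⟨i₀, hi₀, -, hi₀'⟩ := h1
  have hh : (0 : ℝ) < (1 / 2) ^ n := by positivity
  have h22 : (2 : ℝ) ^ n * (1 / 2) ^ n = 1 := by rw [← mul_pow]; norm_num
  have hjt : EulerAux.jn t n = t * 2 ^ n := by
    rw [EulerAux.jn]
    have h4 : (t : ℝ) * 2 ^ n = ((t * 2 ^ n : ℕ) : ℝ) := by push_cast; ring
    rw [h4, Nat.floor_natCast]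
  have hjt1 : EulerAux.jn ((t : ℝ) - 1) n = (t - 1) * 2 ^ n := by
    rw [EulerAux.jn]
    have h4 : ((t : ℝ) - 1) * 2 ^ n = (((t - 1) * 2 ^ n : ℕ) : ℝ) := by
      rw [Nat.cast_mul, Nat.cast_sub ht]; push_cast; ring
    rw [h4, Nat.floor_natCast]
  rw [hjt] at h3
  rw [hjt1, hkk] at h2
  have hann : ∀ i ≤ t * 2 ^ n, (i : ℝ) * (1 / 2) ^ n ∈ Set.Icc (0 : ℝ) t := by
    intro i hi
    refine ⟨by positivity, ?_⟩
    have h4 : (i : ℝ) ≤ t * 2 ^ n := by exact_mod_cast hi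
    calc (i : ℝ) * (1 / 2) ^ n ≤ t * 2 ^ n * (1 / 2) ^ n := mul_le_mul_of_nonneg_right h4 hh.le
      _ = t := by rw [mul_assoc, h22, mul_one]
  have hlo : ∀ i ≤ t * 2 ^ n, 1 / 2 ≤ ‖eul U z₀ ((1 / 2) ^ n) i‖ := by
    intro i hi
    have h4 := h3 i hi
    have h5 := hcU _ (hann i hi)
    have h6 := norm_sub_norm_le (g ((i : ℝ) * (1 / 2) ^ n) - U ((i : ℝ) * (1 / 2) ^ n))
      (eul U z₀ ((1 / 2) ^ n) i)
    rw [norm_sub_rev (g ((i : ℝ) * (1 / 2) ^ n) - U ((i : ℝ) * (1 / 2) ^ n))] at h6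
    linarith
  have hup : ∀ i ≤ t * 2 ^ n, ‖eul U z₀ ((1 / 2) ^ n) i‖ ≤
      ‖g ((i : ℝ) * (1 / 2) ^ n) - U ((i : ℝ) * (1 / 2) ^ n)‖ + 1 / 4 := by
    intro i hi
    have h4 := h3 i hi
    have h6 := norm_sub_norm_le (eul U z₀ ((1 / 2) ^ n) i)
      (g ((i : ℝ) * (1 / 2) ^ n) - U ((i : ℝ) * (1 / 2) ^ n))
    linarith
  have hi₀n : i₀ ≤ (t - 1) * 2 ^ n := by
    have h4 : (i₀ : ℝ) * (1 / 2) ^ n * 2 ^ n ≤ ((t : ℝ) - 1) * 2 ^ n :=
      mul_le_mul_of_nonneg_right hi₀ (by positivity)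
    have h5 : (i₀ : ℝ) * (1 / 2) ^ n * 2 ^ n = i₀ := by
      rw [mul_assoc, mul_comm ((1 / 2 : ℝ) ^ n), h22, mul_one]
    have h6 : (i₀ : ℝ) ≤ (((t - 1) * 2 ^ n : ℕ) : ℝ) := by
      rw [Nat.cast_mul, Nat.cast_sub ht]; push_cast; linarith
    exact_mod_cast h6
  have hmul : (t - 1) * 2 ^ n ≤ t * 2 ^ n := Nat.mul_le_mul_right _ (Nat.sub_le t 1)
  have hi₀pos : 0 < ‖eul U z₀ ((1 / 2) ^ n) i₀‖ := by
    have := hlo i₀ (hi₀n.trans hmul)
    linarith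
  rw [hexp _ hi₀pos] at hi₀'
  have hflag := Real.exp_le_exp.1 hi₀'
  -- every term
  have hterm : ∀ j ∈ Finset.Ioc ((t - 1) * 2 ^ n) (t * 2 ^ n),
      ENNReal.ofReal ((1 / 2) ^ n) *
        ENNReal.ofReal (Real.exp (c₁ * lk U g 0 t - (2 * c₁ + 1))) ≤
      ENNReal.ofReal ((1 / 2) ^ n) *
        (OcS W z₀ ((1 / 2) ^ n) (1 / 2) R ε θ (2 * e) j).indicator
        (fun ω => ENNReal.ofReal (Real.exp (DiscAux.A W z₀ ((1 / 2) ^ n) (kk 0 c₁) j ω))) ω := by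
    intro j hj
    rw [Finset.mem_Ioc] at hj
    have hmem : ω ∈ OcS W z₀ ((1 / 2) ^ n) (1 / 2) R ε θ (2 * e) j := by
      refine ⟨⟨?_, ?_⟩, ?_⟩
      · intro i hi
        have h4 : i ≤ t * 2 ^ n := hi.trans hj.2
        refine ⟨hlo i h4, ?_⟩
        have h5 := hup i h4
        have h6 := hC _ (hann i h4)
        change ‖eul U z₀ ((1 / 2) ^ n) i‖ ≤ R
        linarith
      · exact ⟨i₀, hi₀n.trans hj.1.le, hflag⟩
      · change ‖eul U z₀ ((1 / 2) ^ n) j‖ ≤ 2 * e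
        have h5 := hup j hj.2
        have h6 : (t : ℝ) - 1 ≤ (j : ℝ) * (1 / 2) ^ n := by
          have h7 : ((t : ℝ) - 1) * 2 ^ n ≤ j := by
            have h8 : (((t - 1) * 2 ^ n : ℕ) : ℝ) ≤ j := by exact_mod_cast hj.1.le
            rw [Nat.cast_mul, Nat.cast_sub ht] at h8
            push_cast at h8
            exact h8
          calc (t : ℝ) - 1 = ((t : ℝ) - 1) * 2 ^ n * (1 / 2) ^ n := by
                rw [mul_assoc, h22, mul_one]
            _ ≤ _ := mul_le_mul_of_nonneg_right h7 hh.le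
        have h7 := hle _ ⟨h6, (hann j hj.2).2⟩
        change ‖g ((j : ℝ) * (1 / 2) ^ n) - U ((j : ℝ) * (1 / 2) ^ n)‖ ≤ e at h7
        linarith
    rw [Set.indicator_of_mem hmem]
    refine mul_le_mul_right (ENNReal.ofReal_le_ofReal (Real.exp_le_exp.2 ?_)) _
    have h4 : ∑ i ∈ Finset.range ((t - 1) * 2 ^ n),
        (1 / 2) ^ n * kk 0 c₁ (eul U z₀ ((1 / 2) ^ n) i) ≤
        DiscAux.A W z₀ ((1 / 2) ^ n) (kk 0 c₁) j ω := by
      unfold DiscAux.A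
      refine Finset.sum_le_sum_of_subset_of_nonneg ?_ ?_
      · intro i hi
        rw [Finset.mem_range] at hi ⊢
        omega
      · intro i _ _
        have h5 : 0 ≤ kk 0 c₁ (DiscAux.Z W z₀ ((1 / 2) ^ n) i ω) := by
          simp only [kk, mul_zero, zero_mul, zero_add]
          positivity
        positivity
    have h5 := (abs_le.1 h2).1
    have h6 := mul_le_mul_of_nonneg_left hlk hc₁.le
    linarith
  unfold Yl
  refine le_trans ?_ (Finset.sum_le_sum hterm)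
  rw [Finset.sum_const, Nat.card_Ioc, nsmul_eq_mul, ← mul_assoc]
  have h4 : ((t * 2 ^ n - (t - 1) * 2 ^ n : ℕ) : ℝ≥0∞) * ENNReal.ofReal ((1 / 2) ^ n) = 1 := by
    have h5 : t * 2 ^ n - (t - 1) * 2 ^ n = 2 ^ n := by
      obtain ⟨k, rfl⟩ : ∃ k, t = k + 1 := ⟨t - 1, by omega⟩
      rw [Nat.add_sub_cancel, add_mul, one_mul, Nat.add_sub_cancel_left]
    rw [h5, ← ENNReal.ofReal_natCast, ← ENNReal.ofReal_mul (by positivity)]
    push_cast
    rw [h22, ENNReal.ofReal_one]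
  rw [h4, one_mul]

end TROCC

/-- TR-OCC. The occupation functional of a single particle.

Proof. Let `C c₁ ε q p` be as in `occ_disc`. For `l : ℕ` let `R_l = 2 ^ l` (`l ≥ 1`),
`C'_l, h₀_l` the constants of `occ_disc`, and choose `N_l ≥ l` with `h_l := (1/2) ^ N_l ≤ h₀_l`
and `C'_l √h_l ≤ 1 / (l + 1)`. Define for `t ≥ 1`
`Y_l t ω = ∑ j ∈ Ioc ((t-1) 2^N_l) (t 2^N_l), ofReal h_l * indicator (OcS W z₀ h_l (1/2) R_l ε θ
(2 e) j) (ofReal (exp (A j)))`, `Y t = liminf_l Y_l t`, `Y 0 = 0`.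
* Measurability: every term is measurable for `Blk W 0 (j h_l) ≤ Blk W 0 t` (`DiscAux.Z_meas`,
  `DiscAux.A_meas`), and the `liminf` of a sequence is measurable (`Measurable.liminf`).
* Expectation: `∑ t < N, ∫ Y (t+1) ≤ liminf_l ∑ t < N, ∫ Y_l (t+1)` (Fatou, `lintegral_liminf_le`,
  and superadditivity of the liminf; or apply Fatou to the sum, `∑ liminf ≤ liminf ∑`), and
  `occ_disc` with `J = N 2^N_l + 1` bounds this by
  `C (2 e) ^ p (1 + |z₀|) ^ p exp ((N + 1) / (l + 1)) exp (-q θ)`, whose limit is finite; the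
  constant becomes `2 ^ p C`.
* Lower bound: fix `ω, t, g` as in the statement, `U = W · ω`. The solution is bounded on `[0,t]`.
  For `l` large `eul_close` (Euler.lean; `δ = 1/2`, `c = 3/4`, error `η` small) shows
  `1/2 ≤ |Z_i| ≤ R_l` for `i ≤ t 2^N_l` and `|Z_i| ≤ e + η ≤ 2 e` for `i ≥ (t-1) 2^N_l`.
  Let `u ∈ [0,t-1]` with `θ < ph U g ε u`: `sum_close` (with `k = kk 1 ε`, `t := u`; if `u = 0`
  trivial) and the continuity of `Z` and `log` show that for `l` large the index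
  `i = jn u N_l ≤ (t-1) 2^N_l` satisfies `θ ≤ A W z₀ h (kk 1 ε) i - log |Z_i|`: the flag is up at
  all `j ≥ (t-1) 2^N_l`. Finally `kk 0 c₁ ≥ 0`, so for `j ≥ (t-1) 2^N_l`
  `A (kk 0 c₁) j ≥ A (kk 0 c₁) ((t-1) 2^N_l) ≥ c₁ lk 0 (t-1) - 1 ≥ c₁ lk 0 t - 2 c₁ - 1` for `l`
  large (`sum_close`; `lk (t-1) t ≤ 16/9` as `|Z| ≥ 3/4`). So
  `Y_l t ω ≥ exp (c₁ lk 0 t - 2 c₁ - 1)` for `l` large, and so is the liminf. Enlarge `C`.
(`Drv` gives `W 0 ω = 0` and the continuity of the path.) -/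
theorem occ [IsProbabilityMeasure μ] {a b c K : ℝ} (ha : 0 ≤ a) (hb : 0 ≤ b) (hK : 0 ≤ K)
    (hS : HasS a b c) :
    ∃ (C c₁ ε q : ℝ) (p : ℕ), 0 < C ∧ 0 < c₁ ∧ 0 < ε ∧ ε ≤ 2 ∧ 2 < q ∧
      ∀ W : ℝ → Ω → ℂ, Drv a b c K W μ → ∀ (z₀ : ℂ) (θ e : ℝ), 1 ≤ e →
        ∃ Y : ℕ → Ω → ℝ≥0∞, (∀ t : ℕ, Measurable[Blk W 0 t] (Y t)) ∧
          (∀ N : ℕ, ∑ t ∈ Finset.range N, ∫⁻ ω, Y (t + 1) ω ∂μ ≤
            ENNReal.ofReal (C * e ^ p * (1 + ‖z₀‖) ^ p * Real.exp (-(q * θ)))) ∧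
          ∀ (ω : Ω) (t : ℕ) (g : ℝ → ℂ), 1 ≤ t → Sol (fun t => W t ω) z₀ t g →
            (∀ u ∈ Set.Icc (0 : ℝ) t, 3 / 4 ≤ ‖g u - W u ω‖) →
            (∀ u ∈ Set.Icc ((t : ℝ) - 1) t, ‖g u - W u ω‖ ≤ e) →
            (∃ u ∈ Set.Icc (0 : ℝ) ((t : ℝ) - 1), θ < ph (fun t => W t ω) g ε u) →
            ENNReal.ofReal (Real.exp (c₁ * lk (fun t => W t ω) g 0 t)) ≤
              ENNReal.ofReal C * Y t ω := by
  obtain ⟨C, c₁, ε, q, p, hC, hc₁, hε, hε2, hq, hocc⟩ := occ_disc (μ := μ) ha hb hK hS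
  -- the meshes
  have hR : ∀ l : ℕ, (1 : ℝ) ≤ 2 ^ l := fun l => one_le_pow₀ (by norm_num)
  choose C' hC' h₀ hh₀ hocc' using fun l : ℕ => hocc (2 ^ l) (hR l)
  have hN : ∀ l : ℕ, ∃ n : ℕ, l ≤ n ∧ ((1 : ℝ) / 2) ^ n ≤ h₀ l ∧
      C' l * √((1 / 2) ^ n) ≤ 1 / ((l : ℝ) + 1) := by
    intro l
    have h1 : Tendsto (fun n : ℕ => C' l * √(((1 : ℝ) / 2) ^ n)) atTop (𝓝 (C' l * √0)) :=
      ((Real.continuous_sqrt.tendsto 0).comp EulerAux.tendsto_h).const_mul _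
    rw [Real.sqrt_zero, mul_zero] at h1
    have h2 : (0 : ℝ) < 1 / ((l : ℝ) + 1) := by positivity
    obtain ⟨n, hn1, hn2, hn3⟩ := ((eventually_ge_atTop l).and
      (((tendsto_order.1 EulerAux.tendsto_h).2 _ (hh₀ l)).and
        ((tendsto_order.1 h1).2 _ h2))).exists
    exact ⟨n, hn1, hn2.le, hn3.le⟩
  choose n hnl hn₀ hn' using hN
  have hn : Tendsto n atTop atTop := tendsto_atTop_mono hnl tendsto_id
  refine ⟨2 ^ p * C + Real.exp (2 * c₁ + 1), c₁, ε, q, p, by positivity, hc₁, hε, hε2, hq, ?_⟩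
  intro W hW z₀ θ e he
  have he0 : (0 : ℝ) ≤ e := by linarith
  refine ⟨fun t ω => liminf (fun l => TROCC.Yl W z₀ c₁ ε θ (2 * e) (2 ^ l) (n l) t ω) atTop,
    ?_, ?_, ?_⟩
  · intro t
    exact Measurable.liminf fun l => TROCC.Yl_meas z₀ c₁ ε θ (2 * e) (2 ^ l) (n l) t
  · intro N
    have hYm : ∀ (l t : ℕ), Measurable (TROCC.Yl W z₀ c₁ ε θ (2 * e) (2 ^ l) (n l) t) :=
      fun l t => (TROCC.Yl_meas z₀ c₁ ε θ (2 * e) (2 ^ l) (n l) t).mono (Blk_le hW _ _) le_rfl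
    have hexp : ∀ l : ℕ, ∫⁻ ω, ∑ t ∈ Finset.range N,
        TROCC.Yl W z₀ c₁ ε θ (2 * e) (2 ^ l) (n l) (t + 1) ω ∂μ ≤
        ENNReal.ofReal (C * (2 * e) ^ p * (1 + ‖z₀‖) ^ p *
          Real.exp (((N : ℝ) + 1) * (1 / ((l : ℝ) + 1))) * Real.exp (-(q * θ))) := by
      intro l
      have hh : (0 : ℝ) < (1 / 2) ^ n l := by positivity
      refine (TROCC.Yl_int hW z₀ c₁ ε θ (2 * e) (2 ^ l) (n l) N).trans ?_
      refine (hocc' l W hW _ hh (hn₀ l) z₀ θ (2 * e) (by linarith) (N * 2 ^ n l + 1)).trans ?_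
      refine ENNReal.ofReal_le_ofReal ?_
      have h1 : (((N * 2 ^ n l + 1 : ℕ) : ℝ)) * (1 / 2) ^ n l ≤ N + 1 := by
        have h22 : (2 : ℝ) ^ n l * (1 / 2) ^ n l = 1 := by rw [← mul_pow]; norm_num
        have h3 : ((1 : ℝ) / 2) ^ n l ≤ 1 := pow_le_one₀ (by norm_num) (by norm_num)
        push_cast
        rw [add_mul, mul_assoc, h22]
        linarith
      have h2 : C' l * √((1 / 2) ^ n l) * ((((N * 2 ^ n l + 1 : ℕ) : ℝ)) * (1 / 2) ^ n l) ≤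
          ((N : ℝ) + 1) * (1 / ((l : ℝ) + 1)) := by
        rw [mul_comm]
        have h4 := (hC' l).le
        exact mul_le_mul h1 (hn' l) (by positivity) (by positivity)
      have h3 := Real.exp_le_exp.2 h2
      gcongr
    have hsum : ∑ t ∈ Finset.range N, ∫⁻ ω,
        liminf (fun l => TROCC.Yl W z₀ c₁ ε θ (2 * e) (2 ^ l) (n l) (t + 1) ω) atTop ∂μ ≤
        liminf (fun l => ∫⁻ ω, ∑ t ∈ Finset.range N,
          TROCC.Yl W z₀ c₁ ε θ (2 * e) (2 ^ l) (n l) (t + 1) ω ∂μ) atTop := by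
      rw [← lintegral_finsetSum _ (fun t _ => Measurable.liminf fun l => hYm l (t + 1))]
      refine (lintegral_mono fun ω => TROCC.sum_liminf N
        (fun t l => TROCC.Yl W z₀ c₁ ε θ (2 * e) (2 ^ l) (n l) (t + 1) ω)).trans ?_
      exact lintegral_liminf_le fun l => Finset.measurable_sum _ fun t _ => hYm l (t + 1)
    refine hsum.trans ((liminf_le_liminf (Eventually.of_forall hexp)).trans ?_)
    have hlim : Tendsto (fun l : ℕ => ENNReal.ofReal (C * (2 * e) ^ p * (1 + ‖z₀‖) ^ p *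
        Real.exp (((N : ℝ) + 1) * (1 / ((l : ℝ) + 1))) * Real.exp (-(q * θ)))) atTop
        (𝓝 (ENNReal.ofReal (C * (2 * e) ^ p * (1 + ‖z₀‖) ^ p *
          Real.exp (((N : ℝ) + 1) * 0) * Real.exp (-(q * θ))))) := by
      refine ENNReal.tendsto_ofReal (Tendsto.mul_const _ (Tendsto.const_mul _ ?_))
      exact (Real.continuous_exp.tendsto _).comp
        (tendsto_one_div_add_atTop_nhds_zero_nat.const_mul _)
    rw [hlim.liminf_eq]
    refine ENNReal.ofReal_le_ofReal ?_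
    rw [mul_zero, Real.exp_zero, mul_one, mul_pow]
    have h5 : C * (2 ^ p * e ^ p) ≤ (2 ^ p * C + Real.exp (2 * c₁ + 1)) * e ^ p := by
      have : 0 ≤ Real.exp (2 * c₁ + 1) * e ^ p := by positivity
      nlinarith
    gcongr
  · intro ω t g ht hs hc hle hfl
    obtain ⟨R₀, hR₀⟩ := TROCC.low_bound hc₁ he (hW.cont ω) (hW.zero 0 le_rfl ω) ht hs hc hle hfl
    have h1 : ENNReal.ofReal (Real.exp (c₁ * lk (fun t => W t ω) g 0 t - (2 * c₁ + 1))) ≤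
        liminf (fun l => TROCC.Yl W z₀ c₁ ε θ (2 * e) (2 ^ l) (n l) t ω) atTop := by
      refine le_liminf_of_le (by isBoundedDefault) ?_
      have h2 : ∀ᶠ l : ℕ in atTop, R₀ ≤ (2 : ℝ) ^ l :=
        (tendsto_pow_atTop_atTop_of_one_lt (by norm_num : (1 : ℝ) < 2)).eventually_ge_atTop R₀
      filter_upwards [hn.eventually hR₀, h2] with l h3 h4
      exact h3 _ h4
    refine le_trans ?_ (mul_le_mul_right h1 _)
    rw [← ENNReal.ofReal_mul (by positivity)]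
    refine ENNReal.ofReal_le_ofReal ?_
    have h2 : Real.exp (c₁ * lk (fun t => W t ω) g 0 t) = Real.exp (2 * c₁ + 1) *
        Real.exp (c₁ * lk (fun t => W t ω) g 0 t - (2 * c₁ + 1)) := by
      rw [← Real.exp_add]
      congr 1
      ring
    rw [h2]
    refine mul_le_mul_of_nonneg_right ?_ (Real.exp_pos _).le
    have : 0 ≤ 2 ^ p * C := by positivity
    linarith

end

end Pool.Agent.SLE
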