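import Pool.Agent.Lib.MP_c17912_pr_TR.Base

set_option autoImplicit false

open MeasureTheory ProbabilityTheory Filter
open scoped NNReal ENNReal Topology Real

namespace Pool.Agent.SLE

noncomputable section

namespace TRSCL

theorem rr_pos (m : ℕ) : 0 < rr m := by
  unfold rr
  positivity

theorem rr_add (M m : ℕ) : rr (M + m) = rr M * rr m := by
  unfold rr
  exact pow_add _ _ _

theorem four_rr (m : ℕ) : (4 : ℝ) ^ m * rr m ^ 2 = 1 := by
  unfold rr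
  rw [← pow_mul, mul_comm m 2, pow_mul, ← mul_pow]
  norm_num

theorem diff_eq (U g : ℝ → ℂ) (s r : ℝ) {τ : ℝ} (hτ : 0 ≤ τ) :
    gs U g s r τ - psub U s r τ = r⁻¹ • (g (s + r ^ 2 * τ) - U (s + r ^ 2 * τ)) := by
  unfold gs psub
  rw [max_eq_left hτ, ← smul_sub]
  congr 1
  ring

theorem norm_eq (U g : ℝ → ℂ) (s : ℝ) {r τ : ℝ} (hr : 0 < r) (hτ : 0 ≤ τ) :
    ‖gs U g s r τ - psub U s r τ‖ = r⁻¹ * ‖g (s + r ^ 2 * τ) - U (s + r ^ 2 * τ)‖ := by
  rw [diff_eq U g s r hτ, norm_smul, Real.norm_eq_abs, abs_of_pos (inv_pos.2 hr)]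

end TRSCL

/-- TR-SCL1. Low cells of the shifted and scaled solution (see `Sol.shift`).

Proof. For `τ ≥ 0`: `gs U g s r τ - psub U s r τ = r⁻¹ • (g (s + r²τ) - U (s + r²τ))`. The time
`τ` is in the cell `j` of the mesh `(rr m)^2` iff `s₀ r² + r² τ` (`r = rr M`) is in the cell
`s₀ 4^m + j` of the mesh `(rr (M+m))^2 = r² 4^(-m)`, and `‖r⁻¹ • Z‖ ≤ rr m` iff
`‖Z‖ ≤ r * rr m = rr (M + m)`. -/
theorem low_shift (U g : ℝ → ℂ) (s₀ M m j : ℕ) :
    low (psub U ((s₀ : ℝ) * rr M ^ 2) (rr M)) (gs U g ((s₀ : ℝ) * rr M ^ 2) (rr M)) (rr m) j ↔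
      low U g (rr (M + m)) (s₀ * 4 ^ m + j) := by
  have hM := TRSCL.rr_pos M
  have hm := TRSCL.rr_pos m
  have h4 := TRSCL.four_rr m
  have hadd := TRSCL.rr_add M m
  have hM2 : 0 < rr M ^ 2 := by positivity
  have hcast : (((s₀ * 4 ^ m + j : ℕ) : ℝ)) = (s₀ : ℝ) * 4 ^ m + j := by push_cast; ring
  have key : ∀ x : ℝ, ((s₀ : ℝ) * 4 ^ m + x) * rr (M + m) ^ 2 =
      (s₀ : ℝ) * rr M ^ 2 + rr M ^ 2 * (x * rr m ^ 2) := by
    intro x
    rw [hadd]
    linear_combination ((s₀ : ℝ) * rr M ^ 2) * h4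
  unfold low
  rw [hcast]
  constructor
  · rintro ⟨u, ⟨hu1, hu2⟩, hu⟩
    have hu0 : 0 ≤ u := le_trans (by positivity) hu1
    rw [TRSCL.norm_eq U g _ hM hu0] at hu
    refine ⟨(s₀ : ℝ) * rr M ^ 2 + rr M ^ 2 * u, ⟨?_, ?_⟩, ?_⟩
    · rw [key]
      have := mul_le_mul_of_nonneg_left hu1 hM2.le
      linarith
    · rw [add_assoc, key]
      have := mul_le_mul_of_nonneg_left hu2 hM2.le
      linarith
    · rw [hadd]
      rwa [inv_mul_le_iff₀ hM] at hu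
  · rintro ⟨T, ⟨hT1, hT2⟩, hT⟩
    rw [key] at hT1
    rw [add_assoc, key] at hT2
    obtain ⟨u, hu⟩ : ∃ u, u = (T - (s₀ : ℝ) * rr M ^ 2) / rr M ^ 2 := ⟨_, rfl⟩
    have hTu : (s₀ : ℝ) * rr M ^ 2 + rr M ^ 2 * u = T := by
      rw [hu]
      field_simp
      ring
    rw [← hTu] at hT1 hT2 hT
    have h1 : (j : ℝ) * rr m ^ 2 ≤ u := le_of_mul_le_mul_left (by linarith) hM2
    have h2 : u ≤ ((j : ℝ) + 1) * rr m ^ 2 := le_of_mul_le_mul_left (by linarith) hM2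
    have hu0 : 0 ≤ u := le_trans (by positivity) h1
    refine ⟨u, ⟨h1, h2⟩, ?_⟩
    rw [TRSCL.norm_eq U g _ hM hu0, inv_mul_le_iff₀ hM, ← hadd]
    exact hT

/-- TR-SCL2. The clock is invariant under scaling. -/
theorem lk_scale (U g : ℝ → ℂ) {r : ℝ} (hr : 0 < r) {s t : ℝ} (hs : 0 ≤ s) (hst : s ≤ t) :
    lk (psub U 0 r) (gs U g 0 r) s t = lk U g (s * r ^ 2) (t * r ^ 2) := by
  unfold lk
  have h1 : (∫ u in s..t, 1 / ‖gs U g 0 r u - psub U 0 r u‖ ^ 2) =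
      ∫ u in s..t, r ^ 2 * (1 / ‖g (r ^ 2 * u) - U (r ^ 2 * u)‖ ^ 2) := by
    refine intervalIntegral.integral_congr ?_
    intro u hu
    rw [Set.uIcc_of_le hst] at hu
    have hu0 : 0 ≤ u := hs.trans hu.1
    change 1 / ‖gs U g 0 r u - psub U 0 r u‖ ^ 2 =
      r ^ 2 * (1 / ‖g (r ^ 2 * u) - U (r ^ 2 * u)‖ ^ 2)
    rw [TRSCL.norm_eq U g 0 hr hu0, zero_add, mul_pow, inv_pow]
    rw [one_div, mul_inv, inv_inv, one_div]
  rw [h1, intervalIntegral.integral_const_mul,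
    intervalIntegral.mul_integral_comp_mul_left
      (f := fun v => 1 / ‖g v - U v‖ ^ 2) (r ^ 2), mul_comm s, mul_comm t]

/-- TR-SCL3. `XX` and `NN` at the scale `rr M` are those of the scaled solution at scale `1`
(use `low_shift` with `s₀ = 0`, `m = 0`, `rr 0 = 1`, and `lk_scale`). -/
theorem XX_scale (U g : ℝ → ℂ) (M N : ℕ) :
    XX (psub U 0 (rr M)) (gs U g 0 (rr M)) 1 N = XX U g (rr M) N ∧
      NN (psub U 0 (rr M)) (gs U g 0 (rr M)) 1 N = NN U g (rr M) N ∧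
      (∀ j, tr (psub U 0 (rr M)) (gs U g 0 (rr M)) 1 j ↔ tr U g (rr M) j) ∧
      ∀ s L, rider (psub U 0 (rr M)) (gs U g 0 (rr M)) 1 s L ↔ rider U g (rr M) s L := by
  have h0 : rr 0 = 1 := by
    unfold rr
    exact pow_zero _
  have hlow : ∀ j, low (psub U 0 (rr M)) (gs U g 0 (rr M)) 1 j ↔ low U g (rr M) j := by
    intro j
    have h := low_shift U g 0 M 0 j
    rw [h0, Nat.cast_zero, zero_mul, Nat.zero_mul, Nat.zero_add, Nat.add_zero] at h
    exact h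
  have htr : ∀ j, tr (psub U 0 (rr M)) (gs U g 0 (rr M)) 1 j ↔ tr U g (rr M) j := by
    intro j
    unfold tr
    rw [hlow j, hlow (j + 1)]
  refine ⟨?_, ?_, htr, ?_⟩
  · unfold XX
    refine Finset.sum_congr rfl fun j _ => ?_
    have hlk : lk (psub U 0 (rr M)) (gs U g 0 (rr M)) ((j : ℝ) * 1 ^ 2)
        (((j : ℝ) + 1) * 1 ^ 2) = lk U g ((j : ℝ) * rr M ^ 2) (((j : ℝ) + 1) * rr M ^ 2) := by
      rw [one_pow, mul_one, mul_one]
      exact lk_scale U g (TRSCL.rr_pos M) (Nat.cast_nonneg j) (by linarith)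
    by_cases hj : low U g (rr M) j
    · rw [if_pos hj, if_pos ((hlow j).2 hj)]
    · rw [if_neg hj, if_neg fun h => hj ((hlow j).1 h), hlk]
  · classical
    unfold NN
    refine congrArg Finset.card ?_
    ext j
    rw [Finset.mem_filter, Finset.mem_filter]
    exact and_congr_right fun _ => htr j
  · intro s L
    unfold rider
    exact forall_congr' fun i => imp_congr_right fun _ => hlow (s + i)

end

end Pool.Agent.SLE
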