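import Pool.Agent.Lib.MP_c17912_pr_TR.Base
import Pool.Agent.Lib.MP_c17912_pr.Euler

set_option autoImplicit false

open MeasureTheory ProbabilityTheory Filter
open scoped NNReal ENNReal Topology Real

namespace Pool.Agent.SLE

noncomputable section

private lemma cru_last {f : ℝ → ℝ} {a b B : ℝ} (hab : a ≤ b) (hf : ContinuousOn f (Set.Icc a b))
    (ha : f a ≤ B) (hb : B < f b) :
    ∃ c ∈ Set.Icc a b, f c = B ∧ ∀ u ∈ Set.Icc c b, B ≤ f u := by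
  have hcl : IsClosed (Set.Icc a b ∩ f ⁻¹' Set.Iic B) :=
    hf.preimage_isClosed_of_isClosed isClosed_Icc isClosed_Iic
  have hco : IsCompact (Set.Icc a b ∩ f ⁻¹' Set.Iic B) :=
    isCompact_Icc.of_isClosed_subset hcl Set.inter_subset_left
  have hne : (Set.Icc a b ∩ f ⁻¹' Set.Iic B).Nonempty := ⟨a, ⟨le_refl a, hab⟩, ha⟩
  have hmem := hco.sSup_mem hne
  set c := sSup (Set.Icc a b ∩ f ⁻¹' Set.Iic B) with hc
  have hle : ∀ x ∈ Set.Icc a b, f x ≤ B → x ≤ c := fun x hx hx' =>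
    le_csSup hco.bddAbove ⟨hx, hx'⟩
  have hcb : Set.Icc c b ⊆ Set.Icc a b := Set.Icc_subset_Icc_left hmem.1.1
  obtain ⟨x, hx, hxB⟩ := intermediate_value_Icc hmem.1.2 (hf.mono hcb) ⟨hmem.2, hb.le⟩
  have hxc : x = c := le_antisymm (hle x (hcb hx) hxB.le) hx.1
  rw [hxc] at hxB
  refine ⟨c, hmem.1, hxB, fun u hu => ?_⟩
  by_contra h
  push Not at h
  have h1 : u = c := le_antisymm (hle u (hcb hu) h.le) hu.1
  rw [h1, hxB] at h
  exact lt_irrefl _ h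

private lemma cru_first {f : ℝ → ℝ} {a b B : ℝ} (hab : a ≤ b) (hf : ContinuousOn f (Set.Icc a b))
    (ha : B < f a) (hb : f b ≤ B) :
    ∃ c ∈ Set.Icc a b, f c = B ∧ ∀ u ∈ Set.Icc a c, B ≤ f u := by
  have h1 : ContinuousOn (fun x => f (-x)) (Set.Icc (-b) (-a)) :=
    hf.comp continuous_neg.continuousOn (fun x hx => ⟨by linarith [hx.2], by linarith [hx.1]⟩)
  obtain ⟨c, hc, hcB, hcu⟩ := cru_last (f := fun x => f (-x)) (neg_le_neg hab) h1
    (by simpa using hb) (by simpa using ha)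
  refine ⟨-c, ⟨by linarith [hc.2], by linarith [hc.1]⟩, hcB, fun u hu => ?_⟩
  have h2 := hcu (-u) ⟨by linarith [hu.2], by linarith [hu.1]⟩
  simpa using h2

private lemma cru_mv {U : ℝ → ℂ} {z : ℂ} {T C : ℝ} {g : ℝ → ℂ} (hg : Sol U z T g)
    {s t : ℝ} (hs : 0 ≤ s) (hst : s ≤ t) (htT : t ≤ T)
    (hZ : ∀ u ∈ Set.Icc s t, ‖2 / (g u - U u)‖ ≤ C) :
    ‖g t - g s‖ ≤ C * (t - s) := by
  have hsub : Set.Icc s t ⊆ Set.Icc 0 T := Set.Icc_subset_Icc hs htT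
  have h1 := Convex.norm_image_sub_le_of_norm_hasDerivWithin_le (f := g)
    (f' := fun u => 2 / (g u - U u)) (s := Set.Icc s t) (x := s) (y := t) (C := C)
    (fun u hu => (hg.2.2 u (hsub hu)).mono hsub) hZ (convex_Icc s t)
    ⟨le_refl s, hst⟩ ⟨hst, le_refl t⟩
  rwa [Real.norm_of_nonneg (sub_nonneg.2 hst)] at h1

/-- TR-CRU1. Displacement of `Z` during a time interval on which `|Z| ≥ ρ`.

Proof. `Z_v - Z_u = ∫ 2 / Z - (U v - U u)` (mean value inequality for `g`,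
`Convex.norm_image_sub_le_of_norm_hasDerivWithin_le` with `|2 / Z| ≤ 2 / ρ`). -/
theorem cr_move {U : ℝ → ℂ} {z : ℂ} {T ρ : ℝ} (hρ : 0 < ρ) {g : ℝ → ℂ} (hg : Sol U z T g)
    {s t : ℝ} (hs : 0 ≤ s) (hst : s ≤ t) (htT : t ≤ T)
    (hZ : ∀ u ∈ Set.Icc s t, ρ ≤ ‖g u - U u‖) :
    ‖(g t - U t) - (g s - U s)‖ ≤ 2 / ρ * (t - s) + ‖U t - U s‖ := by
  have h1 : ‖g t - g s‖ ≤ 2 / ρ * (t - s) := by
    refine cru_mv hg hs hst htT (fun u hu => ?_)
    rw [norm_div, RCLike.norm_ofNat]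
    exact div_le_div_of_nonneg_left (by norm_num) hρ (hZ u hu)
  calc ‖(g t - U t) - (g s - U s)‖ = ‖(g t - g s) - (U t - U s)‖ := by congr 1; ring
    _ ≤ ‖g t - g s‖ + ‖U t - U s‖ := norm_sub_le _ _
    _ ≤ 2 / ρ * (t - s) + ‖U t - U s‖ := by linarith

/-- TR-CRU2. On an interval of length at most `1` which contains a time with `|Z| ≤ 1`, and on
which the driving path oscillates by at most `x`, one has `|Z| ≤ x + 3`.

Proof. Let `|Z_{u₀}| ≤ 1` and `u` be arbitrary in `[s,t]`. If `|Z_u| ≤ 1` there is nothing to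
prove. Otherwise, between `u₀` and `u` take the last time before `u` (or the first time after
`u`) with `|Z| ≤ 1` (closed set, `IsCompact`/`sSup`); there `|Z| = 1` (continuity), and `|Z| ≥ 1`
in between; `cr_move` with `ρ = 1`. -/
theorem cr_low {U : ℝ → ℂ} (hU : Continuous U) {z : ℂ} {T x : ℝ} {g : ℝ → ℂ}
    (hg : Sol U z T g) {s t : ℝ} (hs : 0 ≤ s) (hst : s ≤ t) (hts : t ≤ s + 1) (htT : t ≤ T)
    (hosc : ∀ u ∈ Set.Icc s t, ∀ v ∈ Set.Icc s t, ‖U u - U v‖ ≤ x)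
    (hlow : ∃ u ∈ Set.Icc s t, ‖g u - U u‖ ≤ 1) :
    ∀ u ∈ Set.Icc s t, ‖g u - U u‖ ≤ x + 3 := by
  intro u hu
  obtain ⟨v, hv, hv1⟩ := hlow
  have hx0 : 0 ≤ x := le_trans (norm_nonneg _) (hosc u hu u hu)
  by_cases hu1 : ‖g u - U u‖ ≤ 1
  · linarith
  push Not at hu1
  have hsub : Set.Icc s t ⊆ Set.Icc 0 T := Set.Icc_subset_Icc hs htT
  have hcont : ContinuousOn (fun r => ‖g r - U r‖) (Set.Icc s t) :=
    (ContinuousOn.mono (ContinuousOn.sub (HasDerivWithinAt.continuousOn hg.2.2)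
      hU.continuousOn) hsub).norm
  rcases le_total v u with hvu | huv
  · have h1 : Set.Icc v u ⊆ Set.Icc s t := Set.Icc_subset_Icc hv.1 hu.2
    obtain ⟨c, hc, hcB, hcu⟩ := cru_last hvu (hcont.mono h1) hv1 hu1
    have hcs : c ∈ Set.Icc s t := h1 hc
    have h2 := cr_move (ρ := 1) one_pos hg (hs.trans hcs.1) hc.2 (hu.2.trans htT)
      (fun r hr => hcu r hr)
    have h3 := hosc u hu c hcs
    have h4 : ‖g u - U u‖ ≤ ‖(g u - U u) - (g c - U c)‖ + ‖g c - U c‖ := by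
      have := norm_add_le ((g u - U u) - (g c - U c)) (g c - U c)
      rwa [sub_add_cancel] at this
    have h5 : u - c ≤ 1 := by linarith [hu.2, hcs.1]
    linarith
  · have h1 : Set.Icc u v ⊆ Set.Icc s t := Set.Icc_subset_Icc hu.1 hv.2
    obtain ⟨c, hc, hcB, hcu⟩ := cru_first huv (hcont.mono h1) hu1 hv1
    have hcs : c ∈ Set.Icc s t := h1 hc
    have h2 := cr_move (ρ := 1) one_pos hg (hs.trans hu.1) hc.1 (hcs.2.trans htT)
      (fun r hr => hcu r hr)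
    have h3 := hosc c hcs u hu
    have h4 : ‖g u - U u‖ ≤ ‖(g c - U c) - (g u - U u)‖ + ‖g c - U c‖ := by
      have := norm_sub_le (g c - U c) ((g c - U c) - (g u - U u))
      rw [sub_sub_cancel] at this
      linarith
    have h5 : c - u ≤ 1 := by linarith [hcs.2, hu.1]
    linarith

/-- TR-CRU3. Upper bound for `|Z|`.

Proof. Let `B = ‖z‖ + 2 w + √t`. Claim: `‖g u‖ ≤ B + 4 √t` for `u ∈ [0,t]`. If `‖g u‖ > B`, let
`u₁` be the last time before `u` with `‖g u₁‖ ≤ B` (`‖g 0‖ = ‖z‖ ≤ B`); on `[u₁,u]` one has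
`‖g‖ ≥ B ≥ 2 w`, so `‖g - U‖ ≥ ‖g‖ - w ≥ ‖g‖ / 2 ≥ √t / 2` and `‖g'‖ ≤ 4 / √t`
(if `t = 0` the claim is trivial), so `‖g u - g u₁‖ ≤ 4 √t`. Finally `‖g u - U u‖ ≤ ‖g u‖ + w`. -/
theorem cr_upper {U : ℝ → ℂ} (hU : Continuous U) {z : ℂ} {t w : ℝ} {g : ℝ → ℂ} (ht : 0 ≤ t)
    (hg : Sol U z t g) (hw : ∀ u ∈ Set.Icc 0 t, ‖U u‖ ≤ w) :
    ∀ u ∈ Set.Icc 0 t, ‖g u - U u‖ ≤ ‖z‖ + 3 * w + 5 * √t := by
  intro u hu
  have hw0 : 0 ≤ w := le_trans (norm_nonneg _) (hw u hu)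
  have hst0 : 0 ≤ √t := Real.sqrt_nonneg t
  have key : ‖g u‖ ≤ ‖z‖ + 2 * w + √t + 4 * √t := by
    by_cases hB : ‖g u‖ ≤ ‖z‖ + 2 * w + √t
    · linarith
    push Not at hB
    have hcont : ContinuousOn (fun r => ‖g r‖) (Set.Icc 0 u) :=
      ((HasDerivWithinAt.continuousOn hg.2.2).mono (Set.Icc_subset_Icc_right hu.2)).norm
    have h0 : ‖g 0‖ ≤ ‖z‖ + 2 * w + √t := by rw [hg.1]; linarith
    obtain ⟨c, hc, hcB, hcu⟩ := cru_last hu.1 hcont h0 hB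
    rcases eq_or_lt_of_le ht with ht0 | ht0
    · have h1 : u = 0 := le_antisymm (by rw [ht0]; exact hu.2) hu.1
      rw [h1]
      linarith
    have hs0 : 0 < √t := Real.sqrt_pos.2 ht0
    have h1 : ‖g u - g c‖ ≤ 4 / √t * (u - c) := by
      refine cru_mv hg hc.1 hc.2 hu.2 (fun r hr => ?_)
      have h2 : ‖U r‖ ≤ w := hw r ⟨hc.1.trans hr.1, hr.2.trans hu.2⟩
      have h3 := hcu r hr
      have h4 : ‖g r‖ - ‖U r‖ ≤ ‖g r - U r‖ := norm_sub_norm_le _ _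
      have h5 : √t / 2 ≤ ‖g r - U r‖ := by linarith [norm_nonneg z]
      rw [norm_div, RCLike.norm_ofNat]
      calc (2 : ℝ) / ‖g r - U r‖ ≤ 2 / (√t / 2) :=
            div_le_div_of_nonneg_left (by norm_num) (by positivity) h5
        _ = 4 / √t := by field_simp; norm_num
    have h6 : 4 / √t * (u - c) ≤ 4 / √t * t :=
      mul_le_mul_of_nonneg_left (by linarith [hu.2, hc.1]) (by positivity)
    have h7 : 4 / √t * t = 4 * √t := by
      rw [div_mul_eq_mul_div, div_eq_iff hs0.ne', mul_assoc, Real.mul_self_sqrt ht]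
    have h8 : ‖g u‖ ≤ ‖g u - g c‖ + ‖g c‖ := by
      have := norm_add_le (g u - g c) (g c)
      rwa [sub_add_cancel] at this
    linarith
  have h9 : ‖g u - U u‖ ≤ ‖g u‖ + ‖U u‖ := norm_sub_le _ _
  linarith [hw u hu]

end

end Pool.Agent.SLE
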