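import Pool.Agent.Lib.MP_c17912_pr_TR.Base

set_option autoImplicit false

open MeasureTheory ProbabilityTheory Filter
open scoped NNReal ENNReal Topology Real

namespace Pool.Agent.SLE

noncomputable section

namespace TRGGE

theorem inv_sq {z : ℂ} (hz : z ≠ 0) :
    (1 / z ^ 2).re = Real.cos (2 * z.arg) / ‖z‖ ^ 2 ∧
      (1 / z ^ 2).im = -Real.sin (2 * z.arg) / ‖z‖ ^ 2 := by
  have hn : (0:ℝ) < ‖z‖ := norm_pos_iff.2 hz
  have h1 : z.re = ‖z‖ * Real.cos z.arg := by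
    rw [Complex.cos_arg hz]
    field_simp
  have h2 : z.im = ‖z‖ * Real.sin z.arg := by
    rw [Complex.sin_arg]
    field_simp
  have h3 := Real.sin_sq_add_cos_sq z.arg
  have hns : Complex.normSq (z ^ 2) = ‖z‖ ^ 4 := by
    rw [map_pow, Complex.normSq_eq_norm_sq]
    ring
  have hre : (z ^ 2).re = ‖z‖ ^ 2 * Real.cos (2 * z.arg) := by
    rw [pow_two, Complex.mul_re, Real.cos_two_mul]
    generalize hm : z.arg = t at *
    generalize hk : ‖z‖ = n at *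
    rw [h1, h2]
    linear_combination (-n ^ 2) * h3
  have him : (z ^ 2).im = ‖z‖ ^ 2 * Real.sin (2 * z.arg) := by
    rw [pow_two, Complex.mul_im, Real.sin_two_mul]
    generalize hm : z.arg = t at *
    generalize hk : ‖z‖ = n at *
    rw [h1, h2]
    ring
  rw [one_div, Complex.inv_re, Complex.inv_im, hns, hre, him]
  constructor
  · field_simp
  · field_simp

theorem re1 (α d : ℝ) (u : ℂ) :
    (2 * ((α : ℂ) - ((d : ℝ) : ℂ) * Complex.I) * u).re = 2 * α * u.re + 2 * d * u.im := by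
  simp

theorem re0 (p q : ℝ) (u : ℂ) :
    ((((p : ℝ) : ℂ) + ((q : ℝ) : ℂ) * Complex.I) * u).re = p * u.re - q * u.im := by
  simp

theorem re2 (α d e a b c : ℝ) (u : ℂ) :
    ((-((α : ℂ) - ((d : ℝ) : ℂ) * Complex.I) / 2 - ((e : ℝ) : ℂ) / 4 +
      1 / 4 * ((α : ℂ) - ((d : ℝ) : ℂ) * Complex.I) ^ 2) *
      (((a - b : ℝ) : ℂ) + ((2 * c : ℝ) : ℂ) * Complex.I) * u).re =
      ((-α / 2 - e / 4 + (α ^ 2 - d ^ 2) / 4) * (a - b) - (d / 2 - α * d / 2) * (2 * c)) * u.re -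
      ((-α / 2 - e / 4 + (α ^ 2 - d ^ 2) / 4) * (2 * c) + (d / 2 - α * d / 2) * (a - b)) *
        u.im := by
  rw [show (-((α : ℂ) - ((d : ℝ) : ℂ) * Complex.I) / 2 - ((e : ℝ) : ℂ) / 4 +
      1 / 4 * ((α : ℂ) - ((d : ℝ) : ℂ) * Complex.I) ^ 2) *
      (((a - b : ℝ) : ℂ) + ((2 * c : ℝ) : ℂ) * Complex.I) =
      (((-α / 2 - e / 4 + (α ^ 2 - d ^ 2) / 4) * (a - b) -
        (d / 2 - α * d / 2) * (2 * c) : ℝ) : ℂ) +
      (((-α / 2 - e / 4 + (α ^ 2 - d ^ 2) / 4) * (2 * c) +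
        (d / 2 - α * d / 2) * (a - b) : ℝ) : ℂ) * Complex.I from by
        have hI := Complex.I_sq
        push_cast
        linear_combination (((d : ℂ) ^ 2 / 4) * ((a : ℂ) - b) + (d : ℂ) / 2 * (2 * c) -
          (α : ℂ) * d / 2 * (2 * c) + (d : ℂ) ^ 2 / 4 * (2 * c) * Complex.I) * hI]
  rw [re0]

end TRGGE

/-- TR-GGE. The generator of `Z` applied to `GE α ψ`.

Proof. Exact computation, as in `gen_phi` (LN/GN.lean, copy its private lemma `GN_inv`):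
`(1 / z ^ 2).re = cos (2 θ) / |z| ^ 2`, `(1 / z ^ 2).im = - sin (2 θ) / |z| ^ 2`, `θ = z.arg`.
The quadratic part is `((L1 ^ 2 * sg).re + |L1| ^ 2 (a + b)) / 4` with `L1 = (α - i ψ') / z`,
`|L1| ^ 2 = (α ^ 2 + ψ' ^ 2) / |z| ^ 2`. -/
theorem gen_ge (a b c α : ℝ) (ψ : ℝ → ℝ) {z : ℂ} (hz : z ≠ 0) :
    (2 * T1 α ψ z / z).re + (T2 α ψ z * sg a b c).re + T3 α ψ z * (a + b) =
      GE α ψ z * Op a b c α ψ z.arg / ‖z‖ ^ 2 := by
  obtain ⟨hre, him⟩ := TRGGE.inv_sq hz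
  have hn : (0:ℝ) < ‖z‖ := norm_pos_iff.2 hz
  have e1 : 2 * T1 α ψ z / z = ((GE α ψ z : ℝ) : ℂ) * (2 * al' α ψ z * (1 / z ^ 2)) := by
    unfold T1 L1
    field_simp
  have e2 : T2 α ψ z * sg a b c = ((GE α ψ z : ℝ) : ℂ) *
      ((-(al' α ψ z) / 2 - ((be ψ z : ℝ) : ℂ) / 4 + 1 / 4 * al' α ψ z ^ 2) * sg a b c *
        (1 / z ^ 2)) := by
    unfold T2 L2 L1
    field_simp
  have hP : ‖L1 α ψ z‖ ^ 2 = (α ^ 2 + deriv ψ z.arg ^ 2) / ‖z‖ ^ 2 := by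
    unfold L1 al'
    rw [norm_div, div_pow]
    congr 1
    rw [← Complex.normSq_eq_norm_sq, Complex.normSq_apply]
    simp
    ring
  rw [e1, e2, Complex.re_ofReal_mul, Complex.re_ofReal_mul]
  unfold T3
  rw [hP]
  have hs2 : Real.sin z.arg ^ 2 = (1 - Real.cos (2 * z.arg)) / 2 := by
    rw [Real.cos_two_mul]
    have := Real.sin_sq_add_cos_sq z.arg
    linarith
  have hc2 : Real.cos z.arg ^ 2 = (1 + Real.cos (2 * z.arg)) / 2 := by
    rw [Real.cos_two_mul]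
    ring
  have hsc : Real.sin z.arg * Real.cos z.arg = Real.sin (2 * z.arg) / 2 := by
    rw [Real.sin_two_mul]
    ring
  generalize GE α ψ z = G
  unfold P3 Op Vr Cv Vth Bth H1 al' be sg
  rw [hs2, hc2, hsc, TRGGE.re1, TRGGE.re2, hre, him]
  field_simp
  ring

end

end Pool.Agent.SLE
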