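import Pool.Agent.Lib.MP_c17912_pr_TR.GEX
import Pool.Agent.Lib.MP_c17912_pr_TR.GGE
import Pool.Agent.Lib.MP_c17912_pr_LN.OS

set_option autoImplicit false

open MeasureTheory ProbabilityTheory Filter
open scoped NNReal ENNReal Topology Real

namespace Pool.Agent.SLE

noncomputable section

variable {Ω : Type*} [MeasurableSpace Ω] {μ : Measure Ω}

/-- TR-GOS. The one step inequality for `GE α ψ`, truncated outside an annulus.

Proof. `F z = GE α ψ z` if `δ / 2 ≤ |z| ≤ 2 R`, `F z = 0` otherwise. It is measurable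
(`Complex.measurable_arg`), bounded (`ψ` is bounded, `EXaux.bdd`), and bounded below on the annulus
`δ ≤ |z| ≤ R`. The expansion `Exp2` of `ge_exp` holds for `F` as well (for `|ζ| ≤ δ / 2` the point
`z + ζ` is in the larger annulus). Apply `one_step_gen` (LN/OS) with `k = kk lam c₀`; the
generator condition is `gen_ge` with `hgen`, because `kk lam c₀ z =
(-2 lam cos (2 arg z) + c₀) / |z| ^ 2` (`re_inv_sq_arg`, LN/GN). The hypotheses on the increment
`ζ = W (s + h) - W s` are the fields of `Drv` (see the use in LN/AN.lean). -/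
theorem ge_one_step [IsProbabilityMeasure μ] {a b c K : ℝ} (ha : 0 ≤ a) (hb : 0 ≤ b)
    (hK : 0 ≤ K) {α lam c₀ : ℝ} {ψ : ℝ → ℝ} (hψ : ContDiff ℝ 3 ψ)
    (hper : Function.Periodic ψ (2 * π))
    (hgen : ∀ θ, Op a b c α ψ θ - 2 * lam * Real.cos (2 * θ) + c₀ ≤ 0) {δ R : ℝ} (hδ : 0 < δ)
    (hδR : δ ≤ R) :
    ∃ F : ℂ → ℝ, Measurable F ∧ (∀ z, 0 ≤ F z) ∧ (∀ z, F z ≤ GE α ψ z) ∧
      (∀ z : ℂ, δ ≤ ‖z‖ → ‖z‖ ≤ R → F z = GE α ψ z) ∧
      ∃ C' > 0, ∃ h₀ > 0, ∀ W : ℝ → Ω → ℂ, Drv a b c K W μ → ∀ h : ℝ, 0 < h → h ≤ h₀ →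
        ∀ (z : ℂ) (s : ℝ), δ ≤ ‖z‖ → ‖z‖ ≤ R → 0 ≤ s →
          ∫⁻ ω, ENNReal.ofReal (F (z + 2 * h / z - (W (s + h) ω - W s ω))) ∂μ
            ≤ ENNReal.ofReal ((1 + C' * (h * √h)) * Real.exp (-(h * kk lam c₀ z)) * F z) := by
  classical
  have hR : 0 < R := hδ.trans_le hδR
  have hψc : Continuous ψ := hψ.continuous
  obtain ⟨Cψ, hCψ⟩ := EXaux.bdd hψc hper
  obtain ⟨C, hC, hexp, hcoef⟩ := ge_exp hψ hper α hδ hδR
  obtain ⟨L, hL⟩ : ∃ L, L = |α| * (|Real.log (δ / 2)| + |Real.log (2 * R)|) + Cψ := ⟨_, rfl⟩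
  have hbd : ∀ z : ℂ, δ / 2 ≤ ‖z‖ → ‖z‖ ≤ 2 * R → |α * Real.log ‖z‖ + ψ (Complex.arg z)| ≤ L := by
    intro z h1 h2
    have h0 : 0 < ‖z‖ := lt_of_lt_of_le (by positivity) h1
    have hlog : |Real.log ‖z‖| ≤ |Real.log (δ / 2)| + |Real.log (2 * R)| := by
      have e1 : Real.log (δ / 2) ≤ Real.log ‖z‖ := Real.log_le_log (by positivity) h1
      have e2 : Real.log ‖z‖ ≤ Real.log (2 * R) := Real.log_le_log h0 h2
      have e3 := neg_abs_le (Real.log (δ / 2))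
      have e4 := le_abs_self (Real.log (2 * R))
      have e5 := abs_nonneg (Real.log (δ / 2))
      have e6 := abs_nonneg (Real.log (2 * R))
      rw [abs_le]
      constructor
      · linarith
      · linarith
    rw [hL]
    refine (abs_add_le _ _).trans (add_le_add ?_ (hCψ _))
    rw [abs_mul]
    exact mul_le_mul_of_nonneg_left hlog (abs_nonneg _)
  have hmGE : Measurable (GE α ψ) := by
    unfold GE
    refine Real.measurable_exp.comp ?_
    exact ((Real.measurable_log.comp measurable_norm).const_mul α).add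
      (hψc.measurable.comp Complex.measurable_arg)
  obtain ⟨F, hF⟩ : ∃ F : ℂ → ℝ, F = fun z =>
      if δ / 2 ≤ ‖z‖ ∧ ‖z‖ ≤ 2 * R then GE α ψ z else 0 := ⟨_, rfl⟩
  have hGE0 : ∀ z, 0 < GE α ψ z := fun z => Real.exp_pos _
  have hFin : ∀ z : ℂ, δ / 2 ≤ ‖z‖ → ‖z‖ ≤ 2 * R → F z = GE α ψ z := by
    intro z h1 h2
    rw [hF]
    exact if_pos ⟨h1, h2⟩
  have hFan : ∀ z : ℂ, δ ≤ ‖z‖ → ‖z‖ ≤ R → F z = GE α ψ z := by
    intro z h1 h2
    exact hFin z (by linarith) (by linarith)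
  have hFm : Measurable F := by
    rw [hF]
    refine Measurable.ite ?_ hmGE measurable_const
    exact (measurableSet_le measurable_const measurable_norm).inter
      (measurableSet_le measurable_norm measurable_const)
  have hF0 : ∀ z, 0 ≤ F z := by
    intro z
    rw [hF]
    simp only
    split_ifs
    · exact (hGE0 z).le
    · exact le_rfl
  have hFle : ∀ z, F z ≤ GE α ψ z := by
    intro z
    rw [hF]
    simp only
    split_ifs
    · exact le_rfl
    · exact (hGE0 z).le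
  have hFB : ∀ z, F z ≤ Real.exp L := by
    intro z
    by_cases h : δ / 2 ≤ ‖z‖ ∧ ‖z‖ ≤ 2 * R
    · rw [hFin z h.1 h.2]
      exact Real.exp_le_exp.2 ((le_abs_self _).trans (hbd z h.1 h.2))
    · rw [hF]
      simp only
      rw [if_neg h]
      exact (Real.exp_pos _).le
  have hexpF : Exp2 F (T1 α ψ) (T2 α ψ) (T3 α ψ) δ R C := by
    intro z h1 h2 ζ hζ
    have h3 : δ / 2 ≤ ‖z + ζ‖ := by
      have := norm_sub_le (z + ζ) ζ
      rw [add_sub_cancel_right] at this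
      linarith
    have h4 : ‖z + ζ‖ ≤ 2 * R := by
      have := norm_add_le z ζ
      linarith
    rw [hFin _ h3 h4, hFan z h1 h2]
    exact hexp z h1 h2 ζ hζ
  obtain ⟨M, hM⟩ : ∃ M, M = C + (2 * |lam| + |c₀|) / δ ^ 2 := ⟨_, rfl⟩
  have hM2 : 0 ≤ (2 * |lam| + |c₀|) / δ ^ 2 := by positivity
  have hann : ∀ z : ℂ, δ ≤ ‖z‖ → ‖z‖ ≤ R → Real.exp (-L) ≤ F z ∧ ‖T1 α ψ z‖ ≤ M ∧
      ‖T2 α ψ z‖ ≤ M ∧ |T3 α ψ z| ≤ M ∧ |kk lam c₀ z| ≤ M ∧
      (2 * T1 α ψ z / z).re + (T2 α ψ z * sg a b c).re + T3 α ψ z * (a + b)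
        + kk lam c₀ z * F z ≤ 0 := by
    intro z h1 h2
    obtain ⟨b1, b2, b3⟩ := hcoef z h1 h2
    have hzn : 0 < ‖z‖ := lt_of_lt_of_le hδ h1
    have hz : z ≠ 0 := norm_pos_iff.1 hzn
    have hkk : kk lam c₀ z = (-2 * lam * Real.cos (2 * z.arg) + c₀) / ‖z‖ ^ 2 := by
      unfold kk
      rw [re_inv_sq_arg hz]
      ring
    refine ⟨?_, by linarith, by linarith, by linarith, ?_, ?_⟩
    · rw [hFan z h1 h2]
      refine Real.exp_le_exp.2 ?_
      have := hbd z (by linarith) (by linarith)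
      linarith [(abs_le.1 this).1]
    · rw [hkk, abs_div, abs_of_pos (by positivity : 0 < ‖z‖ ^ 2)]
      have e1 : |-2 * lam * Real.cos (2 * z.arg) + c₀| ≤ 2 * |lam| + |c₀| := by
        refine (abs_add_le _ _).trans (add_le_add ?_ le_rfl)
        rw [abs_mul, abs_mul]
        have e2 : |(-2 : ℝ)| = 2 := by norm_num
        rw [e2]
        have e3 := mul_le_mul_of_nonneg_left (Real.abs_cos_le_one (2 * z.arg))
          (by positivity : 0 ≤ 2 * |lam|)
        linarith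
      have e4 : |-2 * lam * Real.cos (2 * z.arg) + c₀| / ‖z‖ ^ 2
          ≤ (2 * |lam| + |c₀|) / δ ^ 2 := by
        refine div_le_div₀ (by positivity) e1 (by positivity) ?_
        exact pow_le_pow_left₀ hδ.le h1 2
      linarith
    · rw [gen_ge a b c α ψ hz, hFan z h1 h2, hkk]
      have e1 : GE α ψ z * Op a b c α ψ z.arg / ‖z‖ ^ 2
          + (-2 * lam * Real.cos (2 * z.arg) + c₀) / ‖z‖ ^ 2 * GE α ψ z
          = GE α ψ z / ‖z‖ ^ 2
            * (Op a b c α ψ z.arg - 2 * lam * Real.cos (2 * z.arg) + c₀) := by ring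
      rw [e1]
      refine mul_nonpos_of_nonneg_of_nonpos ?_ (hgen _)
      exact div_nonneg (hGE0 z).le (by positivity)
  refine ⟨F, hFm, hF0, hFle, hFan, ?_⟩
  obtain ⟨C', hC', h₀, hh₀, hone⟩ := one_step_gen (μ := μ) (a := a) (b := b) (c := c) (K := K)
    ha hb hK hδ hδR hFm hF0 hFB (Real.exp_pos _) hexpF hann
  refine ⟨C', hC', h₀, hh₀, ?_⟩
  intro W hW h hh hhn z s' hz1 hz2 hs'
  have hle : s' ≤ s' + h := by linarith
  have e : s' + h - s' = h := by ring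
  refine hone h hh hhn z hz1 hz2 (fun ω => W (s' + h) ω - W s' ω)
    ((hW.meas _).sub (hW.meas _)) (hW.int4 s' (s' + h) hs' hle)
    (hW.m1x s' (s' + h) hs' hle) (hW.m1y s' (s' + h) hs' hle) ?_ ?_ ?_ ?_
  · have := hW.m2x s' (s' + h) hs' hle
    rwa [e] at this
  · have := hW.m2y s' (s' + h) hs' hle
    rwa [e] at this
  · have := hW.m2c s' (s' + h) hs' hle
    rwa [e] at this
  · have := hW.m4 s' (s' + h) hs' hle
    rwa [e] at this

end

end Pool.Agent.SLE
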