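import Pool.Agent.Lib.MP_c17912_pr_TR.RID

set_option autoImplicit false

open MeasureTheory ProbabilityTheory Filter
open scoped NNReal ENNReal Topology Real

namespace Pool.Agent.SLE

noncomputable section

variable {Ω : Type*} [MeasurableSpace Ω] {μ : Measure Ω}

namespace TRDSC

theorem rr_pos (m : ℕ) : 0 < rr m := by unfold rr; positivity

theorem rr_sq (m : ℕ) : rr m ^ 2 = 1 / 4 ^ m := by
  unfold rr
  rw [← pow_mul, mul_comm, pow_mul]
  norm_num [div_pow]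

theorem ex_bd (n M : ℕ) (hn : 5 ≤ n) :
    (4 : ℝ) ^ (n + 2 + M) * Real.exp (-((n : ℝ) + M) ^ 2) ≤
      Real.exp (-(n : ℝ)) * (1 / 2) ^ (M + 1) := by
  have he : (2 : ℝ) ≤ Real.exp 1 := by
    have := Real.add_one_le_exp (1 : ℝ)
    linarith
  have h4 : (4 : ℝ) ^ (n + 2 + M) ≤ Real.exp (2 * ((n : ℝ) + 2 + M)) := by
    have h1 : (4 : ℝ) ≤ Real.exp 2 := by
      have : Real.exp 2 = Real.exp 1 * Real.exp 1 := by
        rw [← Real.exp_add]; norm_num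
      rw [this]; nlinarith
    calc (4 : ℝ) ^ (n + 2 + M) ≤ Real.exp 2 ^ (n + 2 + M) := by gcongr
      _ = Real.exp (2 * ((n : ℝ) + 2 + M)) := by
        rw [← Real.exp_nat_mul]; congr 1; push_cast; ring
  have h2 : Real.exp (-((M : ℝ) + 1)) ≤ (1 / 2) ^ (M + 1) := by
    have h3 : Real.exp (-((M : ℝ) + 1)) = (Real.exp 1)⁻¹ ^ (M + 1) := by
      rw [← Real.exp_neg, ← Real.exp_nat_mul]; congr 1; push_cast; ring
    rw [h3]
    have h5 : (Real.exp 1)⁻¹ ≤ 1 / 2 := by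
      rw [one_div]; exact inv_anti₀ (by norm_num) he
    gcongr
  have hnr : (5 : ℝ) ≤ n := by exact_mod_cast hn
  have hMr : (0 : ℝ) ≤ M := Nat.cast_nonneg M
  calc (4 : ℝ) ^ (n + 2 + M) * Real.exp (-((n : ℝ) + M) ^ 2)
      ≤ Real.exp (2 * ((n : ℝ) + 2 + M)) * Real.exp (-((n : ℝ) + M) ^ 2) := by gcongr
    _ = Real.exp (2 * ((n : ℝ) + 2 + M) + -((n : ℝ) + M) ^ 2) := by rw [Real.exp_add]
    _ ≤ Real.exp (-(n : ℝ) + -((M : ℝ) + 1)) := by
        apply Real.exp_le_exp.mpr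
        nlinarith
    _ = Real.exp (-(n : ℝ)) * Real.exp (-((M : ℝ) + 1)) := by rw [Real.exp_add]
    _ ≤ Real.exp (-(n : ℝ)) * (1 / 2) ^ (M + 1) := by gcongr

theorem fifth (n M : ℕ) :
    (((n + M) ^ 10 : ℕ) : ℝ) ^ (1 / 5 : ℝ) = ((n : ℝ) + M) ^ 2 := by
  have h0 : (0 : ℝ) ≤ (n : ℝ) + M := by positivity
  push_cast
  rw [← Real.rpow_natCast ((n : ℝ) + M) 10, ← Real.rpow_mul h0,
    ← Real.rpow_natCast ((n : ℝ) + M) 2]
  norm_num

theorem tsum_half (n : ℕ) :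
    ∑' M : ℕ, ENNReal.ofReal (Real.exp (-(n : ℝ)) * (1 / 2) ^ (M + 1)) =
      ENNReal.ofReal (Real.exp (-(n : ℝ))) := by
  have hs : HasSum (fun M : ℕ => Real.exp (-(n : ℝ)) * (1 / 2) ^ (M + 1))
      (Real.exp (-(n : ℝ)) * 1) := by
    apply HasSum.mul_left
    have h := hasSum_geometric_two' 1
    have h2 : (fun M : ℕ => ((1 : ℝ) / 2) ^ (M + 1)) = fun M : ℕ => (1 : ℝ) / 2 / 2 ^ M := by
      funext M
      rw [pow_succ, one_div, inv_pow]
      field_simp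
    rw [h2]
    exact h
  rw [mul_one] at hs
  rw [← ENNReal.ofReal_tsum_of_nonneg (fun M => by positivity) hs.summable, hs.tsum_eq]

/-- one step of the descent -/
theorem step {U : ℝ → ℂ} {z : ℂ} {g : ℝ → ℂ} {n T M s : ℕ} (hn : 1 ≤ n)
    (hsol : Sol U z T g) (hs : s + (n + M) ^ 10 ≤ T * 4 ^ M)
    (hr : rider U g (rr M) s ((n + M) ^ 10))
    (key : ∀ (z : ℂ) (g' : ℝ → ℂ),
      Sol (psub U ((s : ℝ) * rr M ^ 2) (rr M)) z (((n + M) ^ 10 : ℕ) : ℝ) g' →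
      rider (psub U ((s : ℝ) * rr M ^ 2) (rr M)) g' 1 0 ((n + M) ^ 10) →
      ∃ M' ≥ 1, ∃ s', s' + ((n + M) ^ 10 + M') ^ 10 ≤ (n + M) ^ 10 * 4 ^ M' ∧
        rider (psub U ((s : ℝ) * rr M ^ 2) (rr M)) g' (rr M') s' (((n + M) ^ 10 + M') ^ 10)) :
    ∃ M₂ ≥ M + 1, ∃ s₂, s₂ + (n + M₂) ^ 10 ≤ T * 4 ^ M₂ ∧
      rider U g (rr M₂) s₂ ((n + M₂) ^ 10) := by
  have h4 : (0 : ℝ) < 4 ^ M := by positivity
  have hle : (s : ℝ) + (((n + M) ^ 10 : ℕ) : ℝ) ≤ T * 4 ^ M := by exact_mod_cast hs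
  have hst : (s : ℝ) * rr M ^ 2 ≤ T := by
    rw [rr_sq, mul_one_div, div_le_iff₀ h4]
    have : (0 : ℝ) ≤ (((n + M) ^ 10 : ℕ) : ℝ) := Nat.cast_nonneg _
    linarith
  have hsh := Sol.shift hsol (s := (s : ℝ) * rr M ^ 2) (r := rr M)
    (by positivity) hst (rr_pos M)
  have hlen : (((n + M) ^ 10 : ℕ) : ℝ) ≤ ((T : ℝ) - (s : ℝ) * rr M ^ 2) / rr M ^ 2 := by
    rw [rr_sq, le_div_iff₀ (by positivity), mul_one_div, mul_one_div, div_le_iff₀ h4, sub_mul,
      div_mul_cancel₀ _ h4.ne']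
    linarith
  have hsol2 := Sol.restrict hsh hlen
  have hgs : (fun τ => (rr M)⁻¹ • (g ((s : ℝ) * rr M ^ 2 + rr M ^ 2 * τ) -
      U ((s : ℝ) * rr M ^ 2))) = gs U g ((s : ℝ) * rr M ^ 2) (rr M) := rfl
  rw [hgs] at hsol2
  have hrid : rider (psub U ((s : ℝ) * rr M ^ 2) (rr M)) (gs U g ((s : ℝ) * rr M ^ 2) (rr M))
      1 0 ((n + M) ^ 10) := by
    intro i hi
    have h1 := (low_shift U g s M 0 (0 + i)).mpr (by
      have := hr i hi
      simpa using this)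
    have h2 : rr 0 = 1 := by simp [rr]
    rwa [h2] at h1
  obtain ⟨M', hM', s', hs', hr'⟩ := key _ _ hsol2 hrid
  have hnM : n + M ≤ (n + M) ^ 10 := Nat.le_self_pow (by norm_num) _
  have hpow : (n + (M + M')) ^ 10 ≤ ((n + M) ^ 10 + M') ^ 10 := by
    apply Nat.pow_le_pow_left
    omega
  refine ⟨M + M', by omega, s * 4 ^ M' + s', ?_, ?_⟩
  · calc s * 4 ^ M' + s' + (n + (M + M')) ^ 10
        ≤ s * 4 ^ M' + (s' + ((n + M) ^ 10 + M') ^ 10) := by omega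
      _ ≤ s * 4 ^ M' + (n + M) ^ 10 * 4 ^ M' := by omega
      _ = (s + (n + M) ^ 10) * 4 ^ M' := by ring
      _ ≤ T * 4 ^ M * 4 ^ M' := Nat.mul_le_mul_right _ hs
      _ = T * 4 ^ (M + M') := by rw [pow_add]; ring
  · intro i hi
    have h1 := (low_shift U g s M M' (s' + i)).mp (hr' i (lt_of_lt_of_le hi hpow))
    rwa [← add_assoc] at h1

end TRDSC

open TRDSC

/-- TR-DSC. No long riders (infinite descent).

Proof. Let `n₁` be the `n₀` of `rid`. For `M : ℕ` and `s < 4^(n+2+M)` apply `rid` with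
`n' = (n + M)^10 ≥ n₁` to the process `subP W (s rr M ^ 2) (rr M)` (`Gau.subP`): event
`A_{M,s}` of probability at most `exp (-(n')^(1/5)) = exp (-(n + M)^2)`. `A` = the union;
`∑ M, 4^(n+2+M) exp (-(n+M)^2) ≤ exp (-n)` for `n ≥ n₀`.
Let `ω ∉ A`, `T, z, g` be given and suppose that there is a rider `(M, s)` of length
`(n + M)^10` in `[0,T]` at the scale `rr M`. Since `|Z| ≥ d > 0` on `[0,T]`
(`FlowAux.exists_lower`) the possible `M` are bounded (`2^(-M) ≥ d`, the rider is not empty);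
take the largest one. `s < T 4^M ≤ 4^(n+2+M)`. `Sol.shift` (at time `s rr M ^ 2`, scale
`rr M`) and `Sol.restrict` give the solution `gs U g (s rr M ^ 2) (rr M)` of the equation of
`psub U (s rr M ^ 2) (rr M)` on `[0, (n+M)^10]`, and it is a rider at scale `1` by `low_shift`
(`m = 0`). `rid` gives `M' ≥ 1`, `s'` with `s' + (n' + M')^10 ≤ n' 4^M'` and a rider of
length `(n' + M')^10 ≥ (n + (M + M'))^10` at scale `rr M'`; by `low_shift` this is a rider of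
`g` at scale `rr (M + M')` starting at `s 4^M' + s'`, and
`s 4^M' + s' + (n + M + M')^10 ≤ (s + n') 4^M' ≤ T 4^(M + M')`. This contradicts the choice of
`M`. -/
theorem desc [IsProbabilityMeasure μ] {a b c K : ℝ} (ha : 0 ≤ a) (hb : 0 ≤ b) (hK : 0 ≤ K)
    (hS : HasS a b c) :
    ∃ n₀ : ℕ, ∀ n ≥ n₀, ∀ W : ℝ → Ω → ℂ, Gau a b c K W μ →
      ∃ A, MeasurableSet A ∧ μ A ≤ ENNReal.ofReal (Real.exp (-(n : ℝ))) ∧
        ∀ ω ∉ A, ∀ (T : ℕ) (z : ℂ) (g : ℝ → ℂ), T ≤ 4 ^ (n + 2) →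
          Sol (fun t => W t ω) z T g → ∀ M s : ℕ, s + (n + M) ^ 10 ≤ T * 4 ^ M →
            ¬ rider (fun t => W t ω) g (rr M) s ((n + M) ^ 10) := by
  obtain ⟨n₁, hn₁⟩ := rid (μ := μ) ha hb hK hS
  refine ⟨max n₁ 5, fun n hn W hW => ?_⟩
  have hn5 : 5 ≤ n := le_trans (le_max_right _ _) hn
  have hnn : n₁ ≤ n := le_trans (le_max_left _ _) hn
  have hbig : ∀ M : ℕ, n₁ ≤ (n + M) ^ 10 := fun M => by
    have := Nat.le_self_pow (show (10 : ℕ) ≠ 0 by norm_num) (n + M)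
    omega
  have hex : ∀ M s : ℕ, ∃ A, MeasurableSet A ∧
      μ A ≤ ENNReal.ofReal (Real.exp (-(((n + M) ^ 10 : ℕ) : ℝ) ^ (1 / 5 : ℝ))) ∧
        ∀ ω ∉ A, ∀ (z : ℂ) (g : ℝ → ℂ),
          Sol (fun t => subP W ((s : ℝ) * rr M ^ 2) (rr M) t ω) z (((n + M) ^ 10 : ℕ) : ℝ) g →
          rider (fun t => subP W ((s : ℝ) * rr M ^ 2) (rr M) t ω) g 1 0 ((n + M) ^ 10) →
          ∃ M' ≥ 1, ∃ s', s' + ((n + M) ^ 10 + M') ^ 10 ≤ (n + M) ^ 10 * 4 ^ M' ∧
            rider (fun t => subP W ((s : ℝ) * rr M ^ 2) (rr M) t ω) g (rr M') s'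
              (((n + M) ^ 10 + M') ^ 10) := fun M s =>
    hn₁ ((n + M) ^ 10) (hbig M) (subP W ((s : ℝ) * rr M ^ 2) (rr M))
      (hW.subP (by positivity) (rr_pos M))
  choose A hAm hAμ hA using hex
  refine ⟨⋃ M : ℕ, ⋃ s ∈ Finset.range (4 ^ (n + 2 + M)), A M s,
    MeasurableSet.iUnion fun M => Finset.measurableSet_biUnion _ fun s _ => hAm M s, ?_, ?_⟩
  · calc μ (⋃ M : ℕ, ⋃ s ∈ Finset.range (4 ^ (n + 2 + M)), A M s)
        ≤ ∑' M : ℕ, μ (⋃ s ∈ Finset.range (4 ^ (n + 2 + M)), A M s) := measure_iUnion_le _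
      _ ≤ ∑' M : ℕ, ENNReal.ofReal (Real.exp (-(n : ℝ)) * (1 / 2) ^ (M + 1)) := by
          refine ENNReal.tsum_le_tsum fun M => ?_
          calc μ (⋃ s ∈ Finset.range (4 ^ (n + 2 + M)), A M s)
              ≤ ∑ s ∈ Finset.range (4 ^ (n + 2 + M)), μ (A M s) :=
                measure_biUnion_finset_le _ _
            _ ≤ ∑ s ∈ Finset.range (4 ^ (n + 2 + M)),
                ENNReal.ofReal (Real.exp (-((n : ℝ) + M) ^ 2)) := by
                refine Finset.sum_le_sum fun s _ => ?_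
                have h1 := hAμ M s
                rwa [fifth] at h1
            _ = ENNReal.ofReal ((4 : ℝ) ^ (n + 2 + M) * Real.exp (-((n : ℝ) + M) ^ 2)) := by
                rw [Finset.sum_const, Finset.card_range, nsmul_eq_mul,
                  ENNReal.ofReal_mul (by positivity)]
                congr 1
                rw [ENNReal.ofReal_pow (by norm_num)]
                push_cast
                norm_num
            _ ≤ _ := ENNReal.ofReal_le_ofReal (ex_bd n M hn5)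
      _ = ENNReal.ofReal (Real.exp (-(n : ℝ))) := tsum_half n
  · intro ω hω T z g hT hsol
    have hω' : ∀ M s : ℕ, s < 4 ^ (n + 2 + M) → ω ∉ A M s := by
      intro M s hs hmem
      exact hω (Set.mem_iUnion.mpr ⟨M, Set.mem_iUnion₂.mpr ⟨s, Finset.mem_range.mpr hs, hmem⟩⟩)
    obtain ⟨d, hd, hdg⟩ := FlowAux.exists_lower (hW.cont ω) hsol
    have hcap : ∀ M s : ℕ, s + (n + M) ^ 10 ≤ T * 4 ^ M →
        rider (fun t => W t ω) g (rr M) s ((n + M) ^ 10) → d ≤ rr M := by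
      intro M s hs hr
      have hpos : 0 < (n + M) ^ 10 := by positivity
      obtain ⟨u, hu, hlow⟩ := hr 0 hpos
      refine le_trans (hdg u ⟨?_, ?_⟩) hlow
      · exact le_trans (by positivity) hu.1
      · refine le_trans hu.2 ?_
        rw [rr_sq, mul_one_div, div_le_iff₀ (by positivity)]
        have h1 : s + 0 + 1 ≤ T * 4 ^ M := by omega
        exact_mod_cast h1
    intro M₀ s₀ hs₀ hr₀
    have hall : ∀ k : ℕ, ∃ M ≥ k, ∃ s, s + (n + M) ^ 10 ≤ T * 4 ^ M ∧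
        rider (fun t => W t ω) g (rr M) s ((n + M) ^ 10) := by
      intro k
      induction k with
      | zero => exact ⟨M₀, Nat.zero_le _, s₀, hs₀, hr₀⟩
      | succ k ih =>
        obtain ⟨M, hM, s, hs, hr⟩ := ih
        have hslt : s < 4 ^ (n + 2 + M) := by
          have hpos : 0 < (n + M) ^ 10 := by positivity
          calc s < s + (n + M) ^ 10 := by omega
            _ ≤ T * 4 ^ M := hs
            _ ≤ 4 ^ (n + 2) * 4 ^ M := Nat.mul_le_mul_right _ hT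
            _ = 4 ^ (n + 2 + M) := by rw [← pow_add]
        obtain ⟨M₂, hM₂, s₂, hs₂, hr₂⟩ := step (by omega) hsol hs hr
          (fun z' g' h1 h2 => hA M s ω (hω' M s hslt) z' g' h1 h2)
        exact ⟨M₂, by omega, s₂, hs₂, hr₂⟩
    obtain ⟨k, hk⟩ := exists_pow_lt_of_lt_one hd (show (1 / 2 : ℝ) < 1 by norm_num)
    obtain ⟨M, hM, s, hs, hr⟩ := hall k
    have h1 := hcap M s hs hr
    have h2 : rr M ≤ (1 / 2 : ℝ) ^ k := by
      unfold rr
      exact pow_le_pow_of_le_one (by norm_num) (by norm_num) hM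
    linarith

end

end Pool.Agent.SLE
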