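import Pool.Agent.Lib.MP_c17912_pr_TR.Base
import Pool.Agent.Lib.MP_c17912_pr_LN.BA

set_option autoImplicit false

open MeasureTheory ProbabilityTheory Filter
open scoped NNReal ENNReal Topology Real

namespace Pool.Agent.SLE

noncomputable section

namespace TRSHD

/-- the main estimate: two solutions stay close -/
theorem close {U : ℝ → ℂ} (hU : Continuous U) {z₀ w : ℂ} {M ρ s θ : ℝ} {g g' : ℝ → ℂ}
    (hz : z₀ ≠ 0) (_hρ : 0 ≤ ρ) (hs : 0 ≤ s) (hθ : 0 < θ) (hθ2 : θ ≤ 2)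
    (hM : 16 * ρ * M ≤ θ) (hM0 : 0 ≤ M)
    (hg : Sol U z₀ s g) (hg' : Sol U w s g')
    (hb : ∀ t ∈ Set.Icc 0 s,
      Real.exp (-∫ s in (0 : ℝ)..t, (2 / (g s - U s) ^ 2).re)
        ≤ M / ‖z₀‖ * ‖g t - U t‖ * Real.exp (-θ * ∫ s in (0 : ℝ)..t, 1 / ‖g s - U s‖ ^ 2))
    (hw : ‖w - z₀‖ ≤ ρ * ‖z₀‖) (hne : w ≠ z₀) : ∀ u ∈ Set.Icc 0 s,
      ‖g' u - g u‖ ≤ 2 * ρ * M * ‖g u - U u‖ *
        Real.exp (-θ * ∫ s in (0 : ℝ)..u, 1 / ‖g s - U s‖ ^ 2) := by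
  have hz0 : 0 < ‖z₀‖ := norm_pos_iff.mpr hz
  -- continuous extension of `Z`
  have hgc : ContinuousOn g (Set.Icc 0 s) := fun x hx => (hg.2.2 x hx).continuousWithinAt
  set Z : ℝ → ℂ := Set.IccExtend hs (fun x : Set.Icc 0 s => g x - U x) with hZ
  have hZc : Continuous Z := by
    refine Continuous.Icc_extend' ?_
    exact (continuousOn_iff_continuous_domRestrict.mp hgc).sub (hU.comp continuous_subtype_val)
  have hZe : ∀ x ∈ Set.Icc 0 s, Z x = g x - U x := fun x hx => Set.IccExtend_of_mem hs _ hx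
  have hZ0 : ∀ x, Z x ≠ 0 := by
    intro x
    have : Z x = g (Set.projIcc 0 s hs x) - U (Set.projIcc 0 s hs x) := rfl
    rw [this]
    exact sub_ne_zero.mpr (hg.2.1 _ (Set.projIcc 0 s hs x).2)
  have hac : Continuous fun x => 2 / Z x ^ 2 :=
    continuous_const.div (hZc.pow 2) fun x => pow_ne_zero 2 (hZ0 x)
  have hbc : Continuous fun x => 1 / ‖Z x‖ ^ 2 :=
    continuous_const.div (hZc.norm.pow 2) fun x => pow_ne_zero 2 (norm_ne_zero_iff.mpr (hZ0 x))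
  set J : ℝ → ℂ := fun u => ∫ x in (0 : ℝ)..u, 2 / Z x ^ 2 with hJ
  set τ : ℝ → ℝ := fun u => ∫ x in (0 : ℝ)..u, 1 / ‖Z x‖ ^ 2 with hτ
  have hJd : ∀ u, HasDerivAt J (2 / Z u ^ 2) u := fun u =>
    intervalIntegral.integral_hasDerivAt_right (hac.intervalIntegrable _ _)
      (hac.stronglyMeasurableAtFilter _ _) hac.continuousAt
  have hτd : ∀ u, HasDerivAt τ (1 / ‖Z u‖ ^ 2) u := fun u =>
    intervalIntegral.integral_hasDerivAt_right (hbc.intervalIntegrable _ _)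
      (hbc.stronglyMeasurableAtFilter _ _) hbc.continuousAt
  -- the bound in terms of `J` and `τ`
  have hb' : ∀ u ∈ Set.Icc 0 s, Real.exp (-(J u).re) ≤
      M / ‖z₀‖ * ‖Z u‖ * Real.exp (-θ * τ u) := by
    intro u hu
    have h1 := hb u hu
    have e0 : ∀ x ∈ Set.uIcc 0 u, Z x = g x - U x := by
      intro x hx
      rw [Set.uIcc_of_le hu.1] at hx
      exact hZe x ⟨hx.1, hx.2.trans hu.2⟩
    have e1 : ∫ x in (0 : ℝ)..u, (2 / (g x - U x) ^ 2).re = (J u).re := by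
      have : ∫ x in (0 : ℝ)..u, (2 / (g x - U x) ^ 2).re =
          ∫ x in (0 : ℝ)..u, Complex.reCLM (2 / Z x ^ 2) :=
        intervalIntegral.integral_congr fun x hx => by
          simp only [Complex.reCLM_apply]
          rw [e0 x hx]
      rw [this, Complex.reCLM.intervalIntegral_comp_comm (hac.intervalIntegrable _ _)]
      rfl
    have e2 : ∫ x in (0 : ℝ)..u, 1 / ‖g x - U x‖ ^ 2 = τ u :=
      intervalIntegral.integral_congr fun x hx => by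
        rw [e0 x hx]
    rw [e1, e2, ← hZe u hu] at h1
    exact h1
  -- the normalised difference
  set D : ℝ → ℂ := fun u => g' u - g u with hD
  set N : ℝ → ℂ := fun u => D u * Complex.exp (J u) with hN
  have hD0 : D 0 = w - z₀ := by rw [hD]; simp only; rw [hg.1, hg'.1]
  have hD0p : 0 < ‖D 0‖ := by rw [hD0]; exact norm_pos_iff.mpr (sub_ne_zero.mpr hne)
  have hJ0 : J 0 = 0 := by simp [hJ]
  have hτ0 : τ 0 = 0 := by simp [hτ]
  have hN0 : ‖N 0‖ = ‖D 0‖ := by simp [hN, hJ0]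
  have hND : ∀ u, ‖N u‖ = ‖D u‖ * Real.exp (J u).re := by
    intro u
    rw [hN]
    simp only
    rw [norm_mul, Complex.norm_exp]
  have hDd : ∀ u ∈ Set.Ico 0 s, HasDerivWithinAt D (-2 * D u / (Z u * (Z u + D u)))
      (Set.Ici u) u := by
    intro u hu
    have hu' : u ∈ Set.Icc 0 s := ⟨hu.1, hu.2.le⟩
    have hmem : Set.Icc 0 s ∈ 𝓝[≥] u := by
      refine mem_of_superset (Icc_mem_nhdsGE hu.2) ?_
      exact Set.Icc_subset_Icc_left hu.1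
    have h1 := (hg'.2.2 u hu').mono_of_mem_nhdsWithin hmem
    have h2 := (hg.2.2 u hu').mono_of_mem_nhdsWithin hmem
    refine (h1.sub h2).congr_deriv ?_
    have hne1 : g u - U u ≠ 0 := sub_ne_zero.mpr (hg.2.1 u hu')
    have hne2 : g' u - U u ≠ 0 := sub_ne_zero.mpr (hg'.2.1 u hu')
    have e1 : Z u + D u = g' u - U u := by rw [hZe u hu', hD]; simp only; ring
    rw [e1, hZe u hu', hD]
    simp only
    field_simp
    ring
  have hNd : ∀ u ∈ Set.Ico 0 s, HasDerivWithinAt N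
      (N u * (2 * D u / (Z u ^ 2 * (Z u + D u)))) (Set.Ici u) u := by
    intro u hu
    have hu' : u ∈ Set.Icc 0 s := ⟨hu.1, hu.2.le⟩
    have h1 := (hDd u hu).mul ((hJd u).cexp.hasDerivWithinAt (s := Set.Ici u))
    refine h1.congr_deriv ?_
    have hne2 : g' u - U u ≠ 0 := sub_ne_zero.mpr (hg'.2.1 u hu')
    have e1 : Z u + D u = g' u - U u := by rw [hZe u hu', hD]; simp only; ring
    have hne3 : Z u + D u ≠ 0 := by rw [e1]; exact hne2
    have hne4 := hZ0 u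
    rw [hN]
    simp only
    field_simp
    ring
  -- consequences of an upper bound for `N`
  have hcons : ∀ u ∈ Set.Icc 0 s, ‖N u‖ ≤ 2 * ‖D 0‖ →
      ‖D u‖ ≤ 2 * ρ * M * ‖Z u‖ * Real.exp (-θ * τ u) := by
    intro u hu hNu
    rw [hND] at hNu
    have h1 : ‖D u‖ = ‖D u‖ * Real.exp (J u).re * Real.exp (-(J u).re) := by
      rw [mul_assoc, ← Real.exp_add, add_neg_cancel, Real.exp_zero, mul_one]
    have h2 : ‖D 0‖ ≤ ρ * ‖z₀‖ := by rw [hD0]; exact hw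
    rw [h1]
    calc ‖D u‖ * Real.exp (J u).re * Real.exp (-(J u).re)
        ≤ (2 * ‖D 0‖) * (M / ‖z₀‖ * ‖Z u‖ * Real.exp (-θ * τ u)) :=
          mul_le_mul hNu (hb' u hu) (Real.exp_pos _).le (by positivity)
      _ ≤ (2 * (ρ * ‖z₀‖)) * (M / ‖z₀‖ * ‖Z u‖ * Real.exp (-θ * τ u)) := by
          gcongr
      _ = 2 * ρ * M * ‖Z u‖ * Real.exp (-θ * τ u) := by
          field_simp
  have hτn : ∀ u ∈ Set.Icc 0 s, 0 ≤ τ u := by
    intro u hu
    exact intervalIntegral.integral_nonneg hu.1 fun x _ => by positivity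
  have hcons2 : ∀ u ∈ Set.Icc 0 s, ‖N u‖ ≤ 2 * ‖D 0‖ → ‖D u‖ ≤ ‖Z u‖ / 4 := by
    intro u hu hNu
    refine (hcons u hu hNu).trans ?_
    have h1 : Real.exp (-θ * τ u) ≤ 1 := by
      rw [Real.exp_le_one_iff]
      have := mul_nonneg hθ.le (hτn u hu)
      linarith
    have h2 : 2 * ρ * M ≤ 1 / 4 := by linarith
    have h3 : 0 ≤ ‖Z u‖ := norm_nonneg _
    calc 2 * ρ * M * ‖Z u‖ * Real.exp (-θ * τ u) ≤ 1 / 4 * ‖Z u‖ * 1 := by gcongr
      _ = ‖Z u‖ / 4 := by ring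
  -- the boundary function
  set B : ℝ → ℝ := fun u => ‖D 0‖ * Real.exp (1 / 2 * (1 - Real.exp (-θ * τ u))) with hB
  have hB2 : ∀ u, B u ≤ 2 * ‖D 0‖ := by
    intro u
    have h1 : Real.exp (1 / 2 * (1 - Real.exp (-θ * τ u))) ≤ Real.exp (1 / 2) := by
      apply Real.exp_le_exp.mpr
      have := Real.exp_pos (-θ * τ u)
      linarith
    have h2 : Real.exp (1 / 2) ≤ 2 := by
      have h3 : Real.exp (1 / 2) ^ 2 = Real.exp 1 := by
        rw [← Real.exp_nat_mul]; norm_num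
      have h4 := Real.exp_one_lt_d9
      have h5 := Real.exp_pos (1 / 2)
      nlinarith
    rw [hB]
    simp only
    rw [mul_comm]
    gcongr
    exact h1.trans h2
  have hBpos : ∀ u, 0 < B u := fun u => mul_pos hD0p (Real.exp_pos _)
  have hBd : ∀ u, HasDerivAt B (B u * (θ / 2 * Real.exp (-θ * τ u) * (1 / ‖Z u‖ ^ 2))) u := by
    intro u
    have h1 : HasDerivAt (fun u => -θ * τ u) (-θ * (1 / ‖Z u‖ ^ 2)) u := (hτd u).const_mul (-θ)
    have h2 := h1.exp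
    have h3 : HasDerivAt (fun u => 1 / 2 * (1 - Real.exp (-θ * τ u)))
        (1 / 2 * (-(Real.exp (-θ * τ u) * (-θ * (1 / ‖Z u‖ ^ 2))))) u :=
      (h2.const_sub 1).const_mul (1 / 2)
    have h4 := (h3.exp).const_mul ‖D 0‖
    refine h4.congr_deriv ?_
    rw [hB]
    simp only
    ring
  have hDc : ContinuousOn D (Set.Icc 0 s) :=
    (fun x hx => ((hg'.2.2 x hx).continuousWithinAt).sub (hg.2.2 x hx).continuousWithinAt)
  have hNc : ContinuousOn N (Set.Icc 0 s) :=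
    hDc.mul (Complex.continuous_exp.comp
      (continuous_iff_continuousAt.mpr fun u => (hJd u).continuousAt)).continuousOn
  have main := image_norm_le_of_norm_deriv_right_lt_deriv_boundary (a := 0) (b := s)
    (f := N) (f' := fun u => N u * (2 * D u / (Z u ^ 2 * (Z u + D u)))) (B := B)
    (B' := fun u => B u * (θ / 2 * Real.exp (-θ * τ u) * (1 / ‖Z u‖ ^ 2))) hNc hNd
    (by rw [hN0, hB]; simp [hτ0]) hBd (fun u hu hNB => by
      have hu' : u ∈ Set.Icc 0 s := ⟨hu.1, hu.2.le⟩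
      have hN2 : ‖N u‖ ≤ 2 * ‖D 0‖ := by rw [hNB]; exact hB2 u
      have h1 := hcons u hu' hN2
      have h2 := hcons2 u hu' hN2
      have hZp : 0 < ‖Z u‖ := norm_pos_iff.mpr (hZ0 u)
      have h3 : 3 / 4 * ‖Z u‖ ≤ ‖Z u + D u‖ := by
        have h4 : ‖Z u‖ ≤ ‖Z u + D u‖ + ‖D u‖ := by
          have := norm_sub_le (Z u + D u) (D u)
          rwa [add_sub_cancel_right] at this
        linarith
      have h5 : ‖2 * D u / (Z u ^ 2 * (Z u + D u))‖ <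
          θ / 2 * Real.exp (-θ * τ u) * (1 / ‖Z u‖ ^ 2) := by
        rw [norm_div, norm_mul, norm_mul, norm_pow, Complex.norm_ofNat]
        have h9 : 0 < ‖Z u + D u‖ := lt_of_lt_of_le (by positivity) h3
        rw [div_lt_iff₀ (by positivity)]
        have h6 : θ / 2 * Real.exp (-θ * τ u) * (1 / ‖Z u‖ ^ 2) *
            (‖Z u‖ ^ 2 * ‖Z u + D u‖) = θ / 2 * Real.exp (-θ * τ u) * ‖Z u + D u‖ := by
          field_simp
        rw [h6]
        have h7 : 2 * ρ * M ≤ θ / 8 := by linarith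
        have h8 : 0 < Real.exp (-θ * τ u) := Real.exp_pos _
        have h10 : 0 < θ * (Real.exp (-θ * τ u) * ‖Z u‖) :=
          mul_pos hθ (mul_pos h8 hZp)
        calc 2 * ‖D u‖ ≤ 2 * (2 * ρ * M * ‖Z u‖ * Real.exp (-θ * τ u)) := by gcongr
          _ ≤ 2 * (θ / 8 * ‖Z u‖ * Real.exp (-θ * τ u)) := by gcongr
          _ < θ / 2 * Real.exp (-θ * τ u) * (3 / 4 * ‖Z u‖) := by nlinarith
          _ ≤ θ / 2 * Real.exp (-θ * τ u) * ‖Z u + D u‖ := by gcongr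
      rw [norm_mul, hNB]
      exact mul_lt_mul_of_pos_left h5 (hBpos u))
  intro u hu
  have hfin := main hu
  have h1 := hcons u hu (hfin.trans (hB2 u))
  have e0 : ∀ x ∈ Set.uIcc 0 u, Z x = g x - U x := by
    intro x hx
    rw [Set.uIcc_of_le hu.1] at hx
    exact hZe x ⟨hx.1, hx.2.trans hu.2⟩
  have e2 : ∫ x in (0 : ℝ)..u, 1 / ‖g x - U x‖ ^ 2 = τ u :=
    intervalIntegral.integral_congr fun x hx => by
      rw [e0 x hx]
  rw [e2, ← hZe u hu]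
  exact h1

/-- continuous extension of `Z = g - U` -/
theorem ext {U : ℝ → ℂ} (hU : Continuous U) {z : ℂ} {t : ℝ} {g : ℝ → ℂ} (ht : 0 ≤ t)
    (hg : Sol U z t g) : ∃ Z : ℝ → ℂ, Continuous Z ∧ (∀ x, Z x ≠ 0) ∧
      ∀ x ∈ Set.Icc 0 t, Z x = g x - U x := by
  have hgc : ContinuousOn g (Set.Icc 0 t) := fun x hx => (hg.2.2 x hx).continuousWithinAt
  refine ⟨Set.IccExtend ht (fun x : Set.Icc 0 t => g x - U x), ?_, ?_, ?_⟩
  · refine Continuous.Icc_extend' ?_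
    exact (continuousOn_iff_continuous_domRestrict.mp hgc).sub (hU.comp continuous_subtype_val)
  · intro x
    change g (Set.projIcc 0 t ht x) - U (Set.projIcc 0 t ht x) ≠ 0
    exact sub_ne_zero.mpr (hg.2.1 _ (Set.projIcc 0 t ht x).2)
  · exact fun x hx => Set.IccExtend_of_mem ht _ hx

/-- comparison of the two integrands -/
theorem ptw {Z Z' : ℂ} {e : ℝ} (hZ : Z ≠ 0) (he : e ≤ 1 / 4) (hD : ‖Z' - Z‖ ≤ e * ‖Z‖) :
    ‖1 / Z' ^ 2 - 1 / Z ^ 2‖ ≤ 4 * e * (1 / ‖Z‖ ^ 2) ∧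
      |1 / ‖Z'‖ ^ 2 - 1 / ‖Z‖ ^ 2| ≤ 4 * e * (1 / ‖Z‖ ^ 2) := by
  have hZ0 : 0 < ‖Z‖ := norm_pos_iff.mpr hZ
  have he0 : 0 ≤ e := by
    by_contra h
    have h1 := norm_nonneg (Z' - Z)
    have h2 : e * ‖Z‖ < 0 := mul_neg_of_neg_of_pos (not_le.mp h) hZ0
    linarith
  have h1 : 3 / 4 * ‖Z‖ ≤ ‖Z'‖ := by
    have h4 : ‖Z‖ ≤ ‖Z'‖ + ‖Z' - Z‖ := by
      have := norm_sub_le Z' (Z' - Z)
      rwa [sub_sub_cancel] at this
    nlinarith
  have h2 : ‖Z' + Z‖ ≤ 9 / 4 * ‖Z‖ := by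
    have h4 : ‖Z' + Z‖ ≤ ‖Z' - Z‖ + ‖2 * Z‖ := by
      have := norm_add_le (Z' - Z) (2 * Z)
      have e1 : Z' - Z + 2 * Z = Z' + Z := by ring
      rwa [e1] at this
    rw [norm_mul, Complex.norm_ofNat] at h4
    nlinarith
  have hZ'0 : 0 < ‖Z'‖ := lt_of_lt_of_le (by positivity) h1
  have hZ' : Z' ≠ 0 := norm_pos_iff.mp hZ'0
  have key : ‖Z' - Z‖ * ‖Z' + Z‖ / (‖Z'‖ ^ 2 * ‖Z‖ ^ 2) ≤ 4 * e * (1 / ‖Z‖ ^ 2) := by
    rw [div_le_iff₀ (by positivity)]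
    have e1 : 4 * e * (1 / ‖Z‖ ^ 2) * (‖Z'‖ ^ 2 * ‖Z‖ ^ 2) = 4 * e * ‖Z'‖ ^ 2 := by
      field_simp
    rw [e1]
    calc ‖Z' - Z‖ * ‖Z' + Z‖ ≤ (e * ‖Z‖) * (9 / 4 * ‖Z‖) :=
          mul_le_mul hD h2 (norm_nonneg _) (by positivity)
      _ = 4 * e * (3 / 4 * ‖Z‖) ^ 2 := by ring
      _ ≤ 4 * e * ‖Z'‖ ^ 2 := by gcongr
  refine ⟨?_, ?_⟩
  · have e2 : 1 / Z' ^ 2 - 1 / Z ^ 2 = -((Z' - Z) * (Z' + Z)) / (Z' ^ 2 * Z ^ 2) := by
      field_simp
      ring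
    rw [e2, norm_div, norm_neg, norm_mul, norm_mul, norm_pow, norm_pow]
    exact key
  · have e2 : 1 / ‖Z'‖ ^ 2 - 1 / ‖Z‖ ^ 2 =
        -((‖Z'‖ - ‖Z‖) * (‖Z'‖ + ‖Z‖)) / (‖Z'‖ ^ 2 * ‖Z‖ ^ 2) := by
      field_simp
      ring
    have h3 : |‖Z'‖ - ‖Z‖| ≤ e * ‖Z‖ := (abs_norm_sub_norm_le Z' Z).trans hD
    have h4 : ‖Z'‖ + ‖Z‖ ≤ 9 / 4 * ‖Z‖ := by
      have := (abs_le.mp h3).2
      nlinarith
    rw [e2, abs_div, abs_neg, abs_mul, abs_of_pos (show 0 < ‖Z'‖ + ‖Z‖ by positivity),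
      abs_of_pos (show 0 < ‖Z'‖ ^ 2 * ‖Z‖ ^ 2 by positivity), div_le_iff₀ (by positivity)]
    have e1 : 4 * e * (1 / ‖Z‖ ^ 2) * (‖Z'‖ ^ 2 * ‖Z‖ ^ 2) = 4 * e * ‖Z'‖ ^ 2 := by
      field_simp
    rw [e1]
    calc |‖Z'‖ - ‖Z‖| * (‖Z'‖ + ‖Z‖) ≤ (e * ‖Z‖) * (9 / 4 * ‖Z‖) :=
          mul_le_mul h3 h4 (by positivity) (by positivity)
      _ = 4 * e * (3 / 4 * ‖Z‖) ^ 2 := by ring
      _ ≤ 4 * e * ‖Z'‖ ^ 2 := by gcongr

/-- the integral of the error -/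
theorem err {Z : ℝ → ℂ} (hZc : Continuous Z) (hZ0 : ∀ x, Z x ≠ 0) {ε u : ℝ} (_hε : 0 < ε) :
    ∫ v in (0 : ℝ)..u, ε * (Real.exp (-ε * ∫ x in (0 : ℝ)..v, 1 / ‖Z x‖ ^ 2) *
      (1 / ‖Z v‖ ^ 2)) ≤ 1 := by
  have hbc : Continuous fun x => 1 / ‖Z x‖ ^ 2 :=
    continuous_const.div (hZc.norm.pow 2) fun x => pow_ne_zero 2 (norm_ne_zero_iff.mpr (hZ0 x))
  have hτd : ∀ v, HasDerivAt (fun v => ∫ x in (0 : ℝ)..v, 1 / ‖Z x‖ ^ 2) (1 / ‖Z v‖ ^ 2) v :=
    fun v => intervalIntegral.integral_hasDerivAt_right (hbc.intervalIntegrable _ _)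
      (hbc.stronglyMeasurableAtFilter _ _) hbc.continuousAt
  have hτc : Continuous fun v => ∫ x in (0 : ℝ)..v, 1 / ‖Z x‖ ^ 2 :=
    continuous_iff_continuousAt.mpr fun v => (hτd v).continuousAt
  have hd : ∀ v, HasDerivAt (fun v => -Real.exp (-ε * ∫ x in (0 : ℝ)..v, 1 / ‖Z x‖ ^ 2))
      (ε * (Real.exp (-ε * ∫ x in (0 : ℝ)..v, 1 / ‖Z x‖ ^ 2) * (1 / ‖Z v‖ ^ 2))) v := by
    intro v
    have h1 := (((hτd v).const_mul (-ε)).exp).neg
    refine h1.congr_deriv ?_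
    ring
  have hcont : Continuous fun v =>
      ε * (Real.exp (-ε * ∫ x in (0 : ℝ)..v, 1 / ‖Z x‖ ^ 2) * (1 / ‖Z v‖ ^ 2)) :=
    continuous_const.mul ((Real.continuous_exp.comp (continuous_const.mul hτc)).mul hbc)
  rw [intervalIntegral.integral_eq_sub_of_hasDerivAt (fun v _ => hd v)
    (hcont.intervalIntegrable _ _)]
  have h1 := Real.exp_pos (-ε * ∫ x in (0 : ℝ)..u, 1 / ‖Z x‖ ^ 2)
  rw [intervalIntegral.integral_same, mul_zero, Real.exp_zero]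
  linarith

end TRSHD

/-- TR-SHD. The shadowing lemma: a whole neighbourhood of `z` follows the solution of `z`.

Proof. As `BAaux.close` and `ball_alive_small` (LN/BA.lean), with `z₀ := z`, `θ := ε`,
`M / ‖z₀‖ := exp Φ`, `ρ ‖z₀‖ := ε / 16 * exp (-Φ)`, so `16 ρ M = ε` (`z ≠ 0` because
`g 0 = z ≠ U 0 = 0`). The hypothesis `hΦ` says
`exp (-∫ (2 / Z^2).re) ≤ exp Φ * |Z_u| * exp (-ε τ_u)`, `τ = ∫ 1 / |Z|^2`.
1. (two solutions on `[0,s]`) The proof of `BAaux.close` gives more than it states: with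
   `D = g' - g` one has `|D_u| ≤ ε / 8 * |Z_u| * exp (-ε τ_u)` for all `u ∈ [0,s]` (`hcons`,
   and `main` at every `u`). Copy it with this conclusion (if `w = z`, then `D = 0` by
   `Sol.unique`).
2. (existence) As in `ball_alive_small`: if `w ∈ hull U t`, then `hull_reach` with `δ` smaller
   than half of the minimum of `|Z|` on `[0,t]` and than `|w| / 2` contradicts 1. (`|w| > 0`:
   `|w - z| ≤ ε / 16 exp (-Φ) ≤ |z| / 8` since `Φ ≥ ph U g ε 0 = -log |z|`.)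
3. (comparison) `|1 / Z'^2 - 1 / Z^2| ≤ 4 (|D| / |Z|) / |Z|^2 ≤ (ε / 2) exp (-ε τ) τ'` and the same
   for `|1 / |Z'|^2 - 1 / |Z|^2|`; the integral of `ε exp (-ε τ) τ'` is at most `1`. So both
   integrals differ by at most `1 / 2`, and those of `kk 1 ε` by at most `2 * (1/2) + ε / 2 ≤ 2`. -/
theorem shadow {U : ℝ → ℂ} (hU : Continuous U) (h0 : U 0 = 0) {z w : ℂ} {t ε Φ : ℝ} (ht : 0 ≤ t)
    (hε : 0 < ε) (hε2 : ε ≤ 2) {g : ℝ → ℂ} (hg : Sol U z t g)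
    (hΦ : ∀ u ∈ Set.Icc 0 t, ph U g ε u ≤ Φ) (hw : ‖w - z‖ ≤ ε / 16 * Real.exp (-Φ)) :
    ∃ g' : ℝ → ℂ, Sol U w t g' ∧ (∀ u ∈ Set.Icc 0 t, ‖g' u - g u‖ ≤ ‖g u - U u‖ / 4) ∧
      ∀ u ∈ Set.Icc 0 t,
        |(∫ v in (0 : ℝ)..u, kk 1 ε (g' v - U v)) - ∫ v in (0 : ℝ)..u, kk 1 ε (g v - U v)| ≤ 2 ∧
          |lk U g' 0 u - lk U g 0 u| ≤ 1 := by
  have hz : z ≠ 0 := by
    have h1 := hg.2.1 0 ⟨le_rfl, ht⟩
    rwa [hg.1, h0] at h1
  have hz0 : 0 < ‖z‖ := norm_pos_iff.mpr hz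
  obtain ⟨Z, hZc, hZ0, hZe⟩ := TRSHD.ext hU ht hg
  have hac : Continuous fun x => 1 / Z x ^ 2 :=
    continuous_const.div (hZc.pow 2) fun x => pow_ne_zero 2 (hZ0 x)
  have hbc : Continuous fun x => 1 / ‖Z x‖ ^ 2 :=
    continuous_const.div (hZc.norm.pow 2) fun x => pow_ne_zero 2 (norm_ne_zero_iff.mpr (hZ0 x))
  have e0 : ∀ u ∈ Set.Icc 0 t, ∀ x ∈ Set.uIcc 0 u, g x - U x = Z x := by
    intro u hu x hx
    rw [Set.uIcc_of_le hu.1] at hx
    exact (hZe x ⟨hx.1, hx.2.trans hu.2⟩).symm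
  -- the hypothesis
  have hb : ∀ u ∈ Set.Icc 0 t, Real.exp (-∫ s in (0 : ℝ)..u, (2 / (g s - U s) ^ 2).re)
        ≤ ‖z‖ * Real.exp Φ / ‖z‖ * ‖g u - U u‖ *
          Real.exp (-ε * ∫ s in (0 : ℝ)..u, 1 / ‖g s - U s‖ ^ 2) := by
    intro u hu
    have h1 := hΦ u hu
    unfold ph at h1
    have hne : 0 < ‖g u - U u‖ := norm_pos_iff.mpr (sub_ne_zero.mpr (hg.2.1 u hu))
    have e1 : ∫ v in (0 : ℝ)..u, kk 1 ε (g v - U v) =
        -(∫ s in (0 : ℝ)..u, (2 / (g s - U s) ^ 2).re) +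
          ε * ∫ s in (0 : ℝ)..u, 1 / ‖g s - U s‖ ^ 2 := by
      have e2 : ∫ v in (0 : ℝ)..u, kk 1 ε (g v - U v) = ∫ v in (0 : ℝ)..u,
          (-(2 / Z v ^ 2).re + ε * (1 / ‖Z v‖ ^ 2)) :=
        intervalIntegral.integral_congr fun x hx => by
          rw [e0 u hu x hx, kk]
          have e5 : (2 / Z x ^ 2).re = 2 * (1 / Z x ^ 2).re := by
            rw [show (2 : ℂ) / Z x ^ 2 = ((2 : ℝ) : ℂ) * (1 / Z x ^ 2) by push_cast; ring,
              Complex.re_ofReal_mul]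
          rw [e5]
          ring
      have e3 : ∫ s in (0 : ℝ)..u, (2 / (g s - U s) ^ 2).re =
          ∫ s in (0 : ℝ)..u, (2 / Z s ^ 2).re :=
        intervalIntegral.integral_congr fun x hx => by
          rw [e0 u hu x hx]
      have e4 : ∫ s in (0 : ℝ)..u, 1 / ‖g s - U s‖ ^ 2 = ∫ s in (0 : ℝ)..u, 1 / ‖Z s‖ ^ 2 :=
        intervalIntegral.integral_congr fun x hx => by
          rw [e0 u hu x hx]
      have hc1 : Continuous fun x => (2 / Z x ^ 2).re :=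
        Complex.continuous_re.comp
          (continuous_const.div (hZc.pow 2) fun x => pow_ne_zero 2 (hZ0 x))
      have hc2 : Continuous fun x => -(2 / Z x ^ 2).re := hc1.neg
      have hc3 : Continuous fun x => ε * (1 / ‖Z x‖ ^ 2) := continuous_const.mul hbc
      rw [e2, e3, e4, intervalIntegral.integral_add (hc2.intervalIntegrable _ _)
        (hc3.intervalIntegrable _ _), intervalIntegral.integral_neg,
        intervalIntegral.integral_const_mul]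
    rw [e1] at h1
    rw [mul_div_cancel_left₀ _ hz0.ne']
    calc Real.exp (-∫ s in (0 : ℝ)..u, (2 / (g s - U s) ^ 2).re)
        ≤ Real.exp (Φ + Real.log ‖g u - U u‖ +
            -ε * ∫ s in (0 : ℝ)..u, 1 / ‖g s - U s‖ ^ 2) :=
          Real.exp_le_exp.mpr (by linarith)
      _ = Real.exp Φ * ‖g u - U u‖ *
            Real.exp (-ε * ∫ s in (0 : ℝ)..u, 1 / ‖g s - U s‖ ^ 2) := by
          rw [Real.exp_add, Real.exp_add, Real.exp_log hne]
  obtain ⟨ρ, hρ⟩ : ∃ ρ, ρ = ε / 16 * Real.exp (-Φ) / ‖z‖ := ⟨_, rfl⟩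
  have hρ0 : 0 ≤ ρ := by
    rw [hρ]
    positivity
  have hρz : ρ * ‖z‖ = ε / 16 * Real.exp (-Φ) := by
    rw [hρ, div_mul_cancel₀ _ hz0.ne']
  have hM : 16 * ρ * (‖z‖ * Real.exp Φ) = ε := by
    calc 16 * ρ * (‖z‖ * Real.exp Φ) = 16 * (ρ * ‖z‖) * Real.exp Φ := by ring
      _ = ε * (Real.exp (-Φ) * Real.exp Φ) := by
        rw [hρz]
        ring
      _ = ε := by rw [← Real.exp_add, neg_add_cancel, Real.exp_zero, mul_one]
  have hM0 : 0 ≤ ‖z‖ * Real.exp Φ := by positivity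
  have hw' : ‖w - z‖ ≤ ρ * ‖z‖ := by rw [hρz]; exact hw
  -- two solutions
  have hcl : ∀ s ∈ Set.Icc 0 t, ∀ g' : ℝ → ℂ, Sol U w s g' → ∀ u ∈ Set.Icc 0 s,
      ‖g' u - g u‖ ≤ ε / 8 * ‖g u - U u‖ *
        Real.exp (-ε * ∫ s in (0 : ℝ)..u, 1 / ‖g s - U s‖ ^ 2) := by
    intro s hs g' hg' u hu
    by_cases hne : w = z
    · subst hne
      have h1 := Sol.unique hU hg' (hg.restrict hs.2) u hu
      rw [h1, sub_self, norm_zero]
      positivity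
    · have h1 := TRSHD.close hU hz hρ0 hs.1 hε hε2 hM.le hM0 (hg.restrict hs.2) hg'
        (fun v hv => hb v ⟨hv.1, hv.2.trans hs.2⟩) hw' hne u hu
      have h2 : 2 * ρ * (‖z‖ * Real.exp Φ) = ε / 8 := by linarith
      rwa [h2] at h1
  have hτn : ∀ u ∈ Set.Icc 0 t, Real.exp (-ε * ∫ s in (0 : ℝ)..u, 1 / ‖g s - U s‖ ^ 2) ≤ 1 := by
    intro u hu
    rw [Real.exp_le_one_iff]
    have h1 : 0 ≤ ∫ s in (0 : ℝ)..u, 1 / ‖g s - U s‖ ^ 2 :=
      intervalIntegral.integral_nonneg hu.1 fun x _ => by positivity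
    nlinarith
  have hcl4 : ∀ s ∈ Set.Icc 0 t, ∀ g' : ℝ → ℂ, Sol U w s g' → ∀ u ∈ Set.Icc 0 s,
      ‖g' u - g u‖ ≤ ‖g u - U u‖ / 4 := by
    intro s hs g' hg' u hu
    refine (hcl s hs g' hg' u hu).trans ?_
    have h1 := hτn u ⟨hu.1, hu.2.trans hs.2⟩
    have h2 : ε / 8 ≤ 1 / 4 := by linarith
    calc ε / 8 * ‖g u - U u‖ * Real.exp (-ε * ∫ s in (0 : ℝ)..u, 1 / ‖g s - U s‖ ^ 2)
        ≤ 1 / 4 * ‖g u - U u‖ * 1 := by gcongr
      _ = ‖g u - U u‖ / 4 := by ring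
  -- existence
  have hex : ∃ g', Sol U w t g' := by
    by_contra hcon
    have hρ8 : ρ ≤ 1 / 8 := by
      have h1 := hb 0 ⟨le_rfl, ht⟩
      rw [intervalIntegral.integral_same, intervalIntegral.integral_same, neg_zero, mul_zero,
        Real.exp_zero, mul_one, hg.1, h0, sub_zero, div_mul_cancel₀ _ hz0.ne'] at h1
      nlinarith
    have hw0 : 0 < ‖w‖ := by
      have h1 : ‖z‖ ≤ ‖w‖ + ‖w - z‖ := by
        have := norm_sub_le w (w - z)
        rwa [sub_sub_cancel] at this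
      nlinarith
    obtain ⟨c, hc0, hc⟩ : ∃ c : ℝ, 0 < c ∧ ∀ x ∈ Set.Icc 0 t, c ≤ ‖g x - U x‖ := by
      have hgc : ContinuousOn (fun x => ‖g x - U x‖) (Set.Icc 0 t) := fun x hx =>
        ((hg.2.2 x hx).continuousWithinAt.sub hU.continuousAt.continuousWithinAt).norm
      obtain ⟨x, hx, hmin⟩ := isCompact_Icc.exists_isMinOn ⟨0, ⟨le_rfl, ht⟩⟩ hgc
      exact ⟨‖g x - U x‖, norm_pos_iff.mpr (sub_ne_zero.mpr (hg.2.1 x hx)), fun y hy => hmin hy⟩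
    have hδ0 : 0 < min (c / 2) (‖w‖ / 2) := lt_min (by linarith) (by linarith)
    obtain ⟨s, hs, g', hg', hgs⟩ := hull_reach hU ht (z := w) hcon hδ0 (by
      rw [h0, sub_zero]
      exact lt_of_le_of_lt (min_le_right _ _) (by linarith))
    have hcs := hc s hs
    have h1 := hcl4 s hs g' hg' s ⟨hs.1, le_rfl⟩
    have h2 : ‖g s - U s‖ ≤ ‖g' s - U s‖ + ‖g' s - g s‖ := by
      have := norm_sub_le (g' s - U s) (g' s - g s)
      have e : g' s - U s - (g' s - g s) = g s - U s := by ring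
      rwa [e] at this
    rw [hgs] at h2
    have := min_le_left (c / 2) (‖w‖ / 2)
    linarith
  obtain ⟨g', hg'⟩ := hex
  have htt : t ∈ Set.Icc 0 t := ⟨ht, le_rfl⟩
  refine ⟨g', hg', hcl4 t htt g' hg', ?_⟩
  intro u hu
  obtain ⟨Z', hZc', hZ0', hZe'⟩ := TRSHD.ext hU ht hg'
  have hac' : Continuous fun x => 1 / Z' x ^ 2 :=
    continuous_const.div (hZc'.pow 2) fun x => pow_ne_zero 2 (hZ0' x)
  have hbc' : Continuous fun x => 1 / ‖Z' x‖ ^ 2 :=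
    continuous_const.div (hZc'.norm.pow 2) fun x => pow_ne_zero 2 (norm_ne_zero_iff.mpr (hZ0' x))
  have e0' : ∀ x ∈ Set.uIcc 0 u, g' x - U x = Z' x := by
    intro x hx
    rw [Set.uIcc_of_le hu.1] at hx
    exact (hZe' x ⟨hx.1, hx.2.trans hu.2⟩).symm
  obtain ⟨ee, hee⟩ : ∃ ee : ℝ → ℝ, ee = fun v =>
      Real.exp (-ε * ∫ x in (0 : ℝ)..v, 1 / ‖Z x‖ ^ 2) * (1 / ‖Z v‖ ^ 2) := ⟨_, rfl⟩
  have herr : ∫ v in (0 : ℝ)..u, ε * ee v ≤ 1 := by
    rw [hee]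
    exact TRSHD.err hZc hZ0 hε
  have heec : Continuous ee := by
    have hτd : ∀ v, HasDerivAt (fun v => ∫ x in (0 : ℝ)..v, 1 / ‖Z x‖ ^ 2) (1 / ‖Z v‖ ^ 2) v :=
      fun v => intervalIntegral.integral_hasDerivAt_right (hbc.intervalIntegrable _ _)
        (hbc.stronglyMeasurableAtFilter _ _) hbc.continuousAt
    have hτc : Continuous fun v => ∫ x in (0 : ℝ)..v, 1 / ‖Z x‖ ^ 2 :=
      continuous_iff_continuousAt.mpr fun v => (hτd v).continuousAt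
    rw [hee]
    exact (Real.continuous_exp.comp (continuous_const.mul hτc)).mul hbc
  rw [intervalIntegral.integral_const_mul] at herr
  have hee0 : 0 ≤ ∫ v in (0 : ℝ)..u, ee v :=
    intervalIntegral.integral_nonneg hu.1 fun x _ => by
      rw [hee]
      positivity
  -- pointwise
  have hp : ∀ v ∈ Set.Ioc 0 u, ‖1 / Z' v ^ 2 - 1 / Z v ^ 2‖ ≤ ε / 2 * ee v ∧
      |1 / ‖Z' v‖ ^ 2 - 1 / ‖Z v‖ ^ 2| ≤ ε / 2 * ee v := by
    intro v hv
    have hvt : v ∈ Set.Icc 0 t := ⟨hv.1.le, hv.2.trans hu.2⟩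
    have h1 := hcl t htt g' hg' v hvt
    have h2 := hτn v hvt
    have e4 : ∫ s in (0 : ℝ)..v, 1 / ‖g s - U s‖ ^ 2 = ∫ s in (0 : ℝ)..v, 1 / ‖Z s‖ ^ 2 :=
      intervalIntegral.integral_congr fun x hx => by
        rw [e0 v hvt x hx]
    have e5 : g' v - g v = Z' v - Z v := by
      rw [hZe v hvt, hZe' v hvt]
      ring
    rw [e4] at h1 h2
    rw [e5, ← hZe v hvt] at h1
    have h3 := TRSHD.ptw (Z := Z v) (Z' := Z' v)
      (e := ε / 8 * Real.exp (-ε * ∫ s in (0 : ℝ)..v, 1 / ‖Z s‖ ^ 2)) (hZ0 v) (by nlinarith)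
      (by linarith)
    have e6 : 4 * (ε / 8 * Real.exp (-ε * ∫ s in (0 : ℝ)..v, 1 / ‖Z s‖ ^ 2)) *
        (1 / ‖Z v‖ ^ 2) = ε / 2 * ee v := by
      rw [hee]
      ring
    rw [e6] at h3
    exact h3
  have ek : ∀ (Y : ℝ → ℂ), Continuous (fun x => 1 / Y x ^ 2) →
      Continuous (fun x => 1 / ‖Y x‖ ^ 2) → Continuous fun x => kk 1 ε (Y x) := by
    intro Y h1 h2
    have h3 : (fun x => kk 1 ε (Y x)) = fun x => -2 * 1 * (1 / Y x ^ 2).re +
        ε * (1 / ‖Y x‖ ^ 2) := by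
      funext x
      rw [kk]
      ring
    rw [h3]
    exact (continuous_const.mul (Complex.continuous_re.comp h1)).add (continuous_const.mul h2)
  constructor
  · have e2 : ∫ v in (0 : ℝ)..u, kk 1 ε (g' v - U v) = ∫ v in (0 : ℝ)..u, kk 1 ε (Z' v) :=
      intervalIntegral.integral_congr fun x hx => by
        rw [e0' x hx]
    have e3 : ∫ v in (0 : ℝ)..u, kk 1 ε (g v - U v) = ∫ v in (0 : ℝ)..u, kk 1 ε (Z v) :=
      intervalIntegral.integral_congr fun x hx => by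
        rw [e0 u hu x hx]
    rw [e2, e3, ← intervalIntegral.integral_sub ((ek Z' hac' hbc').intervalIntegrable _ _)
      ((ek Z hac hbc).intervalIntegrable _ _), ← Real.norm_eq_abs]
    have h1 := intervalIntegral.norm_integral_le_of_norm_le (f := fun v =>
      kk 1 ε (Z' v) - kk 1 ε (Z v)) (g := fun v => (ε + ε ^ 2 / 2) * ee v) (μ := volume) hu.1
      (Eventually.of_forall fun v hv => by
        obtain ⟨h2, h3⟩ := hp v hv
        have e7 : kk 1 ε (Z' v) - kk 1 ε (Z v) =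
            -2 * (1 / Z' v ^ 2 - 1 / Z v ^ 2).re + ε * (1 / ‖Z' v‖ ^ 2 - 1 / ‖Z v‖ ^ 2) := by
          rw [kk, kk, Complex.sub_re]
          ring
        have h4 := (Complex.abs_re_le_norm (1 / Z' v ^ 2 - 1 / Z v ^ 2)).trans h2
        rw [Real.norm_eq_abs, e7]
        rw [abs_le] at h3 h4 ⊢
        constructor <;> nlinarith) ((continuous_const.mul heec).intervalIntegrable _ _)
    refine h1.trans ?_
    rw [intervalIntegral.integral_const_mul]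
    nlinarith
  · unfold lk
    have e2 : ∫ v in (0 : ℝ)..u, 1 / ‖g' v - U v‖ ^ 2 = ∫ v in (0 : ℝ)..u, 1 / ‖Z' v‖ ^ 2 :=
      intervalIntegral.integral_congr fun x hx => by
        rw [e0' x hx]
    have e3 : ∫ v in (0 : ℝ)..u, 1 / ‖g v - U v‖ ^ 2 = ∫ v in (0 : ℝ)..u, 1 / ‖Z v‖ ^ 2 :=
      intervalIntegral.integral_congr fun x hx => by
        rw [e0 u hu x hx]
    rw [e2, e3, ← intervalIntegral.integral_sub (hbc'.intervalIntegrable _ _)
      (hbc.intervalIntegrable _ _), ← Real.norm_eq_abs]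
    have h1 := intervalIntegral.norm_integral_le_of_norm_le (f := fun v =>
      1 / ‖Z' v‖ ^ 2 - 1 / ‖Z v‖ ^ 2) (g := fun v => ε / 2 * ee v) (μ := volume) hu.1
      (Eventually.of_forall fun v hv => by
        rw [Real.norm_eq_abs]
        exact (hp v hv).2) ((continuous_const.mul heec).intervalIntegrable _ _)
    refine h1.trans ?_
    rw [intervalIntegral.integral_const_mul]
    linarith

end

end Pool.Agent.SLE
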