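import Pool.Agent.Lib.MP_c17912_pr_TR.PHS
import Pool.Agent.Lib.MP_c17912_pr_TR.OCC
import Pool.Agent.Lib.MP_c17912_pr_TR.SHD
import Pool.Agent.Lib.MP_c17912_pr.DrvSub

set_option autoImplicit false

open MeasureTheory ProbabilityTheory Filter
open scoped NNReal ENNReal Topology Real

namespace Pool.Agent.SLE

noncomputable section

namespace TRSTR

/-- Half of the side of the grid. -/
def M (s n : ℕ) : ℤ := ((s : ℤ) + 2) * 2 ^ n

/-- The indices of the grid. -/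
def G (s n : ℕ) : Finset (ℤ × ℤ) :=
  Finset.Icc (-(M s n)) (M s n) ×ˢ Finset.Icc (-(M s n)) (M s n)

/-- The points of the grid. -/
def pt (n : ℕ) (k : ℤ × ℤ) : ℂ := ((k.1 : ℂ) + (k.2 : ℂ) * Complex.I) / 2 ^ n

theorem M_ge (s n : ℕ) : 1 ≤ M s n := by
  unfold M
  have h1 : (1 : ℤ) ≤ 2 ^ n := one_le_pow₀ (by norm_num)
  have h2 : (0 : ℤ) ≤ s := Int.natCast_nonneg s
  nlinarith

theorem M_cast (s n : ℕ) : (M s n : ℝ) = ((s : ℝ) + 2) * 2 ^ n := by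
  unfold M
  push_cast
  ring

theorem card_G (s n : ℕ) : ((G s n).card : ℝ) ≤ 36 * ((s : ℝ) + 1) ^ 2 * 4 ^ n := by
  have hM := M_ge s n
  have h1 : (Finset.Icc (-(M s n)) (M s n)).card = (2 * M s n + 1).toNat := by
    rw [Int.card_Icc]
    congr 1
    ring
  have h2 : (((Finset.Icc (-(M s n)) (M s n)).card : ℕ) : ℝ) = 2 * (M s n : ℝ) + 1 := by
    rw [h1]
    have h3 : ((2 * M s n + 1).toNat : ℤ) = 2 * M s n + 1 := Int.toNat_of_nonneg (by linarith)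
    exact_mod_cast h3
  rw [G, Finset.card_product]
  push_cast
  rw [h2]
  have h4 : (1 : ℝ) ≤ M s n := by exact_mod_cast hM
  have h5 : 2 * (M s n : ℝ) + 1 ≤ 3 * M s n := by linarith
  have h6 : (0 : ℝ) ≤ s := Nat.cast_nonneg s
  have h7 : ((2 : ℝ) ^ n) ^ 2 = 4 ^ n := by
    rw [← pow_mul, mul_comm n 2, pow_mul]
    norm_num
  calc (2 * (M s n : ℝ) + 1) * (2 * (M s n : ℝ) + 1) ≤ (3 * M s n) * (3 * M s n) := by gcongr
    _ = 9 * ((s : ℝ) + 2) ^ 2 * (2 ^ n) ^ 2 := by rw [M_cast]; ring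
    _ = (3 * ((s : ℝ) + 2)) ^ 2 * 4 ^ n := by rw [h7]; ring
    _ ≤ (6 * ((s : ℝ) + 1)) ^ 2 * 4 ^ n := by
        refine mul_le_mul_of_nonneg_right (pow_le_pow_left₀ (by positivity) ?_ 2) (by positivity)
        linarith
    _ = 36 * ((s : ℝ) + 1) ^ 2 * 4 ^ n := by ring

theorem norm_pt {s n : ℕ} {k : ℤ × ℤ} (hk : k ∈ G s n) : 1 + ‖pt n k‖ ≤ 5 * ((s : ℝ) + 1) := by
  have h0 : (0 : ℝ) < 2 ^ n := by positivity
  have h6 : (0 : ℝ) ≤ s := Nat.cast_nonneg s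
  simp only [G, Finset.mem_product, Finset.mem_Icc] at hk
  have a1 : |(k.1 : ℝ)| ≤ M s n := by
    rw [abs_le]
    constructor
    · have := hk.1.1
      exact_mod_cast this
    · have := hk.1.2
      exact_mod_cast this
  have a2 : |(k.2 : ℝ)| ≤ M s n := by
    rw [abs_le]
    constructor
    · have := hk.2.1
      exact_mod_cast this
    · have := hk.2.2
      exact_mod_cast this
  have e1 : ‖pt n k‖ ≤ (|(k.1 : ℝ)| + |(k.2 : ℝ)|) / 2 ^ n := by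
    rw [pt, norm_div, norm_pow, Complex.norm_ofNat]
    gcongr
    refine (norm_add_le _ _).trans ?_
    rw [norm_mul, Complex.norm_I, mul_one, Complex.norm_intCast, Complex.norm_intCast]
  have e2 : (|(k.1 : ℝ)| + |(k.2 : ℝ)|) / 2 ^ n ≤ 2 * ((s : ℝ) + 2) := by
    rw [div_le_iff₀ h0]
    rw [M_cast] at a1 a2
    linarith
  linarith

/-- the threshold -/
def th (T : ℝ) (s e n : ℕ) : ℝ :=
  n * Real.log 2 - (T + Real.log ((s : ℝ) + 1) + Real.log ((e : ℝ) + 1))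

theorem exp_th {T q : ℝ} {Q : ℕ} (hT : 0 ≤ T) (hq : q ≤ Q) (s e n : ℕ) :
    Real.exp (-(q * th T s e n)) ≤
      Real.exp (Q * T) * ((s : ℝ) + 1) ^ Q * ((e : ℝ) + 1) ^ Q *
        Real.exp (-(q * Real.log 2)) ^ n := by
  have h6 : (0 : ℝ) ≤ s := Nat.cast_nonneg s
  have h7 : (0 : ℝ) ≤ e := Nat.cast_nonneg e
  have hs : 0 ≤ Real.log ((s : ℝ) + 1) := Real.log_nonneg (by linarith)
  have he : 0 ≤ Real.log ((e : ℝ) + 1) := Real.log_nonneg (by linarith)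
  have e1 : ((s : ℝ) + 1) ^ Q = Real.exp (Q * Real.log ((s : ℝ) + 1)) := by
    rw [mul_comm, Real.exp_mul, Real.exp_log (by linarith), Real.rpow_natCast]
  have e2 : ((e : ℝ) + 1) ^ Q = Real.exp (Q * Real.log ((e : ℝ) + 1)) := by
    rw [mul_comm, Real.exp_mul, Real.exp_log (by linarith), Real.rpow_natCast]
  rw [e1, e2, ← Real.exp_nat_mul, ← Real.exp_add, ← Real.exp_add, ← Real.exp_add]
  apply Real.exp_le_exp.2
  unfold th
  have h8 := mul_le_mul_of_nonneg_right hq (add_nonneg (add_nonneg hT hs) he)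
  nlinarith

/-- the weight -/
def wt (P s e : ℕ) : ℝ := 1 / (((s : ℝ) + 1) * ((e : ℝ) + 1)) ^ P

/-- the summable bound -/
def bb (B r : ℝ) (x : ℕ × ℕ × ℕ) : ℝ :=
  B * (1 / ((x.1 : ℝ) + 1) ^ 2 * (1 / ((x.2.1 : ℝ) + 1) ^ 2 * r ^ x.2.2))

theorem bb_nonneg {B r : ℝ} (hB : 0 ≤ B) (hr : 0 ≤ r) (x : ℕ × ℕ × ℕ) : 0 ≤ bb B r x := by
  unfold bb
  positivity

theorem bb_summable {B r : ℝ} (hr : 0 ≤ r) (hr1 : r < 1) : Summable (bb B r) := by
  have h1 : Summable (fun s : ℕ => 1 / ((s : ℝ) + 1) ^ 2) := by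
    have h := (summable_nat_add_iff 1).2 (Real.summable_one_div_nat_pow.2 (by norm_num : 1 < 2))
    refine h.congr fun s => ?_
    push_cast
    rfl
  have h2 : Summable (fun n : ℕ => r ^ n) := summable_geometric_of_lt_one hr hr1
  have h3 := h1.mul_of_nonneg h2 (fun s => by positivity) (fun n => by positivity)
  have h4 := h1.mul_of_nonneg h3 (fun s => by positivity) (fun n => by
    have : 0 ≤ r ^ n.2 := by positivity
    positivity)
  exact h4.mul_left B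

theorem term_le {C T q : ℝ} {p Q : ℕ} (hC : 0 ≤ C) (hT : 0 ≤ T) (hq : q ≤ Q)
    (s e n : ℕ) {k : ℤ × ℤ} (hk : k ∈ G s n) :
    wt (p + Q + 4) s e * ((G s n).card *
      (C * (2 * ((e : ℝ) + 1)) ^ p * (1 + ‖pt n k‖) ^ p * Real.exp (-(q * th T s e n)))) ≤
    bb (36 * C * 10 ^ p * Real.exp (Q * T)) (4 * Real.exp (-(q * Real.log 2))) (s, e, n) := by
  have h6 : (0 : ℝ) ≤ s := Nat.cast_nonneg s
  have h7 : (0 : ℝ) ≤ e := Nat.cast_nonneg e
  have hw : 0 ≤ wt (p + Q + 4) s e := by unfold wt; positivity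
  have h1 := card_G s n
  have h2 := norm_pt hk
  have h3 := exp_th hT hq s e n
  set S : ℝ := (s : ℝ) + 1 with hS
  set E : ℝ := (e : ℝ) + 1 with hE
  set ρ : ℝ := Real.exp (-(q * Real.log 2)) with hρ
  have hρ0 : 0 < ρ := Real.exp_pos _
  have hS1 : 1 ≤ S := by linarith
  have hE1 : 1 ≤ E := by linarith
  have hS0 : 0 < S := by linarith
  have hE0 : 0 < E := by linarith
  calc wt (p + Q + 4) s e * ((G s n).card *
      (C * (2 * E) ^ p * (1 + ‖pt n k‖) ^ p * Real.exp (-(q * th T s e n))))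
      ≤ wt (p + Q + 4) s e * ((36 * S ^ 2 * 4 ^ n) *
      (C * (2 * E) ^ p * (5 * S) ^ p * (Real.exp (Q * T) * S ^ Q * E ^ Q * ρ ^ n))) := by
        gcongr
    _ = (36 * C * 10 ^ p * Real.exp (Q * T)) * (1 / S ^ 2 * (1 / E ^ 4 * (4 * ρ) ^ n)) := by
        unfold wt
        rw [← hS, ← hE]
        have e1 : (10 : ℝ) ^ p = 2 ^ p * 5 ^ p := by rw [← mul_pow]; norm_num
        rw [e1]
        simp only [mul_pow, pow_add]
        field_simp
    _ ≤ (36 * C * 10 ^ p * Real.exp (Q * T)) * (1 / S ^ 2 * (1 / E ^ 2 * (4 * ρ) ^ n)) := by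
        gcongr
        norm_num
    _ = _ := by
        unfold bb
        simp only [← hS, ← hE]

end TRSTR

namespace TRSTR

/-- measurability of a weighted sum, for an arbitrary sigma-algebra -/
theorem meas_Y {Ω : Type*} {m : MeasurableSpace Ω} (κ : ℝ≥0∞) (w : ℕ × ℕ × ℕ → ℝ≥0∞)
    (F : ℕ × ℕ × ℕ → ℤ × ℤ → Ω → ℝ≥0∞) (hF : ∀ x k, Measurable (F x k)) :
    Measurable fun ω => κ * ∑' x : ℕ × ℕ × ℕ, w x * ∑ k ∈ G x.1 x.2.2, F x k ω := by
  refine Measurable.const_mul ?_ _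
  refine Measurable.ennreal_tsum fun x => ?_
  refine Measurable.const_mul ?_ _
  exact Finset.measurable_fun_sum _ fun k _ => hF x k

theorem exp_Y {Ω : Type*} [MeasurableSpace Ω] {μ : Measure Ω} {κ : ℝ≥0∞}
    {w : ℕ × ℕ × ℕ → ℝ} (hw : ∀ x, 0 ≤ w x) {b : ℕ × ℕ × ℕ → ℝ}
    (F : ℕ × ℕ × ℕ → ℤ × ℤ → ℕ → Ω → ℝ≥0∞) (hF : ∀ x k t, Measurable (F x k t))
    (d : ℕ × ℕ × ℕ → ℤ × ℤ → ℝ)
    (hd : ∀ x k, ∀ N : ℕ, ∑ t ∈ Finset.range N, ∫⁻ ω, F x k (t + 1) ω ∂μ ≤ ENNReal.ofReal (d x k))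
    (hb : ∀ x, ∀ k ∈ G x.1 x.2.2, w x * ((G x.1 x.2.2).card * d x k) ≤ b x)
    (hκ : κ * ∑' x, ENNReal.ofReal (b x) ≤ 1) (N : ℕ) :
    ∑ t ∈ Finset.range N, ∫⁻ ω, (κ * ∑' x : ℕ × ℕ × ℕ, ENNReal.ofReal (w x) *
      ∑ k ∈ G x.1 x.2.2, F x k (t + 1) ω) ∂μ ≤ 1 := by
  have h1 : ∀ t : ℕ, ∫⁻ ω, (κ * ∑' x : ℕ × ℕ × ℕ, ENNReal.ofReal (w x) *
      ∑ k ∈ G x.1 x.2.2, F x k (t + 1) ω) ∂μ = κ * ∑' x : ℕ × ℕ × ℕ, ENNReal.ofReal (w x) *
      ∑ k ∈ G x.1 x.2.2, ∫⁻ ω, F x k (t + 1) ω ∂μ := by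
    intro t
    have m1 : ∀ x : ℕ × ℕ × ℕ, Measurable fun ω => ∑ k ∈ G x.1 x.2.2, F x k (t + 1) ω :=
      fun x => Finset.measurable_fun_sum _ fun k _ => hF x k _
    rw [lintegral_const_mul _ (Measurable.ennreal_tsum fun x => (m1 x).const_mul _),
      lintegral_tsum fun x => ((m1 x).const_mul _).aemeasurable]
    congr 1
    refine tsum_congr fun x => ?_
    rw [lintegral_const_mul _ (m1 x), lintegral_finsetSum _ fun k _ => hF x k _]
  rw [Finset.sum_congr rfl fun t _ => h1 t, ← Finset.mul_sum,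
    ← (Summable.tsum_finsetSum fun _ _ => ENNReal.summable)]
  refine le_trans (mul_le_mul_right (ENNReal.tsum_le_tsum fun x => ?_) κ) hκ
  rw [← Finset.mul_sum, Finset.sum_comm]
  have h2 : ∀ k ∈ G x.1 x.2.2, ∑ t ∈ Finset.range N, ∫⁻ ω, F x k (t + 1) ω ∂μ ≤
      ENNReal.ofReal (d x k) := fun k _ => hd x k N
  have hc : (G x.1 x.2.2).Nonempty := by
    refine ⟨(0, 0), ?_⟩
    have := M_ge x.1 x.2.2
    simp only [G, Finset.mem_product, Finset.mem_Icc]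
    omega
  obtain ⟨k₀, hk₀, hmax⟩ := Finset.exists_max_image (G x.1 x.2.2) (fun k => d x k) hc
  calc ENNReal.ofReal (w x) * ∑ k ∈ G x.1 x.2.2, ∑ t ∈ Finset.range N,
        ∫⁻ ω, F x k (t + 1) ω ∂μ
      ≤ ENNReal.ofReal (w x) * ∑ k ∈ G x.1 x.2.2, ENNReal.ofReal (d x k₀) := by
        gcongr with k hk
        exact (h2 k hk).trans (ENNReal.ofReal_le_ofReal (hmax k hk))
    _ = ENNReal.ofReal (w x * ((G x.1 x.2.2).card * d x k₀)) := by
        rw [Finset.sum_const, nsmul_eq_mul, ENNReal.ofReal_mul (hw x),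
          ENNReal.ofReal_mul (Nat.cast_nonneg _), ENNReal.ofReal_natCast]
    _ ≤ ENNReal.ofReal (b x) := ENNReal.ofReal_le_ofReal (hb x k₀ hk₀)

/-- one term of the sum -/
theorem low_Y {Ω : Type*} {κ : ℝ} (hκ : 0 < κ) {w : ℕ × ℕ × ℕ → ℝ}
    (F : ℕ × ℕ × ℕ → ℤ × ℤ → Ω → ℝ≥0∞) (x : ℕ × ℕ × ℕ) (hw : 0 < w x) {k : ℤ × ℤ}
    (hk : k ∈ G x.1 x.2.2) {A B : ℝ} (hA : 0 ≤ A) (hB : A / (κ * w x) ≤ B) (ω : Ω) :
    ENNReal.ofReal A * F x k ω ≤ ENNReal.ofReal B * (ENNReal.ofReal κ *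
      ∑' x : ℕ × ℕ × ℕ, ENNReal.ofReal (w x) * ∑ k ∈ G x.1 x.2.2, F x k ω) := by
  have h1 : A = A / (κ * w x) * (κ * w x) := by
    field_simp
  have h2 : 0 ≤ A / (κ * w x) := by positivity
  calc ENNReal.ofReal A * F x k ω
      = ENNReal.ofReal (A / (κ * w x)) * (ENNReal.ofReal κ * (ENNReal.ofReal (w x) * F x k ω)) := by
        conv_lhs => rw [h1]
        rw [ENNReal.ofReal_mul h2, ENNReal.ofReal_mul hκ.le]
        ring
    _ ≤ _ := by
        gcongr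
        refine le_trans ?_ (ENNReal.le_tsum x)
        gcongr
        exact Finset.single_le_sum (f := fun k => F x k ω) (fun _ _ => zero_le) hk

/-- continuity of `ph` -/
theorem ph_cont {U : ℝ → ℂ} (hU : Continuous U) {z : ℂ} {t ε : ℝ} (ht : 0 ≤ t) {g : ℝ → ℂ}
    (hg : Sol U z t g) : ContinuousOn (ph U g ε) (Set.Icc 0 t) := by
  have h1 := TRPHS.cont (ε := ε) hU hg
  have h2 : ContinuousOn (fun u => ∫ v in (0 : ℝ)..u, kk 1 ε (g v - U v)) (Set.Icc 0 t) := by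
    have h3 := intervalIntegral.continuousOn_primitive_interval
      (f := fun v => kk 1 ε (g v - U v)) (μ := volume) (a := 0) (b := t) ?_
    · rwa [Set.uIcc_of_le ht] at h3
    · rw [Set.uIcc_of_le ht]
      exact h1.integrableOn_Icc
  have h4 : ContinuousOn (fun v => g v - U v) (Set.Icc 0 t) :=
    ContinuousOn.sub (fun v hv => (hg.2.2 v hv).continuousWithinAt) hU.continuousOn
  exact h2.sub (h4.norm.log fun v hv => norm_ne_zero_iff.2 (sub_ne_zero.2 (hg.2.1 v hv)))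

/-- the nearest point of the grid -/
theorem near {s n : ℕ} {z : ℂ} (hz : ‖z‖ ≤ (s : ℝ) + 1) :
    ∃ k ∈ G s n, ‖pt n k - z‖ ≤ (1 / 2) ^ n := by
  have h0 : (0 : ℝ) < 2 ^ n := by positivity
  have h01 : (1 : ℝ) ≤ 2 ^ n := one_le_pow₀ (by norm_num)
  have key : ∀ y : ℝ, |y| ≤ ‖z‖ → -(M s n) ≤ round (2 ^ n * y) ∧ round (2 ^ n * y) ≤ M s n := by
    intro y hy
    have a1 := abs_le.1 (hy.trans hz)
    have a2 := abs_le.1 (abs_sub_round (2 ^ n * y))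
    have a3 := M_cast s n
    have b1 : (round (2 ^ n * y) : ℝ) ≤ M s n := by
      rw [a3]
      nlinarith [a1.2]
    have b2 : -(M s n : ℝ) ≤ (round (2 ^ n * y) : ℝ) := by
      rw [a3]
      nlinarith [a1.1]
    exact ⟨by exact_mod_cast b2, by exact_mod_cast b1⟩
  refine ⟨(round (2 ^ n * z.re), round (2 ^ n * z.im)), ?_, ?_⟩
  · simp only [G, Finset.mem_product, Finset.mem_Icc]
    exact ⟨key _ (Complex.abs_re_le_norm z), key _ (Complex.abs_im_le_norm z)⟩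
  · have e1 : pt n (round (2 ^ n * z.re), round (2 ^ n * z.im)) - z =
        (((((round (2 ^ n * z.re) : ℤ) : ℝ) - 2 ^ n * z.re : ℝ) : ℂ) +
          ((((round (2 ^ n * z.im) : ℤ) : ℝ) - 2 ^ n * z.im : ℝ) : ℂ) * Complex.I) / 2 ^ n := by
      have h2 : (2 : ℂ) ^ n ≠ 0 := pow_ne_zero _ (by norm_num)
      rw [pt]
      field_simp
      push_cast
      have := Complex.re_add_im z
      linear_combination (2 : ℂ) ^ n * this
    rw [e1, norm_div, norm_pow, Complex.norm_ofNat]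
    have a2 := abs_sub_round (2 ^ n * z.re)
    have a3 := abs_sub_round (2 ^ n * z.im)
    rw [abs_sub_comm] at a2 a3
    have a4 : ‖((((round (2 ^ n * z.re) : ℤ) : ℝ) - 2 ^ n * z.re : ℝ) : ℂ) +
          ((((round (2 ^ n * z.im) : ℤ) : ℝ) - 2 ^ n * z.im : ℝ) : ℂ) * Complex.I‖ ≤ 1 := by
      refine (norm_add_le _ _).trans ?_
      rw [norm_mul, Complex.norm_I, mul_one, Complex.norm_real, Complex.norm_real,
        Real.norm_eq_abs, Real.norm_eq_abs]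
      linarith
    calc _ ≤ 1 / (2 : ℝ) ^ n := by gcongr
      _ = (1 / 2) ^ n := by rw [one_div, one_div, inv_pow]

/-- the path argument -/
theorem flag {U : ℝ → ℂ} (hU : Continuous U) (h0 : U 0 = 0) {z : ℂ} {t ε e : ℝ} (ht : 1 ≤ t)
    (hε : 0 < ε) (hε2 : ε ≤ 2) (he : 1 ≤ e) {g : ℝ → ℂ} (hg : Sol U z t g)
    (h1 : ∀ u ∈ Set.Icc 0 t, 1 ≤ ‖g u - U u‖)
    (h2 : ∀ u ∈ Set.Icc (t - 1) t, ‖g u - U u‖ ≤ e) {s m : ℕ} (hs : ‖z‖ ≤ (s : ℝ) + 1)
    (hm : e ≤ (m : ℝ) + 1) :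
    ∃ (n : ℕ) (k : ℤ × ℤ) (g' : ℝ → ℂ), k ∈ G s n ∧ Sol U (pt n k) t g' ∧
      (∀ u ∈ Set.Icc 0 t, 3 / 4 ≤ ‖g' u - U u‖) ∧
      (∀ u ∈ Set.Icc (t - 1) t, ‖g' u - U u‖ ≤ 2 * ((m : ℝ) + 1)) ∧
      (∃ u ∈ Set.Icc (0 : ℝ) (t - 1), th (Real.log (32 / ε) + 8) s m n < ph U g' ε u) ∧
      lk U g 0 t ≤ lk U g' 0 t + 1 := by
  have ht0 : 0 ≤ t := by linarith
  obtain ⟨u₁, hu₁, hmax⟩ := isCompact_Icc.exists_isMaxOn (Set.nonempty_Icc.2 ht0)
    (ph_cont (ε := ε) hU ht0 hg)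
  set Φ : ℝ := ph U g ε u₁ with hΦ
  have hΦ1 : ∀ u ∈ Set.Icc 0 t, ph U g ε u ≤ Φ := fun u hu => hmax hu
  have hex : ∃ n : ℕ, (1 / 2 : ℝ) ^ n ≤ ε / 16 * Real.exp (-Φ) := by
    obtain ⟨n, hn⟩ := exists_pow_lt_of_lt_one
      (show 0 < ε / 16 * Real.exp (-Φ) by positivity) (show (1 / 2 : ℝ) < 1 by norm_num)
    exact ⟨n, hn.le⟩
  classical
  set n : ℕ := Nat.find hex with hn
  have hn1 : (1 / 2 : ℝ) ^ n ≤ ε / 16 * Real.exp (-Φ) := Nat.find_spec hex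
  obtain ⟨k, hk, hkz⟩ := near (n := n) hs
  obtain ⟨g', hg', h3, h4⟩ := shadow hU h0 ht0 hε hε2 hg hΦ1 (hkz.trans hn1)
  have hlo : ∀ u ∈ Set.Icc 0 t, 3 / 4 ≤ ‖g' u - U u‖ := by
    intro u hu
    have a1 := h1 u hu
    have a3 := h3 u hu
    have h := norm_sub_norm_le (g u - U u) (g u - g' u)
    have e4 : (g u - U u) - (g u - g' u) = g' u - U u := by ring
    rw [e4, norm_sub_rev (g u) (g' u)] at h
    linarith
  have hup : ∀ u ∈ Set.Icc (t - 1) t, ‖g' u - U u‖ ≤ 2 * ((m : ℝ) + 1) := by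
    intro u hu
    have a1 := h2 u hu
    have a3 := h3 u ⟨by linarith [hu.1], hu.2⟩
    have e1 : g' u - U u = (g' u - g u) + (g u - U u) := by ring
    have := norm_add_le (g' u - g u) (g u - U u)
    rw [e1]
    linarith
  refine ⟨n, k, g', hk, hg', hlo, hup, ?_, ?_⟩
  · have hs0 : (0 : ℝ) ≤ s := Nat.cast_nonneg s
    have hm0 : (0 : ℝ) ≤ m := Nat.cast_nonneg m
    have hls : 0 ≤ Real.log ((s : ℝ) + 1) := Real.log_nonneg (by linarith)
    have hlm : Real.log e ≤ Real.log ((m : ℝ) + 1) := Real.log_le_log (by linarith) hm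
    have hlm0 : 0 ≤ Real.log e := Real.log_nonneg he
    have hl2 : 0 < Real.log 2 := Real.log_pos (by norm_num)
    have hT0 : Real.log 2 ≤ Real.log (32 / ε) := by
      apply Real.log_le_log (by norm_num)
      rw [le_div_iff₀ hε]
      linarith
    rcases Nat.eq_zero_or_pos n with h | h
    · refine ⟨0, ⟨le_refl _, by linarith⟩, ?_⟩
      have a1 := hlo 0 ⟨le_refl _, ht0⟩
      rw [h0, sub_zero, hg'.1] at a1
      have a2 : ‖pt n k‖ ≤ (s : ℝ) + 1 + 1 := by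
        have := norm_add_le (pt n k - z) z
        rw [sub_add_cancel] at this
        have h5 : (1 / 2 : ℝ) ^ n = 1 := by rw [h, pow_zero]
        linarith
      have a3 : Real.log ‖pt n k‖ ≤ Real.log 2 + Real.log ((s : ℝ) + 1) := by
        rw [← Real.log_mul (by norm_num) (by linarith)]
        apply Real.log_le_log (by linarith)
        linarith
      have a4 : ph U g' ε 0 = -Real.log ‖pt n k‖ := by
        simp only [ph, intervalIntegral.integral_same, h0, sub_zero, hg'.1, zero_sub]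
      have a5 : (n : ℝ) = 0 := by rw [h, Nat.cast_zero]
      rw [a4, th, a5]
      linarith
    · have a1 : ¬ (1 / 2 : ℝ) ^ (n - 1) ≤ ε / 16 * Real.exp (-Φ) :=
        Nat.find_min hex (by omega)
      rw [not_le] at a1
      have a2 : (1 / 2 : ℝ) ^ n * 2 = (1 / 2 : ℝ) ^ (n - 1) := by
        obtain ⟨j, hj⟩ : ∃ j, n = j + 1 := ⟨n - 1, by omega⟩
        rw [hj, Nat.add_sub_cancel, pow_succ]
        ring
      obtain ⟨u, hu, hu2⟩ := ph_shadow (Φ := Φ) hU ht hε hε2 he hg hg' h1 h2 h3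
        (fun u hu => (h4 u hu).1) ⟨u₁, hu₁, le_refl _⟩
      refine ⟨u, hu, ?_⟩
      have a3 := Real.log_lt_log (by positivity) a1
      rw [Real.log_mul (by positivity) (Real.exp_pos _).ne', Real.log_exp, ← a2,
        Real.log_mul (by positivity) (by norm_num), Real.log_pow, one_div, Real.log_inv] at a3
      have a4 : Real.log (ε / 16) = Real.log 2 - Real.log (32 / ε) := by
        rw [← Real.log_div (by norm_num) (by positivity)]
        congr 1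
        field_simp
        norm_num
      rw [a4] at a3
      rw [th]
      linarith
  · have := abs_le.1 (h4 t ⟨ht0, le_refl _⟩).2
    linarith [this.1]

end TRSTR

variable {Ω : Type*} [MeasurableSpace Ω] {μ : Measure Ω}

/-- TR-STR. The stretch theorem: a functional `Y t` of the driving process on `[0,t]` which
dominates `exp (c₁ * clock)` of all solutions which stay at distance `≥ 1` of the tip on `[0,t]`,
start at distance `≤ s` and end at distance `≤ e`; its expectations are summable in `t`.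

Proof. Let `C c₁ ε q p` be as in `occ`. For naturals `s, e ≥ 1` and `n` let the grid be
`z' = (i + j I) / 2 ^ n`, `|i|, |j| ≤ (s + 1) 2 ^ n` (integers), and
`θ = n log 2 - Θ`, `Θ = log (C₀ (s + 1) e)` with a constant `C₀ = C₀(ε)` (below). Let
`Y^{z',θ,2e}` be the functional of `occ` for `z₀ = z'` and `e := 2 e`. Put
`Y = κ ∑_{s,e ≥ 1} (s e)^(-P) ∑_n ∑_{z'} Y^{z',θ,2e}` with `P = 2 p + ⌈q⌉ + 6`.
*Expectation.* The number of grid points is at most `C s^2 4^n`, `1 + |z'| ≤ C s`,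
`exp (-q θ) = (C₀ (s+1) e)^q 2^(-q n)`; the sum over `n` converges since `q > 2`, the sum over
`s, e` since `P` is large. Choose `κ` so that the total is at most `1`.
*Lower bound.* Given `ω, t, z, g, s, e` (real): replace `s, e` by the next integers (factor
`2^P` in the end). Let `Φ` be the maximum of `ph U g ε` on `[0,t]` and `n` the least natural
number with `2^(-n) ≤ ε / 16 * exp (-Φ)`. Let `z'` be the nearest point of the grid `2^(-n) ℤ[i]`: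
`|z' - z| ≤ 2^(-n) √2 / 2`; its coordinates satisfy `|i|, |j| ≤ (s+1) 2^n`. `shadow` gives `g'`
with `|Z'| ≥ 3/4` on `[0,t]`, `|Z'| ≤ 5/4 e ≤ 2 e` on `[t-1,t]`, `lk U g' 0 t ≥ lk U g 0 t - 1`.
*Flag.* If `n ≥ 1` then `2^(-(n-1)) > ε / 16 * exp (-Φ)`, so `Φ > (n-1) log 2 + log (ε/16)`, and
`ph_shadow` gives `u ∈ [0,t-1]` with `ph U g' ε u ≥ Φ - 8 - log e > n log 2 - Θ` if
`C₀ ≥ 2 * 16 / ε * exp 8`. If `n = 0`: `ph U g' ε 0 = -log |z'| ≥ -log (s+1) > -Θ` if `C₀ > 1`.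
So `exp (c₁ lk U g 0 t) ≤ exp c₁ * C * Y^{z',θ,2e} t ω ≤ exp c₁ * C / κ * (s e)^P Y t ω`. -/
theorem stretch [IsProbabilityMeasure μ] {a b c K : ℝ} (ha : 0 ≤ a) (hb : 0 ≤ b) (hK : 0 ≤ K)
    (hS : HasS a b c) :
    ∃ (C c₁ : ℝ) (p : ℕ), 1 ≤ C ∧ 0 < c₁ ∧ ∀ W : ℝ → Ω → ℂ, Drv a b c K W μ →
      ∃ Y : ℕ → Ω → ℝ≥0∞, (∀ t : ℕ, Measurable[Blk W 0 t] (Y t)) ∧
        (∀ N : ℕ, ∑ t ∈ Finset.range N, ∫⁻ ω, Y (t + 1) ω ∂μ ≤ 1) ∧
        ∀ (ω : Ω) (t : ℕ) (z : ℂ) (g : ℝ → ℂ) (s e : ℝ), 1 ≤ t → 1 ≤ s → 1 ≤ e → ‖z‖ ≤ s →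
          Sol (fun t => W t ω) z t g → (∀ u ∈ Set.Icc (0 : ℝ) t, 1 ≤ ‖g u - W u ω‖) →
          (∀ u ∈ Set.Icc ((t : ℝ) - 1) t, ‖g u - W u ω‖ ≤ e) →
          ENNReal.ofReal (Real.exp (c₁ * lk (fun t => W t ω) g 0 t)) ≤
            ENNReal.ofReal (C * (s * e) ^ p) * Y t ω := by
  obtain ⟨C, c₁, ε, q, p, hC, hc₁, hε, hε2, hq, hocc⟩ := occ (μ := μ) ha hb hK hS
  obtain ⟨Q, hqQ⟩ := exists_nat_ge q
  set T : ℝ := Real.log (32 / ε) + 8 with hT
  have hT0 : 0 ≤ T := by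
    have : 0 ≤ Real.log (32 / ε) := by
      apply Real.log_nonneg
      rw [le_div_iff₀ hε]
      linarith
    linarith
  set B : ℝ := 36 * C * 10 ^ p * Real.exp (Q * T) with hB
  have hB0 : 0 ≤ B := by positivity
  set r : ℝ := 4 * Real.exp (-(q * Real.log 2)) with hr
  have hr0 : 0 ≤ r := by positivity
  have hr1 : r < 1 := by
    have hl2 : 0 < Real.log 2 := Real.log_pos (by norm_num)
    have h1 : Real.exp (-(q * Real.log 2)) < Real.exp (-(2 * Real.log 2)) := by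
      apply Real.exp_lt_exp.2
      nlinarith
    have h2 : Real.exp (-(2 * Real.log 2)) = 1 / 4 := by
      rw [Real.exp_neg, mul_comm, Real.exp_mul, Real.exp_log (by norm_num)]
      norm_num
    rw [h2] at h1
    linarith
  have hsum := TRSTR.bb_summable (B := B) hr0 hr1
  have hTT : 0 ≤ ∑' x, TRSTR.bb B r x := tsum_nonneg fun x => TRSTR.bb_nonneg hB0 hr0 x
  set TT : ℝ := ∑' x, TRSTR.bb B r x with hTTdef
  set κ : ℝ := 1 / (1 + TT) with hκ
  have hκ0 : 0 < κ := by positivity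
  set P : ℕ := p + Q + 4 with hP
  refine ⟨max 1 (Real.exp c₁ * C * 4 ^ P / κ), c₁, P, le_max_left _ _, hc₁, fun W hW => ?_⟩
  choose F hF1 hF2 hF3 using hocc W hW
  have he' : ∀ m : ℕ, (1 : ℝ) ≤ 2 * ((m : ℝ) + 1) := fun m => by
    have : (0 : ℝ) ≤ m := Nat.cast_nonneg m
    linarith
  have hwt : ∀ x : ℕ × ℕ × ℕ, 0 < TRSTR.wt P x.1 x.2.1 := fun x => by
    unfold TRSTR.wt
    positivity
  refine ⟨fun t ω => ENNReal.ofReal κ * ∑' x : ℕ × ℕ × ℕ, ENNReal.ofReal (TRSTR.wt P x.1 x.2.1) *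
    ∑ k ∈ TRSTR.G x.1 x.2.2, F (TRSTR.pt x.2.2 k) (TRSTR.th T x.1 x.2.1 x.2.2)
      (2 * ((x.2.1 : ℝ) + 1)) (he' x.2.1) t ω, fun t => ?_, fun N => ?_, ?_⟩
  · exact @TRSTR.meas_Y Ω (Blk W 0 t) _ _ _ fun x k => hF1 _ _ _ _ t
  · refine TRSTR.exp_Y (fun x => (hwt x).le)
      (fun x k t => F (TRSTR.pt x.2.2 k) (TRSTR.th T x.1 x.2.1 x.2.2)
        (2 * ((x.2.1 : ℝ) + 1)) (he' x.2.1) t)
      (fun x k t => (hF1 _ _ _ _ t).mono (Blk_le hW 0 t) le_rfl)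
      (fun x k => C * (2 * ((x.2.1 : ℝ) + 1)) ^ p * (1 + ‖TRSTR.pt x.2.2 k‖) ^ p *
        Real.exp (-(q * TRSTR.th T x.1 x.2.1 x.2.2))) (fun x k N => hF2 _ _ _ _ N)
      (b := TRSTR.bb B r) ?_ ?_ N
    · intro x k hk
      exact TRSTR.term_le hC.le hT0 hqQ x.1 x.2.1 x.2.2 hk
    · rw [← ENNReal.ofReal_tsum_of_nonneg (fun x => TRSTR.bb_nonneg hB0 hr0 x) hsum,
        ← ENNReal.ofReal_mul hκ0.le, ← hTTdef, hκ]
      apply ENNReal.ofReal_le_one.2
      rw [one_div, inv_mul_le_iff₀ (by positivity)]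
      linarith
  · intro ω t z g s e ht hs he hz hg h1 h2
    have ht' : (1 : ℝ) ≤ t := by exact_mod_cast ht
    have hcs : ⌈s⌉₊ ≠ 0 := by
      have : 0 < ⌈s⌉₊ := Nat.ceil_pos.2 (by linarith)
      omega
    have hce : ⌈e⌉₊ ≠ 0 := by
      have : 0 < ⌈e⌉₊ := Nat.ceil_pos.2 (by linarith)
      omega
    obtain ⟨s', hs'⟩ := Nat.exists_eq_succ_of_ne_zero hcs
    obtain ⟨m, hm⟩ := Nat.exists_eq_succ_of_ne_zero hce
    have a1 : s ≤ (s' : ℝ) + 1 := by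
      have := Nat.le_ceil s
      rw [hs'] at this
      push_cast at this
      exact this
    have a2 : (s' : ℝ) + 1 ≤ 2 * s := by
      have := Nat.ceil_lt_add_one (show 0 ≤ s by linarith)
      rw [hs'] at this
      push_cast at this
      linarith
    have a3 : e ≤ (m : ℝ) + 1 := by
      have := Nat.le_ceil e
      rw [hm] at this
      push_cast at this
      exact this
    have a4 : (m : ℝ) + 1 ≤ 2 * e := by
      have := Nat.ceil_lt_add_one (show 0 ≤ e by linarith)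
      rw [hm] at this
      push_cast at this
      linarith
    obtain ⟨n, k, g', hk, hg', hlo, hup, hfl, hlk⟩ := TRSTR.flag (U := fun t => W t ω)
      (hW.cont ω) (hW.zero 0 le_rfl ω) ht' hε hε2 he hg h1 h2 (hz.trans a1) a3
    have key := hF3 (TRSTR.pt n k) (TRSTR.th T s' m n) (2 * ((m : ℝ) + 1)) (he' m) ω t g' ht hg'
      hlo hup hfl
    have b1 : Real.exp (c₁ * lk (fun t => W t ω) g 0 t) ≤
        Real.exp c₁ * Real.exp (c₁ * lk (fun t => W t ω) g' 0 t) := by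
      rw [← Real.exp_add]
      apply Real.exp_le_exp.2
      nlinarith
    have b2 : Real.exp c₁ * C / (κ * TRSTR.wt P s' m) ≤
        max 1 (Real.exp c₁ * C * 4 ^ P / κ) * (s * e) ^ P := by
      have c1 : (((s' : ℝ) + 1) * ((m : ℝ) + 1)) ^ P ≤ (4 * (s * e)) ^ P := by
        have c2 : (0 : ℝ) ≤ s' := Nat.cast_nonneg s'
        have c3 : (0 : ℝ) ≤ m := Nat.cast_nonneg m
        refine pow_le_pow_left₀ (by positivity) ?_ P
        calc ((s' : ℝ) + 1) * ((m : ℝ) + 1) ≤ (2 * s) * (2 * e) :=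
              mul_le_mul a2 a4 (by positivity) (by positivity)
          _ = 4 * (s * e) := by ring
      calc Real.exp c₁ * C / (κ * TRSTR.wt P s' m)
          = Real.exp c₁ * C / κ * (((s' : ℝ) + 1) * ((m : ℝ) + 1)) ^ P := by
            unfold TRSTR.wt
            field_simp
        _ ≤ Real.exp c₁ * C / κ * (4 * (s * e)) ^ P := by gcongr
        _ = Real.exp c₁ * C * 4 ^ P / κ * (s * e) ^ P := by
            rw [mul_pow]
            ring
        _ ≤ _ := by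
            gcongr
            exact le_max_right _ _
    have b3 := TRSTR.low_Y (Ω := Ω) hκ0 (w := fun x => TRSTR.wt P x.1 x.2.1)
      (fun x k => F (TRSTR.pt x.2.2 k) (TRSTR.th T x.1 x.2.1 x.2.2)
        (2 * ((x.2.1 : ℝ) + 1)) (he' x.2.1) t) (s', m, n) (hwt (s', m, n)) (k := k) hk
      (by positivity) b2 ω
    refine le_trans ?_ b3
    calc ENNReal.ofReal (Real.exp (c₁ * lk (fun t => W t ω) g 0 t))
        ≤ ENNReal.ofReal (Real.exp c₁) *
          ENNReal.ofReal (Real.exp (c₁ * lk (fun t => W t ω) g' 0 t)) := by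
          rw [← ENNReal.ofReal_mul (Real.exp_pos _).le]
          exact ENNReal.ofReal_le_ofReal b1
      _ ≤ ENNReal.ofReal (Real.exp c₁) * (ENNReal.ofReal C *
          F (TRSTR.pt n k) (TRSTR.th T s' m n) (2 * ((m : ℝ) + 1)) (he' m) t ω) := by
          gcongr
      _ = _ := by
          rw [← mul_assoc, ← ENNReal.ofReal_mul (Real.exp_pos _).le]

end

end Pool.Agent.SLE
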