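import Pool.Agent.Lib.MP_c17912_pr_TR.PAT
import Pool.Agent.Lib.MP_c17912_pr_TR.SCL
import Pool.Agent.Lib.MP_c17912_pr_TR.GRO
import Pool.Agent.Lib.MP_c17912_pr_TR.OSE
import Pool.Agent.Lib.MP_c17912_pr_TR.LVL

set_option autoImplicit false

open MeasureTheory ProbabilityTheory Filter
open scoped NNReal ENNReal Topology Real

namespace Pool.Agent.SLE

noncomputable section

variable {Ω : Type*} [MeasurableSpace Ω] {μ : Measure Ω}

namespace TRSTA

theorem log_le_natLog {N : ℕ} (hN : 1 ≤ N) : Real.log N ≤ (Nat.log 2 N : ℝ) + 1 := by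
  have h1 : N < 2 ^ (Nat.log 2 N + 1) := Nat.lt_pow_succ_log_self (by norm_num) N
  have h2 : (N : ℝ) ≤ 2 ^ (Nat.log 2 N + 1) := by exact_mod_cast h1.le
  have h3 : (0 : ℝ) < N := by exact_mod_cast hN
  have h4 : Real.log N ≤ Real.log (2 ^ (Nat.log 2 N + 1)) := Real.log_le_log h3 h2
  rw [Real.log_pow] at h4
  have h5 : Real.log 2 ≤ 1 := by
    have := Real.log_two_lt_d9
    linarith
  push_cast at h4
  have h6 : (0 : ℝ) ≤ (Nat.log 2 N : ℝ) + 1 := by positivity
  nlinarith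

theorem part1 {C S : ℝ} (hC : 1 ≤ C) (hS : 1 ≤ S) : ∃ n₀ : ℕ, ∀ N ≥ n₀,
    (4 : ℝ) ^ ll N * (4 * Real.exp (-(4 ^ ll N / (256 * S)))) ≤
      Real.exp (-(4 * C * Real.log (N : ℝ))) := by
  obtain ⟨L₀, hL₀⟩ := exists_nat_ge (512 * S * C + 131072 * S ^ 2 + 1)
  refine ⟨2 ^ L₀, fun N hN => ?_⟩
  have hL0 : 1 ≤ L₀ := by
    have hS0 : 0 < S := by linarith
    have hC0 : 0 < C := by linarith
    have : (1 : ℝ) ≤ L₀ := by nlinarith [sq_nonneg S, mul_pos hS0 hC0]
    exact_mod_cast this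
  have hN2 : 2 ≤ N := le_trans (by
    calc 2 = 2 ^ 1 := rfl
      _ ≤ 2 ^ L₀ := Nat.pow_le_pow_right (by norm_num) hL0) hN
  set L : ℕ := Nat.log 2 N with hLdef
  have hLL : L₀ ≤ L := by
    rw [hLdef]
    exact (Nat.le_log_iff_pow_le (by norm_num) (by omega)).2 hN
  have hlog : Real.log N ≤ (L : ℝ) + 1 := log_le_natLog (by omega)
  have hLr : 512 * S * C + 131072 * S ^ 2 + 1 ≤ (L : ℝ) :=
    hL₀.trans (by exact_mod_cast hLL)
  have hX : 16 * (L : ℝ) ^ 2 ≤ (4 : ℝ) ^ ll N := by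
    have h1 : 4 * L < 2 ^ ll N := two_pow_ll_gt hN2
    have h2 : (4 : ℝ) * L ≤ 2 ^ ll N := by exact_mod_cast h1.le
    have h3 : (4 : ℝ) ^ ll N = (2 ^ ll N) ^ 2 := by
      rw [← pow_mul, mul_comm, pow_mul]
      norm_num
    rw [h3]
    have h4 : (0 : ℝ) ≤ 4 * L := by positivity
    nlinarith
  set X : ℝ := (4 : ℝ) ^ ll N with hXdef
  have hXpos : 0 < X := by positivity
  have hSpos : 0 < S := by linarith
  have hCpos : 0 < C := by linarith
  have h4X : Real.log (4 * X) ≤ X / (512 * S) + 2048 * S := by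
    have e : 4 * X = (4 * X / (2048 * S)) * (2048 * S) := by field_simp
    rw [e, Real.log_mul (by positivity) (by positivity)]
    have h1 := Real.log_le_sub_one_of_pos (x := 4 * X / (2048 * S)) (by positivity)
    have h2 := Real.log_le_sub_one_of_pos (x := 2048 * S) (by positivity)
    have h3 : 4 * X / (2048 * S) = X / (512 * S) := by
      field_simp
      norm_num
    linarith
  have key : Real.log (4 * X) - X / (256 * S) ≤ -(4 * C * Real.log (N : ℝ)) := by
    have h1 : X / (256 * S) = 2 * (X / (512 * S)) := by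
      field_simp
      norm_num
    have h2 : 16 * (L : ℝ) ^ 2 / (512 * S) ≤ X / (512 * S) := by gcongr
    have h3 : 2048 * S + 4 * C * (L + 1) ≤ 16 * (L : ℝ) ^ 2 / (512 * S) := by
      rw [le_div_iff₀ (by positivity)]
      have hL1 : (1 : ℝ) ≤ L := by
        nlinarith [sq_nonneg S, mul_pos hSpos hCpos]
      have e1 : 512 * S * C * L ≤ (L : ℝ) * L := by
        have : 512 * S * C ≤ (L : ℝ) := by nlinarith [sq_nonneg S]
        nlinarith
      have e2 : 131072 * S ^ 2 ≤ (L : ℝ) * L := by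
        have : 131072 * S ^ 2 ≤ (L : ℝ) := by nlinarith [mul_pos hSpos hCpos]
        nlinarith
      have e3 : 4 * C * (L + 1) * (512 * S) ≤ 8 * (512 * S * C * L) := by
        nlinarith [mul_pos hSpos hCpos]
      nlinarith
    have h4 : 4 * C * Real.log (N : ℝ) ≤ 4 * C * (L + 1) := by gcongr
    linarith
  calc X * (4 * Real.exp (-(X / (256 * S))))
      = Real.exp (Real.log (4 * X) - X / (256 * S)) := by
        rw [Real.exp_sub, Real.exp_log (by positivity), Real.exp_neg]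
        field_simp
    _ ≤ _ := Real.exp_le_exp.2 key

theorem exp3 (x : ℝ) (k m : ℕ) (h : 3 * k ≤ m) :
    Real.exp (-(x + m)) ≤ Real.exp (-x) * (1 / 2) ^ k := by
  have h1 : -(x + (m : ℝ)) ≤ -x + -(k : ℝ) := by
    have : (k : ℝ) ≤ m := by exact_mod_cast (by omega : k ≤ m)
    linarith
  refine (Real.exp_le_exp.2 h1).trans ?_
  rw [Real.exp_add]
  have h2 : Real.exp (-(k : ℝ)) ≤ (1 / 2) ^ k := by
    have h3 : Real.exp (-(k : ℝ)) = (Real.exp (-1)) ^ k := by
      rw [← Real.exp_nat_mul]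
      congr 1
      ring
    rw [h3]
    have h4 : Real.exp (-1) ≤ 1 / 2 := by
      rw [Real.exp_neg, ← one_div]
      apply one_div_le_one_div_of_le (by norm_num)
      have := Real.add_one_le_exp (1 : ℝ)
      linarith
    exact pow_le_pow_left₀ (Real.exp_pos _).le h4 k
  gcongr

theorem part2 {S : ℝ} (hS : 1 ≤ S) : ∃ n₀ : ℕ, ∀ n ≥ n₀,
    ∑' k : ℕ, ENNReal.ofReal (Real.exp (-(√n + lev n k)) +
      (4 ^ (n + 2 + lev n k) : ℝ) * (4 * Real.exp (-((n + lev n k : ℝ) ^ 2 / (16 * S))))) ≤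
      ENNReal.ofReal (Real.exp (-(n : ℝ) ^ (1 / 4 : ℝ))) := by
  obtain ⟨n₁, hn₁⟩ := exists_nat_ge (144 * S + 16)
  refine ⟨n₁, fun n hn => ?_⟩
  have hnr : 144 * S + 16 ≤ (n : ℝ) := hn₁.trans (by exact_mod_cast hn)
  have hn16 : (16 : ℝ) ≤ n := by linarith
  have hsq : √(n : ℝ) ≤ n := by
    rw [Real.sqrt_le_left (by positivity)]
    nlinarith
  have hterm : ∀ k : ℕ, Real.exp (-(√n + lev n k)) +
      (4 ^ (n + 2 + lev n k) : ℝ) * (4 * Real.exp (-((n + lev n k : ℝ) ^ 2 / (16 * S)))) ≤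
      2 * Real.exp (-√n) * (1 / 2) ^ k := by
    intro k
    have hlev : 3 * k ≤ lev n k := le_lev n k
    have h1 := exp3 (√n) k (lev n k) hlev
    have h2 : (4 ^ (n + 2 + lev n k) : ℝ) * (4 * Real.exp (-((n + lev n k : ℝ) ^ 2 / (16 * S)))) ≤
        Real.exp (-((n : ℝ) + lev n k)) := by
      set N : ℝ := (n : ℝ) + lev n k with hNdef
      have hN : 144 * S + 16 ≤ N := by
        have : (0 : ℝ) ≤ lev n k := by positivity
        linarith
      have e1 : (4 ^ (n + 2 + lev n k) : ℝ) * 4 = Real.exp ((N + 3) * Real.log 4) := by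
        rw [mul_comm (N + 3), Real.exp_mul, Real.exp_log (by norm_num), ← pow_succ,
          ← Real.rpow_natCast]
        congr 1
        push_cast
        rw [hNdef]
        ring
      rw [← mul_assoc, e1, ← Real.exp_add]
      apply Real.exp_le_exp.2
      have hlog4 : Real.log 4 ≤ 2 := by
        have : Real.log 4 = 2 * Real.log 2 := by
          rw [show (4 : ℝ) = 2 ^ 2 by norm_num, Real.log_pow]
          norm_num
        rw [this]
        have := Real.log_two_lt_d9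
        linarith
      have h3 : (N + 3) * Real.log 4 ≤ (N + 3) * 2 := by
        apply mul_le_mul_of_nonneg_left hlog4
        linarith
      have h4 : (N + 3) * 2 + N ≤ N ^ 2 / (16 * S) := by
        rw [le_div_iff₀ (by positivity)]
        nlinarith
      linarith
    have h5 := exp3 (n : ℝ) k (lev n k) hlev
    have h6 : Real.exp (-(n : ℝ)) * (1 / 2) ^ k ≤ Real.exp (-√n) * (1 / 2) ^ k := by
      gcongr
    linarith
  calc ∑' k : ℕ, ENNReal.ofReal (Real.exp (-(√n + lev n k)) +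
      (4 ^ (n + 2 + lev n k) : ℝ) * (4 * Real.exp (-((n + lev n k : ℝ) ^ 2 / (16 * S)))))
      ≤ ∑' k : ℕ, ENNReal.ofReal (2 * Real.exp (-√n) * (1 / 2) ^ k) :=
        ENNReal.tsum_le_tsum fun k => ENNReal.ofReal_le_ofReal (hterm k)
    _ = ENNReal.ofReal (∑' k : ℕ, 2 * Real.exp (-√n) * (1 / 2) ^ k) := by
        rw [ENNReal.ofReal_tsum_of_nonneg (fun k => by positivity)]
        exact (summable_geometric_two).mul_left _
    _ ≤ _ := by
        apply ENNReal.ofReal_le_ofReal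
        rw [tsum_mul_left, tsum_geometric_two]
        have h1 : 2 * Real.exp (-√(n : ℝ)) * 2 = Real.exp (Real.log 4 - √(n : ℝ)) := by
          rw [Real.exp_sub, Real.exp_log (by norm_num), Real.exp_neg]
          ring
        rw [h1]
        apply Real.exp_le_exp.2
        have hlog4 : Real.log 4 ≤ 2 := by
          have : Real.log 4 = 2 * Real.log 2 := by
            rw [show (4 : ℝ) = 2 ^ 2 by norm_num, Real.log_pow]
            norm_num
          rw [this]
          have := Real.log_two_lt_d9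
          linarith
        set y : ℝ := (n : ℝ) ^ (1 / 4 : ℝ) with hy
        have hy2 : √(n : ℝ) = y ^ 2 := by
          rw [hy, Real.sqrt_eq_rpow, ← Real.rpow_natCast, ← Real.rpow_mul (by positivity)]
          norm_num
        have hy3 : 2 ≤ y := by
          have : (2 : ℝ) = (16 : ℝ) ^ (1 / 4 : ℝ) := by
            rw [show (16 : ℝ) = 2 ^ (4 : ℝ) by norm_num, ← Real.rpow_mul (by norm_num)]
            norm_num
          rw [this, hy]
          exact Real.rpow_le_rpow (by norm_num) hn16 (by norm_num)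
        rw [hy2]
        nlinarith

theorem rr_pos (M : ℕ) : 0 < rr M := by unfold rr; positivity

theorem rr_inv (M : ℕ) : (rr M)⁻¹ = 2 ^ M := by
  unfold rr
  rw [one_div, inv_pow, inv_inv]

theorem rr_sq (M : ℕ) : (rr M) ^ 2 = 1 / 4 ^ M := by
  unfold rr
  rw [one_div, inv_pow, inv_pow, ← pow_mul, mul_comm M 2, pow_mul, one_div]
  norm_num

theorem rr_add (M l : ℕ) : rr M * rr l = rr (M + l) := by
  unfold rr
  rw [pow_add]

theorem cast_sq (T M : ℕ) : ((T * 4 ^ M : ℕ) : ℝ) * rr M ^ 2 = T := by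
  rw [rr_sq]
  push_cast
  field_simp

theorem log_bound {n M : ℕ} (hn : 16 ≤ n) :
    Real.log ((n + 4) * 2 ^ M + (n + M)) ≤ 1 + √n + M := by
  set s : ℝ := √(n : ℝ) with hs
  have hnr : (16 : ℝ) ≤ n := by exact_mod_cast hn
  have hs4 : 4 ≤ s := by
    rw [hs]
    apply Real.le_sqrt_of_sq_le
    norm_num
    exact hn
  have hs2 : s ^ 2 = n := Real.sq_sqrt (by positivity)
  have h2M : (M : ℝ) + 1 ≤ 2 ^ M := by
    have : M + 1 ≤ 2 ^ M := Nat.lt_two_pow_self
    exact_mod_cast this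
  have h1 : ((n : ℝ) + 4) * 2 ^ M + (n + M) ≤ 2 * ((n + 4) * 2 ^ M) := by
    have h2 : (n : ℝ) + M ≤ (n + 4) * (M + 1) := by
      have : (0 : ℝ) ≤ M := by positivity
      nlinarith
    have h3 : ((n : ℝ) + 4) * (M + 1) ≤ (n + 4) * 2 ^ M := by gcongr
    linarith
  have h2 : Real.log (((n : ℝ) + 4) * 2 ^ M + (n + M)) ≤ Real.log (2 * ((n + 4) * 2 ^ M)) :=
    Real.log_le_log (by positivity) h1
  rw [Real.log_mul (by norm_num) (by positivity), Real.log_mul (by positivity) (by positivity),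
    Real.log_pow] at h2
  have hl2 : Real.log 2 ≤ 0.6931471808 := Real.log_two_lt_d9.le
  have h4 : Real.log ((n : ℝ) + 4) ≤ s := by
    have e1 : ((n : ℝ) + 4) ≤ (s + 2) ^ 2 := by nlinarith
    have e2 : Real.log ((n : ℝ) + 4) ≤ Real.log ((s + 2) ^ 2) :=
      Real.log_le_log (by positivity) e1
    rw [Real.log_pow] at e2
    have e3 : Real.log (s + 2) ≤ (s + 2) / 8 - 1 + 3 * Real.log 2 := by
      have f1 : s + 2 = (s + 2) / 8 * 8 := by ring
      have f2 : Real.log (s + 2) = Real.log ((s + 2) / 8) + Real.log 8 := by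
        rw [← Real.log_mul (by positivity) (by norm_num), ← f1]
      have f3 : Real.log 8 = 3 * Real.log 2 := by
        rw [show (8 : ℝ) = 2 ^ 3 by norm_num, Real.log_pow]
        norm_num
      have f4 := Real.log_le_sub_one_of_pos (x := (s + 2) / 8) (by positivity)
      rw [f2, f3]
      linarith
    push_cast at e2
    linarith
  have h5 : (M : ℝ) * Real.log 2 ≤ M := by
    have : (0 : ℝ) ≤ M := by positivity
    nlinarith
  linarith

open Classical in
theorem main {Cp c₁ : ℝ} (hCp : 1 ≤ Cp) {n M l : ℕ} (hn : 16 ≤ n) (hl : 3 ≤ l)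
    {U : ℝ → ℂ} (hU : Continuous U) (hU0 : U 0 = 0) (P : ℕ → Prop)
    (hBd : ∀ j, ¬ P j → ∀ i : ℕ, i < 4 ^ l →
      ∀ u ∈ Set.Icc ((j : ℝ) + i / 4 ^ l) ((j : ℝ) + (i + 1) / 4 ^ l),
      ∀ v ∈ Set.Icc ((j : ℝ) + i / 4 ^ l) ((j : ℝ) + (i + 1) / 4 ^ l),
        ‖psub U 0 (rr M) u - psub U 0 (rr M) v‖ ≤ 1 / 4)
    (hA : ∀ (T : ℕ) (z : ℂ) (g : ℝ → ℂ), ‖z‖ ≤ (n + 4) * 2 ^ M + (n + M) →
      Sol (psub U 0 (rr M)) z T g →
      ‖g T - psub U 0 (rr M) T‖ ≤ (n + 4) * 2 ^ M + (n + M) →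
      Osc (psub U 0 (rr M)) 1 (n + M) T →
      (∀ s, s + (n + M) ^ 10 ≤ T → ¬ rider (psub U 0 (rr M)) g 1 s ((n + M) ^ 10)) →
      c₁ * XX (psub U 0 (rr M)) g 1 T +
        (4 * (12 * Cp) * Real.log (n + M)) * ((Finset.range (T - 1)).filter fun j =>
          tr (psub U 0 (rr M)) g 1 j ∧ P j).card ≤
        (NN (psub U 0 (rr M)) g 1 T + 1) *
          (Cp * (Real.log (n + M) + Real.log (((n + M) ^ 10 : ℕ) : ℝ) + 1)) +
          Cp * (Real.log ((n + 4) * 2 ^ M + (n + M)) + 1) + (√n + M))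
    (hA' : Osc (psub U 0 (rr M)) 1 (n + M) (4 ^ (n + 2 + M)))
    {T : ℕ} {z : ℂ} {g : ℝ → ℂ} (hT : T ≤ 4 ^ (n + 2)) (hz : ‖z‖ ≤ n + 4)
    (hg : Sol U z T g) (hgT : ‖g T - U T‖ ≤ n + 4) :
    ∃ B : ℝ, 0 ≤ B ∧
      XX U g (rr M) (T * 4 ^ M) + (NN U g (rr M) (T * 4 ^ M) - B) / (4 * 4 ^ l) ≤
        XX U g (rr (M + l)) (T * 4 ^ (M + l)) ∧
      ((∀ s, s + (n + M) ^ 10 ≤ T * 4 ^ M → ¬ rider U g (rr M) s ((n + M) ^ 10)) →
        c₁ * XX U g (rr M) (T * 4 ^ M) + 4 * (12 * Cp) * Real.log ((n : ℝ) + M) * B ≤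
          (NN U g (rr M) (T * 4 ^ M) + 1) * (12 * Cp * Real.log ((n : ℝ) + M)) +
            12 * Cp * (M + √n)) := by
  have hr : 0 < rr M := rr_pos M
  have hXN := XX_scale U g M (T * 4 ^ M)
  obtain ⟨hX, hN, htr, hrid⟩ := hXN
  refine ⟨((Finset.range (T * 4 ^ M - 1)).filter fun j => tr U g (rr M) j ∧ P j).card,
    by positivity, ?_, fun hnr => ?_⟩
  · obtain ⟨Q, hQ⟩ : ∃ Q : ℕ → Prop, ∀ j, Q j ↔ ¬ P j := ⟨_, fun _ => Iff.rfl⟩
    have hgr := grow_step (l := l) (M := T * 4 ^ M) hU hr hl (z := z) (g := g)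
      (by rw [cast_sq]; exact hg) Q ?_
    · rw [rr_add] at hgr
      have e1 : T * 4 ^ M * 4 ^ l = T * 4 ^ (M + l) := by rw [pow_add, mul_assoc]
      rw [e1] at hgr
      refine le_trans (le_of_eq ?_) hgr
      congr 1
      have hcard : ((Finset.range (T * 4 ^ M - 1)).filter fun j => tr U g (rr M) j ∧ P j).card +
          ((Finset.range (T * 4 ^ M - 1)).filter fun j => tr U g (rr M) j ∧ Q j).card =
          NN U g (rr M) (T * 4 ^ M) := by
        have e2 : ((Finset.range (T * 4 ^ M - 1)).filter fun j => tr U g (rr M) j ∧ Q j) =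
            (((Finset.range (T * 4 ^ M - 1)).filter fun j => tr U g (rr M) j).filter
              fun j => ¬ P j) := by
          ext j
          simp only [Finset.mem_filter, hQ, and_assoc]
        have e3 : ((Finset.range (T * 4 ^ M - 1)).filter fun j => tr U g (rr M) j ∧ P j) =
            (((Finset.range (T * 4 ^ M - 1)).filter fun j => tr U g (rr M) j).filter
              fun j => P j) := by
          ext j
          simp only [Finset.mem_filter, and_assoc]
        unfold NN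
        rw [e2, e3]
        exact Finset.card_filter_add_card_filter_not _
      have hcard' : (NN U g (rr M) (T * 4 ^ M) : ℝ) =
          ((Finset.range (T * 4 ^ M - 1)).filter fun j => tr U g (rr M) j ∧ P j).card +
          ((Finset.range (T * 4 ^ M - 1)).filter fun j => tr U g (rr M) j ∧ Q j).card := by
        rw [← hcard]
        push_cast
        rfl
      rw [hcard']
      field_simp
      ring
    · intro j hj i hi u hu v hv
      have key : ∀ w ∈ Set.Icc (((j * 4 ^ l + i : ℕ) : ℝ) * (rr M * rr l) ^ 2)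
          ((((j * 4 ^ l + i : ℕ) : ℝ) + 1) * (rr M * rr l) ^ 2),
          w / rr M ^ 2 ∈ Set.Icc ((j : ℝ) + i / 4 ^ l) ((j : ℝ) + (i + 1) / 4 ^ l) ∧
          psub U 0 (rr M) (w / rr M ^ 2) = (rr M)⁻¹ • U w := by
        intro w hw
        have hr2 : 0 < rr M ^ 2 := by positivity
        have hl2 : rr l ^ 2 = 1 / 4 ^ l := rr_sq l
        have e1 : ((j * 4 ^ l + i : ℕ) : ℝ) * rr l ^ 2 = (j : ℝ) + i / 4 ^ l := by
          rw [hl2]
          push_cast
          field_simp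
        have e2 : (((j * 4 ^ l + i : ℕ) : ℝ) + 1) * rr l ^ 2 = (j : ℝ) + (i + 1) / 4 ^ l := by
          rw [hl2]
          push_cast
          field_simp
          ring
        have hm : w / rr M ^ 2 ∈ Set.Icc ((j : ℝ) + i / 4 ^ l) ((j : ℝ) + (i + 1) / 4 ^ l) := by
          constructor
          · rw [le_div_iff₀ hr2, ← e1]
            refine le_trans (le_of_eq ?_) hw.1
            ring
          · rw [div_le_iff₀ hr2, ← e2]
            refine le_trans hw.2 (le_of_eq ?_)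
            ring
        refine ⟨hm, ?_⟩
        have h0 : 0 ≤ w / rr M ^ 2 := le_trans (by positivity) hm.1
        unfold psub
        rw [max_eq_left h0, hU0, sub_zero, zero_add, mul_div_cancel₀ _ hr2.ne']
      obtain ⟨hu1, hu2⟩ := key u hu
      obtain ⟨hv1, hv2⟩ := key v hv
      have := hBd j ((hQ j).1 hj) i hi _ hu1 _ hv1
      rw [hu2, hv2, ← smul_sub, norm_smul, Real.norm_of_nonneg (by positivity)] at this
      rw [inv_mul_le_iff₀ hr] at this
      linarith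
  · have hsol : Sol (psub U 0 (rr M)) ((rr M)⁻¹ • (g 0 - U 0)) ((T * 4 ^ M : ℕ) : ℝ)
        (gs U g 0 (rr M)) := by
      have h := hg.shift (s := 0) (r := rr M) le_rfl (by positivity) hr
      have e : ((T : ℝ) - 0) / rr M ^ 2 = ((T * 4 ^ M : ℕ) : ℝ) := by
        rw [sub_zero, div_eq_iff (by positivity), cast_sq]
      rw [e] at h
      exact h
    have hpos : (0 : ℝ) ≤ n + M := by positivity
    have hz' : ‖(rr M)⁻¹ • (g 0 - U 0)‖ ≤ (n + 4) * 2 ^ M + (n + M) := by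
      rw [hg.1, hU0, sub_zero, norm_smul, Real.norm_of_nonneg (by positivity), rr_inv]
      have : (2 : ℝ) ^ M * ‖z‖ ≤ 2 ^ M * (n + 4) := by gcongr
      linarith
    have hT' : ‖gs U g 0 (rr M) ((T * 4 ^ M : ℕ) : ℝ) - psub U 0 (rr M) ((T * 4 ^ M : ℕ) : ℝ)‖ ≤
        (n + 4) * 2 ^ M + (n + M) := by
      unfold gs psub
      rw [max_eq_left (by positivity), ← smul_sub, norm_smul,
        Real.norm_of_nonneg (by positivity), rr_inv, mul_comm (rr M ^ 2), cast_sq, zero_add,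
        sub_sub_sub_cancel_right]
      have : (2 : ℝ) ^ M * ‖g T - U T‖ ≤ 2 ^ M * (n + 4) := by gcongr
      linarith
    have hosc : Osc (psub U 0 (rr M)) 1 (n + M) (T * 4 ^ M) := by
      intro j hj
      apply hA'
      refine lt_of_lt_of_le hj ?_
      rw [pow_add]
      exact Nat.mul_le_mul_right _ hT
    have hrid' : ∀ s, s + (n + M) ^ 10 ≤ T * 4 ^ M →
        ¬ rider (psub U 0 (rr M)) (gs U g 0 (rr M)) 1 s ((n + M) ^ 10) := by
      intro s hs
      rw [hrid]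
      exact hnr s hs
    have h := hA (T * 4 ^ M) _ _ hz' hsol hT' hosc hrid'
    simp only [htr] at h
    rw [hX, hN] at h
    have hlogD : Real.log (((n + M) ^ 10 : ℕ) : ℝ) = 10 * Real.log ((n : ℝ) + M) := by
      push_cast
      rw [Real.log_pow]
      norm_num
    rw [hlogD] at h
    have hlog1 : 1 ≤ Real.log ((n : ℝ) + M) := by
      rw [Real.le_log_iff_exp_le (by
        have : (16 : ℝ) ≤ n := by exact_mod_cast hn
        have : (0 : ℝ) ≤ M := by positivity
        linarith)]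
      have h1 := Real.exp_one_lt_d9
      have h2 : (16 : ℝ) ≤ n := by exact_mod_cast hn
      have h3 : (0 : ℝ) ≤ M := by positivity
      linarith
    have hlb := log_bound (n := n) (M := M) hn
    have hs4 : 4 ≤ √(n : ℝ) := by
      apply Real.le_sqrt_of_sq_le
      norm_num
      exact_mod_cast hn
    have hM0 : (0 : ℝ) ≤ M := by positivity
    have hCp0 : 0 < Cp := by linarith
    have hNN : (0 : ℝ) ≤ (NN U g (rr M) (T * 4 ^ M) : ℝ) + 1 := by positivity
    have e1 : ((NN U g (rr M) (T * 4 ^ M) : ℝ) + 1) *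
        (Cp * (Real.log ((n : ℝ) + M) + 10 * Real.log ((n : ℝ) + M) + 1)) ≤
        ((NN U g (rr M) (T * 4 ^ M) : ℝ) + 1) * (12 * Cp * Real.log ((n : ℝ) + M)) := by
      apply mul_le_mul_of_nonneg_left _ hNN
      nlinarith
    have e2 : Cp * (Real.log (((n : ℝ) + 4) * 2 ^ M + (n + M)) + 1) + (√n + M) ≤
        12 * Cp * (M + √n) := by
      have f1 : Cp * (Real.log (((n : ℝ) + 4) * 2 ^ M + (n + M)) + 1) ≤
          Cp * (2 + √n + M) := by
        apply mul_le_mul_of_nonneg_left _ hCp0.le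
        linarith
      nlinarith [mul_nonneg hCp0.le hM0, mul_nonneg (sub_nonneg.2 hCp) hM0,
        mul_nonneg (sub_nonneg.2 hCp) (by linarith : (0 : ℝ) ≤ √n)]
    linarith

end TRSTA

/-- TR-STN. Numerical facts for the levels: the probability of a bad cell and the total
probability of the exceptional events.

Proof. `4 ^ ll N > 16 (Nat.log 2 N)^2` and `Nat.log 2 N ≥ log N` (as `N < 2^(log₂ N + 1)`,
roughly; use `Real.log N ≤ Nat.log 2 N + 1`), so `exp (-4^l / (256 S))` beats every power of `N`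
(`x ↦ x exp (-x / (512 S))` is bounded). For the sum: `lev n k ≥ 3 k`, and
`4^(n+2+m) 4 exp (-(n+m)^2 / (16 S)) ≤ exp (-n - m)` for `n ≥ n₀`. -/
theorem sta_num {C S : ℝ} (hC : 1 ≤ C) (hS : 1 ≤ S) : ∃ n₀ : ℕ, ∀ n ≥ n₀,
    (∀ m : ℕ, (4 : ℝ) ^ ll (n + m) * (4 * Real.exp (-(4 ^ ll (n + m) / (256 * S)))) ≤
      Real.exp (-(4 * C * Real.log ((n : ℝ) + m)))) ∧
    ∑' k : ℕ, ENNReal.ofReal (Real.exp (-(√n + lev n k)) +
      (4 ^ (n + 2 + lev n k) : ℝ) * (4 * Real.exp (-((n + lev n k : ℝ) ^ 2 / (16 * S))))) ≤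
      ENNReal.ofReal (Real.exp (-(n : ℝ) ^ (1 / 4 : ℝ))) := by
  obtain ⟨n₁, h₁⟩ := TRSTA.part1 hC hS
  obtain ⟨n₂, h₂⟩ := TRSTA.part2 hS
  refine ⟨max n₁ n₂, fun n hn => ⟨fun m => ?_, h₂ n ((le_max_right _ _).trans hn)⟩⟩
  have h := h₁ (n + m) (by have := (le_max_left n₁ n₂).trans hn; omega)
  push_cast at h
  exact h

/-- TR-STA. All the levels at once. For all solutions on `[0,T]`, `T ≤ 4^(n+2)`, which start and
end at distance at most `n + 4` of the tip, and all levels `k` (scale `rr (lev n k)`).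

Proof. Let `Cp, c₁` be the constants of `pattern`, `C = 12 Cp + ...` (large), `S = a + b + 1`. For
`k : ℕ` let `m_k = lev n k`, `r = rr m_k`, `N_k = n + m_k`, `l = ll N_k`. Apply to the process
`subP W 0 r` (`Drv.sub`, `Gau.subP`):
* `bad_ev` for each `j` with this `l`: events `Bd j` with `μ (Bd j) ≤ exp (-4 C log N_k)`
  (`sta_num`);
* `pattern` with `m = N_k`, `m₀ = (n + 4) 2^m_k + N_k`, `β = 4 C log N_k`, `v = √n + m_k`,
  `D = N_k^10`: event `A_k`;
* `osc_ev` with `N = 4^(n+2+m_k)`, `x = N_k`: event `A'_k`.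
`A = ⋃ k, A_k ∪ A'_k` (`sta_num`). Let `ω ∉ A`, `T, z, g` and `k`. `Sol.shift` (at time `0`,
scale `r`; `U 0 = 0`) gives a solution `gs U g 0 r` of the scaled equation on
`[0, T / r²] = [0, T 4^m_k]`, started at `r⁻¹ z` (`‖·‖ ≤ (n+4) 2^m_k`), the same at the end.
`B := ` the number of `j < T 4^m_k - 1` with `tr U g r j` and `ω ∈ Bd j`. `pattern` and
`XX_scale` give the second claim: `C_p (log N_k + 10 log N_k + 1) ≤ C log N_k` and
`C_p (log m₀ + 1) + v ≤ C (m_k + √n)` (for `n ≥ n₀`: `log (n+4) ≤ √n`).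
`grow_step` with `good j = ω ∉ Bd j`, `M = T 4^m_k` (the subcells of the cell `j` of the mesh
`r²` correspond to the intervals of `bad_ev` after scaling, and `r / 4` to `1 / 4`) gives the first
claim: `rr m_k * rr l = rr (lev n (k+1))`, `T 4^m_k 4^l = T 4^(lev n (k+1))`, and the number of
good transitions is `NN - B`. -/
theorem stars [IsProbabilityMeasure μ] {a b c K : ℝ} (ha : 0 ≤ a) (hb : 0 ≤ b) (hK : 0 ≤ K)
    (hS : HasS a b c) :
    ∃ C c₁ : ℝ, 1 ≤ C ∧ 0 < c₁ ∧ ∃ n₀ : ℕ, ∀ n ≥ n₀, ∀ W : ℝ → Ω → ℂ, Gau a b c K W μ →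
      ∃ A, MeasurableSet A ∧ μ A ≤ ENNReal.ofReal (Real.exp (-(n : ℝ) ^ (1 / 4 : ℝ))) ∧
        ∀ ω ∉ A, ∀ (T : ℕ) (z : ℂ) (g : ℝ → ℂ), T ≤ 4 ^ (n + 2) → ‖z‖ ≤ n + 4 →
          Sol (fun t => W t ω) z T g → ‖g T - W T ω‖ ≤ n + 4 → ∀ k : ℕ, ∃ B : ℝ, 0 ≤ B ∧
            XX (fun t => W t ω) g (rr (lev n k)) (T * 4 ^ lev n k) +
                (NN (fun t => W t ω) g (rr (lev n k)) (T * 4 ^ lev n k) - B) /
                  (4 * 4 ^ ll (n + lev n k)) ≤
              XX (fun t => W t ω) g (rr (lev n (k + 1))) (T * 4 ^ lev n (k + 1)) ∧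
            ((∀ s, s + (n + lev n k) ^ 10 ≤ T * 4 ^ lev n k →
                ¬ rider (fun t => W t ω) g (rr (lev n k)) s ((n + lev n k) ^ 10)) →
              c₁ * XX (fun t => W t ω) g (rr (lev n k)) (T * 4 ^ lev n k) +
                  4 * C * Real.log ((n : ℝ) + lev n k) * B ≤
                (NN (fun t => W t ω) g (rr (lev n k)) (T * 4 ^ lev n k) + 1) *
                    (C * Real.log ((n : ℝ) + lev n k)) + C * (lev n k + √n)) := by
  obtain ⟨Cp, c₁, hCp, hc₁, hpat⟩ := pattern (μ := μ) ha hb hK hS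
  have hC1 : (1 : ℝ) ≤ 12 * Cp := by linarith
  have hS1 : (1 : ℝ) ≤ a + b + 1 := by linarith
  obtain ⟨n₁, hn₁⟩ := sta_num hC1 hS1
  refine ⟨12 * Cp, c₁, hC1, hc₁, max n₁ 16, fun n hn W hW => ?_⟩
  obtain ⟨hnum1, hnum2⟩ := hn₁ n ((le_max_left _ _).trans hn)
  have hn16 : 16 ≤ n := (le_max_right _ _).trans hn
  have hn16r : (16 : ℝ) ≤ n := by exact_mod_cast hn16
  have hGk : ∀ k : ℕ, Gau a b c K (subP W 0 (rr (lev n k))) μ := fun k =>
    hW.subP le_rfl (TRSTA.rr_pos _)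
  choose Bd hBdm hBdμ hBd using fun k j : ℕ => bad_ev (hGk k) (ll (n + lev n k)) j
  have hBdμ' : ∀ k j, μ (Bd k j) ≤
      ENNReal.ofReal (Real.exp (-(4 * (12 * Cp) * Real.log ((n : ℝ) + lev n k)))) := fun k j =>
    (hBdμ k j).trans (ENNReal.ofReal_le_ofReal (hnum1 (lev n k)))
  have hm : ∀ k, (1 : ℝ) ≤ (n : ℝ) + lev n k := fun k => by
    have : (0 : ℝ) ≤ lev n k := by positivity
    linarith
  have hm₀ : ∀ k, (n : ℝ) + lev n k ≤ (n + 4) * 2 ^ lev n k + (n + lev n k) := fun k => by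
    have : (0 : ℝ) ≤ (n + 4) * 2 ^ lev n k := by positivity
    linarith
  have hD : ∀ k, 1 ≤ (n + lev n k) ^ 10 := fun k => Nat.one_le_pow _ _ (by omega)
  have hβ : ∀ k, 0 ≤ 4 * (12 * Cp) * Real.log ((n : ℝ) + lev n k) := fun k =>
    mul_nonneg (by linarith) (Real.log_nonneg (hm k))
  choose A hAm hAμ hA using fun k : ℕ => hpat (subP W 0 (rr (lev n k))) (hGk k).toDrv
    ((n : ℝ) + lev n k) ((n + 4) * 2 ^ lev n k + (n + lev n k))
    (4 * (12 * Cp) * Real.log ((n : ℝ) + lev n k)) (√n + lev n k) ((n + lev n k) ^ 10)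
    (Bd k) (hm k) (hm₀ k) (hD k) (hβ k) (hBdm k) (hBdμ' k)
  choose A' hAm' hAμ' hA' using fun k : ℕ => osc_ev (hGk k) (4 ^ (n + 2 + lev n k))
    (x := (n : ℝ) + lev n k) (by linarith [hm k])
  refine ⟨⋃ k, (A k ∪ A' k), MeasurableSet.iUnion fun k => (hAm k).union (hAm' k), ?_, ?_⟩
  · refine (measure_iUnion_le _).trans (le_trans (ENNReal.tsum_le_tsum fun k => ?_) hnum2)
    refine (measure_union_le _ _).trans ?_
    rw [ENNReal.ofReal_add (by positivity) (by positivity)]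
    refine add_le_add (hAμ k) ?_
    have := hAμ' k
    push_cast at this
    exact this
  · intro ω hω T z g hT hz hg hgT k
    simp only [Set.mem_iUnion, Set.mem_union, not_exists, not_or] at hω
    obtain ⟨hωA, hωA'⟩ := hω k
    exact TRSTA.main hCp hn16 (ll_ge _) (hW.cont ω) (hW.zero 0 le_rfl ω) (fun j => ω ∈ Bd k j)
      (fun j hj => hBd k j ω hj) (hA k ω hωA) (hA' k ω hωA') hT hz hg hgT

end

end Pool.Agent.SLE
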