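import Pool.Agent.Lib.MP_c17912_pr_TR.Base

set_option autoImplicit false

open MeasureTheory ProbabilityTheory Filter
open scoped NNReal ENNReal Topology Real

namespace Pool.Agent.SLE

noncomputable section

variable {Ω : Type*} [MeasurableSpace Ω] {μ : Measure Ω} {a b c K : ℝ} {W : ℝ → Ω → ℂ}

namespace TRCHN

/-- The deterministic sum. -/
theorem dsum (D : ℕ) (a : ℕ → ℝ≥0∞) (y : ℕ → ℕ → ℝ≥0∞)
    (hy : ∀ α N : ℕ, ∑ t ∈ Finset.range N, y α (t + 1) ≤ 1) :
    ∑' t, (∑ s ∈ Finset.range t, ∑ α ∈ (Finset.Icc s (s + D)).filter (fun α => α < t),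
      a s * 2 * y α (t - α)) ≤ ENNReal.ofReal (2 * (D + 1)) * ∑' s, a s := by
  refine ENNReal.tsum_le_of_sum_range_le fun N => ?_
  have h1 : ∀ t ∈ Finset.range N, (∑ s ∈ Finset.range t,
      ∑ α ∈ (Finset.Icc s (s + D)).filter (fun α => α < t), a s * 2 * y α (t - α)) ≤
      ∑ s ∈ Finset.range N, ∑ α ∈ Finset.Icc s (s + D),
        (if α < t then a s * 2 * y α (t - α) else 0) := by
    intro t ht
    have hsub : Finset.range t ⊆ Finset.range N :=
      Finset.range_subset_range.2 (Finset.mem_range.1 ht).le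
    refine le_trans (le_of_eq ?_) (Finset.sum_le_sum_of_subset hsub)
    refine Finset.sum_congr rfl fun s _ => ?_
    rw [Finset.sum_filter]
  refine (Finset.sum_le_sum h1).trans ?_
  rw [Finset.sum_comm]
  have h2 : ∀ s ∈ Finset.range N, (∑ t ∈ Finset.range N, ∑ α ∈ Finset.Icc s (s + D),
      (if α < t then a s * 2 * y α (t - α) else 0)) ≤ ENNReal.ofReal (2 * (D + 1)) * a s := by
    intro s _
    rw [Finset.sum_comm]
    have h3 : ∀ α ∈ Finset.Icc s (s + D), (∑ t ∈ Finset.range N,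
        (if α < t then a s * 2 * y α (t - α) else 0)) ≤ a s * 2 := by
      intro α _
      have h4 : (∑ t ∈ Finset.range N, (if α < t then a s * 2 * y α (t - α) else 0)) =
          a s * 2 * ∑ t ∈ (Finset.range N).filter (fun t => α < t), y α (t - α) := by
        rw [← Finset.sum_filter, Finset.mul_sum]
      rw [h4]
      have h5 : (∑ t ∈ (Finset.range N).filter (fun t => α < t), y α (t - α)) ≤
          ∑ t ∈ Finset.range N, y α (t + 1) := by
        have h6 : (∑ t ∈ (Finset.range N).filter (fun t => α < t), y α (t - α)) =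
            ∑ t ∈ ((Finset.range N).filter (fun t => α < t)).image (fun t => t - α - 1),
              y α (t + 1) := by
          rw [Finset.sum_image]
          · refine Finset.sum_congr rfl fun t ht => ?_
            have : α < t := (Finset.mem_filter.1 ht).2
            congr 1
            omega
          · intro t ht t' ht' h
            have h7 : α < t := (Finset.mem_filter.1 ht).2
            have h8 : α < t' := (Finset.mem_filter.1 ht').2
            have h9 : t - α - 1 = t' - α - 1 := h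
            omega
        rw [h6]
        refine Finset.sum_le_sum_of_subset fun t ht => ?_
        obtain ⟨u, hu, rfl⟩ := Finset.mem_image.1 ht
        have := Finset.mem_range.1 (Finset.mem_filter.1 hu).1
        rw [Finset.mem_range]
        omega
      calc a s * 2 * ∑ t ∈ (Finset.range N).filter (fun t => α < t), y α (t - α)
          ≤ a s * 2 * 1 := mul_le_mul_right (h5.trans (hy α N)) _
        _ = a s * 2 := mul_one _
    refine (Finset.sum_le_sum h3).trans ?_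
    rw [Finset.sum_const, Nat.card_Icc]
    have h4 : s + D + 1 - s = D + 1 := by omega
    rw [h4, nsmul_eq_mul]
    have h5 : ENNReal.ofReal (2 * ((D : ℝ) + 1)) = 2 * ((D + 1 : ℕ) : ℝ≥0∞) := by
      rw [ENNReal.ofReal_mul (by norm_num)]
      congr 1
      · norm_num
      · rw [← ENNReal.ofReal_natCast]
        push_cast
        rfl
    rw [h5]
    refine le_of_eq ?_
    ring
  refine (Finset.sum_le_sum h2).trans ?_
  rw [← Finset.mul_sum]
  exact mul_le_mul_right (ENNReal.sum_le_tsum _) _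

/-- The weights. -/
def wt (β : ℝ) (Bd : ℕ → Set Ω) (s α : ℕ) (ω : Ω) : ℝ≥0∞ :=
  open Classical in
  if s < α then 1 + (if ω ∈ Bd (α - 1) then ENNReal.ofReal (Real.exp β) else 0) else 1

/-- The chains. -/
def RR (D : ℕ) (β : ℝ) (Ys : ℕ → ℕ → Ω → ℝ≥0∞) (Bd : ℕ → Set Ω) : ℕ → ℕ → Ω → ℝ≥0∞
  | 0, t, _ => if t = 0 then 1 else 0
  | i + 1, t, ω => ∑ s ∈ Finset.range t,
      ∑ α ∈ (Finset.Icc s (s + D)).filter (fun α => α < t),
        RR D β Ys Bd i s ω * wt β Bd s α ω * Ys α (t - α) ω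

end TRCHN

/-- TR-CHN1. Independence of the past, one cell, and the future. `f` depends on the increments
in `[0,s]`, `w` on those of the cell `[α-1,α]` (`s ≤ α - 1`), `y` on those after `α`.

Proof. `f * w` is measurable for `Blk W 0 α` and `y` for `Fut W α` (`Blk_le_Fut`-type
inclusions; `Fut W α` directly), `indep_Blk_Fut` at `α` and
`lintegral_mul_eq_lintegral_mul_lintegral_of_independent_measurableSpace`; then the same at
`α - 1` for `f` (past) and `w` (`Blk W (α-1) α ≤ Fut W (α-1)`). `Blk W (α-1) α ≤ Blk W 0 α` is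
`Blk_le_Blk`. -/
theorem indep3 [IsProbabilityMeasure μ] (hW : Drv a b c K W μ) {s α : ℕ} (hs : s + 1 ≤ α)
    {f w y : Ω → ℝ≥0∞} (hf : Measurable[Blk W 0 s] f)
    (hw : Measurable[Blk W ((α : ℝ) - 1) α] w) (hy : Measurable[Fut W α] y) :
    ∫⁻ ω, f ω * w ω * y ω ∂μ = (∫⁻ ω, f ω ∂μ) * (∫⁻ ω, w ω ∂μ) * ∫⁻ ω, y ω ∂μ := by
  have hα : (s : ℝ) ≤ (α : ℝ) - 1 := by
    have : ((s + 1 : ℕ) : ℝ) ≤ α := by exact_mod_cast hs
    push_cast at this
    linarith
  have hs0 : (0 : ℝ) ≤ s := Nat.cast_nonneg s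
  have hα0 : (0 : ℝ) ≤ (α : ℝ) - 1 := hs0.trans hα
  have f1 : Measurable[Blk W 0 α] f := hf.mono (Blk_le_Blk le_rfl (by linarith)) le_rfl
  have w1 : Measurable[Blk W 0 α] w := hw.mono (Blk_le_Blk hα0 le_rfl) le_rfl
  have e1 := lintegral_mul_eq_lintegral_mul_lintegral_of_independent_measurableSpace
    (Blk_le hW 0 α) (Fut_le hW α) (indep_Blk_Fut hW (Nat.cast_nonneg α))
    (f := fun ω => f ω * w ω) (f1.mul w1) hy
  have f2 : Measurable[Blk W 0 ((α : ℝ) - 1)] f := hf.mono (Blk_le_Blk le_rfl hα) le_rfl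
  have w2 : Measurable[Fut W ((α : ℝ) - 1)] w := hw.mono (Blk_le_Fut _ _) le_rfl
  have e2 := lintegral_mul_eq_lintegral_mul_lintegral_of_independent_measurableSpace
    (Blk_le hW 0 ((α : ℝ) - 1)) (Fut_le hW ((α : ℝ) - 1)) (indep_Blk_Fut hW hα0) f2 w2
  rw [e1, e2]

namespace TRCHN

omit [MeasurableSpace Ω] in
theorem wt_meas (β : ℝ) (Bd : ℕ → Set Ω)
    (hBm : ∀ j : ℕ, MeasurableSet[Blk W j ((j : ℝ) + 1)] (Bd j)) {s α : ℕ} (h : s < α) :
    Measurable[Blk W ((α : ℝ) - 1) α] (wt β Bd s α) := by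
  have h1 : ((α - 1 : ℕ) : ℝ) = (α : ℝ) - 1 := by
    rw [Nat.cast_sub (by omega)]
    push_cast
    ring
  have h2 := hBm (α - 1)
  rw [h1, sub_add_cancel] at h2
  have h3 : wt β Bd s α = fun ω =>
      1 + (Bd (α - 1)).indicator (fun _ => ENNReal.ofReal (Real.exp β)) ω := by
    funext ω
    unfold wt
    rw [if_pos h]
    rfl
  rw [h3]
  refine Measurable.const_add ?_ 1
  exact Measurable.indicator measurable_const h2

theorem wt_int [IsProbabilityMeasure μ] {β : ℝ} {Bd : ℕ → Set Ω}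
    (hBm : ∀ j : ℕ, MeasurableSet (Bd j))
    (hBp : ∀ j, μ (Bd j) ≤ ENNReal.ofReal (Real.exp (-β))) (s α : ℕ) :
    ∫⁻ ω, wt β Bd s α ω ∂μ ≤ 2 := by
  by_cases h : s < α
  · have h3 : wt β Bd s α = fun ω =>
        1 + (Bd (α - 1)).indicator (fun _ => ENNReal.ofReal (Real.exp β)) ω := by
      funext ω
      unfold wt
      rw [if_pos h]
      rfl
    rw [h3, lintegral_add_left measurable_const, lintegral_one, measure_univ,
      lintegral_indicator_const (hBm _)]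
    have h4 : ENNReal.ofReal (Real.exp β) * μ (Bd (α - 1)) ≤ 1 := by
      refine (mul_le_mul_right (hBp _) _).trans ?_
      rw [← ENNReal.ofReal_mul (Real.exp_pos _).le, ← Real.exp_add, add_neg_cancel,
        Real.exp_zero, ENNReal.ofReal_one]
    calc (1 : ℝ≥0∞) + ENNReal.ofReal (Real.exp β) * μ (Bd (α - 1)) ≤ 1 + 1 :=
          add_le_add le_rfl h4
      _ = 2 := one_add_one_eq_two
  · have h3 : wt β Bd s α = fun _ => 1 := by
      funext ω
      unfold wt
      rw [if_neg h]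
    rw [h3, lintegral_one, measure_univ]
    exact one_le_two

variable {D : ℕ} {β : ℝ} {Ys : ℕ → ℕ → Ω → ℝ≥0∞} {Bd : ℕ → Set Ω}

omit [MeasurableSpace Ω] in
theorem Ys_blk (hYm : ∀ α t : ℕ, Measurable[Blk W α ((α : ℝ) + t)] (Ys α t)) {α t : ℕ}
    (h : α < t) : Measurable[Blk W α t] (Ys α (t - α)) := by
  have h1 := hYm α (t - α)
  have h2 : (α : ℝ) + ((t - α : ℕ) : ℝ) = t := by
    rw [Nat.cast_sub h.le]
    ring
  rwa [h2] at h1

theorem RR_meas (hYm : ∀ α t : ℕ, Measurable[Blk W α ((α : ℝ) + t)] (Ys α t))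
    (hBm : ∀ j : ℕ, MeasurableSet[Blk W j ((j : ℝ) + 1)] (Bd j)) (i t : ℕ) :
    Measurable[Blk W 0 t] (RR D β Ys Bd i t) := by
  induction i generalizing t with
  | zero => exact measurable_const
  | succ i ih =>
    have h0 : RR D β Ys Bd (i + 1) t = fun ω => ∑ s ∈ Finset.range t,
      ∑ α ∈ (Finset.Icc s (s + D)).filter (fun α => α < t),
        RR D β Ys Bd i s ω * wt β Bd s α ω * Ys α (t - α) ω := rfl
    rw [h0]
    refine Finset.measurable_fun_sum _ fun s hs => Finset.measurable_fun_sum _ fun α hα => ?_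
    have h1 : s < t := Finset.mem_range.1 hs
    have h2 : α < t := (Finset.mem_filter.1 hα).2
    have c1 : (s : ℝ) ≤ t := by exact_mod_cast h1.le
    have c2 : (α : ℝ) ≤ t := by exact_mod_cast h2.le
    have k1 : Measurable[Blk W 0 t] (RR D β Ys Bd i s) :=
      (ih s).mono (Blk_le_Blk le_rfl c1) le_rfl
    have k3 : Measurable[Blk W 0 t] (Ys α (t - α)) :=
      (Ys_blk hYm h2).mono (Blk_le_Blk (Nat.cast_nonneg α) le_rfl) le_rfl
    have k2 : Measurable[Blk W 0 t] (wt β Bd s α) := by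
      by_cases h : s < α
      · have h3 : (0 : ℝ) ≤ (α : ℝ) - 1 := by
          have : (1 : ℝ) ≤ α := by exact_mod_cast (by omega : 1 ≤ α)
          linarith
        exact (wt_meas β Bd hBm h).mono (Blk_le_Blk h3 c2) le_rfl
      · have h3 : wt β Bd s α = fun _ => 1 := by
          funext ω
          unfold wt
          rw [if_neg h]
        rw [h3]
        exact measurable_const
    exact (k1.mul k2).mul k3

theorem term_int [IsProbabilityMeasure μ] (hW : Drv a b c K W μ)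
    (hYm : ∀ α t : ℕ, Measurable[Blk W α ((α : ℝ) + t)] (Ys α t))
    (hBm : ∀ j : ℕ, MeasurableSet[Blk W j ((j : ℝ) + 1)] (Bd j))
    (hBp : ∀ j, μ (Bd j) ≤ ENNReal.ofReal (Real.exp (-β))) (i : ℕ) {s α t : ℕ} (h1 : s ≤ α)
    (h2 : α < t) :
    ∫⁻ ω, RR D β Ys Bd i s ω * wt β Bd s α ω * Ys α (t - α) ω ∂μ ≤
      (∫⁻ ω, RR D β Ys Bd i s ω ∂μ) * 2 * ∫⁻ ω, Ys α (t - α) ω ∂μ := by
  have hBm' : ∀ j : ℕ, MeasurableSet (Bd j) := fun j => (Blk_le hW _ _) _ (hBm j)
  have hR : Measurable[Blk W 0 s] (RR D β Ys Bd i s) := RR_meas hYm hBm i s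
  have hy : Measurable[Fut W α] (Ys α (t - α)) := (Ys_blk hYm h2).mono (Blk_le_Fut _ _) le_rfl
  rcases h1.eq_or_lt with h | h
  · subst h
    have h3 : ∀ ω, RR D β Ys Bd i s ω * wt β Bd s s ω * Ys s (t - s) ω =
        RR D β Ys Bd i s ω * Ys s (t - s) ω := by
      intro ω
      unfold wt
      rw [if_neg (lt_irrefl s), mul_one]
    simp only [h3]
    rw [lintegral_mul_eq_lintegral_mul_lintegral_of_independent_measurableSpace
      (Blk_le hW 0 s) (Fut_le hW s) (indep_Blk_Fut hW (Nat.cast_nonneg s)) hR hy]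
    refine mul_le_mul_left ?_ _
    calc (∫⁻ ω, RR D β Ys Bd i s ω ∂μ) = (∫⁻ ω, RR D β Ys Bd i s ω ∂μ) * 1 := (mul_one _).symm
      _ ≤ (∫⁻ ω, RR D β Ys Bd i s ω ∂μ) * 2 := mul_le_mul_right one_le_two _
  · rw [indep3 hW h hR (wt_meas β Bd hBm h) hy]
    exact mul_le_mul_left (mul_le_mul_right (wt_int hBm' hBp s α) _) _

theorem S_le [IsProbabilityMeasure μ] (hW : Drv a b c K W μ)
    (hYm : ∀ α t : ℕ, Measurable[Blk W α ((α : ℝ) + t)] (Ys α t))
    (hYs : ∀ α N : ℕ, ∑ t ∈ Finset.range N, ∫⁻ ω, Ys α (t + 1) ω ∂μ ≤ 1)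
    (hBm : ∀ j : ℕ, MeasurableSet[Blk W j ((j : ℝ) + 1)] (Bd j))
    (hBp : ∀ j, μ (Bd j) ≤ ENNReal.ofReal (Real.exp (-β))) (i : ℕ) :
    ∑' t, ∫⁻ ω, RR D β Ys Bd i t ω ∂μ ≤ ENNReal.ofReal ((2 * (D + 1)) ^ i) := by
  have hY : ∀ α t, Measurable (Ys α t) := fun α t => (hYm α t).mono (Blk_le hW _ _) le_rfl
  have hRm : ∀ i t, Measurable (RR D β Ys Bd i t) := fun i t =>
    (RR_meas hYm hBm i t).mono (Blk_le hW _ _) le_rfl
  have hBm' : ∀ j : ℕ, MeasurableSet (Bd j) := fun j => (Blk_le hW _ _) _ (hBm j)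
  have hwm : ∀ s α, Measurable (wt β Bd s α) := by
    intro s α
    by_cases h : s < α
    · exact (wt_meas β Bd hBm h).mono (Blk_le hW _ _) le_rfl
    · have h3 : wt β Bd s α = fun _ => 1 := by
        funext ω
        unfold wt
        rw [if_neg h]
      rw [h3]
      exact measurable_const
  induction i with
  | zero =>
    have h1 : ∀ t, ∫⁻ ω, RR D β Ys Bd 0 t ω ∂μ = if t = 0 then 1 else 0 := by
      intro t
      have h2 : RR D β Ys Bd 0 t = fun _ => if t = 0 then 1 else 0 := rfl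
      rw [h2, lintegral_const, measure_univ, mul_one]
    simp only [h1]
    rw [tsum_ite_eq, pow_zero, ENNReal.ofReal_one]
  | succ i ih =>
    have h1 : ∀ t, ∫⁻ ω, RR D β Ys Bd (i + 1) t ω ∂μ ≤ ∑ s ∈ Finset.range t,
        ∑ α ∈ (Finset.Icc s (s + D)).filter (fun α => α < t),
          (∫⁻ ω, RR D β Ys Bd i s ω ∂μ) * 2 * ∫⁻ ω, Ys α (t - α) ω ∂μ := by
      intro t
      have h0 : RR D β Ys Bd (i + 1) t = fun ω => ∑ s ∈ Finset.range t,
        ∑ α ∈ (Finset.Icc s (s + D)).filter (fun α => α < t),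
          RR D β Ys Bd i s ω * wt β Bd s α ω * Ys α (t - α) ω := rfl
      have hm : ∀ s α, Measurable fun ω => RR D β Ys Bd i s ω * wt β Bd s α ω *
          Ys α (t - α) ω := fun s α => ((hRm i s).mul (hwm s α)).mul (hY α (t - α))
      have e1 : ∫⁻ ω, RR D β Ys Bd (i + 1) t ω ∂μ = ∑ s ∈ Finset.range t,
          ∫⁻ ω, (∑ α ∈ (Finset.Icc s (s + D)).filter (fun α => α < t),
            RR D β Ys Bd i s ω * wt β Bd s α ω * Ys α (t - α) ω) ∂μ := by
        rw [h0]
        exact lintegral_finsetSum _ fun s _ => Finset.measurable_fun_sum _ fun α _ => hm s α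
      rw [e1]
      refine Finset.sum_le_sum fun s hs => ?_
      rw [lintegral_finsetSum _ fun α _ => hm s α]
      refine Finset.sum_le_sum fun α hα => ?_
      obtain ⟨k1, k2⟩ := Finset.mem_filter.1 hα
      exact term_int hW hYm hBm hBp i (Finset.mem_Icc.1 k1).1 k2
    refine (ENNReal.tsum_le_tsum h1).trans ?_
    refine (dsum D (fun s => ∫⁻ ω, RR D β Ys Bd i s ω ∂μ) (fun α t => ∫⁻ ω, Ys α t ω ∂μ)
      hYs).trans ?_
    refine (mul_le_mul_right ih _).trans ?_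
    rw [← ENNReal.ofReal_mul (by positivity), pow_succ, mul_comm]

end TRCHN

/-- TR-CHN2. The chains of stretches.

Proof. Let `w s α ω = if s < α then 1 + indicator (Bd (α-1)) (ofReal (exp β)) else 1` and define
`R 0 t = if t = 0 then 1 else 0`,
`R (i+1) t ω = ∑ s ∈ range t, ∑ α ∈ (Icc s (s+D)).filter (· < t), R i s ω * w s α ω *
Ys α (t - α) ω` (so the recursion holds: for `s ≤ α < t`, `s ∈ range t`).
`R i t` is measurable for `Blk W 0 t` (induction; `Ys α (t-α)` is measurable for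
`Blk W α t ≤ Blk W 0 t`, the indicator for `Blk W (α-1) α ≤ Blk W 0 t`).
Let `S i = ∑' t, ∫ R i t`. `S 0 = 1`. By `indep3` (if `s < α`) or the independence of
`Blk W 0 α` and `Fut W α` (if `s = α`, `w = 1`),
`S (i+1) ≤ ∑' s, (∫ R i s) ∑ α ∈ Icc s (s+D), (∫ w s α) ∑' τ ≥ 1, ∫ Ys α τ ≤ 2 (D+1) S i`
(exchange of sums in `ℝ≥0∞`: substitute `t = α + τ`; `∫ w ≤ 1 + exp β * exp (-β) = 2`).
So `S i ≤ (2 (D+1)) ^ i`. Let `A i = {ω | 2 exp v (4 (D+1)) ^ i < ∑' t, R i t ω}`; Markov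
(`mul_meas_ge_le_lintegral` / `meas_ge_le_lintegral_div`) gives `μ (A i) ≤ exp (-v) 2^(-i-1)`, and
`A = ⋃ i, A i`. -/
theorem chain [IsProbabilityMeasure μ] (hW : Drv a b c K W μ) (D : ℕ) {β : ℝ} (hβ : 0 ≤ β)
    (v : ℝ) (Ys : ℕ → ℕ → Ω → ℝ≥0∞)
    (hYm : ∀ α t : ℕ, Measurable[Blk W α ((α : ℝ) + t)] (Ys α t))
    (hYs : ∀ α N : ℕ, ∑ t ∈ Finset.range N, ∫⁻ ω, Ys α (t + 1) ω ∂μ ≤ 1) (Bd : ℕ → Set Ω)
    (hBm : ∀ j : ℕ, MeasurableSet[Blk W j ((j : ℝ) + 1)] (Bd j))
    (hBp : ∀ j, μ (Bd j) ≤ ENNReal.ofReal (Real.exp (-β))) :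
    ∃ A, MeasurableSet A ∧ μ A ≤ ENNReal.ofReal (Real.exp (-v)) ∧ ∀ ω ∉ A,
      ∃ R : ℕ → ℕ → ℝ≥0∞, 1 ≤ R 0 0 ∧
        (open Classical in ∀ i s α t, s ≤ α → α ≤ s + D → α < t →
          R i s * (if s < α then 1 + (if ω ∈ Bd (α - 1) then ENNReal.ofReal (Real.exp β) else 0)
            else 1) * Ys α (t - α) ω ≤ R (i + 1) t) ∧
        ∀ i t, R i t ≤ ENNReal.ofReal (2 * Real.exp v * (4 * (D + 1)) ^ i) := by
  have hRm : ∀ i t, Measurable (TRCHN.RR D β Ys Bd i t) := fun i t =>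
    (TRCHN.RR_meas hYm hBm i t).mono (Blk_le hW _ _) le_rfl
  have hSm : ∀ i, Measurable fun ω => ∑' t, TRCHN.RR D β Ys Bd i t ω := fun i =>
    Measurable.ennreal_tsum (hRm i)
  set C : ℕ → ℝ≥0∞ := fun i => ENNReal.ofReal (2 * Real.exp v * (4 * (D + 1)) ^ i) with hC
  have hCpos : ∀ i : ℕ, (0 : ℝ) < 2 * Real.exp v * (4 * (D + 1)) ^ i := fun i => by positivity
  set A : ℕ → Set Ω := fun i => {ω | C i ≤ ∑' t, TRCHN.RR D β Ys Bd i t ω} with hA
  have hAm : ∀ i, MeasurableSet (A i) := fun i => measurableSet_le measurable_const (hSm i)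
  have hAp : ∀ i : ℕ, μ (A i) ≤ ENNReal.ofReal (Real.exp (-v) / 2 / 2 ^ i) := by
    intro i
    have h1 := meas_ge_le_lintegral_div (μ := μ) (hSm i).aemeasurable
      (ENNReal.ofReal_pos.2 (hCpos i)).ne' ENNReal.ofReal_ne_top
    refine h1.trans ?_
    rw [lintegral_tsum fun t => (hRm i t).aemeasurable]
    refine (ENNReal.div_le_div_right (TRCHN.S_le hW hYm hYs hBm hBp i) _).trans ?_
    rw [← ENNReal.ofReal_div_of_pos (hCpos i)]
    refine ENNReal.ofReal_le_ofReal (le_of_eq ?_)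
    have h2 : (4 * ((D : ℝ) + 1)) ^ i = 2 ^ i * (2 * ((D : ℝ) + 1)) ^ i := by
      rw [← mul_pow]
      ring_nf
    have h3 : (2 * ((D : ℝ) + 1)) ^ i ≠ 0 := by positivity
    rw [h2, Real.exp_neg]
    have h4 := (Real.exp_pos v).ne'
    field_simp
  refine ⟨⋃ i, A i, MeasurableSet.iUnion hAm, ?_, ?_⟩
  · refine (measure_iUnion_le _).trans ((ENNReal.tsum_le_tsum hAp).trans ?_)
    have h1 := hasSum_geometric_two' (Real.exp (-v))
    rw [← ENNReal.ofReal_tsum_of_nonneg (fun n => by positivity) h1.summable, h1.tsum_eq]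
  · intro ω hω
    rw [Set.mem_iUnion, not_exists] at hω
    refine ⟨fun i t => TRCHN.RR D β Ys Bd i t ω, ?_, ?_, ?_⟩
    · show (1 : ℝ≥0∞) ≤ if (0 : ℕ) = 0 then 1 else 0
      rw [if_pos rfl]
    · intro i s α t h1 h2 h3
      show TRCHN.RR D β Ys Bd i s ω * TRCHN.wt β Bd s α ω * Ys α (t - α) ω ≤
        ∑ s ∈ Finset.range t, ∑ α ∈ (Finset.Icc s (s + D)).filter (fun α => α < t),
          TRCHN.RR D β Ys Bd i s ω * TRCHN.wt β Bd s α ω * Ys α (t - α) ω
      have k1 : s ∈ Finset.range t := Finset.mem_range.2 (by omega)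
      have k2 : α ∈ (Finset.Icc s (s + D)).filter (fun α => α < t) :=
        Finset.mem_filter.2 ⟨Finset.mem_Icc.2 ⟨h1, h2⟩, h3⟩
      refine le_trans ?_ (Finset.single_le_sum (f := fun s =>
        ∑ α ∈ (Finset.Icc s (s + D)).filter (fun α => α < t),
          TRCHN.RR D β Ys Bd i s ω * TRCHN.wt β Bd s α ω * Ys α (t - α) ω)
        (fun _ _ => zero_le) k1)
      exact Finset.single_le_sum (f := fun α =>
        TRCHN.RR D β Ys Bd i s ω * TRCHN.wt β Bd s α ω * Ys α (t - α) ω)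
        (fun _ _ => zero_le) k2
    · intro i t
      have h1 : ¬ C i ≤ ∑' t, TRCHN.RR D β Ys Bd i t ω := hω i
      exact (ENNReal.le_tsum t).trans (not_le.1 h1).le

end

end Pool.Agent.SLE
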