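import Mathlib

set_option autoImplicit false

open scoped NNReal ENNReal Topology Real

namespace Pool.Agent.SLE

noncomputable section

namespace TRPTC

/-- The start of a run. -/
lemma run_start (Q : ℕ → Prop) : ∀ t, 0 < t → Q (t - 1) →
    ∃ α, α < t ∧ (∀ j, α ≤ j → j < t → Q j) ∧ (α = 0 ∨ (0 < α ∧ ¬ Q (α - 1))) := by
  intro t
  induction t with
  | zero => intro h; exact absurd h (lt_irrefl 0)
  | succ n ih =>
    intro _ hQ
    have hQn : Q n := by simpa using hQ
    rcases Nat.eq_zero_or_pos n with h0 | h0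
    · subst h0
      refine ⟨0, Nat.zero_lt_one, fun j _ hj => ?_, Or.inl rfl⟩
      have : j = 0 := by omega
      rw [this]; exact hQn
    · by_cases h1 : Q (n - 1)
      · obtain ⟨α, h2, h3, h4⟩ := ih h0 h1
        refine ⟨α, by omega, fun j hj hj2 => ?_, h4⟩
        rcases Nat.lt_or_ge j n with h5 | h5
        · exact h3 j hj h5
        · have : j = n := by omega
          rw [this]; exact hQn
      · refine ⟨n, Nat.lt_succ_self n, fun j hj hj2 => ?_, Or.inr ⟨h0, h1⟩⟩
        have : j = n := by omega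
        rw [this]; exact hQn

lemma cnt_step (W : ℕ → Prop) [DecidablePred W] (m : ℕ) :
    ((Finset.range (m + 1 - 1)).filter W).card =
      ((Finset.range (m - 1)).filter W).card + if 0 < m ∧ W (m - 1) then 1 else 0 := by
  cases m with
  | zero => simp
  | succ k =>
    simp only [Nat.add_sub_cancel, Finset.range_add_one, Finset.filter_insert]
    by_cases h : W k
    · rw [if_pos h, Finset.card_insert_of_notMem (by simp)]
      simp [h]
    · rw [if_neg h]
      simp [h]

lemma cnt_run (W : ℕ → Prop) [DecidablePred W] {s α : ℕ} (h : s ≤ α)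
    (hW : ∀ m, s ≤ m → m < α → ¬ (0 < m ∧ W (m - 1))) :
    ((Finset.range (α - 1)).filter W).card = ((Finset.range (s - 1)).filter W).card := by
  induction α, h using Nat.le_induction with
  | base => rfl
  | succ n hn ih =>
    rw [cnt_step W n, if_neg (hW n hn (Nat.lt_succ_self n)), Nat.add_zero]
    exact ih fun m h1 h2 => hW m h1 (by omega)

lemma xs_run (P : ℕ → Prop) [DecidablePred P] (x : ℕ → ℝ) {s α : ℕ} (h : s ≤ α)
    (hP : ∀ m, s ≤ m → m < α → P m) :
    (∑ j ∈ Finset.range α, if P j then 0 else x j) =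
      ∑ j ∈ Finset.range s, if P j then 0 else x j := by
  induction α, h using Nat.le_induction with
  | base => rfl
  | succ n hn ih =>
    rw [Finset.sum_range_succ, if_pos (hP n hn (Nat.lt_succ_self n)), add_zero]
    exact ih fun m h1 h2 => hP m h1 (by omega)

lemma xs_run' (P : ℕ → Prop) [DecidablePred P] (x : ℕ → ℝ) {α t : ℕ} (h : α ≤ t)
    (hP : ∀ m, α ≤ m → m < t → ¬ P m) :
    (∑ j ∈ Finset.range t, if P j then 0 else x j) =
      (∑ j ∈ Finset.range α, if P j then 0 else x j) + ∑ j ∈ Finset.Ico α t, x j := by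
  rw [← Finset.sum_range_add_sum_Ico _ h]
  congr 1
  apply Finset.sum_congr rfl
  intro j hj
  rw [Finset.mem_Ico] at hj
  rw [if_neg (hP j hj.1 hj.2)]

/-- The step. -/
lemma step_cnt (W : ℕ → Prop) [DecidablePred W] {s α t : ℕ} (hs : s < α) (ht : α < t)
    (h1 : ∀ m, s ≤ m → m < α → ¬ (0 < m ∧ W (m - 1)))
    (h2 : ∀ m, α + 1 ≤ m → m < t → ¬ (0 < m ∧ W (m - 1))) :
    ((Finset.range (t - 1)).filter W).card =
      ((Finset.range (s - 1)).filter W).card + if W (α - 1) then 1 else 0 := by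
  rw [cnt_run W (show α + 1 ≤ t from ht) h2, cnt_step W α, cnt_run W hs.le h1]
  have h0 : 0 < α := by omega
  simp [h0]

end TRPTC

open Classical in
/-- TR-PTC. The combinatorial part of the pattern bound (purely about sequences).

`P j`: the cell `j` is low; `x j`: the clock of the cell `j`; `Bd j`: the cell `j` is bad.
`R i t` dominates the chains of `i` stretches which end at time `t` (`hR`), a stretch is a maximal
run of cells which are not low. There is no run of `D` low cells (`hD`).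

Proof. For `t ≤ T` let `x(t) = ∑ j < t, ¬ P j, x j`, `n(t) = #{j + 1 < t, P j, ¬ P (j+1)}`,
`b(t)` the number of those `j` with `Bd j`.
Claim A(t), by strong induction on `t`: if `t = 0`, or `0 < t < T`, `¬ P (t-1)`, `P t`, then there
is `i ≤ n(t) + 1` (`i = 0` if `t = 0`) with `exp (c₁ x(t) + β b(t)) ≤ G₀ G^i R i t`.
Let `0 < t` and let `α ≤ t - 1` be the start of the run of non-low cells which contains `t - 1`.
* `α = 0`: `x(t) = ∑ j < t, x j`, `n(t) = b(t) = 0`, `hfirst` and `hR` with `i = s = α = 0` give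
  the claim with `i = 1`.
* `α > 0`: `P (α - 1)`. Let `s` be the start of the run of low cells which contains `α - 1`. By
  `hD`, `α ≤ s + D`. `s = 0`, or `¬ P (s-1)` and `P s` with `s < α < T`: A(s) holds. And
  `x(t) = x(s) + ∑ j in [α,t), x j`, `n(t) = n(s) + 1`, `b(t) = b(s) + [Bd (α-1)]`. `hmid` and
  `hR` (with `s < α`) give the claim for `i + 1`; `exp β ≤ 1 + ofReal (exp β)`, `1 ≤ 1 + ...`.
The conclusion: if `T = 0` take `i = t = 0`. If `P (T-1)`, let `s` be the start of the last run of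
low cells: `x(T) = x(s)`, `n(T) = n(s)`, `b(T) = b(s)`, use A(s). If `¬ P (T-1)`: the same step as
above with `hlast` in place of `hmid` (factor `G₀` twice in total) or, if all the cells are not
low, `hall`. (`1 ≤ G`, `1 ≤ G₀`.) -/
theorem pat_comb {T D : ℕ} (P : ℕ → Prop) (x : ℕ → ℝ) (Bd : ℕ → Prop) {c₁ β G G₀ : ℝ}
    (hβ : 0 ≤ β) (hG : 1 ≤ G) (hG₀ : 1 ≤ G₀) (Y R : ℕ → ℕ → ℝ≥0∞) (hR0 : 1 ≤ R 0 0)
    (hR : ∀ i s α t, s ≤ α → α ≤ s + D → α < t →
      R i s * (if s < α then 1 + (if Bd (α - 1) then ENNReal.ofReal (Real.exp β) else 0) else 1) *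
        Y α (t - α) ≤ R (i + 1) t)
    (hfirst : ∀ t, 0 < t → t < T → (∀ j < t, ¬ P j) → P t →
      ENNReal.ofReal (Real.exp (c₁ * ∑ j ∈ Finset.Ico 0 t, x j)) ≤ ENNReal.ofReal G₀ * Y 0 t)
    (hmid : ∀ α t, 0 < α → α < t → t < T → P (α - 1) → (∀ j, α ≤ j → j < t → ¬ P j) → P t →
      ENNReal.ofReal (Real.exp (c₁ * ∑ j ∈ Finset.Ico α t, x j)) ≤
        ENNReal.ofReal G * Y α (t - α))
    (hlast : ∀ α, 0 < α → α < T → P (α - 1) → (∀ j, α ≤ j → j < T → ¬ P j) →
      ENNReal.ofReal (Real.exp (c₁ * ∑ j ∈ Finset.Ico α T, x j)) ≤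
        ENNReal.ofReal G₀ * Y α (T - α))
    (hall : 0 < T → (∀ j < T, ¬ P j) →
      ENNReal.ofReal (Real.exp (c₁ * ∑ j ∈ Finset.Ico 0 T, x j)) ≤
        ENNReal.ofReal (G₀ ^ 2) * Y 0 T)
    (hD : ∀ s, s + D ≤ T → ∃ i < D, ¬ P (s + i)) :
    ∃ i t, t ≤ T ∧ i ≤ ((Finset.range (T - 1)).filter fun j => P j ∧ ¬ P (j + 1)).card + 1 ∧
      ENNReal.ofReal (Real.exp (c₁ * (∑ j ∈ Finset.range T, if P j then 0 else x j) +
        β * ((Finset.range (T - 1)).filter fun j => (P j ∧ ¬ P (j + 1)) ∧ Bd j).card)) ≤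
        ENNReal.ofReal (G₀ ^ 2 * G ^ i) * R i t := by
  set F : ℕ → ℝ≥0∞ := fun t =>
    ENNReal.ofReal (Real.exp (c₁ * (∑ j ∈ Finset.range t, if P j then 0 else x j) +
      β * ((Finset.range (t - 1)).filter fun j => (P j ∧ ¬ P (j + 1)) ∧ Bd j).card)) with hF
  set N : ℕ → ℕ := fun t =>
    ((Finset.range (t - 1)).filter fun j => P j ∧ ¬ P (j + 1)).card with hN
  have hG0' : 0 ≤ G₀ := le_trans zero_le_one hG₀
  have hG' : 0 ≤ G := le_trans zero_le_one hG
  have step : ∀ α t (H : ℝ), 0 ≤ H → 0 < α → α < t → t ≤ T → P (α - 1) →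
      (∀ j, α ≤ j → j < t → ¬ P j) →
      (∀ s, s < α → (s = 0 ∨ (0 < s ∧ s < T ∧ ¬ P (s - 1) ∧ P s)) →
        ∃ i, i ≤ N s + 1 ∧ F s ≤ ENNReal.ofReal (G₀ * G ^ i) * R i s) →
      ENNReal.ofReal (Real.exp (c₁ * ∑ j ∈ Finset.Ico α t, x j)) ≤
        ENNReal.ofReal H * Y α (t - α) →
      ∃ i, i + 1 ≤ N t + 1 ∧ F t ≤ ENNReal.ofReal (G₀ * G ^ i * H) * R (i + 1) t := by
    intro α t H hH h0 h1 htT hP hnP ih hY
    obtain ⟨s, hs, hrun, hs0⟩ := TRPTC.run_start P α h0 hP
    have hαs : α ≤ s + D := by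
      by_contra hcon
      obtain ⟨i, hi, hPi⟩ := hD s (by omega)
      exact hPi (hrun (s + i) (by omega) (by omega))
    obtain ⟨i, hi, hb⟩ := ih s hs (by
      rcases hs0 with h | ⟨h, h'⟩
      · exact Or.inl h
      · exact Or.inr ⟨h, by omega, h', hrun s le_rfl hs⟩)
    have hNt : N t = N s + 1 := by
      have := TRPTC.step_cnt (fun j => P j ∧ ¬ P (j + 1)) hs h1
        (fun m hm1 hm2 h => by
          have h3 := h.2.2
          rw [Nat.sub_add_cancel h.1] at h3
          exact h3 (hrun m hm1 hm2))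
        (fun m hm1 hm2 h => hnP (m - 1) (by omega) (by omega) h.2.1)
      rw [if_pos ⟨hP, by
        rw [Nat.sub_add_cancel h0]
        exact hnP α le_rfl h1⟩] at this
      exact this
    have hBt := TRPTC.step_cnt (fun j => (P j ∧ ¬ P (j + 1)) ∧ Bd j) hs h1
        (fun m hm1 hm2 h => by
          have h3 := h.2.1.2
          rw [Nat.sub_add_cancel h.1] at h3
          exact h3 (hrun m hm1 hm2))
        (fun m hm1 hm2 h => hnP (m - 1) (by omega) (by omega) h.2.1.1)
    have hXt := TRPTC.xs_run' P x h1.le hnP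
    rw [TRPTC.xs_run P x hs.le hrun] at hXt
    have hW : ((P (α - 1) ∧ ¬ P (α - 1 + 1)) ∧ Bd (α - 1)) ↔ Bd (α - 1) := by
      constructor
      · exact fun h => h.2
      · intro h
        refine ⟨⟨hP, ?_⟩, h⟩
        rw [Nat.sub_add_cancel h0]
        exact hnP α le_rfl h1
    refine ⟨i, by omega, ?_⟩
    have hFt : F t = F s * ENNReal.ofReal (Real.exp (c₁ * ∑ j ∈ Finset.Ico α t, x j)) *
        ENNReal.ofReal (Real.exp (β * (if Bd (α - 1) then 1 else 0))) := by
      simp only [hF]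
      rw [hXt, hBt, ← ENNReal.ofReal_mul (Real.exp_pos _).le,
        ← ENNReal.ofReal_mul (by positivity), ← Real.exp_add, ← Real.exp_add]
      congr 2
      push_cast
      by_cases hBd : Bd (α - 1)
      · rw [if_pos (hW.2 hBd), if_pos hBd]; ring
      · rw [if_neg (fun h => hBd (hW.1 h)), if_neg hBd]; ring
    have hw : ENNReal.ofReal (Real.exp (β * (if Bd (α - 1) then 1 else 0))) ≤
        (if s < α then 1 + (if Bd (α - 1) then ENNReal.ofReal (Real.exp β) else 0) else 1) := by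
      rw [if_pos hs]
      by_cases hBd : Bd (α - 1)
      · rw [if_pos hBd, if_pos hBd, mul_one]
        exact le_add_self
      · rw [if_neg hBd, if_neg hBd]
        simp
    rw [hFt]
    calc F s * ENNReal.ofReal (Real.exp (c₁ * ∑ j ∈ Finset.Ico α t, x j)) *
        ENNReal.ofReal (Real.exp (β * (if Bd (α - 1) then 1 else 0)))
        ≤ (ENNReal.ofReal (G₀ * G ^ i) * R i s) * (ENNReal.ofReal H * Y α (t - α)) *
          (if s < α then 1 + (if Bd (α - 1) then ENNReal.ofReal (Real.exp β) else 0) else 1) :=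
          mul_le_mul' (mul_le_mul' hb hY) hw
      _ = (ENNReal.ofReal (G₀ * G ^ i) * ENNReal.ofReal H) * (R i s *
          (if s < α then 1 + (if Bd (α - 1) then ENNReal.ofReal (Real.exp β) else 0) else 1) *
          Y α (t - α)) := by ring
      _ ≤ (ENNReal.ofReal (G₀ * G ^ i) * ENNReal.ofReal H) * R (i + 1) t :=
          mul_le_mul_right (hR i s α t hs.le hαs h1) _
      _ = _ := by rw [← ENNReal.ofReal_mul (by positivity)]
  have hstart : ∀ t, 0 < t → (∀ j < t, ¬ P j) → N t = 0 ∧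
      F t = ENNReal.ofReal (Real.exp (c₁ * ∑ j ∈ Finset.Ico 0 t, x j)) := by
    intro t ht hnP
    have h1 : N t = 0 := by
      simp only [hN]
      rw [Finset.card_eq_zero, Finset.filter_eq_empty_iff]
      intro j hj h
      rw [Finset.mem_range] at hj
      exact hnP j (by omega) h.1
    have h2 : ((Finset.range (t - 1)).filter
        fun j => (P j ∧ ¬ P (j + 1)) ∧ Bd j).card = 0 := by
      rw [Finset.card_eq_zero, Finset.filter_eq_empty_iff]
      intro j hj h
      rw [Finset.mem_range] at hj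
      exact hnP j (by omega) h.1.1
    refine ⟨h1, ?_⟩
    simp only [hF]
    rw [h2, TRPTC.xs_run' P x (Nat.zero_le t) (fun m _ hm => hnP m hm)]
    simp
  have hR1 : ∀ t, 0 < t → Y 0 t ≤ R 1 t := by
    intro t ht
    have h := hR 0 0 0 t le_rfl (Nat.zero_le _) ht
    rw [if_neg (lt_irrefl 0), mul_one, Nat.sub_zero] at h
    exact le_trans (le_trans (by rw [one_mul]) (mul_le_mul_left hR0 _)) h
  have hF0 : F 0 = 1 := by
    simp [hF]
  have key : ∀ t, (t = 0 ∨ (0 < t ∧ t < T ∧ ¬ P (t - 1) ∧ P t)) →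
      ∃ i, i ≤ N t + 1 ∧ F t ≤ ENNReal.ofReal (G₀ * G ^ i) * R i t := by
    intro t
    induction t using Nat.strong_induction_on with
    | _ t ih =>
    rintro (rfl | ⟨h0, hT, hnP, hP⟩)
    · refine ⟨0, Nat.zero_le _, ?_⟩
      rw [hF0, pow_zero, mul_one]
      calc (1 : ℝ≥0∞) = 1 * 1 := by rw [one_mul]
        _ ≤ ENNReal.ofReal G₀ * R 0 0 :=
          mul_le_mul' (by rw [← ENNReal.ofReal_one]; exact ENNReal.ofReal_le_ofReal hG₀) hR0
    · obtain ⟨α, hα, hrun, hα0⟩ := TRPTC.run_start (fun j => ¬ P j) t h0 hnP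
      rcases hα0 with h | ⟨h, h'⟩
      · subst h
        have h2 : ∀ j < t, ¬ P j := fun j hj => hrun j (Nat.zero_le _) hj
        obtain ⟨h3, h4⟩ := hstart t h0 h2
        refine ⟨1, by omega, ?_⟩
        rw [h4, pow_one]
        refine le_trans (hfirst t h0 hT h2 hP) ?_
        refine mul_le_mul' (ENNReal.ofReal_le_ofReal ?_) (hR1 t h0)
        exact le_mul_of_one_le_right hG0' hG
      · rw [not_not] at h'
        obtain ⟨i, hi, hb⟩ := step α t G hG' h hα hT.le h' hrun
          (fun s hs => ih s (by omega)) (hmid α t h hα hT h' hrun hP)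
        refine ⟨i + 1, hi, ?_⟩
        rw [pow_succ, ← mul_assoc]
        exact hb
  have hG2 : G₀ ≤ G₀ ^ 2 := by nlinarith
  change ∃ i t, t ≤ T ∧ i ≤ N T + 1 ∧ F T ≤ ENNReal.ofReal (G₀ ^ 2 * G ^ i) * R i t
  rcases Nat.eq_zero_or_pos T with hT0 | hT0
  · refine ⟨0, 0, Nat.zero_le _, Nat.zero_le _, ?_⟩
    rw [hT0, hF0, pow_zero, mul_one]
    calc (1 : ℝ≥0∞) = 1 * 1 := by rw [one_mul]
      _ ≤ ENNReal.ofReal (G₀ ^ 2) * R 0 0 :=
        mul_le_mul' (by
          rw [← ENNReal.ofReal_one]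
          exact ENNReal.ofReal_le_ofReal (le_trans hG₀ hG2)) hR0
  by_cases hPT : P (T - 1)
  · obtain ⟨s, hs, hrun, hs0⟩ := TRPTC.run_start P T hT0 hPT
    obtain ⟨i, hi, hb⟩ := key s (by
      rcases hs0 with h | ⟨h, h'⟩
      · exact Or.inl h
      · exact Or.inr ⟨h, by omega, h', hrun s le_rfl hs⟩)
    have hNt : N T = N s :=
      TRPTC.cnt_run (fun j => P j ∧ ¬ P (j + 1)) hs.le
        (fun m hm1 hm2 h => by
          have h3 := h.2.2
          rw [Nat.sub_add_cancel h.1] at h3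
          exact h3 (hrun m hm1 hm2))
    have hBt := TRPTC.cnt_run (fun j => (P j ∧ ¬ P (j + 1)) ∧ Bd j) hs.le
        (fun m hm1 hm2 h => by
          have h3 := h.2.1.2
          rw [Nat.sub_add_cancel h.1] at h3
          exact h3 (hrun m hm1 hm2))
    have hFT : F T = F s := by
      simp only [hF]
      rw [hBt, TRPTC.xs_run P x hs.le hrun]
    refine ⟨i, s, hs.le, by omega, ?_⟩
    rw [hFT]
    refine le_trans hb (mul_le_mul_left (ENNReal.ofReal_le_ofReal ?_) _)
    exact mul_le_mul_of_nonneg_right hG2 (by positivity)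
  · obtain ⟨α, hα, hrun, hα0⟩ := TRPTC.run_start (fun j => ¬ P j) T hT0 hPT
    rcases hα0 with h | ⟨h, h'⟩
    · subst h
      have h2 : ∀ j < T, ¬ P j := fun j hj => hrun j (Nat.zero_le _) hj
      obtain ⟨h3, h4⟩ := hstart T hT0 h2
      refine ⟨1, T, le_rfl, by omega, ?_⟩
      rw [h4, pow_one]
      refine le_trans (hall hT0 h2) ?_
      refine mul_le_mul' (ENNReal.ofReal_le_ofReal ?_) (hR1 T hT0)
      exact le_mul_of_one_le_right (by positivity) hG
    · rw [not_not] at h'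
      obtain ⟨i, hi, hb⟩ := step α T G₀ hG0' h hα le_rfl h' hrun
        (fun s hs => key s) (hlast α h hα h' hrun)
      refine ⟨i + 1, T, le_rfl, hi, ?_⟩
      refine le_trans hb (mul_le_mul_left (ENNReal.ofReal_le_ofReal ?_) _)
      have h5 : G ^ i ≤ G ^ (i + 1) := pow_le_pow_right₀ hG (Nat.le_succ i)
      calc G₀ * G ^ i * G₀ = G₀ ^ 2 * G ^ i := by ring
        _ ≤ G₀ ^ 2 * G ^ (i + 1) := mul_le_mul_of_nonneg_left h5 (by positivity)

end

end Pool.Agent.SLE
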