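import Pool.Agent.Lib.MP_c17912_pr_TR.STR
import Pool.Agent.Lib.MP_c17912_pr_TR.PTC
import Pool.Agent.Lib.MP_c17912_pr_TR.CHN
import Pool.Agent.Lib.MP_c17912_pr_TR.CRU

set_option autoImplicit false

open MeasureTheory ProbabilityTheory Filter
open scoped NNReal ENNReal Topology Real

namespace Pool.Agent.SLE

noncomputable section

variable {Ω : Type*} [MeasurableSpace Ω] {μ : Measure Ω}

namespace TRPAT

theorem cont_int {U : ℝ → ℂ} (hU : Continuous U) {z : ℂ} {T : ℝ} {g : ℝ → ℂ}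
    (hg : Sol U z T g) {s t : ℝ} (hs : 0 ≤ s) (hst : s ≤ t) (htT : t ≤ T) :
    IntervalIntegrable (fun u => 1 / ‖g u - U u‖ ^ 2) volume s t := by
  refine ContinuousOn.intervalIntegrable_of_Icc hst ?_
  have h1 : ContinuousOn g (Set.Icc s t) :=
    (FlowAux.contOn hg).mono (Set.Icc_subset_Icc hs htT)
  refine ContinuousOn.div continuousOn_const ((h1.sub hU.continuousOn).norm.pow 2) ?_
  intro u hu
  have h2 : g u - U u ≠ 0 := sub_ne_zero.2 (hg.2.1 u ⟨hs.trans hu.1, hu.2.trans htT⟩)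
  exact pow_ne_zero 2 (norm_ne_zero_iff.2 h2)

theorem lk_sum {U : ℝ → ℂ} (hU : Continuous U) {z : ℂ} {T : ℝ} {g : ℝ → ℂ}
    (hg : Sol U z T g) {α t : ℕ} (hαt : α ≤ t) (htT : (t : ℝ) ≤ T) :
    lk U g α t =
      ∑ j ∈ Finset.Ico α t, lk U g ((j : ℝ) * 1 ^ 2) (((j : ℝ) + 1) * 1 ^ 2) := by
  have h := intervalIntegral.sum_integral_adjacent_intervals_Ico
    (f := fun u => 1 / ‖g u - U u‖ ^ 2) (μ := volume) (a := fun k : ℕ => (k : ℝ)) hαt
    (fun k hk => ?_)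
  · unfold lk
    rw [← h]
    refine Finset.sum_congr rfl fun j _ => ?_
    rw [one_pow, mul_one, mul_one, Nat.cast_add, Nat.cast_one]
  · have hk' : k + 1 ≤ t := hk.2
    refine cont_int hU hg (Nat.cast_nonneg k) (by push_cast; linarith) (le_trans ?_ htT)
    exact_mod_cast hk'

theorem shift_eq (U g : ℝ → ℂ) (α : ℝ) {u : ℝ} (hu : 0 ≤ u) :
    (1 : ℝ)⁻¹ • (g (α + 1 ^ 2 * u) - U α) - psub U α 1 u = g (α + u) - U (α + u) := by
  unfold psub
  rw [max_eq_left hu, inv_one, one_smul, one_smul, one_pow, one_mul]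
  ring

theorem lk_shift (U g : ℝ → ℂ) {α t : ℝ} (hαt : α ≤ t) :
    lk (psub U α 1) (fun τ => (1 : ℝ)⁻¹ • (g (α + 1 ^ 2 * τ) - U α)) 0 (t - α) =
      lk U g α t := by
  unfold lk
  have h1 : ∫ u in (0 : ℝ)..(t - α),
      1 / ‖(1 : ℝ)⁻¹ • (g (α + 1 ^ 2 * u) - U α) - psub U α 1 u‖ ^ 2 =
      ∫ u in (0 : ℝ)..(t - α), (fun v => 1 / ‖g v - U v‖ ^ 2) (α + u) := by
    refine intervalIntegral.integral_congr fun u hu => ?_
    rw [Set.uIcc_of_le (by linarith)] at hu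
    simp only [shift_eq U g α hu.1]
  rw [h1, intervalIntegral.integral_comp_add_left (fun v => 1 / ‖g v - U v‖ ^ 2) α, add_zero]
  rw [add_sub_cancel]

theorem ge_one {U g : ℝ → ℂ} {α t : ℕ} (hαt : α < t)
    (hn : ∀ j, α ≤ j → j < t → ¬ low U g 1 j) :
    ∀ u ∈ Set.Icc (α : ℝ) t, 1 ≤ ‖g u - U u‖ := by
  intro u hu
  have key : ∀ j : ℕ, α ≤ j → j < t → (j : ℝ) ≤ u → u ≤ (j : ℝ) + 1 → 1 ≤ ‖g u - U u‖ := by
    intro j h1 h2 h3 h4
    by_contra h5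
    refine hn j h1 h2 ⟨u, ⟨?_, ?_⟩, (not_le.1 h5).le⟩
    · rwa [one_pow, mul_one]
    · rwa [one_pow, mul_one]
  have hu0 : 0 ≤ u := (Nat.cast_nonneg α).trans hu.1
  rcases lt_or_ge ⌊u⌋₊ t with h | h
  · exact key ⌊u⌋₊ (Nat.le_floor hu.1) h (Nat.floor_le hu0) (Nat.lt_floor_add_one u).le
  · have h1 : (t : ℝ) ≤ u := (Nat.cast_le.2 h).trans (Nat.floor_le hu0)
    have h2 : ((t - 1 : ℕ) : ℝ) = (t : ℝ) - 1 := by
      rw [Nat.cast_sub (by omega), Nat.cast_one]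
    refine key (t - 1) (by omega) (by omega) ?_ ?_
    · rw [h2]
      linarith
    · rw [h2]
      linarith [hu.2]

/-- the property of the functional of the stretch theorem -/
def StrP (C c₁ : ℝ) (p : ℕ) (W : ℝ → Ω → ℂ) (Y : ℕ → Ω → ℝ≥0∞) : Prop :=
  ∀ (ω : Ω) (t : ℕ) (z : ℂ) (g : ℝ → ℂ) (s e : ℝ), 1 ≤ t → 1 ≤ s → 1 ≤ e → ‖z‖ ≤ s →
    Sol (fun t => W t ω) z t g → (∀ u ∈ Set.Icc (0 : ℝ) t, 1 ≤ ‖g u - W u ω‖) →
    (∀ u ∈ Set.Icc ((t : ℝ) - 1) t, ‖g u - W u ω‖ ≤ e) →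
    ENNReal.ofReal (Real.exp (c₁ * lk (fun t => W t ω) g 0 t)) ≤
      ENNReal.ofReal (C * (s * e) ^ p) * Y t ω

omit [MeasurableSpace Ω] in
theorem app {C c₁ : ℝ} {p : ℕ} {W : ℝ → Ω → ℂ} {ω : Ω} (hU : Continuous fun t => W t ω)
    {α t : ℕ} {Y : ℕ → Ω → ℝ≥0∞} (hY : StrP C c₁ p (subP W α 1) Y)
    {z : ℂ} {T : ℕ} {g : ℝ → ℂ} (hg : Sol (fun t => W t ω) z T g) (hαt : α < t) (htT : t ≤ T)
    (hn : ∀ j, α ≤ j → j < t → ¬ low (fun t => W t ω) g 1 j) {s e B : ℝ} (hs : 1 ≤ s)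
    (he : 1 ≤ e) (hZα : ‖g α - W α ω‖ ≤ s)
    (hZt : ∀ u ∈ Set.Icc ((t : ℝ) - 1) t, ‖g u - W u ω‖ ≤ e) (hB : C * (s * e) ^ p ≤ B) :
    ENNReal.ofReal (Real.exp (c₁ * ∑ j ∈ Finset.Ico α t,
      lk (fun t => W t ω) g ((j : ℝ) * 1 ^ 2) (((j : ℝ) + 1) * 1 ^ 2))) ≤
        ENNReal.ofReal B * Y (t - α) ω := by
  have htT' : (t : ℝ) ≤ T := Nat.cast_le.2 htT
  have hαt' : (α : ℝ) ≤ t := (Nat.cast_lt.2 hαt).le
  have hα0 : (0 : ℝ) ≤ α := Nat.cast_nonneg α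
  have hc : ((t - α : ℕ) : ℝ) = (t : ℝ) - α := Nat.cast_sub hαt.le
  have hsol := (hg.restrict htT').shift hα0 hαt' one_pos
  rw [one_pow, div_one] at hsol
  have hge := ge_one hαt hn
  have hsh : ∀ u : ℝ, 0 ≤ u → (1 : ℝ)⁻¹ • (g (α + 1 ^ 2 * u) - W α ω) - subP W α 1 u ω =
      g (α + u) - W (α + u) ω := fun u hu => shift_eq (fun t => W t ω) g α hu
  have h1 := hY ω (t - α) ((1 : ℝ)⁻¹ • (g α - W α ω))
    (fun τ => (1 : ℝ)⁻¹ • (g (α + 1 ^ 2 * τ) - W α ω)) s e (by omega) hs he ?_ ?_ ?_ ?_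
  · rw [hc] at h1
    have h2 : lk (fun t => subP W α 1 t ω)
        (fun τ => (1 : ℝ)⁻¹ • (g (α + 1 ^ 2 * τ) - W α ω)) 0 ((t : ℝ) - α) =
        lk (fun t => W t ω) g α t := lk_shift (fun t => W t ω) g hαt'
    rw [h2, lk_sum hU hg hαt.le htT'] at h1
    refine h1.trans ?_
    gcongr
  · rwa [inv_one, one_smul]
  · rw [hc]
    rw [one_pow] at *
    exact hsol
  · intro u hu
    rw [hc] at hu
    rw [hsh u hu.1]
    exact hge _ ⟨by linarith [hu.1], by linarith [hu.2]⟩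
  · intro u hu
    rw [hc] at hu
    have h3 : (α : ℝ) + 1 ≤ t := by exact_mod_cast hαt
    rw [hsh u (by linarith [hu.1])]
    exact hZt _ ⟨by linarith [hu.1], by linarith [hu.2]⟩

/-- the bound at the end of a stretch -/
theorem endb {U : ℝ → ℂ} {z : ℂ} {T : ℕ} {m B : ℝ} {g : ℝ → ℂ} (hg : Sol U z T g) {t : ℕ}
    (ht : 1 ≤ t) (htT : t ≤ T) (hosc : Osc U 1 m T)
    (hn : ¬ low U g 1 (t - 1)) (hB : ‖g t - U t‖ ≤ B) :
    ∀ u ∈ Set.Icc ((t : ℝ) - 1) t, ‖g u - U u‖ ≤ B + 2 + m := by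
  intro u hu
  have hc : ((t - 1 : ℕ) : ℝ) = (t : ℝ) - 1 := by
    rw [Nat.cast_sub ht, Nat.cast_one]
  have ht1 : (1 : ℝ) ≤ t := by exact_mod_cast ht
  have htT' : (t : ℝ) ≤ T := Nat.cast_le.2 htT
  have hge : ∀ v ∈ Set.Icc ((t : ℝ) - 1) t, 1 ≤ ‖g v - U v‖ := by
    intro v hv
    by_contra h5
    refine hn ⟨v, ⟨?_, ?_⟩, (not_le.1 h5).le⟩
    · rw [one_pow, mul_one, hc]
      exact hv.1
    · rw [one_pow, mul_one, hc]
      linarith [hv.2]
  have h1 := cr_move one_pos hg (by linarith [hu.1] : 0 ≤ u) hu.2 htT'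
    (fun v hv => hge v ⟨hu.1.trans hv.1, hv.2⟩)
  have h2 : ‖U t - U u‖ ≤ m := by
    refine hosc (t - 1) (by omega) t ?_ u ?_
    · rw [one_pow, mul_one, mul_one, hc]
      constructor <;> linarith
    · rw [one_pow, mul_one, mul_one, hc]
      exact ⟨hu.1, by linarith [hu.2]⟩
  have h3 : ‖g u - U u‖ ≤ ‖g t - U t‖ + ‖(g t - U t) - (g u - U u)‖ := by
    have := norm_sub_norm_le (g u - U u) (g t - U t)
    rw [norm_sub_rev (g u - U u)] at this
    linarith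
  have h4 : 2 / 1 * ((t : ℝ) - u) ≤ 2 := by linarith [hu.1]
  linarith

/-- the bound in a low cell -/
theorem lowb {U : ℝ → ℂ} (hU : Continuous U) {z : ℂ} {T : ℕ} {m : ℝ} {g : ℝ → ℂ}
    (hg : Sol U z T g) {j : ℕ} (hj : j < T) (hosc : Osc U 1 m T) (hl : low U g 1 j) :
    ‖g j - U j‖ ≤ m + 3 ∧ ‖g ((j : ℝ) + 1) - U ((j : ℝ) + 1)‖ ≤ m + 3 := by
  have hj0 : (0 : ℝ) ≤ j := Nat.cast_nonneg j
  have hjT : (j : ℝ) + 1 ≤ T := by exact_mod_cast hj
  have h1 := hosc j hj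
  unfold low at hl
  rw [one_pow, mul_one, mul_one] at h1 hl
  have h2 := cr_low hU hg hj0 (by linarith) le_rfl hjT h1 hl
  exact ⟨h2 _ ⟨le_rfl, by linarith⟩, h2 _ ⟨by linarith, le_rfl⟩⟩

end TRPAT

open Classical in
/-- TR-PAT. The pattern bound (at the scale `r = 1`): outside an event of probability `exp (-v)`,
for all solutions without a run of `D` low cells, the clock spent in the cells which are not low
plus `β` times the number of bad transitions is at most a constant times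
`(number of transitions + 1) * log (m D)` plus `log m₀` plus `v`.

Proof. Let `Cs c₁ p` be the constants of `stretch`. For every `α : ℕ` apply `stretch` to
`subP W α 1` (`Drv.sub`); this gives `Ys α t`, measurable for `Blk (subP W α 1) 0 t ≤
Blk W α (α + t)` (`Blk_sub_le` with `r = 1`). `chain` gives the event `A` (with `β, v, D, Bd`).
Let `ω ∉ A`, `T, z, g` as in the statement, `R` from `chain`. Apply `pat_comb` with
`P j = low U g 1 j`, `x j = lk U g j (j+1)`, `Bd j = (ω ∈ Bd j)`, `Y α t = Ys α t ω`,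
`G = Cs * ((m+3) * (2 m + 5)) ^ p`, `G₀ = Cs * (10 m₀) ^ (2 p)`.
The stretch hypotheses: for `α < t ≤ T` with all cells in `[α,t)` not low, `Sol.shift` (at time
`α`, `r = 1`) gives a solution of the shifted equation on `[0,t-α]` with `|Z| ≥ 1`, started at
`Z_α`, and `lk` of it is `lk U g α t = ∑ j in [α,t), lk U g j (j+1)`.
Start: `|Z_α| ≤ m + 3` if `0 < α`, `P (α-1)` (`cr_low` on the cell `α - 1`), `|Z_0| = ‖z‖ ≤ m₀` if
`α = 0`. End: if `t < T` and `P t` then `|Z_t| ≤ m + 3` (`cr_low` on the cell `t`), and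
`|Z_u| ≤ |Z_t| + 2 + m ≤ 2 m + 5` on `[t-1,t]` (`cr_move`); if `t = T` then
`|Z_u| ≤ m₀ + 2 + m ≤ 4 m₀` (`1 ≤ m ≤ m₀`). All products of start and end bounds are at most
`(10 m₀)^2`. The conclusion of `pat_comb`, `R i t ≤ ofReal (2 exp v (4 (D+1)) ^ i)` and
`i ≤ NN + 1` give `c₁ XX + β # ≤ log (G₀^2 G^i 2 exp v (4 (D+1))^i)`; take logarithms
(`log (4 (D+1)) ≤ log 8 + log D`, `log G ≤ C (log m + 1)`, `log G₀ ≤ C (log m₀ + 1)`). -/
theorem pattern [IsProbabilityMeasure μ] {a b c K : ℝ} (ha : 0 ≤ a) (hb : 0 ≤ b) (hK : 0 ≤ K)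
    (hS : HasS a b c) :
    ∃ C c₁ : ℝ, 1 ≤ C ∧ 0 < c₁ ∧ ∀ W : ℝ → Ω → ℂ, Drv a b c K W μ →
      ∀ (m m₀ β v : ℝ) (D : ℕ) (Bd : ℕ → Set Ω), 1 ≤ m → m ≤ m₀ → 1 ≤ D → 0 ≤ β →
        (∀ j : ℕ, MeasurableSet[Blk W j ((j : ℝ) + 1)] (Bd j)) →
        (∀ j, μ (Bd j) ≤ ENNReal.ofReal (Real.exp (-β))) →
        ∃ A, MeasurableSet A ∧ μ A ≤ ENNReal.ofReal (Real.exp (-v)) ∧
          ∀ ω ∉ A, ∀ (T : ℕ) (z : ℂ) (g : ℝ → ℂ), ‖z‖ ≤ m₀ → Sol (fun t => W t ω) z T g →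
            ‖g T - W T ω‖ ≤ m₀ → Osc (fun t => W t ω) 1 m T →
            (∀ s, s + D ≤ T → ¬ rider (fun t => W t ω) g 1 s D) →
            c₁ * XX (fun t => W t ω) g 1 T +
              β * ((Finset.range (T - 1)).filter fun j =>
                tr (fun t => W t ω) g 1 j ∧ ω ∈ Bd j).card ≤
              (NN (fun t => W t ω) g 1 T + 1) * (C * (Real.log m + Real.log D + 1)) +
                C * (Real.log m₀ + 1) + v := by
  obtain ⟨Cs, c₁, p, hCs, hc₁, hst⟩ := stretch (μ := μ) ha hb hK hS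
  have l1 : 0 ≤ Real.log Cs := Real.log_nonneg hCs
  have l2 : 0 ≤ Real.log 28 := Real.log_nonneg (by norm_num)
  have l3 : 0 ≤ Real.log 10 := Real.log_nonneg (by norm_num)
  have l4 : 0 ≤ Real.log 8 := Real.log_nonneg (by norm_num)
  have l5 : 0 ≤ Real.log 2 := Real.log_nonneg (by norm_num)
  have hp0 : (0 : ℝ) ≤ p := Nat.cast_nonneg p
  obtain ⟨C, hC⟩ : ∃ C, C = 1 + 3 * Real.log Cs +
    p * (Real.log 28 + 6 + 4 * Real.log 10) + Real.log 8 + Real.log 2 := ⟨_, rfl⟩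
  have l6 : 0 ≤ p * Real.log 28 := mul_nonneg hp0 l2
  have l7 : 0 ≤ p * Real.log 10 := mul_nonneg hp0 l3
  have hC' : C = 1 + 3 * Real.log Cs + p * Real.log 28 + 6 * p + 4 * (p * Real.log 10) +
    Real.log 8 + Real.log 2 := by
    rw [hC]
    ring
  refine ⟨C, c₁, by rw [hC']; linarith, hc₁, ?_⟩
  intro W hW m m₀ β v D Bd hm hm₀ hD hβ hBm hBp
  have hYs : ∀ α : ℕ, ∃ Y : ℕ → Ω → ℝ≥0∞, (∀ t : ℕ, Measurable[Blk W α ((α : ℝ) + t)] (Y t)) ∧
      (∀ N : ℕ, ∑ t ∈ Finset.range N, ∫⁻ ω, Y (t + 1) ω ∂μ ≤ 1) ∧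
      TRPAT.StrP Cs c₁ p (subP W α 1) Y := by
    intro α
    obtain ⟨Y, h1, h2, h3⟩ := hst (subP W α 1) (hW.sub (Nat.cast_nonneg α) one_pos)
    refine ⟨Y, fun t => ?_, h2, h3⟩
    have h4 := Blk_sub_le (W := W) (Nat.cast_nonneg (α := ℝ) α) one_pos (t : ℝ)
    rw [one_pow, one_mul] at h4
    exact (h1 t).mono h4 le_rfl
  choose Ys hYm hYs hYp using hYs
  obtain ⟨A, hAm, hAp, hA⟩ := chain hW D hβ v Ys hYm hYs Bd hBm hBp
  refine ⟨A, hAm, hAp, fun ω hω T z g hz hg hgT hosc hrid => ?_⟩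
  obtain ⟨R, hR0, hR, hRb⟩ := hA ω hω
  have hU : Continuous fun t => W t ω := hW.cont ω
  have hm0 : 0 < m := by linarith
  have hm₀0 : 0 < m₀ := by linarith
  have hm₀1 : 1 ≤ m₀ := by linarith
  have hCs0 : 0 < Cs := by linarith
  obtain ⟨G, hG⟩ : ∃ G, G = Cs * ((m + 3) * (2 * m + 5)) ^ p := ⟨_, rfl⟩
  obtain ⟨G₀, hG₀⟩ : ∃ G₀, G₀ = Cs * ((10 * m₀) ^ 2) ^ p := ⟨_, rfl⟩
  have hG1 : 1 ≤ G := by
    rw [hG]
    refine one_le_mul_of_one_le_of_one_le hCs (one_le_pow₀ ?_)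
    nlinarith
  have hG₀1 : 1 ≤ G₀ := by
    rw [hG₀]
    refine one_le_mul_of_one_le_of_one_le hCs (one_le_pow₀ ?_)
    nlinarith
  have hpow : ∀ s e : ℝ, 0 ≤ s → 0 ≤ e → s * e ≤ (10 * m₀) ^ 2 → Cs * (s * e) ^ p ≤ G₀ := by
    intro s e hs he h
    rw [hG₀]
    exact mul_le_mul_of_nonneg_left (pow_le_pow_left₀ (mul_nonneg hs he) h p) hCs0.le
  have hZ0 : ‖g ((0 : ℕ) : ℝ) - W ((0 : ℕ) : ℝ) ω‖ ≤ m₀ := by
    rw [Nat.cast_zero, hW.zero 0 le_rfl ω, sub_zero, hg.1]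
    exact hz
  have hlowst : ∀ α : ℕ, 0 < α → α ≤ T → low (fun t => W t ω) g 1 (α - 1) →
      ‖g α - W α ω‖ ≤ m + 3 := by
    intro α hα hαT hl
    have h1 := (TRPAT.lowb hU hg (j := α - 1) (by omega) hosc hl).2
    have h2 : ((α - 1 : ℕ) : ℝ) + 1 = α := by
      rw [Nat.cast_sub (by omega), Nat.cast_one]
      ring
    rwa [h2] at h1
  have hend : ∀ t : ℕ, 0 < t → t < T → ¬ low (fun t => W t ω) g 1 (t - 1) →
      low (fun t => W t ω) g 1 t →
      ∀ u ∈ Set.Icc ((t : ℝ) - 1) t, ‖g u - W u ω‖ ≤ 2 * m + 5 := by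
    intro t ht htT h1 h2 u hu
    have h3 := TRPAT.endb hg ht htT.le hosc h1 (TRPAT.lowb hU hg htT hosc h2).1 u hu
    linarith
  have hendT : ¬ low (fun t => W t ω) g 1 (T - 1) → 0 < T →
      ∀ u ∈ Set.Icc ((T : ℝ) - 1) T, ‖g u - W u ω‖ ≤ 4 * m₀ := by
    intro h1 hT u hu
    have h3 := TRPAT.endb hg hT le_rfl hosc h1 hgT u hu
    linarith
  have hfirst : ∀ t, 0 < t → t < T → (∀ j < t, ¬ low (fun t => W t ω) g 1 j) →
      low (fun t => W t ω) g 1 t →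
      ENNReal.ofReal (Real.exp (c₁ * ∑ j ∈ Finset.Ico 0 t,
        lk (fun t => W t ω) g ((j : ℝ) * 1 ^ 2) (((j : ℝ) + 1) * 1 ^ 2))) ≤
        ENNReal.ofReal G₀ * Ys 0 t ω := by
    intro t ht htT h1 h2
    refine TRPAT.app hU (hYp 0) hg ht htT.le (fun j _ h => h1 j h) hm₀1 (by linarith) hZ0
      (hend t ht htT (h1 _ (by omega)) h2) (hpow _ _ hm₀0.le (by linarith) ?_)
    nlinarith
  have hmid : ∀ α t, 0 < α → α < t → t < T → low (fun t => W t ω) g 1 (α - 1) →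
      (∀ j, α ≤ j → j < t → ¬ low (fun t => W t ω) g 1 j) → low (fun t => W t ω) g 1 t →
      ENNReal.ofReal (Real.exp (c₁ * ∑ j ∈ Finset.Ico α t,
        lk (fun t => W t ω) g ((j : ℝ) * 1 ^ 2) (((j : ℝ) + 1) * 1 ^ 2))) ≤
        ENNReal.ofReal G * Ys α (t - α) ω := by
    intro α t hα hαt htT h1 h2 h3
    exact TRPAT.app hU (hYp α) hg hαt htT.le h2 (by linarith) (by linarith)
      (hlowst α hα (by omega) h1) (hend t (by omega) htT (h2 _ (by omega) (by omega)) h3)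
      (le_of_eq hG.symm)
  have hlast : ∀ α, 0 < α → α < T → low (fun t => W t ω) g 1 (α - 1) →
      (∀ j, α ≤ j → j < T → ¬ low (fun t => W t ω) g 1 j) →
      ENNReal.ofReal (Real.exp (c₁ * ∑ j ∈ Finset.Ico α T,
        lk (fun t => W t ω) g ((j : ℝ) * 1 ^ 2) (((j : ℝ) + 1) * 1 ^ 2))) ≤
        ENNReal.ofReal G₀ * Ys α (T - α) ω := by
    intro α hα hαT h1 h2
    refine TRPAT.app hU (hYp α) hg hαT le_rfl h2 (by linarith) (by linarith)
      (hlowst α hα hαT.le h1) (hendT (h2 _ (by omega) (by omega)) (by omega))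
      (hpow _ _ (by linarith) (by linarith) ?_)
    nlinarith
  have hall : 0 < T → (∀ j < T, ¬ low (fun t => W t ω) g 1 j) →
      ENNReal.ofReal (Real.exp (c₁ * ∑ j ∈ Finset.Ico 0 T,
        lk (fun t => W t ω) g ((j : ℝ) * 1 ^ 2) (((j : ℝ) + 1) * 1 ^ 2))) ≤
        ENNReal.ofReal (G₀ ^ 2) * Ys 0 T ω := by
    intro hT h1
    have h2 : G₀ ≤ G₀ ^ 2 := le_self_pow₀ hG₀1 two_ne_zero
    refine TRPAT.app hU (hYp 0) hg hT le_rfl (fun j _ h => h1 j h) hm₀1 (by linarith) hZ0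
      (hendT (h1 _ (by omega)) hT) ((hpow _ _ hm₀0.le (by linarith) ?_).trans h2)
    nlinarith
  have hDD : ∀ s, s + D ≤ T → ∃ i < D, ¬ low (fun t => W t ω) g 1 (s + i) := by
    intro s hs
    have h1 := hrid s hs
    unfold rider at h1
    push Not at h1
    exact h1
  obtain ⟨i, t, htT, hi, hfin⟩ := pat_comb (T := T) (D := D)
    (fun j => low (fun t => W t ω) g 1 j)
    (fun j => lk (fun t => W t ω) g ((j : ℝ) * 1 ^ 2) (((j : ℝ) + 1) * 1 ^ 2))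
    (fun j => ω ∈ Bd j) (c₁ := c₁) hβ hG1 hG₀1 (fun α t => Ys α t ω) R hR0 hR hfirst hmid hlast
    hall hDD
  have hfin2 := hfin.trans (mul_le_mul_right (hRb i t) _)
  have hG0 : 0 < G := by linarith
  have hG₀0 : 0 < G₀ := by linarith
  have hD1 : (1 : ℝ) ≤ D := by exact_mod_cast hD
  have hD0 : (0 : ℝ) < 4 * ((D : ℝ) + 1) := by positivity
  have hP1 : 0 < G₀ ^ 2 * G ^ i := by positivity
  have hP2 : 0 < 2 * Real.exp v * (4 * ((D : ℝ) + 1)) ^ i := by positivity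
  rw [← ENNReal.ofReal_mul hP1.le, ENNReal.ofReal_le_ofReal_iff (mul_pos hP1 hP2).le] at hfin2
  have hlog := Real.log_le_log (Real.exp_pos _) hfin2
  rw [Real.log_exp, Real.log_mul hP1.ne' hP2.ne', Real.log_mul (by positivity) (by positivity),
    Real.log_mul (by positivity) (by positivity), Real.log_mul (by norm_num) (Real.exp_ne_zero _),
    Real.log_exp, Real.log_pow, Real.log_pow, Real.log_pow] at hlog
  have d1 : NN (fun t => W t ω) g 1 T = ((Finset.range (T - 1)).filter fun j =>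
      low (fun t => W t ω) g 1 j ∧ ¬ low (fun t => W t ω) g 1 (j + 1)).card := by
    unfold NN
    exact congrArg Finset.card (Finset.filter_congr fun j _ => Iff.rfl)
  have d2 : ((Finset.range (T - 1)).filter fun j =>
      tr (fun t => W t ω) g 1 j ∧ ω ∈ Bd j).card = ((Finset.range (T - 1)).filter fun j =>
      (low (fun t => W t ω) g 1 j ∧ ¬ low (fun t => W t ω) g 1 (j + 1)) ∧ ω ∈ Bd j).card :=
    congrArg Finset.card (Finset.filter_congr fun j _ => Iff.rfl)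
  have hNN : (i : ℝ) ≤ NN (fun t => W t ω) g 1 T + 1 := by
    rw [← d1] at hi
    exact_mod_cast hi
  have hL : c₁ * XX (fun t => W t ω) g 1 T +
      β * ((Finset.range (T - 1)).filter fun j =>
        tr (fun t => W t ω) g 1 j ∧ ω ∈ Bd j).card ≤
      (2 : ℕ) * Real.log G₀ + i * Real.log G +
        (Real.log 2 + v + i * Real.log (4 * ((D : ℝ) + 1))) := by
    rw [d2]
    exact hlog
  have e1 : Real.log G ≤ Real.log Cs + p * (Real.log 28 + 2 * Real.log m) := by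
    have h1 : G ≤ Cs * (28 * m ^ 2) ^ p := by
      rw [hG]
      refine mul_le_mul_of_nonneg_left (pow_le_pow_left₀ (by positivity) ?_ p) hCs0.le
      nlinarith
    refine (Real.log_le_log hG0 h1).trans_eq ?_
    rw [Real.log_mul (by positivity) (by positivity), Real.log_pow,
      Real.log_mul (by norm_num) (by positivity), Real.log_pow]
    norm_num
  have e2 : Real.log G₀ = Real.log Cs + p * (2 * (Real.log 10 + Real.log m₀)) := by
    rw [hG₀, Real.log_mul (by positivity) (by positivity), Real.log_pow, Real.log_pow,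
      Real.log_mul (by norm_num) (by positivity)]
    norm_num
  have e3 : Real.log (4 * ((D : ℝ) + 1)) ≤ Real.log 8 + Real.log D := by
    rw [← Real.log_mul (by norm_num) (by positivity)]
    exact Real.log_le_log hD0 (by linarith)
  have lm : 0 ≤ Real.log m := Real.log_nonneg hm
  have lm₀ : 0 ≤ Real.log m₀ := Real.log_nonneg hm₀1
  have lD : 0 ≤ Real.log D := Real.log_nonneg hD1
  have lG : 0 ≤ Real.log G := Real.log_nonneg hG1
  have lDD : 0 ≤ Real.log (4 * ((D : ℝ) + 1)) := Real.log_nonneg (by linarith)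
  have k1 : (i : ℝ) * (Real.log G + Real.log (4 * ((D : ℝ) + 1))) ≤
      (NN (fun t => W t ω) g 1 T + 1) * (C * (Real.log m + Real.log D + 1)) := by
    refine mul_le_mul hNN ?_ (by positivity) (by positivity)
    have k2 : 2 * p * Real.log m ≤ C * Real.log m :=
      mul_le_mul_of_nonneg_right (by rw [hC']; linarith) lm
    have k3 : 1 * Real.log D ≤ C * Real.log D :=
      mul_le_mul_of_nonneg_right (by rw [hC']; linarith) lD
    have k4 : Real.log Cs + p * Real.log 28 + Real.log 8 ≤ C := by rw [hC']; linarith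
    linarith
  have k5 : 2 * Real.log G₀ + Real.log 2 ≤ C * (Real.log m₀ + 1) := by
    have k6 : 4 * p * Real.log m₀ ≤ C * Real.log m₀ :=
      mul_le_mul_of_nonneg_right (by rw [hC']; linarith) lm₀
    have k7 : 2 * Real.log Cs + 4 * (p * Real.log 10) + Real.log 2 ≤ C := by
      rw [hC']
      linarith
    rw [e2]
    linarith
  push_cast at hL
  linarith

end

end Pool.Agent.SLE
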