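import Pool.Agent.Lib.MP_c17912_pr_TR.CRU

set_option autoImplicit false

open MeasureTheory ProbabilityTheory Filter
open scoped NNReal ENNReal Topology Real

namespace Pool.Agent.SLE

noncomputable section

namespace TRSRI

lemma sum_block (f : ℕ → ℝ) (M n : ℕ) :
    ∑ j ∈ Finset.range (n * M), f j =
      ∑ i ∈ Finset.range n, ∑ j ∈ Finset.range M, f (i * M + j) := by
  induction n with
  | zero => simp
  | succ n ih => rw [Nat.succ_mul, Finset.sum_range_add, ih, Finset.sum_range_succ]

lemma rr_sq (m : ℕ) : (4 ^ m : ℝ) * rr m ^ 2 = 1 := by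
  unfold rr
  rw [← pow_mul, mul_comm m 2, pow_mul, ← mul_pow]
  norm_num

lemma lk_lower {U : ℝ → ℂ} (hU : Continuous U) {z : ℂ} {g : ℝ → ℂ} {T y s t : ℝ}
    (hg : Sol U z T g) (hs : 0 ≤ s) (hst : s ≤ t) (htT : t ≤ T)
    (h : ∀ u ∈ Set.Icc s t, ‖g u - U u‖ ≤ y) : (t - s) / y ^ 2 ≤ lk U g s t := by
  unfold lk
  have hpos : ∀ u ∈ Set.Icc s t, 0 < ‖g u - U u‖ := fun u hu =>
    norm_pos_iff.2 (sub_ne_zero.2 (hg.2.1 u ⟨hs.trans hu.1, hu.2.trans htT⟩))
  have hcont : ContinuousOn (fun u => 1 / ‖g u - U u‖ ^ 2) (Set.Icc s t) := by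
    have hgc : ContinuousOn g (Set.Icc s t) := fun u hu =>
      ((hg.2.2 u ⟨hs.trans hu.1, hu.2.trans htT⟩).continuousWithinAt).mono
        (Set.Icc_subset_Icc hs htT)
    refine ContinuousOn.div continuousOn_const ((hgc.sub hU.continuousOn).norm.pow 2) ?_
    intro u hu
    have h2 := hpos u hu
    positivity
  have h1 : ∫ _u in s..t, (1 / y ^ 2 : ℝ) ≤ ∫ u in s..t, 1 / ‖g u - U u‖ ^ 2 := by
    apply intervalIntegral.integral_mono_on hst
    · exact intervalIntegrable_const
    · exact hcont.intervalIntegrable_of_Icc hst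
    · intro u hu
      have h2 := hpos u hu
      apply one_div_le_one_div_of_le (by positivity)
      exact pow_le_pow_left₀ (norm_nonneg _) (h u hu) 2
  rw [intervalIntegral.integral_const, smul_eq_mul] at h1
  calc (t - s) / y ^ 2 = (t - s) * (1 / y ^ 2) := by ring
    _ ≤ _ := h1

lemma lk_nonneg {U g : ℝ → ℂ} {s t : ℝ} (hst : s ≤ t) : 0 ≤ lk U g s t := by
  unfold lk
  apply intervalIntegral.integral_nonneg hst
  intro u _
  positivity

/-- A transition after a low cell which does not start a run of `D` low cells. -/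
lemma find_tr {U g : ℝ → ℂ} {r : ℝ} {J D : ℕ} (hJ : low U g r J) (hn : ¬ rider U g r J D) :
    ∃ J', J ≤ J' ∧ J' + 1 < J + D ∧ tr U g r J' := by
  classical
  have hex : ∃ i, i < D ∧ ¬ low U g r (J + i) := by
    unfold rider at hn
    push Not at hn
    exact hn
  have h1 := Nat.find_spec hex
  have h2 : ∀ {i}, i < Nat.find hex → ¬ (i < D ∧ ¬ low U g r (J + i)) :=
    fun hi => Nat.find_min hex hi
  set i := Nat.find hex with hi
  have hpos : i ≠ 0 := by
    intro h0
    rw [h0] at h1
    exact h1.2 hJ
  obtain ⟨k, hk⟩ := Nat.exists_eq_succ_of_ne_zero hpos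
  refine ⟨J + k, by omega, by omega, ?_, ?_⟩
  · have h3 := h2 (i := k) (by omega)
    by_contra h4
    exact h3 ⟨by omega, h4⟩
  · have h5 := h1.2
    rw [hk] at h5
    exact h5

end TRSRI

/-- TR-SRI. The start for a rider: a solution which is low in each of the `n` unit cells, and has
no run of `D` low cells at the scale `rr m` (`4 D ≤ 4^m`), has many transitions or a large clock
at the scale `rr m`.

Proof. `x ≥ 0` may be assumed (`n ≥ 1` and `Osc`). Call a unit cell `i < n` of type (a) if none
of its `4^m` subcells (`i 4^m + j`, `j < 4^m`) is low at the scale `rr m`. On a cell of type (a)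
`|Z| ≤ x + 3` (`cr_low`), so its subcells contribute `∫ 1 / |Z|^2 ≥ 1 / (x + 3)^2` to `XX`. If at
least `n / 2` cells are of type (a) the second alternative holds. Otherwise at least `n / 2` cells
are of type (b): they contain a low subcell. Let `i < n - 1` be of type (b) and `j` a low subcell
of it; since there is no run of `D` low cells and `4 D ≤ 4^m`, there is a transition `j'` with
`j ≤ j' < j + D`, in the cell `i` or `i + 1` (`j' + 1 < n 4^m`). Each transition is obtained
from at most two cells `i`, so `NN ≥ (n / 2 - 1) / 2`. -/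
theorem start_rider {U : ℝ → ℂ} (hU : Continuous U) {z : ℂ} {g : ℝ → ℂ} {n m D : ℕ} {x : ℝ}
    (hn : 1 ≤ n) (hg : Sol U z n g) (hrid : rider U g 1 0 n) (hosc : Osc U 1 x n)
    (hD1 : 1 ≤ D) (hD : 4 * D ≤ 4 ^ m)
    (hno : ∀ s, s + D ≤ n * 4 ^ m → ¬ rider U g (rr m) s D) :
    (n : ℝ) / 4 - 1 ≤ NN U g (rr m) (n * 4 ^ m) ∨
      (n : ℝ) / 2 / (x + 3) ^ 2 ≤ XX U g (rr m) (n * 4 ^ m) := by
  classical
  set M : ℕ := 4 ^ m with hM
  have hMpos : 1 ≤ M := Nat.one_le_iff_ne_zero.2 (by positivity)
  have hMr : (M : ℝ) * rr m ^ 2 = 1 := by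
    rw [hM]
    push_cast
    exact TRSRI.rr_sq m
  have hr2 : 0 < rr m ^ 2 := by
    unfold rr
    positivity
  have hx : 0 ≤ x := by
    have h := hosc 0 hn 0 (by simp) 0 (by simp)
    simpa using h
  -- the bound on a unit cell
  have hcell : ∀ i < n, ∀ u ∈ Set.Icc (i : ℝ) ((i : ℝ) + 1), ‖g u - U u‖ ≤ x + 3 := by
    intro i hi
    have hin : ((i : ℝ) + 1) ≤ n := by exact_mod_cast hi
    have h1 : ((i : ℝ) * 1 ^ 2) = i := by ring
    have h2 : (((i : ℝ) + 1) * 1 ^ 2) = (i : ℝ) + 1 := by ring
    refine cr_low hU hg (Nat.cast_nonneg i) (by linarith) le_rfl hin ?_ ?_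
    · have h3 := hosc i hi
      rw [h1, h2] at h3
      exact h3
    · have h3 := hrid i hi
      unfold low at h3
      rw [zero_add, h1, h2] at h3
      exact h3
  set A := (Finset.range n).filter fun i => ¬ ∃ j < M, low U g (rr m) (i * M + j) with hA
  set B := (Finset.range n).filter fun i => ∃ j < M, low U g (rr m) (i * M + j) with hB
  have hAB : B.card + A.card = n := by
    have h := Finset.card_filter_add_card_filter_not (s := Finset.range n)
      (fun i => ∃ j < M, low U g (rr m) (i * M + j))
    rw [Finset.card_range] at h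
    exact h
  by_cases hcase : (n : ℝ) / 2 ≤ A.card
  · right
    have hf : ∀ k : ℕ, 0 ≤ (if low U g (rr m) k then (0 : ℝ) else
        lk U g ((k : ℝ) * rr m ^ 2) (((k : ℝ) + 1) * rr m ^ 2)) := by
      intro k
      split_ifs
      · exact le_rfl
      · exact TRSRI.lk_nonneg (mul_le_mul_of_nonneg_right (by linarith) hr2.le)
    unfold XX
    rw [TRSRI.sum_block]
    calc (n : ℝ) / 2 / (x + 3) ^ 2 ≤ (A.card : ℝ) / (x + 3) ^ 2 := by gcongr
      _ = ∑ _i ∈ A, (1 / (x + 3) ^ 2 : ℝ) := by
          rw [Finset.sum_const, nsmul_eq_mul]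
          ring
      _ ≤ ∑ i ∈ A, ∑ j ∈ Finset.range M, (if low U g (rr m) (i * M + j) then (0 : ℝ) else
            lk U g (((i * M + j : ℕ) : ℝ) * rr m ^ 2)
              ((((i * M + j : ℕ) : ℝ) + 1) * rr m ^ 2)) := by
          apply Finset.sum_le_sum
          intro i hi
          rw [hA, Finset.mem_filter, Finset.mem_range] at hi
          obtain ⟨hin, hno'⟩ := hi
          have h1 : ∀ j ∈ Finset.range M, rr m ^ 2 / (x + 3) ^ 2 ≤
              (if low U g (rr m) (i * M + j) then (0 : ℝ) else
              lk U g (((i * M + j : ℕ) : ℝ) * rr m ^ 2)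
                ((((i * M + j : ℕ) : ℝ) + 1) * rr m ^ 2)) := by
            intro j hj
            rw [Finset.mem_range] at hj
            have hnl : ¬ low U g (rr m) (i * M + j) := fun h => hno' ⟨j, hj, h⟩
            rw [if_neg hnl]
            have hin' : ((i : ℝ) + 1) ≤ n := by exact_mod_cast hin
            have hj' : ((j : ℝ) + 1) ≤ M := by exact_mod_cast hj
            have hlo : (i : ℝ) ≤ ((i * M + j : ℕ) : ℝ) * rr m ^ 2 := by
              push_cast
              have : (i : ℝ) = i * (M * rr m ^ 2) := by rw [hMr, mul_one]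
              have h0 : (0 : ℝ) ≤ j * rr m ^ 2 := by positivity
              nlinarith
            have hhi : (((i * M + j : ℕ) : ℝ) + 1) * rr m ^ 2 ≤ (i : ℝ) + 1 := by
              push_cast
              have h0 : ((j : ℝ) + 1) * rr m ^ 2 ≤ M * rr m ^ 2 :=
                mul_le_mul_of_nonneg_right hj' hr2.le
              have h3 : (i : ℝ) * (M * rr m ^ 2) = i := by rw [hMr, mul_one]
              nlinarith
            have h2 := TRSRI.lk_lower hU hg (s := ((i * M + j : ℕ) : ℝ) * rr m ^ 2)
              (t := (((i * M + j : ℕ) : ℝ) + 1) * rr m ^ 2) (y := x + 3)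
              (by positivity) (mul_le_mul_of_nonneg_right (by linarith) hr2.le)
              (hhi.trans hin')
              (fun u hu => hcell i hin u ⟨hlo.trans hu.1, hu.2.trans hhi⟩)
            refine le_trans (le_of_eq ?_) h2
            ring
          have h2 := Finset.sum_le_sum h1
          rw [Finset.sum_const, Finset.card_range, nsmul_eq_mul] at h2
          refine le_trans (le_of_eq ?_) h2
          rw [← mul_div_assoc, hMr]
      _ ≤ _ := by
          apply Finset.sum_le_sum_of_subset_of_nonneg (Finset.filter_subset _ _)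
          intro i _ _
          exact Finset.sum_nonneg fun j _ => hf _
  · left
    push Not at hcase
    set B' := B.filter fun i => i + 1 < n with hB'
    have hBB' : B.card ≤ B'.card + 1 := by
      have h1 : B ⊆ insert (n - 1) B' := by
        intro i hi
        rw [Finset.mem_insert]
        by_cases h : i + 1 < n
        · right
          rw [hB', Finset.mem_filter]
          exact ⟨hi, h⟩
        · left
          have h2 := (Finset.mem_filter.1 hi).1
          rw [Finset.mem_range] at h2
          omega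
      exact (Finset.card_le_card h1).trans (Finset.card_insert_le _ _)
    have hmain : ∀ i ∈ B', ∃ J', J' ∈ (Finset.range (n * M - 1)).filter
        (fun j => tr U g (rr m) j) ∧ i * M ≤ J' ∧ J' < (i + 2) * M := by
      intro i hi
      rw [hB', Finset.mem_filter, hB, Finset.mem_filter, Finset.mem_range] at hi
      obtain ⟨⟨hin, j, hj, hlow⟩, hi1⟩ := hi
      have hnM : (i + 2) * M ≤ n * M := Nat.mul_le_mul_right _ (by omega)
      have hexp : (i + 2) * M = i * M + M + M := by ring
      have hle : i * M + j + D ≤ n * M := by omega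
      obtain ⟨J', h1, h2, h3⟩ := TRSRI.find_tr hlow (hno _ hle)
      refine ⟨J', ?_, by omega, by omega⟩
      rw [Finset.mem_filter, Finset.mem_range]
      exact ⟨by omega, h3⟩
    choose! φ hφ using hmain
    have hcard : B'.card ≤ 2 * ((Finset.range (n * M - 1)).filter
        (fun j => tr U g (rr m) j)).card := by
      apply Finset.card_le_mul_card_image_of_maps_to (f := φ) (fun i hi => (hφ i hi).1)
      intro t _
      have hsub : (B'.filter fun i => φ i = t) ⊆ {t / M, t / M - 1} := by
        intro i hi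
        rw [Finset.mem_filter] at hi
        obtain ⟨hi1, rfl⟩ := hi
        obtain ⟨_, h1, h2⟩ := hφ i hi1
        have h3 : i ≤ φ i / M := (Nat.le_div_iff_mul_le hMpos).2 h1
        have h4 : φ i / M < i + 2 := (Nat.div_lt_iff_lt_mul hMpos).2 h2
        rw [Finset.mem_insert, Finset.mem_singleton]
        omega
      exact (Finset.card_le_card hsub).trans Finset.card_le_two
    have hNN : NN U g (rr m) (n * M) = ((Finset.range (n * M - 1)).filter
        (fun j => tr U g (rr m) j)).card := by
      unfold NN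
      congr
    rw [hNN]
    have h1 : (B.card : ℝ) + A.card = n := by exact_mod_cast hAB
    have h2 : (B.card : ℝ) ≤ B'.card + 1 := by exact_mod_cast hBB'
    have h3 : (B'.card : ℝ) ≤ 2 * (((Finset.range (n * M - 1)).filter
        (fun j => tr U g (rr m) j)).card : ℝ) := by exact_mod_cast hcard
    linarith

end

end Pool.Agent.SLE
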