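import Pool.Agent.Lib.MP_c17912_pr_TR.COR
import Pool.Agent.Lib.MP_c17912_pr_TR.SRI

set_option autoImplicit false

open MeasureTheory ProbabilityTheory Filter
open scoped NNReal ENNReal Topology Real

namespace Pool.Agent.SLE

noncomputable section

variable {Ω : Type*} [MeasurableSpace Ω] {μ : Measure Ω}

namespace TRRID

lemma num {S : ℝ} (hS : 1 ≤ S) : ∃ n₀ : ℕ, ∀ n ≥ n₀, 1 ≤ n ∧
    (n : ℝ) * (4 * Real.exp (-(((n : ℝ) ^ (1 / 8 : ℝ)) ^ 2 / (16 * S)))) +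
      Real.exp (-(n : ℝ) ^ (1 / 4 : ℝ)) ≤ Real.exp (-(n : ℝ) ^ (1 / 5 : ℝ)) ∧
    (n : ℝ) ^ (5 / 8 : ℝ) ≤ (n : ℝ) / 4 - 1 ∧
    (n : ℝ) ^ (11 / 16 : ℝ) ≤ (n : ℝ) / 2 / ((n : ℝ) ^ (1 / 8 : ℝ) + 3) ^ 2 := by
  have hS0 : 0 < S := by linarith
  have hcast : Tendsto (fun n : ℕ => (n : ℝ)) atTop atTop := tendsto_natCast_atTop_atTop
  have ht : Tendsto (fun n : ℕ => (n : ℝ) ^ (1 / 20 : ℝ)) atTop atTop :=
    (tendsto_rpow_atTop (by norm_num)).comp hcast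
  have hy : Tendsto (fun n : ℕ => ((n : ℝ) ^ (1 / 20 : ℝ)) ^ 4) atTop atTop :=
    (tendsto_pow_atTop (by norm_num)).comp ht
  have hexp : Tendsto (fun n : ℕ => (((n : ℝ) ^ (1 / 20 : ℝ)) ^ 4) ^ 5 *
      Real.exp (-((n : ℝ) ^ (1 / 20 : ℝ)) ^ 4)) atTop (𝓝 0) :=
    (Real.tendsto_pow_mul_exp_neg_atTop_nhds_zero 5).comp hy
  have h16 : Tendsto (fun n : ℕ => (n : ℝ) ^ (1 / 16 : ℝ)) atTop atTop :=
    (tendsto_rpow_atTop (by norm_num)).comp hcast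
  have e1 := ht.eventually_ge_atTop (64 * S)
  have e2 := hexp.eventually_le_const (show (0 : ℝ) < 1 / 5 by norm_num)
  have e3 := h16.eventually_ge_atTop 32
  obtain ⟨n₀, h₀⟩ := eventually_atTop.1 ((e1.and e2).and (e3.and (eventually_ge_atTop 1)))
  refine ⟨n₀, fun n hn => ?_⟩
  obtain ⟨⟨h1, h2⟩, h3, h4⟩ := h₀ n hn
  have hn0 : (0 : ℝ) ≤ n := Nat.cast_nonneg n
  have hn1 : (1 : ℝ) ≤ n := by exact_mod_cast h4
  have hnpos : (0 : ℝ) < n := by linarith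
  refine ⟨h4, ?_, ?_, ?_⟩
  · set t : ℝ := (n : ℝ) ^ (1 / 20 : ℝ) with htdef
    have hp : ∀ (k : ℕ) (q : ℝ), (k : ℝ) / 20 = q → (n : ℝ) ^ q = t ^ k := by
      intro k q hq
      rw [htdef, ← Real.rpow_natCast, ← Real.rpow_mul hn0, ← hq]
      congr 1
      ring
    have hn20 : (n : ℝ) = t ^ 20 := by
      have h := hp 20 1 (by norm_num)
      rwa [Real.rpow_one] at h
    have h14 : (n : ℝ) ^ (1 / 4 : ℝ) = t ^ 5 := hp 5 _ (by norm_num)
    have h15 : (n : ℝ) ^ (1 / 5 : ℝ) = t ^ 4 := hp 4 _ (by norm_num)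
    have h18 : ((n : ℝ) ^ (1 / 8 : ℝ)) ^ 2 = t ^ 5 := by
      rw [← h14, ← Real.rpow_natCast, ← Real.rpow_mul hn0]
      norm_num
    have ht64 : 64 ≤ t := by nlinarith
    have ht0 : 0 < t := by linarith
    rw [h14, h15, h18, hn20]
    have hy5 : (t ^ 4) ^ 5 = t ^ 20 := by ring
    rw [hy5] at h2
    have ha : 4 * t ^ 4 ≤ t ^ 5 / (16 * S) := by
      rw [le_div_iff₀ (by positivity)]
      have h5 : 0 ≤ t ^ 4 := by positivity
      nlinarith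
    have hb : 4 * t ^ 4 ≤ t ^ 5 := by
      have h5 : 0 ≤ t ^ 4 := by positivity
      nlinarith
    have hc : Real.exp (-(t ^ 5 / (16 * S))) ≤ Real.exp (-(t ^ 4)) * Real.exp (-(t ^ 4)) := by
      rw [← Real.exp_add]
      apply Real.exp_le_exp.2
      have h5 : 0 ≤ t ^ 4 := by positivity
      linarith
    have hd : Real.exp (-t ^ 5) ≤ Real.exp (-(t ^ 4)) * Real.exp (-(t ^ 4)) := by
      rw [← Real.exp_add]
      apply Real.exp_le_exp.2
      have h5 : 0 ≤ t ^ 4 := by positivity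
      linarith
    have he : 0 < Real.exp (-(t ^ 4)) := Real.exp_pos _
    have he1 : Real.exp (-(t ^ 4)) ≤ 1 / 5 := by
      have h6 : (1 : ℝ) ≤ t ^ 20 := one_le_pow₀ (by linarith)
      have h7 : 1 * Real.exp (-t ^ 4) ≤ t ^ 20 * Real.exp (-t ^ 4) :=
        mul_le_mul_of_nonneg_right h6 he.le
      linarith
    have hf : t ^ 20 * (4 * Real.exp (-(t ^ 5 / (16 * S)))) ≤
        4 * (t ^ 20 * Real.exp (-(t ^ 4))) * Real.exp (-(t ^ 4)) := by
      have h6 : (0 : ℝ) ≤ t ^ 20 * 4 := by positivity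
      have h7 := mul_le_mul_of_nonneg_left hc h6
      linarith
    have hg : 4 * (t ^ 20 * Real.exp (-(t ^ 4))) * Real.exp (-(t ^ 4)) ≤
        4 * (1 / 5) * Real.exp (-(t ^ 4)) := by
      apply mul_le_mul_of_nonneg_right _ he.le
      linarith
    have hh : Real.exp (-(t ^ 4)) * Real.exp (-(t ^ 4)) ≤ 1 / 5 * Real.exp (-(t ^ 4)) :=
      mul_le_mul_of_nonneg_right he1 he.le
    have hi : (-t ^ 4 : ℝ) = -(t ^ 4) := by ring
    rw [hi]
    linarith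
  · set s : ℝ := (n : ℝ) ^ (1 / 16 : ℝ) with hsdef
    have hp : ∀ (k : ℕ) (q : ℝ), (k : ℝ) / 16 = q → (n : ℝ) ^ q = s ^ k := by
      intro k q hq
      rw [hsdef, ← Real.rpow_natCast, ← Real.rpow_mul hn0, ← hq]
      congr 1
      ring
    have hn16 : (n : ℝ) = s ^ 16 := by
      have h := hp 16 1 (by norm_num)
      rwa [Real.rpow_one] at h
    have h58 : (n : ℝ) ^ (5 / 8 : ℝ) = s ^ 10 := hp 10 _ (by norm_num)
    rw [h58, hn16]
    have h6 : (1 : ℝ) ≤ s ^ 10 := one_le_pow₀ (by linarith)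
    have h7 : (32 : ℝ) ^ 6 ≤ s ^ 6 := pow_le_pow_left₀ (by norm_num) h3 6
    have h8 : s ^ 16 = s ^ 10 * s ^ 6 := by ring
    rw [h8]
    nlinarith
  · set s : ℝ := (n : ℝ) ^ (1 / 16 : ℝ) with hsdef
    have hp : ∀ (k : ℕ) (q : ℝ), (k : ℝ) / 16 = q → (n : ℝ) ^ q = s ^ k := by
      intro k q hq
      rw [hsdef, ← Real.rpow_natCast, ← Real.rpow_mul hn0, ← hq]
      congr 1
      ring
    have hn16 : (n : ℝ) = s ^ 16 := by
      have h := hp 16 1 (by norm_num)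
      rwa [Real.rpow_one] at h
    have h1116 : (n : ℝ) ^ (11 / 16 : ℝ) = s ^ 11 := hp 11 _ (by norm_num)
    have h18 : (n : ℝ) ^ (1 / 8 : ℝ) = s ^ 2 := hp 2 _ (by norm_num)
    rw [h1116, h18, hn16, le_div_iff₀ (by positivity)]
    have h6 : (1 : ℝ) ≤ s ^ 2 := one_le_pow₀ (by linarith)
    have h7 : (s ^ 2 + 3) ^ 2 ≤ (4 * s ^ 2) ^ 2 :=
      pow_le_pow_left₀ (by positivity) (by linarith) 2
    have h8 : (0 : ℝ) ≤ s ^ 11 := by positivity
    have h9 : s ^ 11 * (s ^ 2 + 3) ^ 2 ≤ s ^ 11 * (4 * s ^ 2) ^ 2 :=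
      mul_le_mul_of_nonneg_left h7 h8
    have h10 : (0 : ℝ) ≤ s ^ 15 := by positivity
    have h11 : s ^ 16 = s ^ 15 * s := by ring
    have h12 : s ^ 11 * (4 * s ^ 2) ^ 2 = 16 * s ^ 15 := by ring
    rw [h11]
    nlinarith

end TRRID

/-- TR-RID. Outside a small event every rider of `n` unit cells contains a much longer rider at a
smaller scale.

Proof. `A` = the event of `core` together with `osc_ev` for `N = n`, `x = n^(1/8)`
(`n * 4 exp (-n^(1/4) / (16 S)) + exp (-n^(1/4)) ≤ exp (-n^(1/5))` for `n ≥ n₀`). Suppose there is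
no such rider. `T = n ≤ 4^(n+2)`. Let `k₀` be from `exists_start`. `cr_low` on the first and the
last unit cell: `‖z‖ = |Z_0| ≤ x + 3 ≤ n + 4`, `|Z_n| ≤ n + 4` (`W 0 = 0`). `core` applies at
`k₀` (there are no riders at `M ≥ lev n k₀ ≥ 1`): `NN < n^(5/8)`, `XX < n^(11/16)` at the level
`k₀`. `start_rider` with `m = lev n k₀`, `D = (n + m)^10`: `n / 4 - 1 ≤ NN` or
`n / (2 (n^(1/8) + 3)^2) ≤ XX`; both are false for large `n` (the second is `≥ n^(3/4) / 32`). -/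
theorem rid [IsProbabilityMeasure μ] {a b c K : ℝ} (ha : 0 ≤ a) (hb : 0 ≤ b) (hK : 0 ≤ K)
    (hS : HasS a b c) :
    ∃ n₀ : ℕ, ∀ n ≥ n₀, ∀ W : ℝ → Ω → ℂ, Gau a b c K W μ →
      ∃ A, MeasurableSet A ∧ μ A ≤ ENNReal.ofReal (Real.exp (-(n : ℝ) ^ (1 / 5 : ℝ))) ∧
        ∀ ω ∉ A, ∀ (z : ℂ) (g : ℝ → ℂ), Sol (fun t => W t ω) z n g →
          rider (fun t => W t ω) g 1 0 n → ∃ M ≥ 1, ∃ s, s + (n + M) ^ 10 ≤ n * 4 ^ M ∧
            rider (fun t => W t ω) g (rr M) s ((n + M) ^ 10) := by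
  have hS1 : 1 ≤ a + b + 1 := by linarith
  obtain ⟨n₁, hcore⟩ := core (μ := μ) ha hb hK hS
  obtain ⟨n₂, hstart⟩ := exists_start
  obtain ⟨n₃, hnum⟩ := TRRID.num hS1
  refine ⟨max n₁ (max n₂ n₃), fun n hn W hW => ?_⟩
  have hn1 : n₁ ≤ n := (le_max_left _ _).trans hn
  have hn2 : n₂ ≤ n := ((le_max_left _ _).trans (le_max_right _ _)).trans hn
  have hn3 : n₃ ≤ n := ((le_max_right _ _).trans (le_max_right _ _)).trans hn
  obtain ⟨hn, hprob, h58, h1116⟩ := hnum n hn3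
  have hnR : (1 : ℝ) ≤ n := by exact_mod_cast hn
  have hx0 : 0 < (n : ℝ) ^ (1 / 8 : ℝ) := Real.rpow_pos_of_pos (by linarith) _
  obtain ⟨A₁, hA₁m, hA₁, h₁⟩ := hcore n hn1 W hW
  obtain ⟨A₂, hA₂m, hA₂, h₂⟩ := osc_ev hW n hx0
  refine ⟨A₁ ∪ A₂, hA₁m.union hA₂m, ?_, ?_⟩
  · calc μ (A₁ ∪ A₂) ≤ μ A₁ + μ A₂ := measure_union_le _ _
      _ ≤ _ := add_le_add hA₁ hA₂
      _ = ENNReal.ofReal (Real.exp (-(n : ℝ) ^ (1 / 4 : ℝ)) +
          n * (4 * Real.exp (-(((n : ℝ) ^ (1 / 8 : ℝ)) ^ 2 / (16 * (a + b + 1)))))) :=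
        (ENNReal.ofReal_add (Real.exp_pos _).le (by positivity)).symm
      _ ≤ _ := ENNReal.ofReal_le_ofReal (by linarith)
  · intro ω hω z g hg hr
    rw [Set.mem_union, not_or] at hω
    by_contra hcon
    have hno : ∀ M ≥ 1, ∀ s, s + (n + M) ^ 10 ≤ n * 4 ^ M →
        ¬ rider (fun t => W t ω) g (rr M) s ((n + M) ^ 10) := by
      intro M hM s hs hrd
      exact hcon ⟨M, hM, s, hs, hrd⟩
    set x : ℝ := (n : ℝ) ^ (1 / 8 : ℝ) with hx
    have hosc := h₂ ω hω.2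
    have hU : Continuous fun t => W t ω := hW.cont ω
    have hxn : x ≤ n := by
      calc x ≤ (n : ℝ) ^ (1 : ℝ) := Real.rpow_le_rpow_of_exponent_le hnR (by norm_num)
        _ = n := Real.rpow_one _
    have hcell : ∀ i < n, ∀ u ∈ Set.Icc (i : ℝ) ((i : ℝ) + 1), ‖g u - W u ω‖ ≤ x + 3 := by
      intro i hi
      have hin : ((i : ℝ) + 1) ≤ n := by exact_mod_cast hi
      have e1 : ((i : ℝ) * 1 ^ 2) = i := by ring
      have e2 : (((i : ℝ) + 1) * 1 ^ 2) = (i : ℝ) + 1 := by ring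
      refine cr_low hU hg (Nat.cast_nonneg i) (by linarith) le_rfl hin ?_ ?_
      · have h3 := hosc i hi
        rw [e1, e2] at h3
        exact h3
      · have h3 := hr i hi
        unfold low at h3
        rw [zero_add, e1, e2] at h3
        exact h3
    have hz : ‖z‖ ≤ n + 4 := by
      have h3 := hcell 0 hn 0 (by simp)
      rw [hg.1, hW.zero 0 le_rfl ω, sub_zero] at h3
      linarith
    have hend : ‖g n - W n ω‖ ≤ n + 4 := by
      have hcast : ((n - 1 : ℕ) : ℝ) + 1 = n := by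
        have h4 : (n - 1) + 1 = n := Nat.sub_add_cancel hn
        exact_mod_cast h4
      have h3 := hcell (n - 1) (by omega) n ⟨by linarith, hcast.ge⟩
      linarith
    obtain ⟨k₀, hk1, hk2, hk3⟩ := hstart n hn2
    have hT : n ≤ 4 ^ (n + 2) :=
      (Nat.lt_pow_self (by norm_num)).le.trans (Nat.pow_le_pow_right (by norm_num) (by omega))
    obtain ⟨hNN, hXX⟩ := h₁ ω hω.1 n z g hT hz hg hend k₀ hk3
      (fun M hM s hs => hno M (hk1.trans hM) s hs)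
    have hD1 : 1 ≤ (n + lev n k₀) ^ 10 := Nat.one_le_pow _ _ (by omega)
    rcases start_rider hU hn hg hr hosc hD1 hk2 (fun s hs => hno _ hk1 s hs) with h5 | h5
    · linarith
    · linarith

end

end Pool.Agent.SLE
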