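import Pool.Agent.Lib.MP_c17912_pr_TR.Base

set_option autoImplicit false

open MeasureTheory ProbabilityTheory Filter
open scoped NNReal ENNReal Topology Real

namespace Pool.Agent.SLE

noncomputable section

variable {Ω : Type*} [MeasurableSpace Ω] {μ : Measure Ω} {a b c K : ℝ} {W : ℝ → Ω → ℂ}

/-- TR-CST. The one step inequality, conditionally on the past. `w` is a weight which depends on
the past (up to time `j h`) and vanishes unless `Z_j` is in the annulus.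

Proof. This is the core of `DiscAux.step` (Disc.lean): there the weight is
`indicator G (ofReal (exp (A (j+1))))`. Copy that proof. -/
theorem cond_step [IsProbabilityMeasure μ] (hW : Drv a b c K W μ) {h δ R : ℝ} (hh : 0 < h)
    {F ρ : ℂ → ℝ} (hF : Measurable F) (hρ : Measurable ρ)
    (hone : ∀ (z : ℂ) (s : ℝ), δ ≤ ‖z‖ → ‖z‖ ≤ R → 0 ≤ s →
      ∫⁻ ω, ENNReal.ofReal (F (z + 2 * h / z - (W (s + h) ω - W s ω))) ∂μ
        ≤ ENNReal.ofReal (ρ z)) (z₀ : ℂ) (j : ℕ) (w : Ω → ℝ≥0∞)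
    (hw : Measurable[Blk W 0 (j * h)] w)
    (hw0 : ∀ ω, w ω ≠ 0 → δ ≤ ‖DiscAux.Z W z₀ h j ω‖ ∧ ‖DiscAux.Z W z₀ h j ω‖ ≤ R) :
    ∫⁻ ω, w ω * ENNReal.ofReal (F (DiscAux.Z W z₀ h (j + 1) ω)) ∂μ ≤
      ∫⁻ ω, w ω * ENNReal.ofReal (ρ (DiscAux.Z W z₀ h j ω)) ∂μ := by
  have hjh : (0 : ℝ) ≤ j * h := by positivity
  have hle : Blk W 0 (j * h) ≤ (inferInstance : MeasurableSpace Ω) := Blk_le hW _ _
  -- the increment
  obtain ⟨X, hX⟩ : ∃ X : Ω → ℂ, X = fun ω => W (j * h + h) ω - W (j * h) ω := ⟨_, rfl⟩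
  have hXF : Measurable[Fut W (j * h)] X := by
    rw [hX, measurable_iff_comap_le]
    exact le_iSup (fun r : Set.Ici ((j : ℝ) * h) =>
      MeasurableSpace.comap (fun ω => W r ω - W (j * h) ω) inferInstance)
      ⟨j * h + h, by simp only [Set.mem_Ici]; linarith⟩
  have hXm : Measurable X := by
    rw [hX]; exact (hW.meas _).sub (hW.meas _)
  -- the past
  obtain ⟨Y, hY⟩ : ∃ Y : Ω → ℂ × ℝ≥0∞, Y = fun ω => (DiscAux.Z W z₀ h j ω, w ω) := ⟨_, rfl⟩
  have hYB : Measurable[Blk W 0 (j * h)] Y := by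
    rw [hY]; exact (DiscAux.Z_meas hh z₀ j _ le_rfl).prodMk hw
  have hYm : Measurable Y := hYB.mono hle le_rfl
  have hind : IndepFun Y X μ := by
    have h1 := indep_Blk_Fut hW hjh
    rw [IndepFun_iff_Indep]
    exact indep_of_indep_of_le_left (indep_of_indep_of_le_right h1
      (measurable_iff_comap_le.1 hXF)) (measurable_iff_comap_le.1 hYB)
  have hprod := (indepFun_iff_map_prod_eq_prod_map_map hYm.aemeasurable hXm.aemeasurable).1 hind
  -- the integrand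
  obtain ⟨f, hf⟩ : ∃ f : (ℂ × ℝ≥0∞) × ℂ → ℝ≥0∞, f = fun p =>
      p.1.2 * ENNReal.ofReal (F (p.1.1 + 2 * h / p.1.1 - p.2)) := ⟨_, rfl⟩
  have hfm : Measurable f := by
    rw [hf]
    have h1 : Measurable (fun p : (ℂ × ℝ≥0∞) × ℂ => p.1.1) := measurable_fst.comp measurable_fst
    have h2 : Measurable (fun p : (ℂ × ℝ≥0∞) × ℂ => p.1.2) := measurable_snd.comp measurable_fst
    have h3 : Measurable (fun p : (ℂ × ℝ≥0∞) × ℂ => p.2) := measurable_snd
    exact h2.mul (ENNReal.measurable_ofReal.comp (hF.comp ((h1.add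
      (measurable_const.div h1)).sub h3)))
  have e1 : ∫⁻ ω, w ω * ENNReal.ofReal (F (DiscAux.Z W z₀ h (j + 1) ω)) ∂μ =
      ∫⁻ ω, f (Y ω, X ω) ∂μ := by
    apply lintegral_congr
    intro ω
    rw [hf, hY, hX]
    simp only [DiscAux.Z, eul]
    push_cast
    ring_nf
  have e2 : ∫⁻ ω, f (Y ω, X ω) ∂μ = ∫⁻ ω, ∫⁻ ω', f (Y ω, X ω') ∂μ ∂μ := by
    have h1 : ∫⁻ ω, f (Y ω, X ω) ∂μ = ∫⁻ p, f p ∂(μ.map (fun ω => (Y ω, X ω))) :=
      (lintegral_map hfm (hYm.prodMk hXm)).symm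
    have : IsProbabilityMeasure (μ.map X) := Measure.isProbabilityMeasure_map hXm.aemeasurable
    have : IsProbabilityMeasure (μ.map Y) := Measure.isProbabilityMeasure_map hYm.aemeasurable
    rw [h1, hprod, lintegral_prod _ hfm.aemeasurable]
    rw [lintegral_map (by exact hfm.lintegral_prod_right') hYm]
    apply lintegral_congr
    intro ω
    exact lintegral_map (hfm.comp measurable_prodMk_left) hXm
  rw [e1, e2]
  apply lintegral_mono
  intro ω
  have h2 : (Y ω).1 = DiscAux.Z W z₀ h j ω := by rw [hY]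
  have h3 : (Y ω).2 = w ω := by rw [hY]
  have h5 : ∫⁻ ω', f (Y ω, X ω') ∂μ = w ω * ∫⁻ ω', ENNReal.ofReal
      (F (DiscAux.Z W z₀ h j ω + 2 * h / DiscAux.Z W z₀ h j ω - X ω')) ∂μ := by
    simp only [hf]
    rw [h2, h3, lintegral_const_mul]
    exact ENNReal.measurable_ofReal.comp (hF.comp (measurable_const.sub hXm))
  by_cases hω : w ω = 0
  · simp only [h5, hω, zero_mul, le_refl]
  · have hann := hw0 ω hω
    have h1 := hone (DiscAux.Z W z₀ h j ω) (j * h) hann.1 hann.2 hjh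
    refine (le_of_eq h5).trans ?_
    rw [hX]
    exact mul_le_mul_right h1 _

end

end Pool.Agent.SLE
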