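import Pool.Agent.Lib.MP_c17912_pr_TR.CST

set_option autoImplicit false

open MeasureTheory ProbabilityTheory Filter
open scoped NNReal ENNReal Topology Real

namespace Pool.Agent.SLE

noncomputable section

variable {Ω : Type*} [MeasurableSpace Ω] {μ : Measure Ω} {a b c K : ℝ} {W : ℝ → Ω → ℂ}

namespace TRDOC

variable {h δ R ε θ e q c₁ c₂ : ℝ}

lemma AnS_meas (hh : 0 < h) (z₀ : ℂ) (j : ℕ) {u : ℝ} (hu : j * h ≤ u) :
    MeasurableSet[Blk W 0 u] (AnS W z₀ h δ R j) := by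
  have h1 : AnS W z₀ h δ R j = ⋂ i ∈ Finset.range (j + 1), DiscAux.Ann W z₀ h δ R i := by
    ext ω
    simp only [AnS, DiscAux.Ann, Set.mem_iInter, Finset.mem_range, Nat.lt_succ_iff]
    exact Iff.rfl
  rw [h1]
  refine MeasurableSet.biInter (Finset.range (j + 1)).countable_toSet fun i hi => ?_
  have hi' : i < j + 1 := by simpa using hi
  apply DiscAux.Ann_meas hh z₀ i
  have : (i : ℝ) ≤ j := by exact_mod_cast (Nat.lt_succ_iff.1 hi')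
  nlinarith

lemma FlS_meas (hh : 0 < h) (z₀ : ℂ) (j : ℕ) {u : ℝ} (hu : j * h ≤ u) :
    MeasurableSet[Blk W 0 u] (FlS W z₀ h ε θ j) := by
  have h1 : FlS W z₀ h ε θ j = ⋃ i ∈ Finset.range (j + 1),
      (fun ω => DiscAux.A W z₀ h (kk 1 ε) i ω - Real.log ‖DiscAux.Z W z₀ h i ω‖) ⁻¹'
        Set.Ici θ := by
    ext ω
    simp only [FlS, Set.mem_iUnion, Finset.mem_range, Nat.lt_succ_iff, exists_prop]
    exact Iff.rfl
  rw [h1]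
  refine MeasurableSet.biUnion (Finset.range (j + 1)).countable_toSet fun i hi => ?_
  have hi' : i < j + 1 := by simpa using hi
  have h2 : (i : ℝ) * h ≤ u := by
    have : (i : ℝ) ≤ j := by exact_mod_cast (Nat.lt_succ_iff.1 hi')
    nlinarith
  have h3 : Measurable[Blk W 0 u]
      (fun ω => DiscAux.A W z₀ h (kk 1 ε) i ω - Real.log ‖DiscAux.Z W z₀ h i ω‖) :=
    (DiscAux.A_meas hh (SmgAux.measurable_kk 1 ε) z₀ i h2).sub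
      (Real.measurable_log.comp (measurable_norm.comp (DiscAux.Z_meas hh z₀ i u h2)))
  exact h3 measurableSet_Ici

lemma OcS_meas (hh : 0 < h) (z₀ : ℂ) (j : ℕ) {u : ℝ} (hu : j * h ≤ u) :
    MeasurableSet[Blk W 0 u] (OcS W z₀ h δ R ε θ e j) := by
  have h1 : Measurable[Blk W 0 u] (fun ω => ‖DiscAux.Z W z₀ h j ω‖) :=
    measurable_norm.comp (DiscAux.Z_meas hh z₀ j u hu)
  have h2 : OcS W z₀ h δ R ε θ e j = AnS W z₀ h δ R j ∩ FlS W z₀ h ε θ j ∩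
      (fun ω => ‖DiscAux.Z W z₀ h j ω‖) ⁻¹' Set.Iic e := rfl
  rw [h2]
  exact ((AnS_meas hh z₀ j hu).inter (FlS_meas hh z₀ j hu)).inter (h1 measurableSet_Iic)

omit [MeasurableSpace Ω] in
lemma A1_meas (hh : 0 < h) {k : ℂ → ℝ} (hk : Measurable k) (z₀ : ℂ) (j : ℕ) :
    Measurable[Blk W 0 (j * h)] (DiscAux.A W z₀ h k (j + 1)) := by
  unfold DiscAux.A
  refine Finset.measurable_sum _ fun i hi => ?_
  have hi' : i < j + 1 := Finset.mem_range.1 hi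
  have h1 : (i : ℝ) * h ≤ j * h := by
    have : (i : ℝ) ≤ j := by exact_mod_cast (Nat.lt_succ_iff.1 hi')
    nlinarith
  exact (hk.comp (DiscAux.Z_meas hh z₀ i _ h1)).const_mul h

omit [MeasurableSpace Ω] in
lemma A_succ (z₀ : ℂ) (k : ℂ → ℝ) (j : ℕ) (ω : Ω) :
    DiscAux.A W z₀ h k (j + 1) ω = DiscAux.A W z₀ h k j ω + h * k (DiscAux.Z W z₀ h j ω) := by
  simp only [DiscAux.A, Finset.sum_range_succ]

lemma kk_zero_add (c₁ c₂ : ℝ) (z : ℂ) : kk 0 (c₁ + c₂) z = kk 0 c₁ z + c₂ / ‖z‖ ^ 2 := by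
  unfold kk; ring

lemma kk_split (q c₁ ε : ℝ) (z : ℂ) : kk q (c₁ + q * ε) z = kk 0 c₁ z + q * kk 1 ε z := by
  unfold kk; ring

/-- The process of the proof. -/
def M (W : ℝ → Ω → ℂ) (z₀ : ℂ) (h ε θ q c₁ : ℝ) (F₁ F₂ : ℂ → ℝ) (j : ℕ) (ω : Ω) : ℝ :=
  open Classical in
  if ω ∈ FlS W z₀ h ε θ j then
    Real.exp (DiscAux.A W z₀ h (kk 0 c₁) j ω) * F₁ (DiscAux.Z W z₀ h j ω)
  else Real.exp (-(q * θ) + DiscAux.A W z₀ h (kk 0 c₁) j ω +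
    q * DiscAux.A W z₀ h (kk 1 ε) j ω) * F₂ (DiscAux.Z W z₀ h j ω)

omit [MeasurableSpace Ω] in
lemma M_nonneg {F₁ F₂ : ℂ → ℝ} (hF₁ : ∀ z, 0 ≤ F₁ z) (hF₂ : ∀ z, 0 ≤ F₂ z) (z₀ : ℂ) (j : ℕ)
    (ω : Ω) : 0 ≤ M W z₀ h ε θ q c₁ F₁ F₂ j ω := by
  unfold M
  split_ifs
  · exact mul_nonneg (Real.exp_pos _).le (hF₁ _)
  · exact mul_nonneg (Real.exp_pos _).le (hF₂ _)

lemma M_meas (hh : 0 < h) {F₁ F₂ : ℂ → ℝ} (hF₁m : Measurable F₁) (hF₂m : Measurable F₂)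
    (z₀ : ℂ) (j : ℕ) {u : ℝ} (hu : j * h ≤ u) :
    Measurable[Blk W 0 u] (M W z₀ h ε θ q c₁ F₁ F₂ j) := by
  classical
  unfold M
  refine Measurable.ite (FlS_meas hh z₀ j hu) ?_ ?_
  · exact (Real.measurable_exp.comp
      (DiscAux.A_meas hh (SmgAux.measurable_kk 0 c₁) z₀ j hu)).mul
      (hF₁m.comp (DiscAux.Z_meas hh z₀ j u hu))
  · refine (Real.measurable_exp.comp ?_).mul (hF₂m.comp (DiscAux.Z_meas hh z₀ j u hu))
    exact ((DiscAux.A_meas hh (SmgAux.measurable_kk 0 c₁) z₀ j hu).const_add (-(q * θ))).add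
      ((DiscAux.A_meas hh (SmgAux.measurable_kk 1 ε) z₀ j hu).const_mul q)

lemma exp_half {y : ℝ} (hy : 0 ≤ y) (hy1 : y ≤ 1) : Real.exp (-y) ≤ 1 - y / 2 := by
  have h1 : y + 1 ≤ Real.exp y := Real.add_one_le_exp y
  have h2 : 0 < y + 1 := by linarith
  have h3 : Real.exp (-y) ≤ (y + 1)⁻¹ := by
    rw [Real.exp_neg]
    exact inv_anti₀ h2 h1
  refine h3.trans ?_
  rw [inv_le_iff_one_le_mul₀ h2]
  nlinarith

/-- The comparison at the flag. -/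
lemma sw {z : ℂ} {B F₁z F₂z : ℝ} (hz : 0 < ‖z‖) (hq : 0 ≤ q) (hF₂ : 0 ≤ F₂z)
    (hsw : F₁z ≤ ‖z‖ ^ q * F₂z) (hθ : θ ≤ B - Real.log ‖z‖) :
    F₁z ≤ Real.exp (-(q * θ) + q * B) * F₂z := by
  refine hsw.trans (mul_le_mul_of_nonneg_right ?_ hF₂)
  rw [Real.rpow_def_of_pos hz]
  apply Real.exp_le_exp.2
  nlinarith

/-- The process of the proof after one step. -/
def D (W : ℝ → Ω → ℂ) (z₀ : ℂ) (h ε θ q c₁ c₂ : ℝ) (F₁ F₂ : ℂ → ℝ) (j : ℕ) (ω : Ω) : ℝ :=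
  open Classical in
  if ω ∈ FlS W z₀ h ε θ j then M W z₀ h ε θ q c₁ F₁ F₂ j ω *
    Real.exp (-(h * (c₂ / ‖DiscAux.Z W z₀ h j ω‖ ^ 2)))
  else M W z₀ h ε θ q c₁ F₁ F₂ j ω

lemma D_meas (hh : 0 < h) {F₁ F₂ : ℂ → ℝ} (hF₁m : Measurable F₁) (hF₂m : Measurable F₂)
    (z₀ : ℂ) (j : ℕ) {u : ℝ} (hu : j * h ≤ u) :
    Measurable[Blk W 0 u] (D W z₀ h ε θ q c₁ c₂ F₁ F₂ j) := by
  classical
  unfold D
  refine Measurable.ite (FlS_meas hh z₀ j hu) ?_ (M_meas hh hF₁m hF₂m z₀ j hu)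
  refine (M_meas hh hF₁m hF₂m z₀ j hu).mul (Real.measurable_exp.comp ?_)
  have h1 : Measurable (fun z : ℂ => -(h * (c₂ / ‖z‖ ^ 2))) :=
    ((measurable_const.div (measurable_norm.pow_const 2)).const_mul h).neg
  exact h1.comp (DiscAux.Z_meas hh z₀ j u hu)

/-- The first weight. -/
def w1 (W : ℝ → Ω → ℂ) (z₀ : ℂ) (h δ R ε θ c₁ : ℝ) (j : ℕ) : Ω → ℝ≥0∞ :=
  (AnS W z₀ h δ R j ∩ FlS W z₀ h ε θ j).indicator
    (fun ω => ENNReal.ofReal (Real.exp (DiscAux.A W z₀ h (kk 0 c₁) (j + 1) ω)))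

/-- The second weight. -/
def w2 (W : ℝ → Ω → ℂ) (z₀ : ℂ) (h δ R ε θ q c₁ : ℝ) (j : ℕ) : Ω → ℝ≥0∞ :=
  (AnS W z₀ h δ R j \ FlS W z₀ h ε θ j).indicator
    (fun ω => ENNReal.ofReal (Real.exp (-(q * θ) + DiscAux.A W z₀ h (kk 0 c₁) (j + 1) ω +
      q * DiscAux.A W z₀ h (kk 1 ε) (j + 1) ω)))

lemma w1_meas (hh : 0 < h) (z₀ : ℂ) (j : ℕ) :
    Measurable[Blk W 0 (j * h)] (w1 W z₀ h δ R ε θ c₁ j) := by
  unfold w1
  exact (ENNReal.measurable_ofReal.comp (Real.measurable_exp.comp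
    (A1_meas hh (SmgAux.measurable_kk 0 c₁) z₀ j))).indicator
    ((AnS_meas hh z₀ j le_rfl).inter (FlS_meas hh z₀ j le_rfl))

lemma w2_meas (hh : 0 < h) (z₀ : ℂ) (j : ℕ) :
    Measurable[Blk W 0 (j * h)] (w2 W z₀ h δ R ε θ q c₁ j) := by
  unfold w2
  refine (ENNReal.measurable_ofReal.comp (Real.measurable_exp.comp ?_)).indicator
    ((AnS_meas hh z₀ j le_rfl).diff (FlS_meas hh z₀ j le_rfl))
  exact ((A1_meas hh (SmgAux.measurable_kk 0 c₁) z₀ j).const_add (-(q * θ))).add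
    ((A1_meas hh (SmgAux.measurable_kk 1 ε) z₀ j).const_mul q)

omit [MeasurableSpace Ω] in
/-- Step (ii). -/
lemma M_le (hδ : 0 < δ) (hq : 0 ≤ q) {F₁ F₂ : ℂ → ℝ} (hF₂ : ∀ z, 0 ≤ F₂ z)
    (hsw : ∀ z : ℂ, δ ≤ ‖z‖ → ‖z‖ ≤ R → F₁ z ≤ ‖z‖ ^ q * F₂ z) (z₀ : ℂ) (j : ℕ) {ω : Ω}
    (hω : ω ∈ AnS W z₀ h δ R (j + 1)) :
    ENNReal.ofReal (M W z₀ h ε θ q c₁ F₁ F₂ (j + 1) ω) ≤
      w1 W z₀ h δ R ε θ c₁ j ω * ENNReal.ofReal (F₁ (DiscAux.Z W z₀ h (j + 1) ω)) +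
      w2 W z₀ h δ R ε θ q c₁ j ω * ENNReal.ofReal (F₂ (DiscAux.Z W z₀ h (j + 1) ω)) := by
  have hAj : ω ∈ AnS W z₀ h δ R j := fun i hi => hω i (by omega)
  have hZ := hω (j + 1) le_rfl
  by_cases hF : ω ∈ FlS W z₀ h ε θ j
  · have hF' : ω ∈ FlS W z₀ h ε θ (j + 1) := by
      obtain ⟨i, hi, h1⟩ := hF
      exact ⟨i, by omega, h1⟩
    refine le_trans ?_ le_self_add
    rw [w1, Set.indicator_of_mem
      (show ω ∈ AnS W z₀ h δ R j ∩ FlS W z₀ h ε θ j from ⟨hAj, hF⟩), M, if_pos hF',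
      ENNReal.ofReal_mul (Real.exp_pos _).le]
  · refine le_trans ?_ le_add_self
    rw [w2, Set.indicator_of_mem
      (show ω ∈ AnS W z₀ h δ R j \ FlS W z₀ h ε θ j from ⟨hAj, hF⟩),
      ← ENNReal.ofReal_mul (Real.exp_pos _).le, M]
    apply ENNReal.ofReal_le_ofReal
    split_ifs with hF'
    · obtain ⟨i, hi, h1⟩ := hF'
      have hi' : i = j + 1 := by
        by_contra hne
        exact hF ⟨i, by omega, h1⟩
      subst hi'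
      have h2 := sw (θ := θ) (lt_of_lt_of_le hδ hZ.1) hq (hF₂ _) (hsw _ hZ.1 hZ.2) h1
      have h3 : Real.exp (-(q * θ) + DiscAux.A W z₀ h (kk 0 c₁) (j + 1) ω +
          q * DiscAux.A W z₀ h (kk 1 ε) (j + 1) ω) =
          Real.exp (DiscAux.A W z₀ h (kk 0 c₁) (j + 1) ω) *
          Real.exp (-(q * θ) + q * DiscAux.A W z₀ h (kk 1 ε) (j + 1) ω) := by
        rw [← Real.exp_add]; ring_nf
      rw [h3, mul_assoc]
      exact mul_le_mul_of_nonneg_left h2 (Real.exp_pos _).le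
    · exact le_rfl

omit [MeasurableSpace Ω] in
/-- The weights after one step. -/
lemma w_eq {Q : ℝ} (hQ : 0 ≤ Q) {F₁ F₂ : ℂ → ℝ} (z₀ : ℂ) (j : ℕ) (ω : Ω) :
    w1 W z₀ h δ R ε θ c₁ j ω * ENNReal.ofReal
        (Q * Real.exp (-(h * kk 0 (c₁ + c₂) (DiscAux.Z W z₀ h j ω))) *
          F₁ (DiscAux.Z W z₀ h j ω)) +
      w2 W z₀ h δ R ε θ q c₁ j ω * ENNReal.ofReal
        (Q * Real.exp (-(h * kk q (c₁ + q * ε) (DiscAux.Z W z₀ h j ω))) *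
          F₂ (DiscAux.Z W z₀ h j ω)) =
      ENNReal.ofReal Q * (AnS W z₀ h δ R j).indicator
        (fun ω => ENNReal.ofReal (D W z₀ h ε θ q c₁ c₂ F₁ F₂ j ω)) ω := by
  by_cases hA : ω ∈ AnS W z₀ h δ R j
  · rw [Set.indicator_of_mem hA, ← ENNReal.ofReal_mul hQ]
    by_cases hF : ω ∈ FlS W z₀ h ε θ j
    · rw [w1, Set.indicator_of_mem
        (show ω ∈ AnS W z₀ h δ R j ∩ FlS W z₀ h ε θ j from ⟨hA, hF⟩), w2,
        Set.indicator_of_notMem (fun hc => hc.2 hF), zero_mul, add_zero,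
        ← ENNReal.ofReal_mul (Real.exp_pos _).le, D, if_pos hF, M, if_pos hF, A_succ,
        kk_zero_add]
      congr 1
      have h3 : Real.exp (DiscAux.A W z₀ h (kk 0 c₁) j ω +
          h * kk 0 c₁ (DiscAux.Z W z₀ h j ω)) *
          Real.exp (-(h * (kk 0 c₁ (DiscAux.Z W z₀ h j ω) +
            c₂ / ‖DiscAux.Z W z₀ h j ω‖ ^ 2))) =
          Real.exp (DiscAux.A W z₀ h (kk 0 c₁) j ω) *
          Real.exp (-(h * (c₂ / ‖DiscAux.Z W z₀ h j ω‖ ^ 2))) := by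
        rw [← Real.exp_add, ← Real.exp_add]; ring_nf
      linear_combination (Q * F₁ (DiscAux.Z W z₀ h j ω)) * h3
    · rw [w1, Set.indicator_of_notMem (fun hc => hF hc.2), w2,
        Set.indicator_of_mem (show ω ∈ AnS W z₀ h δ R j \ FlS W z₀ h ε θ j from ⟨hA, hF⟩),
        zero_mul, zero_add,
        ← ENNReal.ofReal_mul (Real.exp_pos _).le, D, if_neg hF, M, if_neg hF, A_succ, A_succ,
        kk_split]
      congr 1
      have h3 : Real.exp (-(q * θ) + (DiscAux.A W z₀ h (kk 0 c₁) j ω +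
          h * kk 0 c₁ (DiscAux.Z W z₀ h j ω)) + q * (DiscAux.A W z₀ h (kk 1 ε) j ω +
          h * kk 1 ε (DiscAux.Z W z₀ h j ω))) *
          Real.exp (-(h * (kk 0 c₁ (DiscAux.Z W z₀ h j ω) +
            q * kk 1 ε (DiscAux.Z W z₀ h j ω)))) =
          Real.exp (-(q * θ) + DiscAux.A W z₀ h (kk 0 c₁) j ω +
            q * DiscAux.A W z₀ h (kk 1 ε) j ω) := by
        rw [← Real.exp_add]; ring_nf
      linear_combination (Q * F₂ (DiscAux.Z W z₀ h j ω)) * h3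
  · rw [Set.indicator_of_notMem hA, w1, w2, Set.indicator_of_notMem (fun hc => hA hc.1),
      Set.indicator_of_notMem (fun hc => hA hc.1)]
    simp

/-- Step (iii). -/
lemma step [IsProbabilityMeasure μ] (hW : Drv a b c K W μ) {Q : ℝ} (hh : 0 < h) (hQ : 1 ≤ Q)
    (hδ : 0 < δ) (hq : 0 ≤ q) {F₁ F₂ : ℂ → ℝ} (hF₁m : Measurable F₁) (hF₂m : Measurable F₂)
    (hF₂ : ∀ z, 0 ≤ F₂ z)
    (hsw : ∀ z : ℂ, δ ≤ ‖z‖ → ‖z‖ ≤ R → F₁ z ≤ ‖z‖ ^ q * F₂ z)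
    (h1 : ∀ (z : ℂ) (s : ℝ), δ ≤ ‖z‖ → ‖z‖ ≤ R → 0 ≤ s →
      ∫⁻ ω, ENNReal.ofReal (F₁ (z + 2 * h / z - (W (s + h) ω - W s ω))) ∂μ
        ≤ ENNReal.ofReal (Q * Real.exp (-(h * kk 0 (c₁ + c₂) z)) * F₁ z))
    (h2 : ∀ (z : ℂ) (s : ℝ), δ ≤ ‖z‖ → ‖z‖ ≤ R → 0 ≤ s →
      ∫⁻ ω, ENNReal.ofReal (F₂ (z + 2 * h / z - (W (s + h) ω - W s ω))) ∂μ
        ≤ ENNReal.ofReal (Q * Real.exp (-(h * kk q (c₁ + q * ε) z)) * F₂ z))
    (z₀ : ℂ) (j : ℕ) :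
    ∫⁻ ω in AnS W z₀ h δ R (j + 1),
        ENNReal.ofReal (M W z₀ h ε θ q c₁ F₁ F₂ (j + 1) ω) ∂μ ≤
      ENNReal.ofReal Q * ∫⁻ ω in AnS W z₀ h δ R j,
        ENNReal.ofReal (D W z₀ h ε θ q c₁ c₂ F₁ F₂ j ω) ∂μ := by
  have hle : Blk W 0 (j * h) ≤ (inferInstance : MeasurableSpace Ω) := Blk_le hW _ _
  have hle1 : Blk W 0 ((j + 1 : ℕ) * h) ≤ (inferInstance : MeasurableSpace Ω) := Blk_le hW _ _
  have hAm : MeasurableSet (AnS W z₀ h δ R j) := hle _ (AnS_meas hh z₀ j le_rfl)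
  have hAm1 : MeasurableSet (AnS W z₀ h δ R (j + 1)) :=
    hle1 _ (AnS_meas hh z₀ (j + 1) le_rfl)
  have hw1 := w1_meas (W := W) (δ := δ) (R := R) (ε := ε) (θ := θ) (c₁ := c₁) hh z₀ j
  have hw2 := w2_meas (W := W) (δ := δ) (R := R) (ε := ε) (θ := θ) (c₁ := c₁) (q := q) hh z₀ j
  have hZ1 : Measurable (DiscAux.Z W z₀ h (j + 1)) :=
    (DiscAux.Z_meas hh z₀ (j + 1) _ le_rfl).mono hle1 le_rfl
  have hZ0 : Measurable (DiscAux.Z W z₀ h j) :=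
    (DiscAux.Z_meas hh z₀ j _ le_rfl).mono hle le_rfl
  have hk : ∀ lam c₀ : ℝ, Measurable (kk lam c₀) := SmgAux.measurable_kk
  have hρ1 : Measurable (fun z => Q * Real.exp (-(h * kk 0 (c₁ + c₂) z)) * F₁ z) :=
    ((Real.measurable_exp.comp ((hk _ _).const_mul h).neg).const_mul Q).mul hF₁m
  have hρ2 : Measurable (fun z => Q * Real.exp (-(h * kk q (c₁ + q * ε) z)) * F₂ z) :=
    ((Real.measurable_exp.comp ((hk _ _).const_mul h).neg).const_mul Q).mul hF₂m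
  have c1 := cond_step hW hh hF₁m hρ1 h1 z₀ j (w1 W z₀ h δ R ε θ c₁ j) hw1 (by
    intro ω hω
    have := Set.mem_of_indicator_ne_zero hω
    exact this.1 j le_rfl)
  have c2 := cond_step hW hh hF₂m hρ2 h2 z₀ j (w2 W z₀ h δ R ε θ q c₁ j) hw2 (by
    intro ω hω
    have := Set.mem_of_indicator_ne_zero hω
    exact this.1 j le_rfl)
  calc ∫⁻ ω in AnS W z₀ h δ R (j + 1),
        ENNReal.ofReal (M W z₀ h ε θ q c₁ F₁ F₂ (j + 1) ω) ∂μ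
      ≤ ∫⁻ ω in AnS W z₀ h δ R (j + 1), (w1 W z₀ h δ R ε θ c₁ j ω *
            ENNReal.ofReal (F₁ (DiscAux.Z W z₀ h (j + 1) ω)) +
          w2 W z₀ h δ R ε θ q c₁ j ω *
            ENNReal.ofReal (F₂ (DiscAux.Z W z₀ h (j + 1) ω))) ∂μ :=
        setLIntegral_mono' hAm1 fun ω hω => M_le hδ hq hF₂ hsw z₀ j hω
    _ ≤ ∫⁻ ω, (w1 W z₀ h δ R ε θ c₁ j ω *
            ENNReal.ofReal (F₁ (DiscAux.Z W z₀ h (j + 1) ω)) +
          w2 W z₀ h δ R ε θ q c₁ j ω *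
            ENNReal.ofReal (F₂ (DiscAux.Z W z₀ h (j + 1) ω))) ∂μ :=
        setLIntegral_le_lintegral _ _
    _ = ∫⁻ ω, w1 W z₀ h δ R ε θ c₁ j ω *
            ENNReal.ofReal (F₁ (DiscAux.Z W z₀ h (j + 1) ω)) ∂μ +
        ∫⁻ ω, w2 W z₀ h δ R ε θ q c₁ j ω *
            ENNReal.ofReal (F₂ (DiscAux.Z W z₀ h (j + 1) ω)) ∂μ := by
        apply lintegral_add_left
        exact (hw1.mono hle le_rfl).mul (ENNReal.measurable_ofReal.comp (hF₁m.comp hZ1))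
    _ ≤ _ := add_le_add c1 c2
    _ = ∫⁻ ω, (w1 W z₀ h δ R ε θ c₁ j ω * ENNReal.ofReal
        (Q * Real.exp (-(h * kk 0 (c₁ + c₂) (DiscAux.Z W z₀ h j ω))) *
          F₁ (DiscAux.Z W z₀ h j ω)) +
      w2 W z₀ h δ R ε θ q c₁ j ω * ENNReal.ofReal
        (Q * Real.exp (-(h * kk q (c₁ + q * ε) (DiscAux.Z W z₀ h j ω))) *
          F₂ (DiscAux.Z W z₀ h j ω))) ∂μ := by
        symm
        apply lintegral_add_left
        exact (hw1.mono hle le_rfl).mul (ENNReal.measurable_ofReal.comp (hρ1.comp hZ0))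
    _ = ∫⁻ ω, ENNReal.ofReal Q * (AnS W z₀ h δ R j).indicator
        (fun ω => ENNReal.ofReal (D W z₀ h ε θ q c₁ c₂ F₁ F₂ j ω)) ω ∂μ :=
        lintegral_congr fun ω => w_eq (by linarith) z₀ j ω
    _ = _ := by
        rw [lintegral_const_mul' _ _ ENNReal.ofReal_ne_top, lintegral_indicator hAm]

/-- Step (iv). -/
lemma gain [IsProbabilityMeasure μ] (hW : Drv a b c K W μ) {f : ℝ} (hh : 0 < h)
    (hδ : 0 < δ) (hc₂ : 0 < c₂) (hhc : h * c₂ ≤ δ ^ 2) (hf : 0 < f) (he : 0 < e)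
    {F₁ F₂ : ℂ → ℝ} (hF₁m : Measurable F₁) (hF₂m : Measurable F₂) (hF₁ : ∀ z, 0 ≤ F₁ z)
    (hF₂ : ∀ z, 0 ≤ F₂ z)
    (hfe : ∀ z : ℂ, δ ≤ ‖z‖ → ‖z‖ ≤ R → ‖z‖ ≤ e → f ≤ F₁ z) (z₀ : ℂ) (j : ℕ) :
    ∫⁻ ω in AnS W z₀ h δ R j, ENNReal.ofReal (D W z₀ h ε θ q c₁ c₂ F₁ F₂ j ω) ∂μ +
      ENNReal.ofReal (h * c₂ * f / (2 * e ^ 2)) * ∫⁻ ω in OcS W z₀ h δ R ε θ e j,
        ENNReal.ofReal (Real.exp (DiscAux.A W z₀ h (kk 0 c₁) j ω)) ∂μ ≤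
      ∫⁻ ω in AnS W z₀ h δ R j, ENNReal.ofReal (M W z₀ h ε θ q c₁ F₁ F₂ j ω) ∂μ := by
  have hle : Blk W 0 (j * h) ≤ (inferInstance : MeasurableSpace Ω) := Blk_le hW _ _
  have hAm : MeasurableSet (AnS W z₀ h δ R j) := hle _ (AnS_meas hh z₀ j le_rfl)
  have hOm : MeasurableSet (OcS W z₀ h δ R ε θ e j) := hle _ (OcS_meas hh z₀ j le_rfl)
  have hDm : Measurable (D W z₀ h ε θ q c₁ c₂ F₁ F₂ j) :=
    (D_meas hh hF₁m hF₂m z₀ j le_rfl).mono hle le_rfl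
  have hDm' : Measurable ((AnS W z₀ h δ R j).indicator
      (fun ω => ENNReal.ofReal (D W z₀ h ε θ q c₁ c₂ F₁ F₂ j ω))) :=
    (ENNReal.measurable_ofReal.comp hDm).indicator hAm
  rw [← lintegral_const_mul' _ _ ENNReal.ofReal_ne_top, ← lintegral_indicator hAm,
    ← lintegral_indicator hOm, ← lintegral_indicator hAm, ← lintegral_add_left hDm']
  apply lintegral_mono
  intro ω
  by_cases hA : ω ∈ AnS W z₀ h δ R j
  · simp only [Set.indicator_of_mem hA]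
    have hZ := hA j le_rfl
    have hZ0 : 0 < ‖DiscAux.Z W z₀ h j ω‖ := lt_of_lt_of_le hδ hZ.1
    have hy0 : 0 ≤ h * (c₂ / ‖DiscAux.Z W z₀ h j ω‖ ^ 2) := by positivity
    have hM0 : 0 ≤ M W z₀ h ε θ q c₁ F₁ F₂ j ω := M_nonneg hF₁ hF₂ z₀ j ω
    by_cases hO : ω ∈ OcS W z₀ h δ R ε θ e j
    · simp only [Set.indicator_of_mem hO]
      have hF : ω ∈ FlS W z₀ h ε θ j := hO.1.2
      have hZe : ‖DiscAux.Z W z₀ h j ω‖ ≤ e := hO.2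
      have hf1 := hfe _ hZ.1 hZ.2 hZe
      have hy1 : h * (c₂ / ‖DiscAux.Z W z₀ h j ω‖ ^ 2) ≤ 1 := by
        rw [← mul_div_assoc, div_le_one (by positivity)]
        exact hhc.trans (pow_le_pow_left₀ hδ.le hZ.1 2)
      have hy2 : h * c₂ / e ^ 2 ≤ h * (c₂ / ‖DiscAux.Z W z₀ h j ω‖ ^ 2) := by
        rw [← mul_div_assoc]
        exact div_le_div_of_nonneg_left (by positivity) (by positivity)
          (pow_le_pow_left₀ hZ0.le hZe 2)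
      have hex := exp_half hy0 hy1
      have hE := Real.exp_pos (DiscAux.A W z₀ h (kk 0 c₁) j ω)
      rw [← ENNReal.ofReal_mul (by positivity), ← ENNReal.ofReal_add]
      · apply ENNReal.ofReal_le_ofReal
        rw [D, if_pos hF]
        have hMe : M W z₀ h ε θ q c₁ F₁ F₂ j ω =
            Real.exp (DiscAux.A W z₀ h (kk 0 c₁) j ω) * F₁ (DiscAux.Z W z₀ h j ω) := by
          rw [M, if_pos hF]
        have h5 : h * c₂ * f / (2 * e ^ 2) * Real.exp (DiscAux.A W z₀ h (kk 0 c₁) j ω) ≤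
            M W z₀ h ε θ q c₁ F₁ F₂ j ω *
              (h * (c₂ / ‖DiscAux.Z W z₀ h j ω‖ ^ 2) / 2) := by
          rw [hMe]
          have h6 : h * c₂ * f / (2 * e ^ 2) * Real.exp (DiscAux.A W z₀ h (kk 0 c₁) j ω) =
              (Real.exp (DiscAux.A W z₀ h (kk 0 c₁) j ω) * f) * (h * c₂ / e ^ 2 / 2) := by
            field_simp
          rw [h6]
          apply mul_le_mul
          · exact mul_le_mul_of_nonneg_left hf1 hE.le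
          · linarith
          · positivity
          · exact mul_nonneg hE.le (hF₁ _)
        have h7 : M W z₀ h ε θ q c₁ F₁ F₂ j ω *
            Real.exp (-(h * (c₂ / ‖DiscAux.Z W z₀ h j ω‖ ^ 2))) ≤
            M W z₀ h ε θ q c₁ F₁ F₂ j ω *
              (1 - h * (c₂ / ‖DiscAux.Z W z₀ h j ω‖ ^ 2) / 2) :=
          mul_le_mul_of_nonneg_left hex hM0
        linarith
      · rw [D, if_pos hF]
        exact mul_nonneg hM0 (Real.exp_pos _).le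
      · positivity
    · simp only [Set.indicator_of_notMem hO, add_zero]
      apply ENNReal.ofReal_le_ofReal
      rw [D]
      split_ifs
      · exact mul_le_of_le_one_right hM0 (Real.exp_le_one_iff.2 (by linarith))
      · exact le_rfl
  · have hO : ω ∉ OcS W z₀ h δ R ε θ e j := fun hc => hA hc.1.1
    simp only [Set.indicator_of_notMem hA, Set.indicator_of_notMem hO, add_zero, le_refl]

/-- Step (i). -/
lemma base [IsProbabilityMeasure μ] (hδ : 0 < δ) (hq : 0 ≤ q) {F₁ F₂ : ℂ → ℝ}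
    (hF₂ : ∀ z, 0 ≤ F₂ z)
    (hsw : ∀ z : ℂ, δ ≤ ‖z‖ → ‖z‖ ≤ R → F₁ z ≤ ‖z‖ ^ q * F₂ z) (z₀ : ℂ) :
    ∫⁻ ω in AnS W z₀ h δ R 0, ENNReal.ofReal (M W z₀ h ε θ q c₁ F₁ F₂ 0 ω) ∂μ ≤
      ENNReal.ofReal (Real.exp (-(q * θ)) * F₂ z₀) := by
  by_cases hz : δ ≤ ‖z₀‖ ∧ ‖z₀‖ ≤ R
  · have h1 : ∀ ω, ENNReal.ofReal (M W z₀ h ε θ q c₁ F₁ F₂ 0 ω) ≤
        ENNReal.ofReal (Real.exp (-(q * θ)) * F₂ z₀) := by
      intro ω
      apply ENNReal.ofReal_le_ofReal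
      have hA : ∀ k : ℂ → ℝ, DiscAux.A W z₀ h k 0 ω = 0 := by
        intro k; simp [DiscAux.A]
      have hZ : DiscAux.Z W z₀ h 0 ω = z₀ := by simp [DiscAux.Z, eul]
      rw [M]
      split_ifs with hF
      · obtain ⟨i, hi, h1⟩ := hF
        have hi' : i = 0 := by omega
        subst hi'
        rw [hA, hZ] at h1
        rw [hA, hZ, Real.exp_zero, one_mul]
        have h2 := sw (θ := θ) (lt_of_lt_of_le hδ hz.1) hq (hF₂ _) (hsw _ hz.1 hz.2) h1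
        simpa using h2
      · rw [hA, hA, hZ]
        simp
    calc ∫⁻ ω in AnS W z₀ h δ R 0, ENNReal.ofReal (M W z₀ h ε θ q c₁ F₁ F₂ 0 ω) ∂μ
        ≤ ∫⁻ ω, ENNReal.ofReal (M W z₀ h ε θ q c₁ F₁ F₂ 0 ω) ∂μ :=
          setLIntegral_le_lintegral _ _
      _ ≤ ∫⁻ _, ENNReal.ofReal (Real.exp (-(q * θ)) * F₂ z₀) ∂μ := lintegral_mono h1
      _ = _ := by simp
  · have h1 : AnS W z₀ h δ R 0 = ∅ := by
      ext ω
      simp only [Set.mem_empty_iff_false, iff_false]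
      intro hω
      exact hz (hω 0 le_rfl)
    rw [h1]
    simp

end TRDOC

open TRDOC in
/-- TR-DOC. The occupation inequality for the Euler scheme.

Proof. Write `Z_j`, `A_j = ∑ i < j, h kk 0 c₁ (Z_i)`, `B_j = ∑ i < j, h kk 1 ε (Z_i)`, so that
`∑ i < j, h kk q (c₁ + q ε) (Z_i) = A_j + q B_j`. Let
`M_j = exp A_j * F₁ Z_j` on `FlS j`, `M_j = exp (-q θ) exp (A_j + q B_j) F₂ Z_j` off `FlS j`, and
`b_j = ∫ in AnS j, M_j` (the annulus condition includes the time `j`).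
(i) `b_0 ≤ exp (-q θ) F₂ z₀`: if the flag is up at time `0` then `θ ≤ -log |z₀|`, so
`F₁ z₀ ≤ |z₀| ^ q F₂ z₀ ≤ exp (-q θ) F₂ z₀`.
(ii) If the flag is down at `j` and up at `j + 1` (both times in the annulus) then
`θ ≤ B_{j+1} - log |Z_{j+1}|`, and `hsw` gives `F₁ Z_{j+1} ≤ |Z_{j+1}| ^ q F₂ Z_{j+1} ≤
exp (q (B_{j+1} - θ)) F₂ Z_{j+1}`. So on `AnS (j+1)`: `M_{j+1} ≤ exp A_{j+1} F₁ Z_{j+1}` on
`FlS j`, and `M_{j+1} ≤ exp (-q θ) exp (A_{j+1} + q B_{j+1}) F₂ Z_{j+1}` off `FlS j`.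
(iii) `cond_step` (twice, with the weights `indicator (AnS j ∩ FlS j) (exp A_{j+1})` and
`indicator (AnS j \ FlS j) (exp (-q θ + A_{j+1} + q B_{j+1}))`) gives
`b_{j+1} ≤ Q ∫ in AnS j, M_j (exp (-h c₂ / |Z_j|^2) on FlS j, 1 off FlS j)`, because
`kk 0 (c₁ + c₂) z = kk 0 c₁ z + c₂ / |z| ^ 2`.
(iv) `1 - exp (-y) ≥ y / 2` for `0 ≤ y ≤ 1`, `y = h c₂ / |Z_j| ^ 2 ≤ 1`: on `OcS j` one has
`M_j (1 - exp (-y)) ≥ (h c₂ / (2 e^2)) f exp A_j`. Hence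
`b_{j+1} + Q x_j ≤ Q b_j` with `x_j = (h c₂ f / (2 e^2)) ∫ in OcS j, exp A_j`, and
`b_J + ∑ j < J, x_j ≤ Q ^ J b_0` as in `DiscAux.total`.
All functions of the past are measurable for `Blk W 0 (j h)` (`DiscAux.Z_meas`, `A_meas`).
If `z₀` is not in the annulus, all the sets are empty. -/
theorem disc_occ [IsProbabilityMeasure μ] (hW : Drv a b c K W μ)
    {h Q δ R ε c₁ c₂ q θ f e : ℝ} (hh : 0 < h) (hQ : 1 ≤ Q) (hδ : 0 < δ) (hc₁ : 0 ≤ c₁)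
    (hc₂ : 0 < c₂) (hhc : h * c₂ ≤ δ ^ 2) (hq : 0 ≤ q) (hf : 0 < f) (he : 0 < e)
    {F₁ F₂ : ℂ → ℝ} (hF₁m : Measurable F₁) (hF₂m : Measurable F₂) (hF₁ : ∀ z, 0 ≤ F₁ z)
    (hF₂ : ∀ z, 0 ≤ F₂ z)
    (hsw : ∀ z : ℂ, δ ≤ ‖z‖ → ‖z‖ ≤ R → F₁ z ≤ ‖z‖ ^ q * F₂ z)
    (hfe : ∀ z : ℂ, δ ≤ ‖z‖ → ‖z‖ ≤ R → ‖z‖ ≤ e → f ≤ F₁ z)
    (h1 : ∀ (z : ℂ) (s : ℝ), δ ≤ ‖z‖ → ‖z‖ ≤ R → 0 ≤ s →
      ∫⁻ ω, ENNReal.ofReal (F₁ (z + 2 * h / z - (W (s + h) ω - W s ω))) ∂μ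
        ≤ ENNReal.ofReal (Q * Real.exp (-(h * kk 0 (c₁ + c₂) z)) * F₁ z))
    (h2 : ∀ (z : ℂ) (s : ℝ), δ ≤ ‖z‖ → ‖z‖ ≤ R → 0 ≤ s →
      ∫⁻ ω, ENNReal.ofReal (F₂ (z + 2 * h / z - (W (s + h) ω - W s ω))) ∂μ
        ≤ ENNReal.ofReal (Q * Real.exp (-(h * kk q (c₁ + q * ε) z)) * F₂ z))
    (z₀ : ℂ) (J : ℕ) :
    ∑ j ∈ Finset.range J, ENNReal.ofReal h *
        ∫⁻ ω in OcS W z₀ h δ R ε θ e j,
          ENNReal.ofReal (Real.exp (DiscAux.A W z₀ h (kk 0 c₁) j ω)) ∂μ ≤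
      ENNReal.ofReal (2 * e ^ 2 / (c₂ * f) * Q ^ J * Real.exp (-(q * θ)) * F₂ z₀) := by
  have hκ : 0 < h * c₂ * f / (2 * e ^ 2) := by positivity
  have hQ1 : (1 : ℝ≥0∞) ≤ ENNReal.ofReal Q := by
    rw [← ENNReal.ofReal_one]; exact ENNReal.ofReal_le_ofReal hQ
  have key : ∀ J : ℕ, ∫⁻ ω in AnS W z₀ h δ R J,
        ENNReal.ofReal (M W z₀ h ε θ q c₁ F₁ F₂ J ω) ∂μ +
      ∑ j ∈ Finset.range J, ENNReal.ofReal (h * c₂ * f / (2 * e ^ 2)) *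
        ∫⁻ ω in OcS W z₀ h δ R ε θ e j,
          ENNReal.ofReal (Real.exp (DiscAux.A W z₀ h (kk 0 c₁) j ω)) ∂μ ≤
      ENNReal.ofReal Q ^ J * ENNReal.ofReal (Real.exp (-(q * θ)) * F₂ z₀) := by
    intro J
    induction J with
    | zero =>
      simpa using base (W := W) (μ := μ) (h := h) (ε := ε) (θ := θ) (c₁ := c₁) hδ hq hF₂ hsw z₀
    | succ j ih =>
      have s1 := step (θ := θ) hW hh hQ hδ hq hF₁m hF₂m hF₂ hsw h1 h2 z₀ j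
      have s2 := gain (ε := ε) (θ := θ) (q := q) (c₁ := c₁) hW hh hδ hc₂ hhc hf he hF₁m hF₂m
        hF₁ hF₂ hfe z₀ j
      obtain ⟨b1, hb1⟩ : ∃ b1, b1 = ∫⁻ ω in AnS W z₀ h δ R (j + 1),
        ENNReal.ofReal (M W z₀ h ε θ q c₁ F₁ F₂ (j + 1) ω) ∂μ := ⟨_, rfl⟩
      obtain ⟨b0, hb0⟩ : ∃ b0, b0 = ∫⁻ ω in AnS W z₀ h δ R j,
        ENNReal.ofReal (M W z₀ h ε θ q c₁ F₁ F₂ j ω) ∂μ := ⟨_, rfl⟩
      obtain ⟨d, hd⟩ : ∃ d, d = ∫⁻ ω in AnS W z₀ h δ R j,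
        ENNReal.ofReal (D W z₀ h ε θ q c₁ c₂ F₁ F₂ j ω) ∂μ := ⟨_, rfl⟩
      obtain ⟨x, hx⟩ : ∃ x, x = ENNReal.ofReal (h * c₂ * f / (2 * e ^ 2)) *
        ∫⁻ ω in OcS W z₀ h δ R ε θ e j,
          ENNReal.ofReal (Real.exp (DiscAux.A W z₀ h (kk 0 c₁) j ω)) ∂μ := ⟨_, rfl⟩
      obtain ⟨S, hS⟩ : ∃ S, S = ∑ j ∈ Finset.range j,
        ENNReal.ofReal (h * c₂ * f / (2 * e ^ 2)) *
        ∫⁻ ω in OcS W z₀ h δ R ε θ e j,
          ENNReal.ofReal (Real.exp (DiscAux.A W z₀ h (kk 0 c₁) j ω)) ∂μ := ⟨_, rfl⟩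
      rw [← hb1, ← hd] at s1
      rw [← hd, ← hx, ← hb0] at s2
      rw [← hb0, ← hS] at ih
      rw [Finset.sum_range_succ, ← hb1, ← hS, ← hx]
      have hxq : x ≤ ENNReal.ofReal Q * x := by
        calc x = 1 * x := (one_mul x).symm
          _ ≤ ENNReal.ofReal Q * x := by gcongr
      have hSq : S ≤ ENNReal.ofReal Q * S := by
        calc S = 1 * S := (one_mul S).symm
          _ ≤ ENNReal.ofReal Q * S := by gcongr
      calc b1 + (S + x) = (b1 + x) + S := by ring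
        _ ≤ (ENNReal.ofReal Q * d + ENNReal.ofReal Q * x) + ENNReal.ofReal Q * S := by gcongr
        _ = ENNReal.ofReal Q * ((d + x) + S) := by ring
        _ ≤ ENNReal.ofReal Q * (b0 + S) := by gcongr
        _ ≤ ENNReal.ofReal Q *
            (ENNReal.ofReal Q ^ j * ENNReal.ofReal (Real.exp (-(q * θ)) * F₂ z₀)) := by gcongr
        _ = ENNReal.ofReal Q ^ (j + 1) *
            ENNReal.ofReal (Real.exp (-(q * θ)) * F₂ z₀) := by ring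
  have hkey := le_trans le_add_self (key J)
  have hr0 : 0 ≤ 2 * e ^ 2 / (c₂ * f) := by positivity
  have e1 : ∀ j : ℕ, ENNReal.ofReal h *
        ∫⁻ ω in OcS W z₀ h δ R ε θ e j,
          ENNReal.ofReal (Real.exp (DiscAux.A W z₀ h (kk 0 c₁) j ω)) ∂μ =
      ENNReal.ofReal (2 * e ^ 2 / (c₂ * f)) * (ENNReal.ofReal (h * c₂ * f / (2 * e ^ 2)) *
        ∫⁻ ω in OcS W z₀ h δ R ε θ e j,
          ENNReal.ofReal (Real.exp (DiscAux.A W z₀ h (kk 0 c₁) j ω)) ∂μ) := by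
    intro j
    rw [← mul_assoc, ← ENNReal.ofReal_mul hr0]
    congr 2
    field_simp
  calc ∑ j ∈ Finset.range J, ENNReal.ofReal h *
        ∫⁻ ω in OcS W z₀ h δ R ε θ e j,
          ENNReal.ofReal (Real.exp (DiscAux.A W z₀ h (kk 0 c₁) j ω)) ∂μ
      = ENNReal.ofReal (2 * e ^ 2 / (c₂ * f)) *
        ∑ j ∈ Finset.range J, ENNReal.ofReal (h * c₂ * f / (2 * e ^ 2)) *
        ∫⁻ ω in OcS W z₀ h δ R ε θ e j,
          ENNReal.ofReal (Real.exp (DiscAux.A W z₀ h (kk 0 c₁) j ω)) ∂μ := by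
        rw [Finset.mul_sum]
        exact Finset.sum_congr rfl fun j _ => e1 j
    _ ≤ ENNReal.ofReal (2 * e ^ 2 / (c₂ * f)) *
        (ENNReal.ofReal Q ^ J * ENNReal.ofReal (Real.exp (-(q * θ)) * F₂ z₀)) := by gcongr
    _ = ENNReal.ofReal (2 * e ^ 2 / (c₂ * f) * Q ^ J * Real.exp (-(q * θ)) * F₂ z₀) := by
        rw [← ENNReal.ofReal_pow (by linarith), ← ENNReal.ofReal_mul (by positivity),
          ← ENNReal.ofReal_mul hr0]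
        congr 1
        ring

end

end Pool.Agent.SLE
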