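import Pool.Agent.Lib.MP_c17912_pr_TR.Base
import Pool.Agent.Lib.MP_c17912_pr_LN.EX

set_option autoImplicit false

open MeasureTheory ProbabilityTheory Filter
open scoped NNReal ENNReal Topology Real

namespace Pool.Agent.SLE

noncomputable section

namespace TRGEX

theorem exp3 (y : ℝ) : |Real.exp y - 1 - y - y ^ 2 / 2| ≤ |y| ^ 3 * Real.exp |y| := by
  have h := Complex.norm_exp_sub_sum_le_norm_mul_exp (y : ℂ) 3
  have e : Complex.exp (y : ℂ) - ∑ m ∈ Finset.range 3, (y : ℂ) ^ m / (m.factorial : ℂ)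
      = ((Real.exp y - 1 - y - y ^ 2 / 2 : ℝ) : ℂ) := by
    simp only [Finset.sum_range_succ, Finset.sum_range_zero, Nat.factorial]
    push_cast
    ring
  rw [e, Complex.norm_real, Complex.norm_real, Real.norm_eq_abs, Real.norm_eq_abs] at h
  exact h

theorem sq_re (w : ℂ) : w.re ^ 2 = (‖w‖ ^ 2 + (w ^ 2).re) / 2 := by
  rw [← Complex.normSq_eq_norm_sq, Complex.normSq_apply, pow_two w, Complex.mul_re]
  ring

/-- The expansion with numbers. -/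
theorem core {g G A T t D p3 : ℝ} {p1 p2 ζ : ℂ} (hg : 0 ≤ g) (hgG : g ≤ G)
    (hA : 0 ≤ A) (h1 : ‖p1‖ ≤ A) (h2 : ‖p2‖ ≤ A) (h3 : |p3| ≤ A) (ht : ‖ζ‖ = t) (htT : t ≤ T)
    (hD : |D - (p1 * ζ).re - (p2 * ζ ^ 2).re - p3 * t ^ 2| ≤ A * t ^ 3) :
    |g * Real.exp D - g - ((g : ℂ) * p1 * ζ).re
      - ((g : ℂ) * (p2 + 1 / 4 * p1 ^ 2) * ζ ^ 2).re
      - g * (p3 + 1 / 4 * ‖p1‖ ^ 2) * t ^ 2| ≤
      G * ((A * (1 + T) ^ 2) ^ 3 * Real.exp (A * (1 + T) ^ 2 * T) + A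
        + A * (A * (1 + T) ^ 2) * (2 + T)) * t ^ 3 := by
  have ht0 : 0 ≤ t := ht ▸ norm_nonneg ζ
  have hT0 : 0 ≤ T := ht0.trans htT
  set B := A * (1 + T) ^ 2 with hB
  have hB0 : 0 ≤ B := by positivity
  have hAB : A ≤ B := by
    rw [hB]
    nlinarith [mul_nonneg hA hT0, mul_nonneg (mul_nonneg hA hT0) hT0]
  -- bounds
  have b1 : |(p1 * ζ).re| ≤ A * t := by
    refine (Complex.abs_re_le_norm _).trans ?_
    rw [norm_mul, ht]
    exact mul_le_mul_of_nonneg_right h1 ht0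
  have b2 : |(p2 * ζ ^ 2).re| ≤ A * t ^ 2 := by
    refine (Complex.abs_re_le_norm _).trans ?_
    rw [norm_mul, norm_pow, ht]
    exact mul_le_mul_of_nonneg_right h2 (by positivity)
  have b3 : |p3 * t ^ 2| ≤ A * t ^ 2 := by
    rw [abs_mul, abs_of_nonneg (by positivity : (0 : ℝ) ≤ t ^ 2)]
    exact mul_le_mul_of_nonneg_right h3 (by positivity)
  set l := (p1 * ζ).re with hl
  set q := (p2 * ζ ^ 2).re with hq
  have hDl : |D - l| ≤ A * (2 + T) * t ^ 2 := by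
    have e : D - l = (D - l - q - p3 * t ^ 2) + (q + p3 * t ^ 2) := by ring
    rw [e]
    have h := abs_add_le (D - l - q - p3 * t ^ 2) (q + p3 * t ^ 2)
    have h' := abs_add_le q (p3 * t ^ 2)
    have h4 : A * t ^ 3 ≤ A * T * t ^ 2 := by
      have : A * t ^ 3 = A * t ^ 2 * t := by ring
      rw [this]
      have h5 := mul_le_mul_of_nonneg_left htT (by positivity : 0 ≤ A * t ^ 2)
      nlinarith
    nlinarith
  have hDabs : |D| ≤ B * t := by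
    have h := abs_add_le (D - l) l
    have e : D - l + l = D := by ring
    rw [e] at h
    have h4 : A * (2 + T) * t ^ 2 ≤ A * (2 + T) * T * t := by
      have h5 := mul_le_mul_of_nonneg_left htT (by positivity : 0 ≤ A * (2 + T) * t)
      nlinarith
    have h6 : A * (2 + T) * T * t + A * t = B * t := by
      rw [hB]; ring
    linarith
  have hsq : |D ^ 2 - l ^ 2| ≤ 2 * (A * B * (2 + T)) * t ^ 3 := by
    have e : D ^ 2 - l ^ 2 = (D - l) * (D + l) := by ring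
    rw [e, abs_mul]
    have h5 : |D + l| ≤ 2 * B * t := by
      have h := abs_add_le D l
      have h6 : A * t ≤ B * t := mul_le_mul_of_nonneg_right hAB ht0
      linarith
    calc |D - l| * |D + l| ≤ (A * (2 + T) * t ^ 2) * (2 * B * t) :=
          mul_le_mul hDl h5 (abs_nonneg _) (by positivity)
      _ = _ := by ring
  have hexp : |Real.exp D - 1 - D - D ^ 2 / 2| ≤ B ^ 3 * Real.exp (B * T) * t ^ 3 := by
    have hy2 : |D| ≤ B * T := hDabs.trans (mul_le_mul_of_nonneg_left htT (by positivity))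
    refine (exp3 _).trans ?_
    calc |D| ^ 3 * Real.exp |D| ≤ (B * t) ^ 3 * Real.exp (B * T) := by
          gcongr
      _ = _ := by ring
  have hl2 : l ^ 2 = (‖p1‖ ^ 2 * t ^ 2 + (p1 ^ 2 * ζ ^ 2).re) / 2 := by
    rw [hl, sq_re, norm_mul, ht, mul_pow, mul_pow]
  -- algebra
  have e1 : ((g : ℂ) * p1 * ζ).re = g * l := by
    rw [mul_assoc, Complex.re_ofReal_mul]
  have e2 : ((g : ℂ) * (p2 + 1 / 4 * p1 ^ 2) * ζ ^ 2).re
      = g * (q + 1 / 4 * (p1 ^ 2 * ζ ^ 2).re) := by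
    have : (g : ℂ) * (p2 + 1 / 4 * p1 ^ 2) * ζ ^ 2
        = (g : ℂ) * (p2 * ζ ^ 2 + (((1 / 4 : ℝ)) : ℂ) * (p1 ^ 2 * ζ ^ 2)) := by
      push_cast
      ring
    rw [this, Complex.re_ofReal_mul, Complex.add_re, Complex.re_ofReal_mul]
  rw [e1, e2]
  have e3 : g * Real.exp D - g - g * l - g * (q + 1 / 4 * (p1 ^ 2 * ζ ^ 2).re)
      - g * (p3 + 1 / 4 * ‖p1‖ ^ 2) * t ^ 2
      = g * ((Real.exp D - 1 - D - D ^ 2 / 2)
        + (D - l - q - p3 * t ^ 2) + 1 / 2 * (D ^ 2 - l ^ 2)) := by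
    rw [hl2]
    ring
  rw [e3, abs_mul, abs_of_nonneg hg]
  have hsum : |(Real.exp D - 1 - D - D ^ 2 / 2)
        + (D - l - q - p3 * t ^ 2) + 1 / 2 * (D ^ 2 - l ^ 2)| ≤
      (B ^ 3 * Real.exp (B * T) + A + A * B * (2 + T)) * t ^ 3 := by
    have h := abs_add_three (Real.exp D - 1 - D - D ^ 2 / 2)
      (D - l - q - p3 * t ^ 2) (1 / 2 * (D ^ 2 - l ^ 2))
    have h5 : |1 / 2 * (D ^ 2 - l ^ 2)| ≤ 1 / 2 * (2 * (A * B * (2 + T)) * t ^ 3) := by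
      rw [abs_mul, abs_of_nonneg (by positivity : (0 : ℝ) ≤ 1 / 2)]
      exact mul_le_mul_of_nonneg_left hsq (by positivity)
    nlinarith
  have hG0 : 0 ≤ G := hg.trans hgG
  calc g * |(Real.exp D - 1 - D - D ^ 2 / 2)
        + (D - l - q - p3 * t ^ 2) + 1 / 2 * (D ^ 2 - l ^ 2)|
      ≤ G * ((B ^ 3 * Real.exp (B * T) + A + A * B * (2 + T)) * t ^ 3) :=
        mul_le_mul hgG hsum (abs_nonneg _) hG0
    _ = _ := by ring

theorem deriv_zero_fun (θ : ℝ) : deriv (fun _ : ℝ => (0 : ℝ)) θ = 0 := by simp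

theorem al_zero (z : ℂ) : al (fun _ => 0) z = -1 := by
  unfold al
  rw [deriv_zero_fun]
  simp

theorem be_zero (z : ℂ) : be (fun _ => 0) z = 0 := by
  unfold be
  simp

theorem al_rel (α : ℝ) (ψ : ℝ → ℝ) (z : ℂ) : al' α ψ z = al ψ z + (1 + α : ℝ) := by
  unfold al' al
  push_cast
  ring

end TRGEX

/-- TR-GEX. Second order expansion of `GE α ψ` on an annulus, with bounds for the coefficients.

Proof. As `gg_exp` in `LN/FB.lean` (copy its private lemma `core`, used with `β = 1`).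
`Λ z := α log |z| + ψ (arg z) = Phi ψ z - (1 + α) * Phi (fun _ => 0) z`, and `phi_exp` (LN/EX) for
`ψ` and for `0` gives `|Λ (z + ζ) - Λ z - (L1 z ζ).re - (L2 z ζ ^ 2).re - P3 ψ z |ζ| ^ 2|
≤ C (|ζ| / |z|) ^ 3` for `|ζ| ≤ |z| / 2`, because `P1 ψ - (1 + α) P1 0 = L1 α ψ`,
`P2 ψ - (1 + α) P2 0 = L2 α ψ` and `P3 0 = 0`. Then exponentiate. -/
theorem ge_exp {ψ : ℝ → ℝ} (hψ : ContDiff ℝ 3 ψ) (hper : Function.Periodic ψ (2 * π)) (α : ℝ)
    {δ R : ℝ} (hδ : 0 < δ) (hδR : δ ≤ R) :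
    ∃ C > 0, Exp2 (GE α ψ) (T1 α ψ) (T2 α ψ) (T3 α ψ) δ R C ∧
      ∀ z : ℂ, δ ≤ ‖z‖ → ‖z‖ ≤ R →
        ‖T1 α ψ z‖ ≤ C ∧ ‖T2 α ψ z‖ ≤ C ∧ |T3 α ψ z| ≤ C := by
  obtain ⟨C₁, hC₁, hψ0, hψ1, hψ2, hexp⟩ := phi_exp hψ hper
  obtain ⟨C₂, hC₂, -, -, -, hexp0⟩ := phi_exp (ψ := fun _ => 0) contDiff_const
    (by intro x; rfl)
  -- constants
  set a₀ : ℝ := |α| + C₁ with ha₀
  have ha₀0 : 0 ≤ a₀ := by positivity
  set C₃ : ℝ := C₁ + |1 + α| * C₂ with hC₃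
  have hC₃0 : 0 ≤ C₃ := by positivity
  set A : ℝ := a₀ / δ + (a₀ + C₁) / δ ^ 2 + C₃ / δ ^ 3 with hA
  have hA0 : 0 ≤ A := by positivity
  have hA1 : a₀ / δ ≤ A := by
    rw [hA]
    have : 0 ≤ (a₀ + C₁) / δ ^ 2 := by positivity
    have : 0 ≤ C₃ / δ ^ 3 := by positivity
    linarith
  have hA2 : (a₀ + C₁) / δ ^ 2 ≤ A := by
    rw [hA]
    have : 0 ≤ a₀ / δ := by positivity
    have : 0 ≤ C₃ / δ ^ 3 := by positivity
    linarith
  have hA3 : C₃ / δ ^ 3 ≤ A := by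
    rw [hA]
    have : 0 ≤ a₀ / δ := by positivity
    have : 0 ≤ (a₀ + C₁) / δ ^ 2 := by positivity
    linarith
  set G : ℝ := Real.exp (|α| * (|Real.log δ| + |Real.log R|) + C₁) with hG
  have hG0 : 0 < G := Real.exp_pos _
  set K : ℝ := G * ((A * (1 + δ / 2) ^ 2) ^ 3 *
    Real.exp (A * (1 + δ / 2) ^ 2 * (δ / 2)) + A
        + A * (A * (1 + δ / 2) ^ 2) * (2 + δ / 2)) with hK
  have hK0 : 0 ≤ K := by positivity
  set L : ℝ := G * (A + 1 / 4 * A ^ 2) with hL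
  have hL0 : 0 ≤ L := by positivity
  -- bounds of the coefficients
  have hal : ∀ z : ℂ, ‖al' α ψ z‖ ≤ a₀ := by
    intro z
    unfold al'
    refine (norm_sub_le _ _).trans ?_
    rw [norm_mul, Complex.norm_I, mul_one, Complex.norm_real, Complex.norm_real,
      Real.norm_eq_abs, Real.norm_eq_abs]
    linarith [hψ1 (Complex.arg z)]
  have hbe : ∀ z : ℂ, |be ψ z| ≤ C₁ := fun z => hψ2 _
  have hP1 : ∀ z : ℂ, δ ≤ ‖z‖ → ‖L1 α ψ z‖ ≤ A := by
    intro z hz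
    unfold L1
    rw [norm_div]
    refine le_trans ?_ hA1
    gcongr
    exact hal z
  have hP2 : ∀ z : ℂ, δ ≤ ‖z‖ → ‖L2 α ψ z‖ ≤ A := by
    intro z hz
    unfold L2
    rw [norm_div, norm_pow]
    refine le_trans ?_ hA2
    have h1 : ‖-(al' α ψ z) / 2 - ((be ψ z : ℝ) : ℂ) / 4‖ ≤ a₀ + C₁ := by
      refine (norm_sub_le _ _).trans ?_
      rw [norm_div, norm_neg, norm_div, Complex.norm_real, Real.norm_eq_abs]
      have h2 : ‖(2 : ℂ)‖ = 2 := by norm_num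
      have h4 : ‖(4 : ℂ)‖ = 4 := by norm_num
      rw [h2, h4]
      linarith [hal z, hbe z]
    gcongr
  have hP3 : ∀ z : ℂ, δ ≤ ‖z‖ → |P3 ψ z| ≤ A := by
    intro z hz
    unfold P3
    rw [abs_div, abs_div, abs_of_nonneg (by positivity : (0 : ℝ) ≤ ‖z‖ ^ 2)]
    refine le_trans ?_ hA2
    have h1 : |be ψ z| / |(4 : ℝ)| ≤ a₀ + C₁ := by
      rw [abs_of_pos (by norm_num : (0 : ℝ) < 4)]
      linarith [hbe z]
    gcongr
  have hGG0 : ∀ z : ℂ, 0 ≤ GE α ψ z := fun z => (Real.exp_pos _).le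
  have hGG : ∀ z : ℂ, δ ≤ ‖z‖ → ‖z‖ ≤ R → GE α ψ z ≤ G := by
    intro z hz hzR
    unfold GE
    rw [hG]
    apply Real.exp_le_exp.2
    have h0 : 0 < ‖z‖ := hδ.trans_le hz
    have h1 : Real.log δ ≤ Real.log ‖z‖ := Real.log_le_log hδ hz
    have h2 : Real.log ‖z‖ ≤ Real.log R := Real.log_le_log h0 hzR
    have h3 : |Real.log ‖z‖| ≤ |Real.log δ| + |Real.log R| := by
      rw [abs_le]
      constructor
      · linarith [neg_abs_le (Real.log δ), abs_nonneg (Real.log R)]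
      · linarith [le_abs_self (Real.log R), abs_nonneg (Real.log δ)]
    have h4 : α * Real.log ‖z‖ ≤ |α| * (|Real.log δ| + |Real.log R|) := by
      refine (le_abs_self _).trans ?_
      rw [abs_mul]
      gcongr
    have h5 := (le_abs_self _).trans (hψ0 (Complex.arg z))
    linarith
  -- the expansion of the logarithm
  have hlog : ∀ z : ℂ, z ≠ 0 → ∀ ζ : ℂ, ‖ζ‖ ≤ ‖z‖ / 2 →
      |((α * Real.log ‖z + ζ‖ + ψ (Complex.arg (z + ζ))) - (α * Real.log ‖z‖ + ψ (Complex.arg z)))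
        - (L1 α ψ z * ζ).re - (L2 α ψ z * ζ ^ 2).re - P3 ψ z * ‖ζ‖ ^ 2| ≤
      C₃ * (‖ζ‖ / ‖z‖) ^ 3 := by
    intro z hz ζ hζ
    have h1 := hexp z hz ζ hζ
    have h2 := hexp0 z hz ζ hζ
    have e1 : (L1 α ψ z * ζ).re
        = (P1 ψ z * ζ).re - (1 + α) * (P1 (fun _ => 0) z * ζ).re := by
      have : L1 α ψ z * ζ = P1 ψ z * ζ - ((1 + α : ℝ) : ℂ) * (P1 (fun _ => 0) z * ζ) := by
        unfold L1 P1
        rw [TRGEX.al_rel, TRGEX.al_zero]
        ring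
      rw [this, Complex.sub_re, Complex.re_ofReal_mul]
    have e2 : (L2 α ψ z * ζ ^ 2).re
        = (P2 ψ z * ζ ^ 2).re - (1 + α) * (P2 (fun _ => 0) z * ζ ^ 2).re := by
      have : L2 α ψ z * ζ ^ 2
          = P2 ψ z * ζ ^ 2 - ((1 + α : ℝ) : ℂ) * (P2 (fun _ => 0) z * ζ ^ 2) := by
        unfold L2 P2
        rw [TRGEX.al_rel, TRGEX.al_zero, TRGEX.be_zero]
        push_cast
        ring
      rw [this, Complex.sub_re, Complex.re_ofReal_mul]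
    have e3 : P3 (fun _ => 0) z = 0 := by
      unfold P3
      rw [TRGEX.be_zero]
      simp
    rw [e1, e2]
    rw [e3] at h2
    have e4 : ((α * Real.log ‖z + ζ‖ + ψ (Complex.arg (z + ζ)))
          - (α * Real.log ‖z‖ + ψ (Complex.arg z)))
        - ((P1 ψ z * ζ).re - (1 + α) * (P1 (fun _ => 0) z * ζ).re)
        - ((P2 ψ z * ζ ^ 2).re - (1 + α) * (P2 (fun _ => 0) z * ζ ^ 2).re) - P3 ψ z * ‖ζ‖ ^ 2
        = (Phi ψ (z + ζ) - Phi ψ z - (P1 ψ z * ζ).re - (P2 ψ z * ζ ^ 2).re - P3 ψ z * ‖ζ‖ ^ 2)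
          - (1 + α) * (Phi (fun _ => 0) (z + ζ) - Phi (fun _ => 0) z
            - (P1 (fun _ => 0) z * ζ).re - (P2 (fun _ => 0) z * ζ ^ 2).re - 0 * ‖ζ‖ ^ 2) := by
      unfold Phi
      ring
    rw [e4]
    refine (abs_sub _ _).trans ?_
    rw [abs_mul, hC₃]
    have h3 : |1 + α| * |Phi (fun _ => 0) (z + ζ) - Phi (fun _ => 0) z
            - (P1 (fun _ => 0) z * ζ).re - (P2 (fun _ => 0) z * ζ ^ 2).re - 0 * ‖ζ‖ ^ 2|
        ≤ |1 + α| * (C₂ * (‖ζ‖ / ‖z‖) ^ 3) := mul_le_mul_of_nonneg_left h2 (abs_nonneg _)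
    linarith
  refine ⟨K + L + 1, by positivity, ?_, ?_⟩
  · intro z hz hzR ζ hζ
    have h0 : 0 < ‖z‖ := hδ.trans_le hz
    have hz0 : z ≠ 0 := norm_pos_iff.1 h0
    have h1 := hlog z hz0 ζ (hζ.trans (by linarith))
    have h2 : C₃ * (‖ζ‖ / ‖z‖) ^ 3 ≤ A * ‖ζ‖ ^ 3 := by
      have h3 : C₃ * (‖ζ‖ / ‖z‖) ^ 3 ≤ C₃ * (‖ζ‖ / δ) ^ 3 := by gcongr
      have h4 : C₃ * (‖ζ‖ / δ) ^ 3 = C₃ / δ ^ 3 * ‖ζ‖ ^ 3 := by
        rw [div_pow]
        ring
      rw [h4] at h3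
      exact h3.trans (mul_le_mul_of_nonneg_right hA3 (by positivity))
    have h5 := TRGEX.core (g := GE α ψ z) (G := G) (A := A) (T := δ / 2) (t := ‖ζ‖)
      (D := (α * Real.log ‖z + ζ‖ + ψ (Complex.arg (z + ζ)))
        - (α * Real.log ‖z‖ + ψ (Complex.arg z)))
      (p3 := P3 ψ z) (p1 := L1 α ψ z) (p2 := L2 α ψ z) (ζ := ζ)
      (hGG0 z) (hGG z hz hzR) hA0 (hP1 z hz) (hP2 z hz) (hP3 z hz) rfl hζ (h1.trans h2)
    have h6 : GE α ψ (z + ζ) = GE α ψ z * Real.exp ((α * Real.log ‖z + ζ‖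
        + ψ (Complex.arg (z + ζ))) - (α * Real.log ‖z‖ + ψ (Complex.arg z))) := by
      unfold GE
      rw [← Real.exp_add]
      congr 1
      ring
    rw [h6]
    unfold T1 T2 T3
    refine h5.trans ?_
    rw [← hK]
    exact mul_le_mul_of_nonneg_right (by linarith) (by positivity)
  · intro z hz hzR
    have g0 := hGG0 z
    have g1 := hGG z hz hzR
    have p1 := hP1 z hz
    have p2 := hP2 z hz
    have p3 := hP3 z hz
    have n1 : 0 ≤ ‖L1 α ψ z‖ := norm_nonneg _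
    have s1 : ‖L1 α ψ z‖ ^ 2 ≤ A ^ 2 := by gcongr
    refine ⟨?_, ?_, ?_⟩
    · unfold T1
      rw [norm_mul, Complex.norm_real, Real.norm_eq_abs, abs_of_nonneg g0]
      have h : GE α ψ z * ‖L1 α ψ z‖ ≤ G * A := by gcongr
      have h' : G * A ≤ L := by
        rw [hL]
        have : 0 ≤ G * (1 / 4 * A ^ 2) := by positivity
        nlinarith
      linarith
    · unfold T2
      rw [norm_mul, Complex.norm_real, Real.norm_eq_abs, abs_of_nonneg g0]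
      have h1 : ‖L2 α ψ z + 1 / 4 * L1 α ψ z ^ 2‖ ≤ A + 1 / 4 * A ^ 2 := by
        refine (norm_add_le _ _).trans ?_
        rw [norm_mul, norm_div, norm_one, norm_pow]
        have h4 : ‖(4 : ℂ)‖ = 4 := by norm_num
        rw [h4]
        gcongr
      have h : GE α ψ z * ‖L2 α ψ z + 1 / 4 * L1 α ψ z ^ 2‖ ≤ L := by
        rw [hL]
        gcongr
      linarith
    · unfold T3
      rw [abs_mul, abs_of_nonneg g0]
      have h1 : |P3 ψ z + 1 / 4 * ‖L1 α ψ z‖ ^ 2| ≤ A + 1 / 4 * A ^ 2 := by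
        refine (abs_add_le _ _).trans ?_
        rw [abs_of_nonneg (by positivity : 0 ≤ 1 / 4 * ‖L1 α ψ z‖ ^ 2)]
        gcongr
      have h : GE α ψ z * |P3 ψ z + 1 / 4 * ‖L1 α ψ z‖ ^ 2| ≤ L := by
        rw [hL]
        gcongr
      linarith

end

end Pool.Agent.SLE
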