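import Pool.Agent.Lib.MP_c17912_pr_LN.Base
import Pool.Agent.Lib.MP_c17912_pr_LN.GN
import Pool.Agent.Lib.MP_c17912_pr.Disc
import Pool.Agent.Lib.MP_c17912_pr.Smg

/-!
# MP_c17912_pr, transience at all noise levels (project TR): definitions

Throughout `Z = g - U` for a solution `g` of the Loewner equation driven by `U`.

* `GE α ψ z = |z| ^ α * exp (ψ (arg z))` and the coefficients `T1, T2, T3` of its second order
  expansion; `Op`: the generator of `Z` applied to it (divided by it and multiplied by `|z|^2`).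
* `HasS a b c`: the two strict supermartingales (the only property of the covariance matrix which
  is used).
* `lk U g s t`: the logarithmic clock `∫ 1 / |Z|^2` on `[s,t]`.
* `low U g r j`: the cell `[j r^2, (j+1) r^2]` is low: it contains a time with `|Z| ≤ r`.
* `XX U g r M`: the logarithmic clock spent in the cells `j < M` which are not low.
* `tr U g r j`: the cell `j` is low and the cell `j + 1` is not low.
* `NN U g r M`: the number of `j` with `j + 1 < M` and `tr U g r j`.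
* `rider U g r s L`: the cells `s, ..., s + L - 1` are low.
* `ll N`, `lev n k`: the levels; the length scale of level `k` is `2 ^ (-(lev n k))`.
-/

set_option autoImplicit false

open MeasureTheory ProbabilityTheory Filter
open scoped NNReal ENNReal Topology Real

namespace Pool.Agent.SLE

noncomputable section

/-- The function `|z| ^ α * exp (ψ (arg z))`. -/
def GE (α : ℝ) (ψ : ℝ → ℝ) (z : ℂ) : ℝ := Real.exp (α * Real.log ‖z‖ + ψ (Complex.arg z))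

/-- Coefficients of the expansion of `α log |z| + ψ (arg z)`. -/
def al' (α : ℝ) (ψ : ℝ → ℝ) (z : ℂ) : ℂ :=
  (α : ℂ) - ((deriv ψ (Complex.arg z) : ℝ) : ℂ) * Complex.I
/-- Coefficients of the expansion of `α log |z| + ψ (arg z)`. -/
def L1 (α : ℝ) (ψ : ℝ → ℝ) (z : ℂ) : ℂ := al' α ψ z / z
/-- Coefficients of the expansion of `α log |z| + ψ (arg z)`. -/
def L2 (α : ℝ) (ψ : ℝ → ℝ) (z : ℂ) : ℂ :=
  (-(al' α ψ z) / 2 - ((be ψ z : ℝ) : ℂ) / 4) / z ^ 2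

/-- Coefficients of the expansion of `GE α ψ`. -/
def T1 (α : ℝ) (ψ : ℝ → ℝ) (z : ℂ) : ℂ := ((GE α ψ z : ℝ) : ℂ) * L1 α ψ z
/-- Coefficients of the expansion of `GE α ψ`. -/
def T2 (α : ℝ) (ψ : ℝ → ℝ) (z : ℂ) : ℂ :=
  ((GE α ψ z : ℝ) : ℂ) * (L2 α ψ z + 1 / 4 * L1 α ψ z ^ 2)
/-- Coefficients of the expansion of `GE α ψ`. -/
def T3 (α : ℝ) (ψ : ℝ → ℝ) (z : ℂ) : ℝ := GE α ψ z * (P3 ψ z + 1 / 4 * ‖L1 α ψ z‖ ^ 2)

/-- Variance of the radial direction. -/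
def Vr (a b c θ : ℝ) : ℝ :=
  a * Real.cos θ ^ 2 + 2 * c * (Real.sin θ * Real.cos θ) + b * Real.sin θ ^ 2

/-- Covariance of the radial direction and the angle. -/
def Cv (a b c θ : ℝ) : ℝ := -((a - b) / 2 * Real.sin (2 * θ)) + c * Real.cos (2 * θ)

/-- The generator of `Z` applied to `GE α ψ`, divided by `GE α ψ` and multiplied by `|z|^2`. -/
def Op (a b c α : ℝ) (ψ : ℝ → ℝ) (θ : ℝ) : ℝ :=
  Vth a b c θ * deriv (deriv ψ) θ / 2 + Bth a b c θ * deriv ψ θ + α * H1 a b c θ +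
    (α ^ 2 * Vr a b c θ + 2 * α * deriv ψ θ * Cv a b c θ + deriv ψ θ ^ 2 * Vth a b c θ) / 2

/-- The two strict supermartingales: `exp (δ ∫ 1 / |Z|^2) * GE α₁ ψ₁ Z` and
`exp (δ ∫ 1 / |Z|^2) * |g'| ^ q * GE α₂ ψ₂ Z` with `q > 2`. -/
def HasS (a b c : ℝ) : Prop :=
  ∃ (α₁ α₂ q δ : ℝ) (ψ₁ ψ₂ : ℝ → ℝ), 0 < δ ∧ δ ≤ 1 ∧ 2 < q ∧ α₁ ≤ q + α₂ ∧
    ContDiff ℝ 3 ψ₁ ∧ Function.Periodic ψ₁ (2 * π) ∧ ContDiff ℝ 3 ψ₂ ∧
    Function.Periodic ψ₂ (2 * π) ∧ (∀ θ, Op a b c α₁ ψ₁ θ + δ ≤ 0) ∧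
    ∀ θ, Op a b c α₂ ψ₂ θ - 2 * q * Real.cos (2 * θ) + δ ≤ 0

/-- The logarithmic clock. -/
def lk (U g : ℝ → ℂ) (s t : ℝ) : ℝ := ∫ u in s..t, 1 / ‖g u - U u‖ ^ 2

/-- The functional which controls the size of the neighbourhood which follows the solution:
`log |g_u'| + ε ∫ 1 / |Z|^2 - log |Z_u|`. -/
def ph (U g : ℝ → ℂ) (ε u : ℝ) : ℝ :=
  (∫ v in (0 : ℝ)..u, kk 1 ε (g v - U v)) - Real.log ‖g u - U u‖

/-- The cell `j` of the mesh `r ^ 2` is low. -/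
def low (U g : ℝ → ℂ) (r : ℝ) (j : ℕ) : Prop :=
  ∃ u ∈ Set.Icc ((j : ℝ) * r ^ 2) (((j : ℝ) + 1) * r ^ 2), ‖g u - U u‖ ≤ r

open Classical in
/-- The logarithmic clock spent in the cells `j < M` which are not low. -/
def XX (U g : ℝ → ℂ) (r : ℝ) (M : ℕ) : ℝ :=
  ∑ j ∈ Finset.range M,
    if low U g r j then 0 else lk U g ((j : ℝ) * r ^ 2) (((j : ℝ) + 1) * r ^ 2)

/-- The cell `j` is low and the cell `j + 1` is not low. -/
def tr (U g : ℝ → ℂ) (r : ℝ) (j : ℕ) : Prop := low U g r j ∧ ¬ low U g r (j + 1)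

open Classical in
/-- The number of `j` with `j + 1 < M` and `tr U g r j`. -/
def NN (U g : ℝ → ℂ) (r : ℝ) (M : ℕ) : ℕ :=
  ((Finset.range (M - 1)).filter fun j => tr U g r j).card

/-- The cells `s, ..., s + L - 1` are low. -/
def rider (U g : ℝ → ℂ) (r : ℝ) (s L : ℕ) : Prop := ∀ i < L, low U g r (s + i)

/-- The path oscillates by at most `x` on each of the first `N` cells of the mesh `r ^ 2`. -/
def Osc (U : ℝ → ℂ) (r x : ℝ) (N : ℕ) : Prop :=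
  ∀ j < N, ∀ u ∈ Set.Icc ((j : ℝ) * r ^ 2) (((j : ℝ) + 1) * r ^ 2),
    ∀ v ∈ Set.Icc ((j : ℝ) * r ^ 2) (((j : ℝ) + 1) * r ^ 2), ‖U u - U v‖ ≤ x

/-- The solution after time `s`, seen at scale `r` (see `Sol.shift`). -/
def gs (U g : ℝ → ℂ) (s r : ℝ) : ℝ → ℂ := fun τ => r⁻¹ • (g (s + r ^ 2 * τ) - U s)

/-- The Euler scheme stays in the annulus up to time `j` (included). -/
def AnS {Ω : Type*} (W : ℝ → Ω → ℂ) (z₀ : ℂ) (h δ R : ℝ) (j : ℕ) : Set Ω :=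
  {ω | ∀ i ≤ j, δ ≤ ‖DiscAux.Z W z₀ h i ω‖ ∧ ‖DiscAux.Z W z₀ h i ω‖ ≤ R}

/-- The flag: the functional `ph` has reached `θ` at a time `i ≤ j`. -/
def FlS {Ω : Type*} (W : ℝ → Ω → ℂ) (z₀ : ℂ) (h ε θ : ℝ) (j : ℕ) : Set Ω :=
  {ω | ∃ i ≤ j, θ ≤ DiscAux.A W z₀ h (kk 1 ε) i ω - Real.log ‖DiscAux.Z W z₀ h i ω‖}

/-- The event counted at time `j`. -/
def OcS {Ω : Type*} (W : ℝ → Ω → ℂ) (z₀ : ℂ) (h δ R ε θ e : ℝ) (j : ℕ) : Set Ω :=
  AnS W z₀ h δ R j ∩ FlS W z₀ h ε θ j ∩ {ω | ‖DiscAux.Z W z₀ h j ω‖ ≤ e}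

/-- The number of dyadic scales between two levels, `2 ^ (ll N)` is in `(4 log₂ N, 8 log₂ N]`. -/
def ll (N : ℕ) : ℕ := Nat.log 2 (Nat.log 2 N) + 3

/-- The levels. -/
def lev (n : ℕ) : ℕ → ℕ
  | 0 => 0
  | k + 1 => lev n k + ll (n + lev n k)

/-- The length of the cells of level `m`. -/
def rr (m : ℕ) : ℝ := (1 / 2) ^ m

end

end Pool.Agent.SLE
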