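import Pool.Agent.Lib.MP_c17912_pr_TR.Base

/-!
# MP_c17912_pr, project TR: the mean logarithmic drift

`dens a b c σ`: for `σ = -1` this is (up to a factor) the stationary density of the angle of
`Z = g - W` in the logarithmic clock, for `σ = 1` that of the backward flow.
`Lam a b c`: the mean of the drift of `log |Z|` under the stationary density (up to a positive
factor). `Lam b a (-c)` is the same quantity for the process `i W`, i.e. for the backward flow.
-/

set_option autoImplicit false

open MeasureTheory ProbabilityTheory Filter
open scoped NNReal ENNReal Topology Real

namespace Pool.Agent.SLE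

noncomputable section

/-- The positive `π`-periodic solution of `(V / 2) f' - σ 2 sin (2 θ) f = constant`. -/
def dens (a b c σ θ : ℝ) : ℝ :=
  ∫ s in θ..(θ + π),
    Real.exp (σ * ∫ t in s..θ, 4 * Real.sin (2 * t) / Vth a b c t) / Vth a b c s

/-- The mean logarithmic drift of the distance to the tip (up to a positive factor). -/
def Lam (a b c : ℝ) : ℝ := ∫ θ in (0 : ℝ)..π, H1 a b c θ * dens a b c (-1) θ

end

end Pool.Agent.SLE
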