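import Pool.Agent.Lib.MP_c17912_pr_TR.GOS
import Pool.Agent.Lib.MP_c17912_pr_TR.DOC

set_option autoImplicit false

open MeasureTheory ProbabilityTheory Filter
open scoped NNReal ENNReal Topology Real

namespace Pool.Agent.SLE

noncomputable section

variable {Ω : Type*} [MeasurableSpace Ω] {μ : Measure Ω}

namespace TROCD

/-- Comparison of the two functions. -/
theorem sw {α₁ α₂ q B : ℝ} {ψ₁ ψ₂ : ℝ → ℝ} (hq : α₁ ≤ q + α₂) (h1 : ∀ θ, |ψ₁ θ| ≤ B)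
    (h2 : ∀ θ, |ψ₂ θ| ≤ B) {z : ℂ} (hz : 1 / 2 ≤ ‖z‖) :
    Real.exp (-((q + α₂ - α₁) * Real.log 2) - 2 * B) * GE α₁ ψ₁ z ≤ ‖z‖ ^ q * GE α₂ ψ₂ z := by
  have hz0 : 0 < ‖z‖ := by linarith
  have hl : -Real.log 2 ≤ Real.log ‖z‖ := by
    have := Real.log_le_log (by norm_num) hz
    rwa [one_div, Real.log_inv] at this
  unfold GE
  rw [Real.rpow_def_of_pos hz0, ← Real.exp_add, ← Real.exp_add]
  refine Real.exp_le_exp.2 ?_
  have e1 := (abs_le.1 (h1 (Complex.arg z))).2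
  have e2 := (abs_le.1 (h2 (Complex.arg z))).1
  have e3 : (q + α₂ - α₁) * (-Real.log 2) ≤ (q + α₂ - α₁) * Real.log ‖z‖ :=
    mul_le_mul_of_nonneg_left hl (by linarith)
  nlinarith

/-- Bounds of `α log x`. -/
theorem al {α x y : ℝ} (hx : 1 / 2 ≤ x) (hxy : x ≤ y) (hy : 1 ≤ y) :
    |α * Real.log x| ≤ |α| * (Real.log 2 + Real.log y) := by
  rw [abs_mul]
  refine mul_le_mul_of_nonneg_left ?_ (abs_nonneg _)
  have hl : -Real.log 2 ≤ Real.log x := by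
    have := Real.log_le_log (by norm_num) hx
    rwa [one_div, Real.log_inv] at this
  have hu : Real.log x ≤ Real.log y := Real.log_le_log (by linarith) hxy
  have h2 : 0 ≤ Real.log 2 := Real.log_nonneg (by norm_num)
  have h3 : 0 ≤ Real.log y := Real.log_nonneg hy
  exact abs_le.2 ⟨by linarith, by linarith⟩

/-- Lower bound of the first function. -/
theorem lo {α B x : ℝ} {ψ : ℝ → ℝ} (h1 : ∀ θ, |ψ θ| ≤ B) {z : ℂ} (hz : 1 / 2 ≤ ‖z‖)
    (hx : ‖z‖ ≤ x) (h1x : 1 ≤ x) :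
    Real.exp (-(|α| * (Real.log 2 + Real.log x)) - B) ≤ GE α ψ z := by
  refine Real.exp_le_exp.2 ?_
  have e1 := (abs_le.1 (h1 (Complex.arg z))).1
  have e2 := (abs_le.1 (al (α := α) hz hx h1x)).1
  linarith

/-- Upper bound of the second function. -/
theorem up {α B x : ℝ} {ψ : ℝ → ℝ} (h1 : ∀ θ, |ψ θ| ≤ B) {z : ℂ} (hz : 1 / 2 ≤ ‖z‖)
    (hx : ‖z‖ ≤ x) (h1x : 1 ≤ x) :
    GE α ψ z ≤ Real.exp (|α| * (Real.log 2 + Real.log x) + B) := by
  refine Real.exp_le_exp.2 ?_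
  have e1 := (abs_le.1 (h1 (Complex.arg z))).2
  have e2 := (abs_le.1 (al (α := α) hz hx h1x)).2
  linarith

/-- Powers. -/
theorem pw {x β : ℝ} (hx : 1 ≤ x) {p : ℕ} (hp : β ≤ p) :
    Real.exp (β * Real.log x) ≤ x ^ p := by
  have h : x ^ p = Real.exp (p * Real.log x) := by
    rw [mul_comm, Real.exp_mul, Real.exp_log (by linarith), Real.rpow_natCast]
  rw [h]
  exact Real.exp_le_exp.2 (mul_le_mul_of_nonneg_right hp (Real.log_nonneg hx))

omit [MeasurableSpace Ω] in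
/-- For a starting point outside the annulus nothing happens. -/
theorem empty {W : ℝ → Ω → ℂ} {z₀ : ℂ} {h δ R ε θ e : ℝ} (hz : ‖z₀‖ < δ) (j : ℕ) :
    OcS W z₀ h δ R ε θ e j = ∅ := by
  refine Set.eq_empty_iff_forall_notMem.2 fun ω hω => ?_
  have h1 := (hω.1.1 0 (Nat.zero_le _)).1
  have h2 : DiscAux.Z W z₀ h 0 ω = z₀ := rfl
  rw [h2] at h1
  linarith

/-- The final estimate of the constants. -/
theorem fin {κ' B c₂ α₁ α₂ e x h C' Q t : ℝ} {p J : ℕ} (hc₂ : 0 < c₂) (he : 1 ≤ e) (hx : 1 ≤ x)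
    (ht : 0 ≤ t) (hQ0 : 0 ≤ Q) (hQ : Q ^ J ≤ Real.exp (C' * (J * h) * √h)) {F f : ℝ}
    (hf : f = Real.exp (-κ' - (|α₁| * (Real.log 2 + Real.log e)) - 3 * B))
    (hF0 : 0 ≤ F)
    (hF : F ≤ Real.exp (|α₂| * (Real.log 2 + Real.log x) + B)) (hp1 : |α₁| + 2 ≤ p)
    (hp2 : |α₂| ≤ p) :
    2 * e ^ 2 / (c₂ * f) * Q ^ J * t * F ≤
      2 / c₂ * Real.exp (κ' + |α₁| * Real.log 2 + |α₂| * Real.log 2 + 4 * B) * e ^ p * x ^ p *
        Real.exp (C' * √h * (J * h)) * t := by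
  have hf0 : 0 < f := hf ▸ Real.exp_pos _
  have he0 : 0 < e := by linarith
  have a1 : e ^ 2 / f ≤ Real.exp (κ' + |α₁| * Real.log 2 + 3 * B) * e ^ p := by
    have e1 : e ^ 2 / f = Real.exp (κ' + |α₁| * Real.log 2 + 3 * B) *
        Real.exp ((|α₁| + 2) * Real.log e) := by
      have e2 : e ^ 2 = Real.exp (2 * Real.log e) := by
        rw [mul_comm, Real.exp_mul, Real.exp_log he0]
        norm_num
      rw [e2, hf, ← Real.exp_sub, ← Real.exp_add]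
      congr 1
      ring
    rw [e1]
    exact mul_le_mul_of_nonneg_left (pw he hp1) (Real.exp_pos _).le
  have a2 : F ≤ Real.exp (|α₂| * Real.log 2 + B) * x ^ p := by
    have e1 : Real.exp (|α₂| * (Real.log 2 + Real.log x) + B) =
        Real.exp (|α₂| * Real.log 2 + B) * Real.exp (|α₂| * Real.log x) := by
      rw [← Real.exp_add]
      congr 1
      ring
    exact hF.trans (e1 ▸ mul_le_mul_of_nonneg_left (pw hx hp2) (Real.exp_pos _).le)
  calc 2 * e ^ 2 / (c₂ * f) * Q ^ J * t * F = 2 / c₂ * (e ^ 2 / f) * F * Q ^ J * t := by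
        field_simp
    _ ≤ 2 / c₂ * (Real.exp (κ' + |α₁| * Real.log 2 + 3 * B) * e ^ p) *
          (Real.exp (|α₂| * Real.log 2 + B) * x ^ p) * Real.exp (C' * (J * h) * √h) * t := by
        gcongr
    _ = 2 / c₂ * (Real.exp (κ' + |α₁| * Real.log 2 + 3 * B) *
          Real.exp (|α₂| * Real.log 2 + B)) * e ^ p * x ^ p *
          Real.exp (C' * √h * (J * h)) * t := by
        have : C' * (J * h) * √h = C' * √h * (J * h) := by ring
        rw [this]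
        ring
    _ = _ := by
        rw [← Real.exp_add]
        congr 5
        ring_nf

end TROCD

/-- TR-OCD. The occupation inequality for the Euler scheme with the functions of `HasS`; the
constants do not depend on the outer radius `R` of the annulus (except for the limit `h → 0`).

Proof. `HasS` gives `α₁ α₂ q δ ψ₁ ψ₂` (call `δ₀` its `δ`). Put `c₁ = c₂ = δ₀ / 2`,
`ε = δ₀ / (2 q)` (so `c₁ + q ε = c₁ + c₂ = δ₀`). `ge_one_step` with `(α₁, ψ₁, lam = 0, c₀ = δ₀)`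
and `(α₂, ψ₂, lam = q, c₀ = δ₀)` on the annulus `1/2 ≤ |z| ≤ R` gives functions `G₁, G₂`,
constants `C'`, `h₀`. Let `|ψ₁|, |ψ₂| ≤ B` (`EXaux.bdd`), `κ = (1/2) ^ (q + α₂ - α₁) * exp (-2 B)`,
`F₁ = κ G₁`, `F₂ = G₂`, `Q = 1 + C' (h √h)` (maximum of the two constants). In the annulus
`κ |z| ^ α₁ exp ψ₁ ≤ |z| ^ q |z| ^ α₂ exp ψ₂` since `|z| ≥ 1/2` and `q + α₂ - α₁ ≥ 0`; and
`F₁ z ≥ κ exp (-B) min ((1/2) ^ α₁) (e ^ α₁) ≥ f := κ' e ^ (-|α₁|)` for `1/2 ≤ |z| ≤ e`, `e ≥ 1`.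
`disc_occ` (with `h` small: `h c₂ ≤ 1/4`) gives the claim, since
`F₂ z₀ ≤ |z₀| ^ α₂ exp B ≤ C (1 + |z₀|) ^ p` for `|z₀| ≥ 1/2`; for `|z₀| < 1/2` the sets `OcS` are
empty. `Q ^ J ≤ exp (C' √h (J h))` (`SmgAux.pow_le_exp`). -/
theorem occ_disc [IsProbabilityMeasure μ] {a b c K : ℝ} (ha : 0 ≤ a) (hb : 0 ≤ b) (hK : 0 ≤ K)
    (hS : HasS a b c) :
    ∃ (C c₁ ε q : ℝ) (p : ℕ), 0 < C ∧ 0 < c₁ ∧ 0 < ε ∧ ε ≤ 2 ∧ 2 < q ∧
      ∀ R : ℝ, 1 ≤ R → ∃ C' > 0, ∃ h₀ > 0, ∀ W : ℝ → Ω → ℂ, Drv a b c K W μ →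
        ∀ h : ℝ, 0 < h → h ≤ h₀ → ∀ (z₀ : ℂ) (θ e : ℝ), 1 ≤ e → ∀ J : ℕ,
          ∑ j ∈ Finset.range J, ENNReal.ofReal h *
            ∫⁻ ω in OcS W z₀ h (1 / 2) R ε θ e j,
              ENNReal.ofReal (Real.exp (DiscAux.A W z₀ h (kk 0 c₁) j ω)) ∂μ ≤
          ENNReal.ofReal (C * e ^ p * (1 + ‖z₀‖) ^ p * Real.exp (C' * √h * (J * h)) *
            Real.exp (-(q * θ))) := by
  obtain ⟨α₁, α₂, q, δ₀, ψ₁, ψ₂, hδ, hδ1, hq, hqa, s1, p1, s2, p2, g1, g2⟩ := hS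
  obtain ⟨B₁, hB₁⟩ := EXaux.bdd s1.continuous p1
  obtain ⟨B₂, hB₂⟩ := EXaux.bdd s2.continuous p2
  set B : ℝ := max B₁ B₂ with hBd
  have b1 : ∀ θ, |ψ₁ θ| ≤ B := fun θ => (hB₁ θ).trans (le_max_left _ _)
  have b2 : ∀ θ, |ψ₂ θ| ≤ B := fun θ => (hB₂ θ).trans (le_max_right _ _)
  have hq0 : 0 < q := by linarith
  set κ' : ℝ := (q + α₂ - α₁) * Real.log 2 with hκ'
  set p : ℕ := ⌈|α₁|⌉₊ + ⌈|α₂|⌉₊ + 2 with hp
  have hp1 : |α₁| + 2 ≤ p := by
    have := Nat.le_ceil |α₁|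
    have h2 : (0 : ℝ) ≤ (⌈|α₂|⌉₊ : ℕ) := Nat.cast_nonneg _
    push_cast [hp]
    linarith
  have hp2 : |α₂| ≤ p := by
    have := Nat.le_ceil |α₂|
    have h2 : (0 : ℝ) ≤ (⌈|α₁|⌉₊ : ℕ) := Nat.cast_nonneg _
    push_cast [hp]
    linarith
  refine ⟨2 / (δ₀ / 2) * Real.exp (κ' + |α₁| * Real.log 2 + |α₂| * Real.log 2 + 4 * B), δ₀ / 2,
    δ₀ / (2 * q), q, p, by positivity, by positivity, by positivity, ?_, hq, ?_⟩
  · rw [div_le_iff₀ (by positivity)]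
    nlinarith
  intro R hR
  obtain ⟨G₁, m1, n1, u1, v1, C₁, hC₁, h₁, hh₁, w1⟩ := ge_one_step (μ := μ) (c := c) ha hb hK
    (α := α₁) (lam := 0) (c₀ := δ₀) s1 p1 (fun θ => by linarith [g1 θ]) (δ := 1 / 2) (R := R)
    (by norm_num) (by linarith)
  obtain ⟨G₂, m2, n2, u2, v2, C₂, hC₂, h₂, hh₂, w2⟩ := ge_one_step (μ := μ) (c := c) ha hb hK
    (α := α₂) (lam := q) (c₀ := δ₀) s2 p2 (fun θ => by linarith [g2 θ]) (δ := 1 / 2) (R := R)
    (by norm_num) (by linarith)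
  refine ⟨max C₁ C₂, lt_max_of_lt_left hC₁, min (min h₁ h₂) (1 / 2), by positivity, ?_⟩
  intro W hW h hh hh0 z₀ θ e he J
  have k1 : h ≤ h₁ := hh0.trans ((min_le_left _ _).trans (min_le_left _ _))
  have k2 : h ≤ h₂ := hh0.trans ((min_le_left _ _).trans (min_le_right _ _))
  have k3 : h ≤ 1 / 2 := hh0.trans (min_le_right _ _)
  by_cases hz : ‖z₀‖ < 1 / 2
  · simp only [TROCD.empty hz, Measure.restrict_empty, lintegral_zero_measure, mul_zero,
      Finset.sum_const_zero]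
    exact bot_le
  push Not at hz
  have hs : 0 ≤ h * √h := by positivity
  set Q : ℝ := 1 + max C₁ C₂ * (h * √h) with hQd
  have hm : 0 ≤ max C₁ C₂ := hC₁.le.trans (le_max_left _ _)
  have hQ1 : 1 ≤ Q := by
    have := mul_nonneg hm hs
    linarith
  set κ : ℝ := Real.exp (-κ' - 2 * B) with hκ
  set f : ℝ := Real.exp (-κ' - (|α₁| * (Real.log 2 + Real.log e)) - 3 * B) with hf
  have key := disc_occ (R := R) (δ := 1 / 2) (ε := δ₀ / (2 * q)) (c₁ := δ₀ / 2) (c₂ := δ₀ / 2)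
    (q := q) (θ := θ) (f := f) (e := e) hW hh hQ1 (by norm_num) (by positivity) (by positivity)
    (by nlinarith) hq0.le (Real.exp_pos _) (by linarith) (F₁ := fun z => κ * G₁ z) (F₂ := G₂)
    (m1.const_mul κ) m2 (fun z => mul_nonneg (Real.exp_pos _).le (n1 z)) n2
    (fun z hz1 hz2 => by
      have := TROCD.sw hqa b1 b2 hz1
      simp only [v1 z hz1 hz2, v2 z hz1 hz2]
      exact this)
    (fun z hz1 hz2 hz3 => by
      have := TROCD.lo (α := α₁) b1 hz1 hz3 he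
      simp only [v1 z hz1 hz2]
      refine le_trans (le_of_eq ?_) (mul_le_mul_of_nonneg_left this (Real.exp_pos _).le)
      rw [hf, hκ, ← Real.exp_add]
      congr 1
      ring)
    (fun z s hz1 hz2 hs0 => by
      have := w1 W hW h hh k1 z s hz1 hz2 hs0
      have e0 : δ₀ / 2 + δ₀ / 2 = δ₀ := by ring
      have e1 : ∀ ω, ENNReal.ofReal (κ * G₁ (z + 2 * h / z - (W (s + h) ω - W s ω))) =
          ENNReal.ofReal κ * ENNReal.ofReal (G₁ (z + 2 * h / z - (W (s + h) ω - W s ω))) :=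
        fun ω => ENNReal.ofReal_mul (Real.exp_pos _).le
      simp only [e1, e0]
      rw [lintegral_const_mul' _ _ ENNReal.ofReal_ne_top]
      refine (mul_le_mul_right this _).trans ?_
      rw [← ENNReal.ofReal_mul (Real.exp_pos _).le]
      refine ENNReal.ofReal_le_ofReal ?_
      have e2 : 1 + C₁ * (h * √h) ≤ Q := by
        have := mul_le_mul_of_nonneg_right (le_max_left C₁ C₂) hs
        linarith
      have e3 : 0 ≤ Real.exp (-(h * kk 0 δ₀ z)) * (κ * G₁ z) :=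
        mul_nonneg (Real.exp_pos _).le (mul_nonneg (Real.exp_pos _).le (n1 z))
      have := mul_le_mul_of_nonneg_right e2 e3
      nlinarith)
    (fun z s hz1 hz2 hs0 => by
      have := w2 W hW h hh k2 z s hz1 hz2 hs0
      have e0 : δ₀ / 2 + q * (δ₀ / (2 * q)) = δ₀ := by
        field_simp
        ring
      rw [e0]
      refine this.trans (ENNReal.ofReal_le_ofReal ?_)
      have e2 : 1 + C₂ * (h * √h) ≤ Q := by
        have := mul_le_mul_of_nonneg_right (le_max_right C₁ C₂) hs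
        linarith
      have e3 : 0 ≤ Real.exp (-(h * kk q δ₀ z)) * G₂ z :=
        mul_nonneg (Real.exp_pos _).le (n2 z)
      have := mul_le_mul_of_nonneg_right e2 e3
      nlinarith)
    z₀ J
  refine key.trans (ENNReal.ofReal_le_ofReal ?_)
  refine TROCD.fin (by positivity) he (by linarith [norm_nonneg z₀]) (Real.exp_pos _).le
    (by linarith)
    (SmgAux.pow_le_exp hm hh.le J) hf (n2 z₀) ((u2 z₀).trans ?_) hp1 hp2
  exact TROCD.up b2 hz (by linarith [norm_nonneg z₀]) (by linarith [norm_nonneg z₀])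

end

end Pool.Agent.SLE
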