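import Pool.Agent.Lib.MP_c17912_pr_TR.Base

set_option autoImplicit false

open MeasureTheory ProbabilityTheory Filter
open scoped NNReal ENNReal Topology Real

namespace Pool.Agent.SLE

noncomputable section

namespace TRPHS

theorem kk_le {ε : ℝ} (hε : 0 < ε) (hε2 : ε ≤ 2) {z : ℂ} (hz : 1 ≤ ‖z‖) :
    ‖kk 1 ε z‖ ≤ 4 := by
  have h0 : 0 < ‖z‖ := by linarith
  have h1 : 1 ≤ ‖z‖ ^ 2 := one_le_pow₀ hz
  have h2 : |(1 / z ^ 2).re| ≤ 1 := by
    refine (Complex.abs_re_le_norm _).trans ?_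
    rw [norm_div, norm_one, norm_pow]
    exact (div_le_one (by positivity)).2 h1
  have h3 : ε / ‖z‖ ^ 2 ≤ ε := div_le_self hε.le h1
  have h4 : 0 ≤ ε / ‖z‖ ^ 2 := by positivity
  have h5 := abs_le.1 h2
  rw [Real.norm_eq_abs, kk, abs_le]
  constructor
  · linarith [h5.1, h5.2]
  · linarith [h5.1, h5.2]

theorem cont {U : ℝ → ℂ} (hU : Continuous U) {z : ℂ} {t ε : ℝ} {g : ℝ → ℂ} (hg : Sol U z t g) :
    ContinuousOn (fun v => kk 1 ε (g v - U v)) (Set.Icc 0 t) := by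
  have h1 : ContinuousOn (fun v => g v - U v) (Set.Icc 0 t) :=
    ContinuousOn.sub (fun v hv => (hg.2.2 v hv).continuousWithinAt) hU.continuousOn
  refine (SmgAux.continuousOn_kk 1 ε).comp h1 fun v hv => ?_
  exact sub_ne_zero.2 (hg.2.1 v hv)

end TRPHS

/-- TR-PHS. If the neighbourhood functional `ph` of a solution (at distance `≥ 1` on `[0,t]`,
`≤ e` on `[t-1,t]`) reaches `Φ` in `[0,t]`, then a shadow reaches `Φ - 8 - log e` in `[0,t-1]`.

Proof. Let `ph U g ε u₁ = Φ` be the maximum (`u₁ ∈ [0,t]`). The comparison of `shadow` gives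
`ph U g' ε u ≥ ph U g ε u - 2 - log (5/4)` for all `u` (`|Z'_u| ≤ 5/4 |Z_u|`). If `u₁ ≤ t - 1`
take `u = u₁`. Otherwise take `u = t - 1`: `ph U g ε (t-1) ≥ ph U g ε u₁ - ∫ |kk 1 ε| -
log |Z_{t-1}| + log |Z_{u₁}| ≥ Φ - 4 - log e`, as `|kk 1 ε z| ≤ (2 + ε) / |z|^2 ≤ 4`,
`|Z_{u₁}| ≥ 1`. -/
theorem ph_shadow {U : ℝ → ℂ} (hU : Continuous U) {z w : ℂ} {t ε Φ e : ℝ} (ht : 1 ≤ t)
    (hε : 0 < ε) (hε2 : ε ≤ 2) (he : 1 ≤ e) {g g' : ℝ → ℂ} (hg : Sol U z t g)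
    (hg' : Sol U w t g') (h1 : ∀ u ∈ Set.Icc 0 t, 1 ≤ ‖g u - U u‖)
    (h2 : ∀ u ∈ Set.Icc (t - 1) t, ‖g u - U u‖ ≤ e)
    (h3 : ∀ u ∈ Set.Icc 0 t, ‖g' u - g u‖ ≤ ‖g u - U u‖ / 4)
    (h4 : ∀ u ∈ Set.Icc 0 t,
        |(∫ v in (0 : ℝ)..u, kk 1 ε (g' v - U v)) - ∫ v in (0 : ℝ)..u, kk 1 ε (g v - U v)| ≤ 2)
    (h5 : ∃ u ∈ Set.Icc 0 t, Φ ≤ ph U g ε u) :
    ∃ u ∈ Set.Icc 0 (t - 1), Φ - 8 - Real.log e ≤ ph U g' ε u := by
  have hlog : Real.log (5 / 4) ≤ 1 / 4 := by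
    have := Real.log_le_sub_one_of_pos (x := 5 / 4) (by norm_num)
    linarith
  have hle : 0 ≤ Real.log e := Real.log_nonneg he
  have hcmp : ∀ u ∈ Set.Icc 0 t, ph U g ε u - 2 - 1 / 4 ≤ ph U g' ε u := by
    intro u hu
    have a1 := h1 u hu
    have a3 := h3 u hu
    have a4 := (abs_le.1 (h4 u hu)).1
    have e1 : g' u - U u = (g' u - g u) + (g u - U u) := by ring
    have e2 : ‖g' u - U u‖ ≤ 5 / 4 * ‖g u - U u‖ := by
      have := norm_add_le (g' u - g u) (g u - U u)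
      rw [e1]
      linarith
    have e3 : 0 < ‖g' u - U u‖ := by
      have h := norm_sub_norm_le (g u - U u) (g u - g' u)
      have e4 : (g u - U u) - (g u - g' u) = g' u - U u := by ring
      rw [e4, norm_sub_rev (g u) (g' u)] at h
      linarith
    have e5 : Real.log ‖g' u - U u‖ ≤ Real.log (5 / 4) + Real.log ‖g u - U u‖ := by
      rw [← Real.log_mul (by norm_num) (by linarith)]
      exact Real.log_le_log e3 e2
    simp only [ph]
    linarith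
  obtain ⟨u₁, hu₁, hΦ⟩ := h5
  rcases le_total u₁ (t - 1) with hc | hc
  · refine ⟨u₁, ⟨hu₁.1, hc⟩, ?_⟩
    have := hcmp u₁ hu₁
    linarith
  · refine ⟨t - 1, ⟨by linarith, le_refl _⟩, ?_⟩
    have ht1 : t - 1 ∈ Set.Icc 0 t := ⟨by linarith, by linarith⟩
    have b1 := hcmp (t - 1) ht1
    have hc1 := TRPHS.cont (ε := ε) hU hg
    have i1 : IntervalIntegrable (fun v => kk 1 ε (g v - U v)) volume 0 (t - 1) := by
      apply ContinuousOn.intervalIntegrable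
      refine hc1.mono ?_
      rw [Set.uIcc_of_le ht1.1]
      exact Set.Icc_subset_Icc_right ht1.2
    have i2 : IntervalIntegrable (fun v => kk 1 ε (g v - U v)) volume (t - 1) u₁ := by
      apply ContinuousOn.intervalIntegrable
      refine hc1.mono ?_
      rw [Set.uIcc_of_le hc]
      exact Set.Icc_subset_Icc ht1.1 hu₁.2
    have i3 := intervalIntegral.integral_add_adjacent_intervals i1 i2
    have i4 : ‖∫ v in (t - 1)..u₁, kk 1 ε (g v - U v)‖ ≤ 4 * |u₁ - (t - 1)| := by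
      refine intervalIntegral.norm_integral_le_of_norm_le_const fun v hv => ?_
      rw [Set.uIoc_of_le hc] at hv
      exact TRPHS.kk_le hε hε2 (h1 v ⟨by linarith [hv.1, ht1.1], hv.2.trans hu₁.2⟩)
    have i5 : |u₁ - (t - 1)| ≤ 1 := by
      rw [abs_of_nonneg (by linarith)]
      linarith [hu₁.2]
    have i6 : (∫ v in (t - 1)..u₁, kk 1 ε (g v - U v)) ≤ 4 := by
      have := le_abs_self (∫ v in (t - 1)..u₁, kk 1 ε (g v - U v))
      rw [Real.norm_eq_abs] at i4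
      linarith
    have j1 : Real.log ‖g (t - 1) - U (t - 1)‖ ≤ Real.log e := by
      apply Real.log_le_log
      · linarith [h1 (t - 1) ht1]
      · exact h2 (t - 1) ⟨le_refl _, by linarith⟩
    have j2 : 0 ≤ Real.log ‖g u₁ - U u₁‖ := Real.log_nonneg (h1 u₁ hu₁)
    have j3 : Φ - 4 - Real.log e ≤ ph U g ε (t - 1) := by
      simp only [ph] at hΦ ⊢
      linarith
    linarith

end

end Pool.Agent.SLE
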