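import Pool.Agent.Lib.MP_c17912_pr_TR.Base
import Pool.Agent.Lib.MP_c17912_pr_LN.PE

set_option autoImplicit false

open MeasureTheory ProbabilityTheory Filter
open scoped NNReal ENNReal Topology Real

namespace Pool.Agent.SLE

noncomputable section

/-- TR-PLN1. Periodic solutions of a linear differential equation of first order.

Proof. `P x = ∫ p on [0,x]`, `y x = exp (-P x) (k + ∫ exp P * r on [0,x])` with `k` such that
`y π = y 0`: `k (exp (P π) - 1) = ∫ exp P * r on [0,π]`, possible as `P π ≠ 0`. Smoothness: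
`PEAux.prim_smooth`. Periodicity: `d x = y (x + π) - y x` satisfies `d' = -p d`, so
`d * exp P` is constant `= d 0 = 0`. -/
theorem per_lin {p r : ℝ → ℝ} (hp : ∀ n : ℕ, ContDiff ℝ n p) (hr : ∀ n : ℕ, ContDiff ℝ n r)
    (hpp : Function.Periodic p π) (hrp : Function.Periodic r π)
    (h0 : ∫ x in (0 : ℝ)..π, p x ≠ 0) :
    ∃ y : ℝ → ℝ, (∀ n : ℕ, ContDiff ℝ n y) ∧ Function.Periodic y π ∧
      ∀ x, deriv y x = -(p x) * y x + r x := by
  have hpc : Continuous p := (hp 0).continuous
  obtain ⟨P, hP⟩ : ∃ P : ℝ → ℝ, P = fun x => ∫ t in (0 : ℝ)..x, p t := ⟨_, rfl⟩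
  have hPs : ∀ n : ℕ, ContDiff ℝ n P := by
    rw [hP]
    exact PEAux.prim_smooth hp
  have hPd : ∀ x, HasDerivAt P (p x) x := by
    rw [hP]
    exact PEAux.prim_deriv hpc
  have hPπ : P π ≠ 0 := by
    rw [hP]
    exact h0
  have hPp : ∀ x, P (x + π) = P x + P π := by
    intro x
    have h1 := intervalIntegral.integral_add_adjacent_intervals
      (hpc.intervalIntegrable (μ := volume) 0 x) (hpc.intervalIntegrable (μ := volume) x (x + π))
    have h2 := hpp.intervalIntegral_add_eq x 0
    rw [zero_add] at h2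
    rw [hP]
    change (∫ t in (0 : ℝ)..(x + π), p t) = (∫ t in (0 : ℝ)..x, p t) + ∫ t in (0 : ℝ)..π, p t
    rw [← h1, h2]
  obtain ⟨E, hE⟩ : ∃ E : ℝ → ℝ, E = fun x => Real.exp (P x) * r x := ⟨_, rfl⟩
  have hEs : ∀ n : ℕ, ContDiff ℝ n E := by
    intro n
    rw [hE]
    exact (hPs n).exp.mul (hr n)
  have hEc : Continuous E := (hEs 0).continuous
  have hEp : ∀ x, E (x + π) = Real.exp (P π) * E x := by
    intro x
    rw [hE]
    change Real.exp (P (x + π)) * r (x + π) = Real.exp (P π) * (Real.exp (P x) * r x)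
    rw [hPp, hrp x, Real.exp_add]
    ring
  obtain ⟨K, hK⟩ : ∃ K : ℝ → ℝ, K = fun x => ∫ t in (0 : ℝ)..x, E t := ⟨_, rfl⟩
  have hKs : ∀ n : ℕ, ContDiff ℝ n K := by
    rw [hK]
    exact PEAux.prim_smooth hEs
  have hKd : ∀ x, HasDerivAt K (E x) x := by
    rw [hK]
    exact PEAux.prim_deriv hEc
  have hKp : ∀ x, K (x + π) = K π + Real.exp (P π) * K x := by
    intro x
    have h1 := intervalIntegral.integral_add_adjacent_intervals
      (hEc.intervalIntegrable (μ := volume) 0 π) (hEc.intervalIntegrable (μ := volume) π (x + π))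
    have h2 := intervalIntegral.integral_comp_add_right (a := 0) (b := x) E π
    rw [zero_add] at h2
    have h3 : ∫ t in (0 : ℝ)..x, E (t + π) = Real.exp (P π) * ∫ t in (0 : ℝ)..x, E t := by
      simp only [hEp]
      exact intervalIntegral.integral_const_mul _ _
    rw [hK]
    change (∫ t in (0 : ℝ)..(x + π), E t) =
      (∫ t in (0 : ℝ)..π, E t) + Real.exp (P π) * ∫ t in (0 : ℝ)..x, E t
    rw [← h1, ← h2, h3]
  have hne : Real.exp (P π) - 1 ≠ 0 := by
    intro h
    apply hPπ
    have h1 : Real.exp (P π) = 1 := by linarith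
    exact Real.exp_eq_one_iff _ |>.1 h1
  obtain ⟨k, hk⟩ : ∃ k : ℝ, k = K π / (Real.exp (P π) - 1) := ⟨_, rfl⟩
  have hk1 : k * Real.exp (P π) = k + K π := by
    have h1 : k * (Real.exp (P π) - 1) = K π := by
      rw [hk]
      exact div_mul_cancel₀ _ hne
    linarith
  have hy : ∀ x, HasDerivAt (fun x => Real.exp (-P x) * (k + K x))
      (-(p x) * (Real.exp (-P x) * (k + K x)) + r x) x := by
    intro x
    have h1 := ((hPd x).neg.exp).mul ((hKd x).const_add k)
    refine h1.congr_deriv ?_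
    have h2 : Real.exp (-P x) * E x = r x := by
      rw [hE]
      change Real.exp (-P x) * (Real.exp (P x) * r x) = r x
      rw [← mul_assoc, ← Real.exp_add]
      simp
    rw [← h2]
    simp only [Pi.neg_apply]
    ring
  refine ⟨fun x => Real.exp (-P x) * (k + K x), ?_, ?_, ?_⟩
  · intro n
    exact (hPs n).neg.exp.mul (contDiff_const.add (hKs n))
  · intro x
    change Real.exp (-P (x + π)) * (k + K (x + π)) = Real.exp (-P x) * (k + K x)
    have h1 : k + K (x + π) = Real.exp (P π) * (k + K x) := by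
      rw [hKp]
      linarith [hk1]
    rw [h1, hPp, ← mul_assoc, ← Real.exp_add]
    congr 2
    ring
  · intro x
    exact (hy x).deriv

/-- TR-PLN2. Periodic solutions of `(D ψ' + κ ψ)' = G`.

Proof. `I x = ∫ G on [0,x]` is smooth and periodic (`PEAux.prim_smooth, prim_periodic`). If
`κ = 0`: `per_solve` (LN/PE). If `κ ≠ 0`: `per_lin` with `p = κ / D` (its integral has the sign
of `κ`), `r = I / D`; then `D ψ' + κ ψ = I`, differentiate. -/
theorem pois_gen {D G : ℝ → ℝ} (hD : ∀ n : ℕ, ContDiff ℝ n D) (hG : ∀ n : ℕ, ContDiff ℝ n G)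
    (hDp : Function.Periodic D π) (hGp : Function.Periodic G π) (hpos : ∀ x, 0 < D x)
    (hint : ∫ x in (0 : ℝ)..π, G x = 0) (κ : ℝ) :
    ∃ ψ : ℝ → ℝ, (∀ n : ℕ, ContDiff ℝ n ψ) ∧ Function.Periodic ψ π ∧
      ∀ x, D x * deriv (deriv ψ) x + (deriv D x + κ) * deriv ψ x = G x := by
  have hDc : Continuous D := (hD 0).continuous
  have hGc : Continuous G := (hG 0).continuous
  have hne : ∀ x, D x ≠ 0 := fun x => (hpos x).ne'
  rcases eq_or_ne κ 0 with hκ | hκ
  · obtain ⟨ψ, C₀, h1, h2, -, h3, -⟩ := per_solve hD hG hDp hGp hpos hint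
    refine ⟨ψ, h1, h2, fun x => ?_⟩
    have := h3 x
    rw [hκ]
    linarith
  obtain ⟨I, hI⟩ : ∃ I : ℝ → ℝ, I = fun x => ∫ t in (0 : ℝ)..x, G t := ⟨_, rfl⟩
  have hIs : ∀ n : ℕ, ContDiff ℝ n I := by
    rw [hI]
    exact PEAux.prim_smooth hG
  have hIp : Function.Periodic I π := by
    rw [hI]
    exact PEAux.prim_periodic hGc hGp hint
  have hId : ∀ x, HasDerivAt I (G x) x := by
    rw [hI]
    exact PEAux.prim_deriv hGc
  have c1 : Continuous fun x => 1 / D x := continuous_const.div hDc hne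
  have hD1 : 0 < ∫ x in (0 : ℝ)..π, 1 / D x :=
    intervalIntegral.intervalIntegral_pos_of_pos (c1.intervalIntegrable _ _)
      (fun x => by have := hpos x; positivity) Real.pi_pos
  have h0 : ∫ x in (0 : ℝ)..π, κ / D x ≠ 0 := by
    have e : ∀ x, κ / D x = κ * (1 / D x) := fun x => by ring
    simp only [e]
    rw [intervalIntegral.integral_const_mul]
    exact mul_ne_zero hκ hD1.ne'
  obtain ⟨ψ, hs, hp, hd⟩ := per_lin (p := fun x => κ / D x) (r := fun x => I x / D x)
    (fun n => contDiff_const.div (hD n) hne) (fun n => (hIs n).div (hD n) hne)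
    (fun x => by
      change κ / D (x + π) = κ / D x
      rw [hDp x])
    (fun x => by
      change I (x + π) / D (x + π) = I x / D x
      rw [hDp x, hIp x]) h0
  refine ⟨ψ, hs, hp, fun x => ?_⟩
  have hDd : HasDerivAt D (deriv D x) x :=
    ((hD 1).differentiable (by simp)).differentiableAt.hasDerivAt
  have hψd : HasDerivAt ψ (deriv ψ x) x :=
    ((hs 1).differentiable (by simp)).differentiableAt.hasDerivAt
  have hψ2 : HasDerivAt (deriv ψ) (deriv (deriv ψ) x) x := by
    have h1 : ContDiff ℝ 1 (deriv ψ) := by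
      have h2 := hs 2
      have h3 : ContDiff ℝ (1 + 1) ψ := by
        exact_mod_cast h2
      exact (contDiff_succ_iff_deriv.1 h3).2.2
    exact (h1.differentiable (by simp)).differentiableAt.hasDerivAt
  have h1 := hDd.mul hψ2
  have h2 : HasDerivAt (D * deriv ψ) (-κ * deriv ψ x + G x) x := by
    have h3 : D * deriv ψ = fun x => -κ * ψ x + I x := by
      funext y
      change D y * deriv ψ y = -κ * ψ y + I y
      rw [hd y]
      have := hne y
      field_simp
    rw [h3]
    exact (hψd.const_mul (-κ)).add (hId x)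
  have h4 := h1.unique h2
  linarith

end

end Pool.Agent.SLE
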