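import Pool.Agent.Lib.MP_c17912_pr_TR.Base
import Pool.Agent.Lib.MP_c17912_pr_LN.LA

set_option autoImplicit false

open MeasureTheory ProbabilityTheory Filter
open scoped NNReal ENNReal Topology Real

namespace Pool.Agent.SLE

noncomputable section

namespace TRSDG

open LAAux PEAux

/-- The primitive of `sin (2 x) / V x`. -/
def G (a b x : ℝ) : ℝ := -(1 / 4) * ∫ t in (0 : ℝ)..x, f a b t

/-- The functions of the angle. -/
def psi (a b d e x : ℝ) : ℝ := d * G a b x + e * Real.cos (4 * x)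

/-- The first derivative. -/
def psi1 (a b d e x : ℝ) : ℝ :=
  d * (Real.sin (2 * x) / V a b x) - 4 * e * Real.sin (4 * x)

/-- The second derivative. -/
def psi2 (a b d e x : ℝ) : ℝ :=
  d * (2 * Real.cos (2 * x) / V a b x - (a - b) * Real.sin (2 * x) ^ 2 / V a b x ^ 2) -
    16 * e * Real.cos (4 * x)

theorem G_deriv {a b : ℝ} (ha : 0 < a) (hb : 0 < b) (x : ℝ) :
    HasDerivAt (G a b) (Real.sin (2 * x) / V a b x) x := by
  refine ((prim_deriv (f_smooth ha hb 0).continuous x).const_mul (-(1 / 4))).congr_deriv ?_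
  unfold f
  ring

theorem mul_deriv (c x : ℝ) : HasDerivAt (fun x : ℝ => c * x) c x := by
  simpa using (hasDerivAt_id x).const_mul c

theorem psi_deriv {a b : ℝ} (ha : 0 < a) (hb : 0 < b) (d e x : ℝ) :
    HasDerivAt (psi a b d e) (psi1 a b d e x) x := by
  refine (((G_deriv ha hb x).const_mul d).add
    (((mul_deriv 4 x).cos).const_mul e)).congr_deriv ?_
  unfold psi1
  ring

theorem psi1_deriv {a b : ℝ} (ha : 0 < a) (hb : 0 < b) (d e x : ℝ) :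
    HasDerivAt (psi1 a b d e) (psi2 a b d e x) x := by
  have h0 := (V_pos ha hb x).ne'
  refine ((((mul_deriv 2 x).sin.div (V_deriv a b x) h0).const_mul d).sub
    (((mul_deriv 4 x).sin).const_mul (4 * e))).congr_deriv ?_
  unfold psi2
  field_simp
  ring

theorem psi_smooth {a b : ℝ} (ha : 0 < a) (hb : 0 < b) (d e : ℝ) :
    ContDiff ℝ 3 (psi a b d e) := by
  have h1 : ContDiff ℝ (3 : ℕ) (fun x => ∫ t in (0 : ℝ)..x, f a b t) :=
    prim_smooth (f_smooth ha hb) 3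
  have h2 : ContDiff ℝ 3 (fun x : ℝ => e * Real.cos (4 * x)) := by fun_prop
  exact (contDiff_const.mul (contDiff_const.mul h1)).add h2

theorem psi_per {a b : ℝ} (ha : 0 < a) (hb : 0 < b) (d e : ℝ) :
    Function.Periodic (psi a b d e) (2 * π) := by
  have h := prim_periodic (f_smooth ha hb 0).continuous (f_per a b) (f_int a b)
  have h' := h.nat_mul 2
  intro x
  have h1 : G a b (x + 2 * π) = G a b x := by
    unfold G
    have := h' x
    simp only [Nat.cast_ofNat] at this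
    rw [this]
  have h2 : Real.cos (4 * (x + 2 * π)) = Real.cos (4 * x) := by
    have := Real.cos_add_nat_mul_two_pi (4 * x) 4
    rw [← this]
    congr 1
    push_cast
    ring
  unfold psi
  rw [h1, h2]

/-- The operator on these functions, with `u = sin (2 θ) / V`. -/
theorem op_psi {a b : ℝ} (ha : 0 < a) (hb : 0 < b) (d e α θ : ℝ) :
    Op a b 0 α (psi a b d e) θ =
      d * (Real.cos (2 * θ) -
          (a - b) * (Real.sin (2 * θ) / V a b θ) * Real.sin (2 * θ) / 2) -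
        8 * e * V a b θ * Real.cos (4 * θ) -
        (4 - (a - b)) / 2 * Real.sin (2 * θ) *
          (d * (Real.sin (2 * θ) / V a b θ) - 4 * e * Real.sin (4 * θ)) +
        α * ((4 - (a - b)) / 2 * Real.cos (2 * θ)) +
        (α ^ 2 * (a * Real.cos θ ^ 2 + b * Real.sin θ ^ 2) -
          α * (d * (Real.sin (2 * θ) / V a b θ) - 4 * e * Real.sin (4 * θ)) *
            (a - b) * Real.sin (2 * θ) +
          (d * (Real.sin (2 * θ) / V a b θ) - 4 * e * Real.sin (4 * θ)) ^ 2 * V a b θ) / 2 := by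
  have h1 : deriv (psi a b d e) = psi1 a b d e := by
    funext x
    exact (psi_deriv ha hb d e x).deriv
  have h2 : deriv (psi1 a b d e) θ = psi2 a b d e θ := (psi1_deriv ha hb d e θ).deriv
  have hV : Vth a b 0 θ = V a b θ := by
    unfold Vth V
    ring
  have h0 := (V_pos ha hb θ).ne'
  unfold Op
  rw [h1, h2, hV]
  unfold psi1 psi2 Bth H1 Vr Cv
  field_simp
  ring

theorem V_le (a b x : ℝ) : V a b x ≤ max a b := by
  have h := Real.sin_sq_add_cos_sq x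
  have h1 := mul_le_mul_of_nonneg_right (le_max_left a b) (sq_nonneg (Real.sin x))
  have h2 := mul_le_mul_of_nonneg_right (le_max_right a b) (sq_nonneg (Real.cos x))
  have h3 : max a b * Real.sin x ^ 2 + max a b * Real.cos x ^ 2 = max a b := by
    rw [← mul_add, h, mul_one]
  unfold V
  linarith

theorem le_V (a b x : ℝ) : min a b ≤ V a b x := by
  have h := Real.sin_sq_add_cos_sq x
  have h1 := mul_le_mul_of_nonneg_right (min_le_left a b) (sq_nonneg (Real.sin x))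
  have h2 := mul_le_mul_of_nonneg_right (min_le_right a b) (sq_nonneg (Real.cos x))
  have h3 : min a b * Real.sin x ^ 2 + min a b * Real.cos x ^ 2 = min a b := by
    rw [← mul_add, h, mul_one]
  unfold V
  linarith

theorem Vr_le (a b x : ℝ) : a * Real.cos x ^ 2 + b * Real.sin x ^ 2 ≤ max a b := by
  have h := Real.sin_sq_add_cos_sq x
  have h1 := mul_le_mul_of_nonneg_right (le_max_left a b) (sq_nonneg (Real.cos x))
  have h2 := mul_le_mul_of_nonneg_right (le_max_right a b) (sq_nonneg (Real.sin x))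
  have h3 : max a b * Real.sin x ^ 2 + max a b * Real.cos x ^ 2 = max a b := by
    rw [← mul_add, h, mul_one]
  linarith

/-- Smallness. -/
theorem small {A R : ℝ → ℝ} {μ M : ℝ} (hμ : 0 < μ) (hA : ∀ θ, A θ ≤ -μ) (hR : ∀ θ, R θ ≤ M) :
    ∃ y : ℝ, 0 < y ∧ y ≤ 1 ∧ ∃ η : ℝ, 0 < η ∧ ∀ θ, y * A θ + y ^ 2 * R θ ≤ -η := by
  have hM : (0 : ℝ) < 2 * (|M| + 1) := by positivity
  obtain ⟨y, hy⟩ : ∃ y : ℝ, y = min 1 (μ / (2 * (|M| + 1))) := ⟨_, rfl⟩
  have hy0 : 0 < y := by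
    rw [hy]
    exact lt_min one_pos (div_pos hμ hM)
  have hy1 : y ≤ 1 := by
    rw [hy]
    exact min_le_left _ _
  have hy2 : y * (2 * (|M| + 1)) ≤ μ := by
    have : y ≤ μ / (2 * (|M| + 1)) := by
      rw [hy]
      exact min_le_right _ _
    exact (le_div_iff₀ hM).mp this
  refine ⟨y, hy0, hy1, y * μ / 2, by positivity, fun θ => ?_⟩
  have h1 : y * A θ ≤ y * -μ := mul_le_mul_of_nonneg_left (hA θ) hy0.le
  have h2 : y ^ 2 * R θ ≤ y ^ 2 * (|M| + 1) := by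
    refine mul_le_mul_of_nonneg_left ?_ (by positivity)
    have := hR θ
    have := le_abs_self M
    linarith
  have h3 : y * (y * (2 * (|M| + 1))) ≤ y * μ := mul_le_mul_of_nonneg_left hy2 hy0.le
  nlinarith

/-- The bound of the first order term. -/
theorem first {V M m g κ s C t : ℝ} (hV : 0 < V) (hVM : V ≤ M) (hmV : m ≤ V) (hκ : 0 ≤ κ)
    (hg : 0 ≤ g) (hk : κ * (M * (16 * M + 8 * g)) ≤ 2 * g) (ht : |t| ≤ g) (hC : |C| ≤ 1) :
    -2 * g * (s / V) * s - 8 * κ * V * (1 - 2 * s ^ 2) + 8 * κ * t * s ^ 2 * C ≤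
      -(8 * κ * m) := by
  have h1 : t * C ≤ g := by
    refine (le_abs_self _).trans ?_
    rw [abs_mul]
    calc |t| * |C| ≤ g * 1 := mul_le_mul ht hC (abs_nonneg _) hg
      _ = g := mul_one g
  have hM : 0 < M := hV.trans_le hVM
  have h2 : κ * (16 * V + 8 * g) ≤ 2 * g / V := by
    rw [le_div_iff₀ hV]
    refine le_trans ?_ hk
    rw [mul_assoc]
    refine mul_le_mul_of_nonneg_left ?_ hκ
    nlinarith
  have h3 : s ^ 2 * (κ * (16 * V + 8 * g)) ≤ s ^ 2 * (2 * g / V) :=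
    mul_le_mul_of_nonneg_left h2 (sq_nonneg s)
  have h4 : s ^ 2 * κ * (t * C) ≤ s ^ 2 * κ * g :=
    mul_le_mul_of_nonneg_left h1 (by positivity)
  have h5 : κ * m ≤ κ * V := mul_le_mul_of_nonneg_left hmV hκ
  have h6 : -2 * g * (s / V) * s = -(s ^ 2 * (2 * g / V)) := by
    field_simp
  rw [h6]
  nlinarith

/-- The bound of the second order term. -/
theorem second {V M p s c r ν P : ℝ} (hV : V ≤ M) (hM : 0 ≤ M) (hr : r ≤ M) (hs : |s| ≤ 1)
    (hc : |c| ≤ 1) (hp : |p| ≤ P) :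
    (r + c * p * ν * s + p ^ 2 * V) / 2 ≤ (M + P * |ν| + P ^ 2 * M) / 2 := by
  have hP : 0 ≤ P := (abs_nonneg p).trans hp
  have h1 : c * p * ν * s ≤ P * |ν| := by
    refine (le_abs_self _).trans ?_
    rw [abs_mul, abs_mul, abs_mul]
    have h2 : |c| * |p| ≤ 1 * P := mul_le_mul hc hp (abs_nonneg _) zero_le_one
    have h3 : |c| * |p| * |ν| ≤ 1 * P * |ν| := mul_le_mul_of_nonneg_right h2 (abs_nonneg _)
    calc |c| * |p| * |ν| * |s| ≤ 1 * P * |ν| * 1 :=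
          mul_le_mul h3 hs (abs_nonneg _) (by positivity)
      _ = P * |ν| := by ring
  have h4 : p ^ 2 ≤ P ^ 2 := by
    rw [← sq_abs p]
    exact pow_le_pow_left₀ (abs_nonneg _) hp 2
  have h5 : p ^ 2 * V ≤ P ^ 2 * M := by
    calc p ^ 2 * V ≤ p ^ 2 * M := mul_le_mul_of_nonneg_left hV (sq_nonneg _)
      _ ≤ P ^ 2 * M := mul_le_mul_of_nonneg_right h4 hM
  linarith

theorem p_le {a b : ℝ} (ha : 0 < a) (hb : 0 < b) (d e θ : ℝ) :
    |d * (Real.sin (2 * θ) / V a b θ) - 4 * e * Real.sin (4 * θ)| ≤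
      |d| * (1 / min a b) + 4 * |e| := by
  have hm : 0 < min a b := lt_min ha hb
  have h1 : |Real.sin (2 * θ) / V a b θ| ≤ 1 / min a b := by
    rw [abs_div, abs_of_pos (V_pos ha hb θ)]
    exact div_le_div₀ zero_le_one (Real.abs_sin_le_one _) hm (le_V a b θ)
  have h2 : |d * (Real.sin (2 * θ) / V a b θ)| ≤ |d| * (1 / min a b) := by
    rw [abs_mul]
    exact mul_le_mul_of_nonneg_left h1 (abs_nonneg _)
  have h3 : |4 * e * Real.sin (4 * θ)| ≤ 4 * |e| := by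
    rw [abs_mul, abs_mul, abs_of_pos (by norm_num : (0 : ℝ) < 4)]
    have := mul_le_mul_of_nonneg_left (Real.abs_sin_le_one (4 * θ))
      (by positivity : 0 ≤ 4 * |e|)
    linarith
  exact (abs_sub _ _).trans (add_le_add h2 h3)

theorem cos4 (θ : ℝ) : Real.cos (4 * θ) = 1 - 2 * Real.sin (2 * θ) ^ 2 := by
  rw [show 4 * θ = 2 * (2 * θ) by ring, Real.cos_two_mul, Real.cos_sq']
  ring

theorem sin4 (θ : ℝ) :
    Real.sin (4 * θ) = 2 * Real.sin (2 * θ) * Real.cos (2 * θ) := by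
  rw [show 4 * θ = 2 * (2 * θ) by ring, Real.sin_two_mul]

/-- The sign. -/
theorem exists_sign (x : ℝ) : ∃ c : ℝ, c ^ 2 = 1 ∧ |c| ≤ 1 ∧ c * x = |x| := by
  rcases abs_cases x with h | h
  · exact ⟨1, by norm_num, by norm_num, by rw [h.1, one_mul]⟩
  · exact ⟨-1, by norm_num, by norm_num, by rw [h.1]; ring⟩

/-- The first function. -/
theorem one {a b : ℝ} (ha : 0 < a) (hb : 0 < b) (h1 : a - b ≠ 4) :
    ∃ α d e η : ℝ, |α| ≤ 1 ∧ 0 < η ∧ ∀ θ, Op a b 0 α (psi a b d e) θ ≤ -η := by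
  obtain ⟨M, hM⟩ : ∃ M : ℝ, M = max a b := ⟨_, rfl⟩
  obtain ⟨m, hm⟩ : ∃ m : ℝ, m = min a b := ⟨_, rfl⟩
  have hM0 : 0 < M := by
    rw [hM]
    exact lt_max_of_lt_left ha
  have hm0 : 0 < m := by
    rw [hm]
    exact lt_min ha hb
  obtain ⟨γ, hγ⟩ : ∃ γ : ℝ, γ = (4 - (a - b)) / 2 := ⟨_, rfl⟩
  have hγ0 : γ ≠ 0 := by
    intro h
    rw [hγ] at h
    apply h1
    linarith
  obtain ⟨c, hc2, hc1, hcγ⟩ := exists_sign γ
  have hg : 0 < |γ| := abs_pos.mpr hγ0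
  obtain ⟨κ, hκ⟩ : ∃ κ : ℝ, κ = 2 * |γ| / (M * (16 * M + 8 * |γ|)) := ⟨_, rfl⟩
  have hd : 0 < M * (16 * M + 8 * |γ|) := by positivity
  have hκ0 : 0 < κ := by
    rw [hκ]
    positivity
  have hk : κ * (M * (16 * M + 8 * |γ|)) ≤ 2 * |γ| := by
    rw [hκ, div_mul_cancel₀ _ hd.ne']
  obtain ⟨y, hy0, hy1, η, hη, H⟩ := small
    (A := fun θ => -2 * |γ| * (Real.sin (2 * θ) / V a b θ) * Real.sin (2 * θ) -
      8 * κ * V a b θ * (1 - 2 * Real.sin (2 * θ) ^ 2) +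
      8 * κ * γ * Real.sin (2 * θ) ^ 2 * Real.cos (2 * θ))
    (R := fun θ => ((a * Real.cos θ ^ 2 + b * Real.sin θ ^ 2) +
      c * (|γ| * (Real.sin (2 * θ) / V a b θ) - 4 * κ * Real.sin (4 * θ)) * (a - b) *
        Real.sin (2 * θ) +
      (|γ| * (Real.sin (2 * θ) / V a b θ) - 4 * κ * Real.sin (4 * θ)) ^ 2 * V a b θ) / 2)
    (μ := 8 * κ * m) (by positivity)
    (fun θ => first (V_pos ha hb θ) (hM ▸ V_le a b θ) (hm ▸ le_V a b θ) hκ0.le hg.le hk le_rfl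
      (Real.abs_cos_le_one _))
    (fun θ => second (hM ▸ V_le a b θ) hM0.le (hM ▸ Vr_le a b θ)
      (Real.abs_sin_le_one _) hc1 (p_le ha hb |γ| κ θ))
  refine ⟨-(c * y), y * |γ|, y * κ, η, ?_, hη, fun θ => ?_⟩
  · rw [abs_neg, abs_mul, abs_of_pos hy0]
    calc |c| * y ≤ 1 * 1 := mul_le_mul hc1 hy1 hy0.le zero_le_one
      _ = 1 := one_mul 1
  · refine le_trans (le_of_eq ?_) (H θ)
    rw [op_psi ha hb, ← hγ, cos4, sin4]
    have h2 : (a - b) = 4 - 2 * γ := by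
      rw [hγ]
      ring
    rw [h2]
    generalize Real.sin (2 * θ) / V a b θ = u
    have hc3 : c ^ 2 = 1 := hc2
    rw [← hcγ]
    linear_combination (y ^ 2 * (a * Real.cos θ ^ 2 + b * Real.sin θ ^ 2) / 2) * hc3

/-- The second function. -/
theorem two {a b : ℝ} (ha : 0 < a) (hb : 0 < b) (h2 : b - a ≠ 4) :
    ∃ α d e η : ℝ, |α| ≤ 1 ∧ 0 < η ∧
      ∀ θ, Op a b 0 α (psi a b d e) θ - 4 * Real.cos (2 * θ) ≤ -η := by
  obtain ⟨M, hM⟩ : ∃ M : ℝ, M = max a b := ⟨_, rfl⟩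
  obtain ⟨m, hm⟩ : ∃ m : ℝ, m = min a b := ⟨_, rfl⟩
  have hM0 : 0 < M := by
    rw [hM]
    exact lt_max_of_lt_left ha
  have hm0 : 0 < m := by
    rw [hm]
    exact lt_min ha hb
  obtain ⟨γ, hγ⟩ : ∃ γ : ℝ, γ = (4 - (a - b)) / 2 := ⟨_, rfl⟩
  obtain ⟨τ, hτ⟩ : ∃ τ : ℝ, τ = 4 - γ := ⟨_, rfl⟩
  have hτ0 : τ ≠ 0 := by
    intro h
    rw [hτ, hγ] at h
    apply h2
    linarith
  obtain ⟨c, hc2, hc1, hcτ⟩ := exists_sign τ
  have hg : 0 < |τ| := abs_pos.mpr hτ0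
  obtain ⟨κ, hκ⟩ : ∃ κ : ℝ, κ = 2 * |τ| / (M * (16 * M + 8 * |τ|)) := ⟨_, rfl⟩
  have hd : 0 < M * (16 * M + 8 * |τ|) := by positivity
  have hκ0 : 0 < κ := by
    rw [hκ]
    positivity
  have hk : κ * (M * (16 * M + 8 * |τ|)) ≤ 2 * |τ| := by
    rw [hκ, div_mul_cancel₀ _ hd.ne']
  obtain ⟨y, hy0, hy1, η, hη, H⟩ := small
    (A := fun θ => -2 * |τ| * (Real.sin (2 * θ) / V a b θ) * Real.sin (2 * θ) -
      8 * κ * V a b θ * (1 - 2 * Real.sin (2 * θ) ^ 2) +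
      8 * κ * (-τ) * Real.sin (2 * θ) ^ 2 * Real.cos (2 * θ))
    (R := fun θ => ((a * Real.cos θ ^ 2 + b * Real.sin θ ^ 2) +
      (-c) * (-(c * γ) * (Real.sin (2 * θ) / V a b θ) - 4 * κ * Real.sin (4 * θ)) * (a - b) *
        Real.sin (2 * θ) +
      (-(c * γ) * (Real.sin (2 * θ) / V a b θ) - 4 * κ * Real.sin (4 * θ)) ^ 2 *
        V a b θ) / 2)
    (μ := 8 * κ * m) (by positivity)
    (fun θ => first (V_pos ha hb θ) (hM ▸ V_le a b θ) (hm ▸ le_V a b θ) hκ0.le hg.le hk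
      (le_of_eq (abs_neg τ)) (Real.abs_cos_le_one _))
    (fun θ => second (hM ▸ V_le a b θ) hM0.le (hM ▸ Vr_le a b θ)
      (Real.abs_sin_le_one _) ((abs_neg c).trans_le hc1) (p_le ha hb (-(c * γ)) κ θ))
  refine ⟨c * y, 4 - y * (c * γ), y * κ, η, ?_, hη, fun θ => ?_⟩
  · rw [abs_mul, abs_of_pos hy0]
    calc |c| * y ≤ 1 * 1 := mul_le_mul hc1 hy1 hy0.le zero_le_one
      _ = 1 := one_mul 1
  · refine le_trans (le_of_eq ?_) (H θ)
    have hu : Real.sin (2 * θ) / V a b θ * V a b θ = Real.sin (2 * θ) :=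
      div_mul_cancel₀ _ (V_pos ha hb θ).ne'
    rw [op_psi ha hb, ← hγ, cos4, sin4]
    have h3 : (a - b) = 4 - 2 * γ := by
      rw [hγ]
      ring
    rw [h3, ← hcτ, hτ]
    obtain ⟨u, hu'⟩ : ∃ u : ℝ, u = Real.sin (2 * θ) / V a b θ := ⟨_, rfl⟩
    rw [← hu'] at hu ⊢
    linear_combination (y ^ 2 * (a * Real.cos θ ^ 2 + b * Real.sin θ ^ 2) / 2) * hc2 +
      (8 * u + 4 * y * (-(c * γ) * u -
        4 * κ * (2 * Real.sin (2 * θ) * Real.cos (2 * θ)))) * hu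

end TRSDG

/-- TR-SDG. The two strict supermartingales for a diagonal covariance matrix.

Proof. Notation: `V = Vth a b 0 = a sin^2 + b cos^2 > 0`, `ν = a - b`, `γ = (4 - ν) / 2`,
`s = sin (2 θ)`, `C = cos (2 θ)`. Then `Bth a b 0 θ = -γ s`, `H1 a b 0 θ = γ C`,
`Cv a b 0 θ = -(ν / 2) s`, `V' = ν s`. Let `G θ = ∫ t in 0..θ, sin (2 t) / V t`
(`G = - (1 / 4) ∫ LAAux.f`, smooth and `π`-periodic by LN/LA, LN/PE: `LAAux.f_smooth, f_per,
f_int, PEAux.prim_smooth, prim_periodic, prim_deriv`); `G' = s / V`,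
`G'' = 2 C / V - ν s^2 / V^2`. With `𝒢 ψ = V ψ'' / 2 - γ s ψ'`:
`𝒢 G = C - 2 s^2 / V` and `𝒢 (cos 4θ) = -8 V cos 4θ + 4 γ s sin 4θ`.

(1) Let `ς = sign γ = ± 1` (`γ ≠ 0` since `a - b ≠ 4`), `y > 0` small, `κ > 0` small,
`α₁ = -ς y`, `ψ₁ = y (ς γ G + κ cos 4θ)`. The part of `Op a b 0 α₁ ψ₁` of first order in `y` is
`ς γ (C - 2 s^2 / V) + κ (-8 V cos 4θ + 4 γ s sin 4θ) - ς γ C
 = -2 |γ| s^2 / V + κ (-8 V (1 - 2 s^2) + 8 γ s^2 C) ≤ -8 κ V`
as soon as `κ (16 V + 8 |γ|) ≤ 2 |γ| / V` for all `θ`, e.g. `κ = |γ| / (M (8 M + 4 |γ|))` with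
`M = max a b`. The rest of `Op` is `y^2` times a bounded function. So for small `y` there is
`δ > 0` with `Op a b 0 α₁ ψ₁ θ + δ ≤ 0` for all `θ`.

(2) Let `ς = sign (4 + ν)` (`≠ 0` since `b - a ≠ 4`), `y > 0` small, `κ > 0` small,
`α₂ = ς y`, `ψ₂ = 4 G + y (-ς γ G + κ cos 4θ)`. For `y = 0`:
`V χ'' / 2 + B χ' + V χ'^2 / 2 = 4 C` for `χ = 4 G`. The part of
`Op a b 0 α₂ ψ₂ - 4 C` of first order in `y` is (with `𝒢₀ ψ = V ψ'' / 2 + (4 - γ) s ψ'`,
`𝒢₀ G = C + 2 s^2 / V`, `4 - γ = (4 + ν) / 2`)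
`ς γ C - 2 ς ν s^2 / V - ς γ (C + 2 s^2 / V) + κ (-8 V cos 4θ - 2 (4 + ν) s sin 4θ)
 = -|4 + ν| s^2 / V + κ (-8 V (1 - 2 s^2) - 4 (4 + ν) s^2 C) ≤ -8 κ V` as soon as
`κ (16 V + 4 |4 + ν|) ≤ |4 + ν| / V`. The rest is `y^2` times a bounded function; so for small
`y` one gets `Op a b 0 α₂ ψ₂ θ - 4 cos (2 θ) + 4 δ ≤ 0`, and `q = 2 + δ / 2` (note
`|2 (q - 2) cos 2θ| ≤ δ`) gives the last inequality. Take `y ≤ 1`, so `α₁ ≤ q + α₂`, and
`δ ≤ 1`. (Numerically checked.) Suggestion: state a lemma for a general function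
`y ↦ A y + y^2 R` with `A ≤ -m < 0` and `|R| ≤ M`. -/
theorem hasS_diag {a b : ℝ} (ha : 0 < a) (hb : 0 < b) (h1 : a - b ≠ 4) (h2 : b - a ≠ 4) :
    HasS a b 0 := by
  obtain ⟨α₁, d₁, e₁, η₁, hα₁, hη₁, H₁⟩ := TRSDG.one ha hb h1
  obtain ⟨α₂, d₂, e₂, η₂, hα₂, hη₂, H₂⟩ := TRSDG.two ha hb h2
  obtain ⟨δ, hδ⟩ : ∃ δ : ℝ, δ = min 1 (min η₁ (η₂ / 2)) := ⟨_, rfl⟩
  have hδ0 : 0 < δ := by
    rw [hδ]
    exact lt_min one_pos (lt_min hη₁ (half_pos hη₂))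
  have hδ1 : δ ≤ 1 := by
    rw [hδ]
    exact min_le_left _ _
  have hδ2 : δ ≤ η₁ := by
    rw [hδ]
    exact (min_le_right _ _).trans (min_le_left _ _)
  have hδ3 : δ ≤ η₂ / 2 := by
    rw [hδ]
    exact (min_le_right _ _).trans (min_le_right _ _)
  refine ⟨α₁, α₂, 2 + δ / 2, δ, TRSDG.psi a b d₁ e₁, TRSDG.psi a b d₂ e₂, hδ0, hδ1, ?_, ?_,
    TRSDG.psi_smooth ha hb _ _, TRSDG.psi_per ha hb _ _, TRSDG.psi_smooth ha hb _ _,
    TRSDG.psi_per ha hb _ _, fun θ => ?_, fun θ => ?_⟩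
  · linarith
  · have := (abs_le.mp hα₁).2
    have := (abs_le.mp hα₂).1
    linarith
  · have := H₁ θ
    linarith
  · have h3 := H₂ θ
    have h4 : -δ ≤ δ * Real.cos (2 * θ) := by
      have := mul_le_mul_of_nonneg_left (Real.neg_one_le_cos (2 * θ)) hδ0.le
      linarith
    linarith

end

end Pool.Agent.SLE
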