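import Pool.Agent.Lib.MP_c17912_pr_TR.PLN
import Pool.Agent.Lib.MP_c17912_pr_TR.DNS
import Pool.Agent.Lib.MP_c17912_pr_LN.EX

set_option autoImplicit false

open MeasureTheory ProbabilityTheory Filter
open scoped NNReal ENNReal Topology Real

namespace Pool.Agent.SLE

noncomputable section

namespace TRSGN

theorem V_deriv (a b c θ : ℝ) : HasDerivAt (Vth a b c)
    ((a - b) * Real.sin (2 * θ) - 2 * c * Real.cos (2 * θ)) θ := by
  have h1 := Real.hasDerivAt_sin θ
  have h2 := Real.hasDerivAt_cos θ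
  have h := (((h1.pow 2).const_mul a).sub ((h1.mul h2).const_mul (2 * c))).add
    ((h2.pow 2).const_mul b)
  have e : HasDerivAt (Vth a b c) _ θ := h
  refine e.congr_deriv ?_
  rw [Real.sin_two_mul, Real.cos_two_mul']
  simp only [Nat.cast_ofNat, Nat.add_one_sub_one, pow_one]
  ring

theorem C_deriv (a b c θ : ℝ) : HasDerivAt (Cv a b c)
    (-((a - b) * Real.cos (2 * θ) + 2 * c * Real.sin (2 * θ))) θ := by
  have h0 : HasDerivAt (fun x : ℝ => 2 * x) 2 θ := by
    simpa using (hasDerivAt_id θ).const_mul (2 : ℝ)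
  have h1 := h0.sin
  have h2 := h0.cos
  have h := ((h1.const_mul ((a - b) / 2)).neg).add (h2.const_mul c)
  have e : HasDerivAt (Cv a b c) _ θ := h
  refine e.congr_deriv ?_
  ring

theorem V_smooth (a b c : ℝ) (n : ℕ) : ContDiff ℝ n (Vth a b c) := by
  unfold Vth
  fun_prop

theorem C_smooth (a b c : ℝ) (n : ℕ) : ContDiff ℝ n (Cv a b c) := by
  unfold Cv
  fun_prop

theorem H_smooth (a b c : ℝ) (n : ℕ) : ContDiff ℝ n (H1 a b c) := by
  unfold H1
  fun_prop

theorem R_cont (a b c : ℝ) : Continuous (Vr a b c) := by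
  unfold Vr
  fun_prop

theorem two_per (θ : ℝ) : 2 * (θ + π) = 2 * θ + 2 * π := by ring

theorem V_per (a b c : ℝ) : Function.Periodic (Vth a b c) π := by
  intro θ
  unfold Vth
  rw [Real.sin_add_pi, Real.cos_add_pi]
  ring

theorem R_per (a b c : ℝ) : Function.Periodic (Vr a b c) π := by
  intro θ
  unfold Vr
  rw [Real.sin_add_pi, Real.cos_add_pi]
  ring

theorem C_per (a b c : ℝ) : Function.Periodic (Cv a b c) π := by
  intro θ
  unfold Cv
  rw [two_per, Real.sin_add_two_pi, Real.cos_add_two_pi]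

theorem H_per (a b c : ℝ) : Function.Periodic (H1 a b c) π := by
  intro θ
  unfold H1
  rw [two_per, Real.sin_add_two_pi, Real.cos_add_two_pi]

/-- `π`-periodic functions are `2 π`-periodic. -/
theorem per2 {f : ℝ → ℝ} (h : Function.Periodic f π) : Function.Periodic f (2 * π) := by
  have := h.nat_mul 2
  simpa using this

/-- Integral of a derivative over a period. -/
theorem int_deriv {f : ℝ → ℝ} (hf : ContDiff ℝ 1 f) (hp : Function.Periodic f π) :
    ∫ x in (0 : ℝ)..π, deriv f x = 0 := by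
  rw [intervalIntegral.integral_deriv_eq_sub]
  · have := hp 0
    rw [zero_add] at this
    rw [this, sub_self]
  · intro x _
    exact (hf.differentiable (by norm_num)) x
  · exact (hf.continuous_deriv (by norm_num)).intervalIntegrable _ _

/-- Integral of a difference. -/
theorem int_sub {f g : ℝ → ℝ} (hf : Continuous f) (hg : Continuous g) :
    ∫ x in (0 : ℝ)..π, (f x - g x) = (∫ x in (0 : ℝ)..π, f x) - ∫ x in (0 : ℝ)..π, g x :=
  intervalIntegral.integral_sub (hf.intervalIntegrable _ _) (hg.intervalIntegrable _ _)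

/-- The derivative of a smooth function is smooth. -/
theorem sm_deriv {f : ℝ → ℝ} (hf : ∀ n : ℕ, ContDiff ℝ n f) (n : ℕ) : ContDiff ℝ n (deriv f) := by
  have h := hf (n + 1)
  rw [show ((n + 1 : ℕ) : WithTop ℕ∞) = (n : WithTop ℕ∞) + 1 by push_cast; rfl] at h
  exact (contDiff_succ_iff_deriv.1 h).2.2

theorem hd {f : ℝ → ℝ} (hf : ∀ n : ℕ, ContDiff ℝ n f) (x : ℝ) : HasDerivAt f (deriv f x) x :=
  (((hf 1).differentiable (by simp)) x).hasDerivAt

/-- The first corrector. -/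
theorem first {a b c : ℝ} (ha : 0 < a) (hb : 0 < b) (hc : c ^ 2 < a * b)
    (h1 : Lam a b c ≠ 0) : ∃ (lam : ℝ) (ψ : ℝ → ℝ), lam ≠ 0 ∧ (∀ n : ℕ, ContDiff ℝ n ψ) ∧
      Function.Periodic ψ π ∧
      ∀ x, Vth a b c x * deriv (deriv ψ) x / 2 + Bth a b c x * deriv ψ x = H1 a b c x - lam := by
  obtain ⟨hs, hp, hpos, κ, hκ⟩ := dens_props ha hb hc (-1)
  obtain ⟨ρ, hρ⟩ : ∃ ρ : ℝ → ℝ, ρ = dens a b c (-1) := ⟨_, rfl⟩
  rw [← hρ] at hs hp hpos hκ
  have hρc : Continuous ρ := (hs 0).continuous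
  have hHc : Continuous (H1 a b c) := (H_smooth a b c 0).continuous
  have hL : Lam a b c = ∫ θ in (0 : ℝ)..π, H1 a b c θ * ρ θ := by
    rw [hρ]
    rfl
  obtain ⟨J, hJ⟩ : ∃ J : ℝ, J = ∫ x in (0 : ℝ)..π, ρ x := ⟨_, rfl⟩
  have hJpos : 0 < J := by
    rw [hJ]
    exact intervalIntegral.intervalIntegral_pos_of_pos (hρc.intervalIntegrable _ _)
      hpos Real.pi_pos
  obtain ⟨lam, hlam⟩ : ∃ lam : ℝ, lam = Lam a b c / J := ⟨_, rfl⟩
  have hlam0 : lam ≠ 0 := by
    rw [hlam]
    exact div_ne_zero h1 hJpos.ne'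
  have hlJ : lam * J = Lam a b c := by
    rw [hlam]
    exact div_mul_cancel₀ _ hJpos.ne'
  have hDs : ∀ n : ℕ, ContDiff ℝ n (fun x => Vth a b c x * ρ x / 2) := fun n =>
    ((V_smooth a b c n).mul (hs n)).div_const 2
  have hGs : ∀ n : ℕ, ContDiff ℝ n (fun x => (H1 a b c x - lam) * ρ x) := fun n =>
    ((H_smooth a b c n).sub contDiff_const).mul (hs n)
  have hDp : Function.Periodic (fun x => Vth a b c x * ρ x / 2) π := by
    intro x
    change Vth a b c (x + π) * ρ (x + π) / 2 = Vth a b c x * ρ x / 2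
    rw [V_per a b c x, hp x]
  have hGp : Function.Periodic (fun x => (H1 a b c x - lam) * ρ x) π := by
    intro x
    change (H1 a b c (x + π) - lam) * ρ (x + π) = (H1 a b c x - lam) * ρ x
    rw [H_per a b c x, hp x]
  have hDpos : ∀ x, 0 < Vth a b c x * ρ x / 2 := fun x => by
    have i1 := Vth_pos ha hb hc x
    have i2 := hpos x
    positivity
  have hint : ∫ x in (0 : ℝ)..π, (H1 a b c x - lam) * ρ x = 0 := by
    have e : ∀ x, (H1 a b c x - lam) * ρ x = H1 a b c x * ρ x - lam * ρ x := fun x => by ring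
    simp only [e]
    rw [int_sub (f := fun x => H1 a b c x * ρ x) (g := fun x => lam * ρ x) (hHc.mul hρc)
      (continuous_const.mul hρc), intervalIntegral.integral_const_mul, ← hJ, ← hL, hlJ, sub_self]
  obtain ⟨ψ, hψs, hψp, hψ⟩ := pois_gen hDs hGs hDp hGp hDpos hint (-κ)
  refine ⟨lam, ψ, hlam0, hψs, hψp, fun x => ?_⟩
  have e := hψ x
  have hD' : deriv (fun x => Vth a b c x * ρ x / 2) x =
      (((a - b) * Real.sin (2 * x) - 2 * c * Real.cos (2 * x)) * ρ x +
        Vth a b c x * deriv ρ x) / 2 :=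
    (((V_deriv a b c x).mul (hd hs x)).div_const 2).deriv
  rw [hD'] at e
  have hk := hκ x
  have hρx := hpos x
  have hB : Bth a b c x = -2 * Real.sin (2 * x) +
      ((a - b) * Real.sin (2 * x) - 2 * c * Real.cos (2 * x)) / 2 := rfl
  have key : ρ x * (Vth a b c x * deriv (deriv ψ) x / 2 + Bth a b c x * deriv ψ x) =
      ρ x * (H1 a b c x - lam) := by
    rw [hB]
    linear_combination e - deriv ψ x * hk
  exact mul_left_cancel₀ hρx.ne' key

/-- The second corrector. -/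
theorem second {a b c : ℝ} (ha : 0 < a) (hb : 0 < b) (hc : c ^ 2 < a * b)
    (h2 : Lam b a (-c) ≠ 0) : ∃ (lam : ℝ) (χ ψ : ℝ → ℝ), lam ≠ 0 ∧
      (∀ n : ℕ, ContDiff ℝ n χ) ∧ Function.Periodic χ π ∧ (∀ n : ℕ, ContDiff ℝ n ψ) ∧
      Function.Periodic ψ π ∧
      (∀ x, Vth a b c x * deriv (deriv χ) x / 2 + Bth a b c x * deriv χ x +
        Vth a b c x * deriv χ x ^ 2 / 2 = 4 * Real.cos (2 * x)) ∧
      ∀ x, Vth a b c x * deriv (deriv ψ) x / 2 +
        (Bth a b c x + Vth a b c x * deriv χ x) * deriv ψ x =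
        -(H1 a b c x + Cv a b c x * deriv χ x) + lam := by
  obtain ⟨hs, hp, hpos, κ, hκ⟩ := dens_props ha hb hc 1
  have hback := Lam_back ha hb hc
  obtain ⟨f, hf⟩ : ∃ f : ℝ → ℝ, f = dens a b c 1 := ⟨_, rfl⟩
  rw [← hf] at hs hp hpos hκ hback
  have hfc : Continuous f := (hs 0).continuous
  have hHc : Continuous (H1 a b c) := (H_smooth a b c 0).continuous
  have hCc : Continuous (Cv a b c) := (C_smooth a b c 0).continuous
  have hne : ∀ x, f x ≠ 0 := fun x => (hpos x).ne'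
  have hf' := sm_deriv hs
  have hf'' := sm_deriv hf'
  have hf'c : Continuous (deriv f) := (hf' 0).continuous
  have hκ' : ∀ x, Vth a b c x / 2 * deriv f x - 2 * Real.sin (2 * x) * f x = κ := by
    intro x
    have := hκ x
    linarith
  -- the second order equation
  have h2nd : ∀ x, Vth a b c x * deriv (deriv f) x / 2 + Bth a b c x * deriv f x =
      4 * Real.cos (2 * x) * f x := by
    intro x
    have h0 : HasDerivAt (fun x : ℝ => 2 * x) 2 x := by
      simpa using (hasDerivAt_id x).const_mul (2 : ℝ)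
    have i1 := (((V_deriv a b c x).div_const 2).mul (hd hf' x)).sub
      (((h0.sin).const_mul 2).mul (hd hs x))
    have i2 : (fun x => Vth a b c x / 2 * deriv f x - 2 * Real.sin (2 * x) * f x) =
        fun _ => κ := funext hκ'
    have i3 : HasDerivAt (fun x => Vth a b c x / 2 * deriv f x - 2 * Real.sin (2 * x) * f x)
        (((a - b) * Real.sin (2 * x) - 2 * c * Real.cos (2 * x)) / 2 * deriv f x +
          Vth a b c x / 2 * deriv (deriv f) x -
          (2 * (Real.cos (2 * x) * 2) * f x + 2 * Real.sin (2 * x) * deriv f x)) x := i1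
    rw [i2] at i3
    have i4 := i3.unique (hasDerivAt_const x κ)
    have hB : Bth a b c x = -2 * Real.sin (2 * x) +
        ((a - b) * Real.sin (2 * x) - 2 * c * Real.cos (2 * x)) / 2 := rfl
    rw [hB]
    linear_combination i4
  -- the logarithm
  obtain ⟨χ, hχ⟩ : ∃ χ : ℝ → ℝ, χ = fun x => Real.log (f x) := ⟨_, rfl⟩
  have hχs : ∀ n : ℕ, ContDiff ℝ n χ := by
    intro n
    rw [hχ]
    exact (hs n).log hne
  have hχp : Function.Periodic χ π := by
    intro x
    rw [hχ]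
    change Real.log (f (x + π)) = Real.log (f x)
    rw [hp x]
  have hχ1 : ∀ x, deriv χ x = deriv f x / f x := by
    intro x
    rw [hχ]
    exact ((hd hs x).log (hne x)).deriv
  have hχ1' : deriv χ = fun x => deriv f x / f x := funext hχ1
  have hχ2 : ∀ x, deriv (deriv χ) x =
      (deriv (deriv f) x * f x - deriv f x * deriv f x) / f x ^ 2 := by
    intro x
    rw [hχ1']
    exact ((hd hf' x).div (hd hs x) (hne x)).deriv
  have hχ3 : ∀ x, Vth a b c x * deriv (deriv χ) x / 2 + Bth a b c x * deriv χ x +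
      Vth a b c x * deriv χ x ^ 2 / 2 = 4 * Real.cos (2 * x) := by
    intro x
    rw [hχ1, hχ2]
    have i1 := h2nd x
    have i2 := hne x
    field_simp
    field_simp at i1
    linear_combination f x * i1
  have hχf : ∀ x, deriv χ x * f x = deriv f x := by
    intro x
    rw [hχ1]
    exact div_mul_cancel₀ _ (hne x)
  -- the mean
  obtain ⟨J, hJ⟩ : ∃ J : ℝ, J = ∫ x in (0 : ℝ)..π, f x := ⟨_, rfl⟩
  have hJpos : 0 < J := by
    rw [hJ]
    exact intervalIntegral.intervalIntegral_pos_of_pos (hfc.intervalIntegrable _ _)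
      hpos Real.pi_pos
  have hmean : ∫ x in (0 : ℝ)..π, (H1 a b c x * f x + Cv a b c x * deriv f x) =
      -Lam b a (-c) := by
    rw [← hback]
    have hk := int_deriv (f := fun x => Cv a b c x * f x) ((C_smooth a b c 1).mul (hs 1)) (by
      intro x
      change Cv a b c (x + π) * f (x + π) = Cv a b c x * f x
      rw [C_per a b c x, hp x])
    have hk' : ∀ x, deriv (fun x => Cv a b c x * f x) x =
        -((a - b) * Real.cos (2 * x) + 2 * c * Real.sin (2 * x)) * f x +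
          Cv a b c x * deriv f x := fun x => ((C_deriv a b c x).mul (hd hs x)).deriv
    simp only [hk'] at hk
    have i0 := int_sub (f := fun x => H1 a b c x * f x + Cv a b c x * deriv f x)
      (g := fun x => -((a - b) * Real.cos (2 * x) + 2 * c * Real.sin (2 * x)) * f x +
          Cv a b c x * deriv f x) ((hHc.mul hfc).add (hCc.mul hf'c)) (by fun_prop)
    rw [hk, sub_zero] at i0
    rw [← i0]
    refine intervalIntegral.integral_congr fun x _ => ?_
    have hH : H1 a b c x = 2 * Real.cos (2 * x) -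
      ((a - b) * Real.cos (2 * x) + 2 * c * Real.sin (2 * x)) / 2 := rfl
    simp only [hH]
    ring
  obtain ⟨lam, hlam⟩ : ∃ lam : ℝ, lam = -Lam b a (-c) / J := ⟨_, rfl⟩
  have hlam0 : lam ≠ 0 := by
    rw [hlam]
    exact div_ne_zero (neg_ne_zero.2 h2) hJpos.ne'
  have hlJ : lam * J = -Lam b a (-c) := by
    rw [hlam]
    exact div_mul_cancel₀ _ hJpos.ne'
  have hDs : ∀ n : ℕ, ContDiff ℝ n (fun x => Vth a b c x * f x / 2) := fun n =>
    ((V_smooth a b c n).mul (hs n)).div_const 2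
  have hGs : ∀ n : ℕ, ContDiff ℝ n
      (fun x => lam * f x - (H1 a b c x * f x + Cv a b c x * deriv f x)) := fun n =>
    (contDiff_const.mul (hs n)).sub (((H_smooth a b c n).mul (hs n)).add
      ((C_smooth a b c n).mul (hf' n)))
  have hf'p : Function.Periodic (deriv f) π := EXaux.per_deriv hp
  have hDp : Function.Periodic (fun x => Vth a b c x * f x / 2) π := by
    intro x
    change Vth a b c (x + π) * f (x + π) / 2 = Vth a b c x * f x / 2
    rw [V_per a b c x, hp x]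
  have hGp : Function.Periodic
      (fun x => lam * f x - (H1 a b c x * f x + Cv a b c x * deriv f x)) π := by
    intro x
    change lam * f (x + π) - (H1 a b c (x + π) * f (x + π) +
      Cv a b c (x + π) * deriv f (x + π)) = lam * f x - (H1 a b c x * f x +
      Cv a b c x * deriv f x)
    rw [H_per a b c x, hp x, C_per a b c x, hf'p x]
  have hDpos : ∀ x, 0 < Vth a b c x * f x / 2 := fun x => by
    have i1 := Vth_pos ha hb hc x
    have i2 := hpos x
    positivity
  have hint : ∫ x in (0 : ℝ)..π,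
      (lam * f x - (H1 a b c x * f x + Cv a b c x * deriv f x)) = 0 := by
    rw [int_sub (f := fun x => lam * f x)
      (g := fun x => H1 a b c x * f x + Cv a b c x * deriv f x) (continuous_const.mul hfc)
      ((hHc.mul hfc).add (hCc.mul hf'c)), intervalIntegral.integral_const_mul, hmean, ← hJ,
      hlJ, sub_self]
  obtain ⟨ψ, hψs, hψp, hψ⟩ := pois_gen hDs hGs hDp hGp hDpos hint κ
  refine ⟨lam, χ, ψ, hlam0, hχs, hχp, hψs, hψp, hχ3, fun x => ?_⟩
  have e := hψ x
  have hD' : deriv (fun x => Vth a b c x * f x / 2) x =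
      (((a - b) * Real.sin (2 * x) - 2 * c * Real.cos (2 * x)) * f x +
        Vth a b c x * deriv f x) / 2 :=
    (((V_deriv a b c x).mul (hd hs x)).div_const 2).deriv
  rw [hD'] at e
  have hk := hκ' x
  have hfx := hne x
  have hxf := hχf x
  have hB : Bth a b c x = -2 * Real.sin (2 * x) +
      ((a - b) * Real.sin (2 * x) - 2 * c * Real.cos (2 * x)) / 2 := rfl
  have key : f x * (Vth a b c x * deriv (deriv ψ) x / 2 +
        (Bth a b c x + Vth a b c x * deriv χ x) * deriv ψ x) =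
      f x * (-(H1 a b c x + Cv a b c x * deriv χ x) + lam) := by
    rw [hB]
    linear_combination e + (-deriv ψ x) * (0 - 0) + deriv ψ x * hk +
      (Vth a b c x * deriv ψ x + Cv a b c x) * hxf
  exact mul_left_cancel₀ hfx key

end TRSGN

/-- TR-SGN. The two strict supermartingales for a nondegenerate matrix with nonzero forward and
backward logarithmic drift.

Proof. `V = Vth a b c`, `B = Bth a b c`, `H = H1 a b c`, `k = Cv a b c`; `V' = (a - b) sin 2θ -
2 c cos 2θ`, `B = -2 sin 2θ + V' / 2`, `k' = -((a - b) cos 2θ + 2 c sin 2θ)`.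
(1) `ρ = dens (-1)`: `V ρ' / 2 + 2 sin 2θ ρ = κ₁`. With `D = V ρ / 2`:
`D' - κ₁ = V' ρ / 2 - 2 sin 2θ ρ = B ρ`. Let `λ₁ = Lam / ∫ ρ` (nonzero) and `pois_gen` with
`G = (H - λ₁) ρ` (integral `0`), `κ = -κ₁`: `ψ` with `V ψ'' / 2 + B ψ' = H - λ₁`.
`ς = sign λ₁`, `α₁ = -ς y`, `ψ₁ = ς y ψ`: the first order part of `Op` in `y` is
`ς (H - λ₁) - ς H = -|λ₁|`, the rest is `y^2` times a bounded function. `y` small.
(2) `f = dens 1`: `V f' / 2 - 2 sin 2θ f = κ₂`; differentiating, `V f'' / 2 + B f' = 4 cos 2θ f`.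
`χ = log f`: `V χ'' / 2 + B χ' + V χ'^2 / 2 = 4 cos 2θ`. With `D = V f / 2`:
`D' + κ₂ = V' f / 2 + V f' / 2 + V f' / 2 - 2 sin 2θ f = (B + V χ') f`. Let
`λ₂ = (∫ (H + k χ') f) / ∫ f`; `∫ k χ' f = ∫ k f' = -∫ k' f`, and `H - k' = 2 cos 2θ +
((a - b) cos 2θ + 2 c sin 2θ) / 2`, so `λ₂ ∫ f = -Lam b a (-c) ≠ 0` by `Lam_back`. `pois_gen`
with `G = -(H + k χ' - λ₂) f`, `κ = κ₂`: `ψ` with `V ψ'' / 2 + (B + V χ') ψ' = -(H + k χ') + λ₂`.
`ς = -sign λ₂`, `α₂ = ς y`, `ψ₂ = χ + ς y ψ`: `Op - 4 cos 2θ` is `0` for `y = 0`, its first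
order part in `y` is `ς (H + k χ') + ς (-(H + k χ') + λ₂) = -|λ₂|`, the rest is `y^2` times a
bounded function. Then choose `y`, `δ`, `q = 2 + δ / 2` as in the docstring of `SDG.lean`.
(`π`-periodic functions are `2π`-periodic; bounded: `EXaux.bdd` of LN/EX.) -/
theorem hasS_gen {a b c : ℝ} (ha : 0 < a) (hb : 0 < b) (hc : c ^ 2 < a * b)
    (h1 : Lam a b c ≠ 0) (h2 : Lam b a (-c) ≠ 0) : HasS a b c := by
  obtain ⟨l1, ψ, hl1, hψs, hψp, hψ⟩ := TRSGN.first ha hb hc h1
  obtain ⟨l2, χ, φ, hl2, hχs, hχp, hφs, hφp, hχ, hφ⟩ := TRSGN.second ha hb hc h2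
  have hVc : Continuous (Vth a b c) := (TRSGN.V_smooth a b c 0).continuous
  have hCc : Continuous (Cv a b c) := (TRSGN.C_smooth a b c 0).continuous
  have hRc := TRSGN.R_cont a b c
  have hψ'c : Continuous (deriv ψ) := (TRSGN.sm_deriv hψs 0).continuous
  have hφ'c : Continuous (deriv φ) := (TRSGN.sm_deriv hφs 0).continuous
  have hψ'p : Function.Periodic (deriv ψ) π := EXaux.per_deriv hψp
  have hφ'p : Function.Periodic (deriv φ) π := EXaux.per_deriv hφp
  obtain ⟨M1, hM1⟩ := EXaux.bdd (f := fun θ => Vr a b c θ - 2 * deriv ψ θ * Cv a b c θ +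
    deriv ψ θ ^ 2 * Vth a b c θ) (by fun_prop) (TRSGN.per2 (by
      intro x
      change Vr a b c (x + π) - 2 * deriv ψ (x + π) * Cv a b c (x + π) +
        deriv ψ (x + π) ^ 2 * Vth a b c (x + π) = Vr a b c x - 2 * deriv ψ x * Cv a b c x +
        deriv ψ x ^ 2 * Vth a b c x
      rw [TRSGN.R_per a b c x, hψ'p x, TRSGN.C_per a b c x, TRSGN.V_per a b c x]))
  obtain ⟨M2, hM2⟩ := EXaux.bdd (f := fun θ => Vr a b c θ + 2 * deriv φ θ * Cv a b c θ +
    deriv φ θ ^ 2 * Vth a b c θ) (by fun_prop) (TRSGN.per2 (by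
      intro x
      change Vr a b c (x + π) + 2 * deriv φ (x + π) * Cv a b c (x + π) +
        deriv φ (x + π) ^ 2 * Vth a b c (x + π) = Vr a b c x + 2 * deriv φ x * Cv a b c x +
        deriv φ x ^ 2 * Vth a b c x
      rw [TRSGN.R_per a b c x, hφ'p x, TRSGN.C_per a b c x, TRSGN.V_per a b c x]))
  have hM1' : 0 ≤ M1 := (abs_nonneg _).trans (hM1 0)
  have hM2' : 0 ≤ M2 := (abs_nonneg _).trans (hM2 0)
  obtain ⟨y, hy⟩ : ∃ y : ℝ, y = 1 / (1 + M1 + M2 + |l1| + |l2|) := ⟨_, rfl⟩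
  have hden : 0 < 1 + M1 + M2 + |l1| + |l2| := by positivity
  have hy0 : 0 < y := by
    rw [hy]
    positivity
  have hyd : y * (1 + M1 + M2 + |l1| + |l2|) = 1 := by
    rw [hy]
    exact one_div_mul_cancel hden.ne'
  have hyM1 : y * M1 ≤ 1 := by
    nlinarith [mul_nonneg hy0.le hM2', mul_nonneg hy0.le (abs_nonneg l1),
      mul_nonneg hy0.le (abs_nonneg l2)]
  have hyM2 : y * M2 ≤ 1 := by
    nlinarith [mul_nonneg hy0.le hM1', mul_nonneg hy0.le (abs_nonneg l1),
      mul_nonneg hy0.le (abs_nonneg l2)]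
  have hyl1 : y * |l1| ≤ 1 := by
    nlinarith [mul_nonneg hy0.le hM2', mul_nonneg hy0.le hM1',
      mul_nonneg hy0.le (abs_nonneg l2)]
  have hyl2 : y * |l2| ≤ 1 := by
    nlinarith [mul_nonneg hy0.le hM2', mul_nonneg hy0.le (abs_nonneg l1),
      mul_nonneg hy0.le hM1']
  have hl1s : 0 < l1 ^ 2 := by positivity
  have hl2s : 0 < l2 ^ 2 := by positivity
  obtain ⟨δ, hδ⟩ : ∃ δ : ℝ, δ = min 1 (min (l1 ^ 2) (l2 ^ 2) * y / 4) := ⟨_, rfl⟩
  have hmin : 0 < min (l1 ^ 2) (l2 ^ 2) := lt_min hl1s hl2s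
  have hδ0 : 0 < δ := by
    rw [hδ]
    exact lt_min one_pos (by positivity)
  have hδ1 : δ ≤ 1 := by
    rw [hδ]
    exact min_le_left _ _
  have hδl : δ ≤ min (l1 ^ 2) (l2 ^ 2) * y / 4 := by
    rw [hδ]
    exact min_le_right _ _
  have hδl1 : 4 * δ ≤ l1 ^ 2 * y := by
    have := mul_le_mul_of_nonneg_right (min_le_left (l1 ^ 2) (l2 ^ 2)) hy0.le
    linarith
  have hδl2 : 4 * δ ≤ l2 ^ 2 * y := by
    have := mul_le_mul_of_nonneg_right (min_le_right (l1 ^ 2) (l2 ^ 2)) hy0.le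
    linarith
  have d1 : ∀ x, deriv (fun x => l1 * y * ψ x) x = l1 * y * deriv ψ x := fun x =>
    ((TRSGN.hd hψs x).const_mul (l1 * y)).deriv
  have d1' : deriv (fun x => l1 * y * ψ x) = fun x => l1 * y * deriv ψ x := funext d1
  have d2 : ∀ x, deriv (deriv (fun x => l1 * y * ψ x)) x = l1 * y * deriv (deriv ψ) x := by
    intro x
    rw [d1']
    exact ((TRSGN.hd (TRSGN.sm_deriv hψs) x).const_mul (l1 * y)).deriv
  have e1 : ∀ x, deriv (fun x => χ x + -(l2 * y) * φ x) x =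
      deriv χ x + -(l2 * y) * deriv φ x := fun x =>
    ((TRSGN.hd hχs x).add ((TRSGN.hd hφs x).const_mul (-(l2 * y)))).deriv
  have e1' : deriv (fun x => χ x + -(l2 * y) * φ x) =
      fun x => deriv χ x + -(l2 * y) * deriv φ x := funext e1
  have e2 : ∀ x, deriv (deriv (fun x => χ x + -(l2 * y) * φ x)) x =
      deriv (deriv χ) x + -(l2 * y) * deriv (deriv φ) x := by
    intro x
    rw [e1']
    exact ((TRSGN.hd (TRSGN.sm_deriv hχs) x).add
      ((TRSGN.hd (TRSGN.sm_deriv hφs) x).const_mul (-(l2 * y)))).deriv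
  refine ⟨-(l1 * y), -(l2 * y), 2 + δ / 2, δ, fun x => l1 * y * ψ x,
    fun x => χ x + -(l2 * y) * φ x, hδ0, hδ1, by linarith, ?_, ?_, ?_, ?_, ?_, ?_, ?_⟩
  · have i1 : |l1 * y| ≤ 1 := by
      rw [abs_mul, abs_of_pos hy0, mul_comm]
      exact hyl1
    have i2 : |l2 * y| ≤ 1 := by
      rw [abs_mul, abs_of_pos hy0, mul_comm]
      exact hyl2
    have i3 := (abs_le.1 i1).1
    have i4 := (abs_le.1 i2).2
    linarith
  · exact contDiff_const.mul (hψs 3)
  · refine TRSGN.per2 fun x => ?_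
    change l1 * y * ψ (x + π) = l1 * y * ψ x
    rw [hψp x]
  · exact (hχs 3).add (contDiff_const.mul (hφs 3))
  · refine TRSGN.per2 fun x => ?_
    change χ (x + π) + -(l2 * y) * φ (x + π) = χ x + -(l2 * y) * φ x
    rw [hφp x, hχp x]
  · intro x
    unfold Op
    rw [d1, d2]
    have i1 := hψ x
    have i2 := (abs_le.1 (hM1 x)).2
    have i3 : Vth a b c x * (l1 * y * deriv (deriv ψ) x) / 2 +
        Bth a b c x * (l1 * y * deriv ψ x) + -(l1 * y) * H1 a b c x +
        ((-(l1 * y)) ^ 2 * Vr a b c x + 2 * -(l1 * y) * (l1 * y * deriv ψ x) * Cv a b c x +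
          (l1 * y * deriv ψ x) ^ 2 * Vth a b c x) / 2 =
        -(l1 ^ 2 * y) + l1 ^ 2 * y * y * (Vr a b c x - 2 * deriv ψ x * Cv a b c x +
          deriv ψ x ^ 2 * Vth a b c x) / 2 := by
      linear_combination (l1 * y) * i1
    rw [i3]
    have i4 : l1 ^ 2 * y * y * (Vr a b c x - 2 * deriv ψ x * Cv a b c x +
          deriv ψ x ^ 2 * Vth a b c x) ≤ l1 ^ 2 * y * y * M1 :=
      mul_le_mul_of_nonneg_left i2 (by positivity)
    have i5 : l1 ^ 2 * y * (y * M1) ≤ l1 ^ 2 * y * 1 :=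
      mul_le_mul_of_nonneg_left hyM1 (by positivity)
    have i6 : l1 ^ 2 * y * y * M1 = l1 ^ 2 * y * (y * M1) := by ring
    linarith
  · intro x
    unfold Op
    rw [e1, e2]
    have i1 := hχ x
    have i1' := hφ x
    have i2 := (abs_le.1 (hM2 x)).2
    have i3 : Vth a b c x * (deriv (deriv χ) x + -(l2 * y) * deriv (deriv φ) x) / 2 +
        Bth a b c x * (deriv χ x + -(l2 * y) * deriv φ x) + -(l2 * y) * H1 a b c x +
        ((-(l2 * y)) ^ 2 * Vr a b c x +
          2 * -(l2 * y) * (deriv χ x + -(l2 * y) * deriv φ x) * Cv a b c x +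
          (deriv χ x + -(l2 * y) * deriv φ x) ^ 2 * Vth a b c x) / 2 =
        4 * Real.cos (2 * x) - l2 ^ 2 * y + l2 ^ 2 * y * y * (Vr a b c x +
          2 * deriv φ x * Cv a b c x + deriv φ x ^ 2 * Vth a b c x) / 2 := by
      linear_combination i1 + (-(l2 * y)) * i1'
    rw [i3]
    have i4 : l2 ^ 2 * y * y * (Vr a b c x + 2 * deriv φ x * Cv a b c x +
          deriv φ x ^ 2 * Vth a b c x) ≤ l2 ^ 2 * y * y * M2 :=
      mul_le_mul_of_nonneg_left i2 (by positivity)
    have i5 : l2 ^ 2 * y * (y * M2) ≤ l2 ^ 2 * y * 1 :=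
      mul_le_mul_of_nonneg_left hyM2 (by positivity)
    have i6 : l2 ^ 2 * y * y * M2 = l2 ^ 2 * y * (y * M2) := by ring
    have i7 : -(δ * Real.cos (2 * x)) ≤ δ := by
      have := Real.neg_one_le_cos (2 * x)
      nlinarith
    linarith

end

end Pool.Agent.SLE
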