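import Pool.Agent.Lib.MP_c17912_pr_TR.LDG
import Pool.Agent.Lib.MP_ae5b4e_an_WB.ParamInt

/-!
# MP_c17912_pr, project TR: the drift vanishes only on a thin set of matrices

For `a, b > 0` and `a - b ≠ 4` the zeros of `c ↦ Lam a b c` on `c ^ 2 < a * b` are isolated
(`Lam_isolated`), and the matrices `(a, b, c)` with `Lam a b c = 0` or `Lam b a (-c) = 0` form a
set of Lebesgue measure zero (`Lam_null`).
-/

set_option autoImplicit false

open MeasureTheory ProbabilityTheory Filter Set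
open scoped NNReal ENNReal Topology Real

namespace Pool.Agent.SLE

noncomputable section

namespace TRTHN

/-- Jointly continuous, and holomorphic in the first variable. -/
structure Good (U : Set ℂ) (F : ℂ → ℝ → ℂ) : Prop where
  cont : Continuous fun p : U × ℝ => F (p.1 : ℂ) p.2
  hol : ∀ x, DifferentiableOn ℂ (fun z => F z x) U

theorem Good.fst {U : Set ℂ} : Good U (fun z _ => z) :=
  ⟨continuous_subtype_val.comp continuous_fst, fun _ => differentiableOn_id⟩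

theorem Good.snd {U : Set ℂ} {g : ℝ → ℂ} (hg : Continuous g) : Good U (fun _ x => g x) :=
  ⟨hg.comp continuous_snd, fun _ => differentiableOn_const _⟩

theorem Good.add {U : Set ℂ} {F G : ℂ → ℝ → ℂ} (hF : Good U F) (hG : Good U G) :
    Good U (fun z x => F z x + G z x) :=
  ⟨hF.cont.add hG.cont, fun x => (hF.hol x).add (hG.hol x)⟩

theorem Good.sub {U : Set ℂ} {F G : ℂ → ℝ → ℂ} (hF : Good U F) (hG : Good U G) :
    Good U (fun z x => F z x - G z x) :=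
  ⟨hF.cont.sub hG.cont, fun x => (hF.hol x).sub (hG.hol x)⟩

theorem Good.neg {U : Set ℂ} {F : ℂ → ℝ → ℂ} (hF : Good U F) :
    Good U (fun z x => -F z x) :=
  ⟨hF.cont.neg, fun x => (hF.hol x).neg⟩

theorem Good.mul {U : Set ℂ} {F G : ℂ → ℝ → ℂ} (hF : Good U F) (hG : Good U G) :
    Good U (fun z x => F z x * G z x) :=
  ⟨hF.cont.mul hG.cont, fun x => (hF.hol x).mul (hG.hol x)⟩

theorem Good.exp {U : Set ℂ} {F : ℂ → ℝ → ℂ} (hF : Good U F) :
    Good U (fun z x => Complex.exp (F z x)) :=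
  ⟨hF.cont.cexp, fun x => (hF.hol x).cexp⟩

theorem Good.div {U : Set ℂ} {F G : ℂ → ℝ → ℂ} (hF : Good U F) (hG : Good U G)
    (h0 : ∀ z ∈ U, ∀ x, G z x ≠ 0) :
    Good U (fun z x => F z x / G z x) :=
  ⟨hF.cont.div hG.cont fun p => h0 p.1 p.1.2 p.2,
    fun x => (hF.hol x).div (hG.hol x) fun z hz => h0 z hz x⟩

theorem Good.shift {U : Set ℂ} {F : ℂ → ℝ → ℂ} (hF : Good U F) (r : ℝ) :
    Good U (fun z x => F z (x + r)) :=
  ⟨hF.cont.comp (continuous_fst.prodMk (continuous_snd.add continuous_const)),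
    fun x => hF.hol (x + r)⟩

theorem Good.bdd {U : Set ℂ} (hU : IsOpen U) {F : ℂ → ℝ → ℂ} (hF : Good U F) (a b : ℝ)
    (z0 : ℂ) (hz0 : z0 ∈ U) :
    ∃ C : ℝ, ∀ᶠ z in 𝓝 z0, ∀ θ ∈ Ioo a b, ‖F z θ‖ ≤ C := by
  obtain ⟨r, hr, hb⟩ := Metric.nhds_basis_closedBall.mem_iff.1 (hU.mem_nhds hz0)
  have hc : ContinuousOn (fun p : ℂ × ℝ => F p.1 p.2) (Metric.closedBall z0 r ×ˢ Icc a b) := by
    rw [continuousOn_iff_continuous_domRestrict]
    exact hF.cont.comp (g := fun p : U × ℝ => F (p.1 : ℂ) p.2)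
      (f := fun p : (Metric.closedBall z0 r ×ˢ Icc a b : Set (ℂ × ℝ)) =>
        ((⟨p.1.1, hb p.2.1⟩ : U), p.1.2))
      ((Continuous.subtype_mk (continuous_fst.comp continuous_subtype_val) _).prodMk
        (continuous_snd.comp continuous_subtype_val))
  obtain ⟨C, hC⟩ := ((isCompact_closedBall z0 r).prod isCompact_Icc).exists_bound_of_continuousOn
    hc
  refine ⟨C, ?_⟩
  filter_upwards [Metric.closedBall_mem_nhds z0 hr] with z hz θ hθ
  exact hC (z, θ) ⟨hz, Ioo_subset_Icc_self hθ⟩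

theorem Good.slice {U : Set ℂ} {F : ℂ → ℝ → ℂ} (hF : Good U F) {z : ℂ} (hz : z ∈ U) :
    Continuous (F z) :=
  hF.cont.comp (g := fun p : U × ℝ => F (p.1 : ℂ) p.2) (f := fun x : ℝ => ((⟨z, hz⟩ : U), x))
    (continuous_const.prodMk continuous_id)

theorem Good.prim {U : Set ℂ} (hU : IsOpen U) {F : ℂ → ℝ → ℂ} (hF : Good U F) :
    Good U (fun z x => ∫ t in (0 : ℝ)..x, F z t) := by
  refine ⟨intervalIntegral.continuous_parametric_primitive_of_continuous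
    (f := fun (z : U) (t : ℝ) => F (z : ℂ) t) hF.cont, fun x => ?_⟩
  rcases le_total 0 x with hx | hx
  · exact MP_ae5b4e_an_WB.differentiableOn_paramInt hU hx (fun θ _ => hF.hol θ)
      (fun z hz => (hF.slice hz).continuousOn) (hF.bdd hU 0 x)
  · have h := MP_ae5b4e_an_WB.differentiableOn_paramInt hU hx (fun θ _ => hF.hol θ)
      (fun z hz => (hF.slice hz).continuousOn) (hF.bdd hU x 0)
    refine h.neg.congr fun z _ => ?_
    exact intervalIntegral.integral_symm _ _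

/-- The variance, for a complex parameter. -/
def Vc (a b : ℝ) (z : ℂ) (θ : ℝ) : ℂ :=
  ((a * Real.sin θ ^ 2 + b * Real.cos θ ^ 2 : ℝ) : ℂ) -
    z * ((2 * (Real.sin θ * Real.cos θ) : ℝ) : ℂ)

/-- The exponent, for a complex parameter. -/
def Lc (a b : ℝ) (z : ℂ) (x : ℝ) : ℂ :=
  ∫ t in (0 : ℝ)..x, ((4 * Real.sin (2 * t) : ℝ) : ℂ) / Vc a b z t

/-- The primitive of the integrand of the density, for a complex parameter. -/
def Qc (a b : ℝ) (z : ℂ) (x : ℝ) : ℂ :=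
  ∫ s in (0 : ℝ)..x, Complex.exp (Lc a b z s) / Vc a b z s

/-- The density, for a complex parameter. -/
def Dc (a b : ℝ) (z : ℂ) (x : ℝ) : ℂ :=
  Complex.exp (-Lc a b z x) * (Qc a b z (x + π) - Qc a b z x)

/-- The drift, for a complex parameter. -/
def Hc (a b : ℝ) (z : ℂ) (x : ℝ) : ℂ :=
  ((2 * Real.cos (2 * x) - (a - b) * Real.cos (2 * x) / 2 : ℝ) : ℂ) -
    z * ((Real.sin (2 * x) : ℝ) : ℂ)

/-- The mean drift, for a complex parameter. -/
def Lamc (a b : ℝ) (z : ℂ) (x : ℝ) : ℂ :=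
  ∫ θ in (0 : ℝ)..x, Hc a b z θ * Dc a b z θ

/-- The strip of the admissible parameters. -/
def Str (a b : ℝ) : Set ℂ := {z : ℂ | z.re ^ 2 < a * b}

theorem Str_open (a b : ℝ) : IsOpen (Str a b) :=
  isOpen_lt (Complex.continuous_re.pow 2) continuous_const

theorem Str_eq (a b : ℝ) : Str a b = Complex.re ⁻¹' Ioo (-√(a * b)) √(a * b) := by
  ext z
  rw [mem_preimage, mem_Ioo, ← abs_lt, Real.lt_sqrt (abs_nonneg _), sq_abs]
  exact Iff.rfl

theorem Str_conv (a b : ℝ) : IsPreconnected (Str a b) := by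
  rw [Str_eq]
  exact ((convex_Ioo _ _).is_linear_preimage Complex.reLm.isLinear).isPreconnected

theorem Vc_re (a b : ℝ) (z : ℂ) (θ : ℝ) : (Vc a b z θ).re = Vth a b z.re θ := by
  unfold Vc Vth
  rw [Complex.sub_re, Complex.re_mul_ofReal, Complex.ofReal_re]
  ring

theorem Vc_ne {a b : ℝ} (ha : 0 < a) (hb : 0 < b) (z : ℂ) (hz : z ∈ Str a b) (θ : ℝ) :
    Vc a b z θ ≠ 0 := by
  intro h
  have h1 := Vc_re a b z θ
  rw [h, Complex.zero_re] at h1
  exact (Vth_pos ha hb hz θ).ne h1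

theorem Vc_good (a b : ℝ) (U : Set ℂ) : Good U (Vc a b) := by
  refine Good.sub (Good.snd (g := fun θ : ℝ =>
    ((a * Real.sin θ ^ 2 + b * Real.cos θ ^ 2 : ℝ) : ℂ)) (by fun_prop))
    (Good.mul Good.fst (Good.snd (g := fun θ : ℝ =>
      ((2 * (Real.sin θ * Real.cos θ) : ℝ) : ℂ)) (by fun_prop)))

theorem Hc_good (a b : ℝ) (U : Set ℂ) : Good U (Hc a b) := by
  refine Good.sub (Good.snd (g := fun x : ℝ =>
    ((2 * Real.cos (2 * x) - (a - b) * Real.cos (2 * x) / 2 : ℝ) : ℂ)) (by fun_prop))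
    (Good.mul Good.fst (Good.snd (g := fun x : ℝ =>
      ((Real.sin (2 * x) : ℝ) : ℂ)) (by fun_prop)))

theorem Lc_good {a b : ℝ} (ha : 0 < a) (hb : 0 < b) : Good (Str a b) (Lc a b) :=
  Good.prim (Str_open a b) (Good.div (Good.snd (g := fun t : ℝ =>
    ((4 * Real.sin (2 * t) : ℝ) : ℂ)) (by fun_prop)) (Vc_good a b _) (Vc_ne ha hb))

theorem Qc_good {a b : ℝ} (ha : 0 < a) (hb : 0 < b) : Good (Str a b) (Qc a b) :=
  Good.prim (Str_open a b) (Good.div (Lc_good ha hb).exp (Vc_good a b _) (Vc_ne ha hb))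

theorem Dc_good {a b : ℝ} (ha : 0 < a) (hb : 0 < b) : Good (Str a b) (Dc a b) :=
  (Lc_good ha hb).neg.exp.mul (((Qc_good ha hb).shift π).sub (Qc_good ha hb))

theorem Lamc_good {a b : ℝ} (ha : 0 < a) (hb : 0 < b) : Good (Str a b) (Lamc a b) :=
  Good.prim (Str_open a b) ((Hc_good a b _).mul (Dc_good ha hb))

theorem Vc_real (a b c θ : ℝ) : Vc a b (c : ℂ) θ = ((Vth a b c θ : ℝ) : ℂ) := by
  unfold Vc Vth
  push_cast
  ring

theorem Lc_real (a b c x : ℝ) : Lc a b (c : ℂ) x = ((TRDNS.LL a b c x : ℝ) : ℂ) := by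
  unfold Lc TRDNS.LL
  rw [← intervalIntegral.integral_ofReal]
  refine intervalIntegral.integral_congr fun t _ => ?_
  simp only [Vc_real, TRDNS.ff, Complex.ofReal_div]

theorem Qc_real (a b c x : ℝ) :
    Qc a b (c : ℂ) x = ((∫ s in (0 : ℝ)..x, TRDNS.ee a b c (-1) s : ℝ) : ℂ) := by
  unfold Qc
  rw [← intervalIntegral.integral_ofReal]
  refine intervalIntegral.integral_congr fun s _ => ?_
  simp only [Vc_real, Lc_real, TRDNS.ee, Complex.ofReal_div, Complex.ofReal_exp,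
    neg_mul, one_mul, neg_neg]

theorem Dc_real {a b c : ℝ} (ha : 0 < a) (hb : 0 < b) (hc : c ^ 2 < a * b) (x : ℝ) :
    Dc a b (c : ℂ) x = ((dens a b c (-1) x : ℝ) : ℂ) := by
  rw [TRDNS.dens_eq ha hb hc, TRDNS.ee_int ha hb hc]
  unfold Dc
  rw [Lc_real, Qc_real, Qc_real]
  push_cast
  rw [neg_mul, one_mul]

theorem Hc_real (a b c x : ℝ) : Hc a b (c : ℂ) x = ((H1 a b c x : ℝ) : ℂ) := by
  unfold Hc H1
  push_cast
  ring

theorem Lamc_real {a b c : ℝ} (ha : 0 < a) (hb : 0 < b) (hc : c ^ 2 < a * b) :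
    Lamc a b (c : ℂ) π = ((Lam a b c : ℝ) : ℂ) := by
  unfold Lamc Lam
  rw [← intervalIntegral.integral_ofReal]
  refine intervalIntegral.integral_congr fun x _ => ?_
  simp only [Hc_real, Dc_real ha hb hc, Complex.ofReal_mul]

/-! ### Continuity of the mean drift -/

/-- The cone of the positive definite matrices. -/
def Cone : Set (ℝ × ℝ × ℝ) := {p | 0 < p.1 ∧ 0 < p.2.1 ∧ p.2.2 ^ 2 < p.1 * p.2.1}

theorem Cone_open : IsOpen Cone := by
  have h1 : IsOpen {p : ℝ × ℝ × ℝ | 0 < p.1} := isOpen_lt continuous_const continuous_fst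
  have h2 : IsOpen {p : ℝ × ℝ × ℝ | 0 < p.2.1} :=
    isOpen_lt continuous_const (continuous_fst.comp continuous_snd)
  have h3 : IsOpen {p : ℝ × ℝ × ℝ | p.2.2 ^ 2 < p.1 * p.2.1} :=
    isOpen_lt (by fun_prop) (by fun_prop)
  exact h1.inter (h2.inter h3)

theorem V_cont : Continuous fun q : Cone × ℝ => Vth q.1.1.1 q.1.1.2.1 q.1.1.2.2 q.2 := by
  unfold Vth
  fun_prop

theorem V_ne (q : Cone × ℝ) : Vth q.1.1.1 q.1.1.2.1 q.1.1.2.2 q.2 ≠ 0 :=
  (Vth_pos q.1.2.1 q.1.2.2.1 q.1.2.2.2 q.2).ne'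

theorem LL_cont :
    Continuous fun q : Cone × ℝ => TRDNS.LL q.1.1.1 q.1.1.2.1 q.1.1.2.2 q.2 := by
  refine intervalIntegral.continuous_parametric_primitive_of_continuous
    (f := fun (p : Cone) (t : ℝ) => TRDNS.ff p.1.1 p.1.2.1 p.1.2.2 t) ?_
  refine Continuous.div (f := fun q : Cone × ℝ => 4 * Real.sin (2 * q.2)) ?_ V_cont V_ne
  fun_prop

theorem Q_cont : Continuous fun q : Cone × ℝ =>
    ∫ s in (0 : ℝ)..q.2, TRDNS.ee q.1.1.1 q.1.1.2.1 q.1.1.2.2 (-1) s := by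
  refine intervalIntegral.continuous_parametric_primitive_of_continuous
    (f := fun (p : Cone) (t : ℝ) => TRDNS.ee p.1.1 p.1.2.1 p.1.2.2 (-1) t) ?_
  exact Continuous.div (f := fun q : Cone × ℝ =>
    Real.exp (-((-1) * TRDNS.LL q.1.1.1 q.1.1.2.1 q.1.1.2.2 q.2)))
    (Real.continuous_exp.comp (continuous_const.mul LL_cont).neg) V_cont V_ne

theorem D_cont :
    Continuous fun q : Cone × ℝ => dens q.1.1.1 q.1.1.2.1 q.1.1.2.2 (-1) q.2 := by
  have h : (fun q : Cone × ℝ => dens q.1.1.1 q.1.1.2.1 q.1.1.2.2 (-1) q.2) = fun q =>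
      Real.exp ((-1) * TRDNS.LL q.1.1.1 q.1.1.2.1 q.1.1.2.2 q.2) *
        ((∫ s in (0 : ℝ)..(q.2 + π), TRDNS.ee q.1.1.1 q.1.1.2.1 q.1.1.2.2 (-1) s) -
          ∫ s in (0 : ℝ)..q.2, TRDNS.ee q.1.1.1 q.1.1.2.1 q.1.1.2.2 (-1) s) := by
    funext q
    rw [TRDNS.dens_eq q.1.2.1 q.1.2.2.1 q.1.2.2.2,
      TRDNS.ee_int q.1.2.1 q.1.2.2.1 q.1.2.2.2]
  rw [h]
  refine (Real.continuous_exp.comp (continuous_const.mul LL_cont)).mul (Continuous.sub ?_ Q_cont)
  exact Q_cont.comp (g := fun q : Cone × ℝ =>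
    ∫ s in (0 : ℝ)..q.2, TRDNS.ee q.1.1.1 q.1.1.2.1 q.1.1.2.2 (-1) s)
    (f := fun q : Cone × ℝ => (q.1, q.2 + π)) (by fun_prop)

theorem Lam_cont : Continuous fun p : Cone => Lam p.1.1 p.1.2.1 p.1.2.2 := by
  refine intervalIntegral.continuous_parametric_intervalIntegral_of_continuous'
    (f := fun (p : Cone) (θ : ℝ) => H1 p.1.1 p.1.2.1 p.1.2.2 θ *
      dens p.1.1 p.1.2.1 p.1.2.2 (-1) θ) ?_ 0 π
  refine Continuous.mul (f := fun q : Cone × ℝ => H1 q.1.1.1 q.1.1.2.1 q.1.1.2.2 q.2) ?_ D_cont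
  unfold H1
  fun_prop

/-- The matrix of `i W`. -/
def swp (p : Cone) : Cone :=
  ⟨(p.1.2.1, p.1.1, -p.1.2.2), p.2.2.1, p.2.1, by
    have h := p.2.2.2
    change (-p.1.2.2) ^ 2 < p.1.2.1 * p.1.1
    rw [neg_sq, mul_comm]
    exact h⟩

theorem Lam_cont' : Continuous fun p : Cone => Lam p.1.2.1 p.1.1 (-p.1.2.2) := by
  refine Lam_cont.comp (g := fun p : Cone => Lam p.1.1 p.1.2.1 p.1.2.2) (f := swp) ?_
  exact Continuous.subtype_mk (by fun_prop) _

/-! ### Null sets -/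

theorem null_gen {G : ℝ → ℝ → ℝ → ℝ} {k : ℝ}
    (hG : Continuous fun p : Cone => G p.1.1 p.1.2.1 p.1.2.2)
    (hT : ∀ a b c : ℝ, 0 < a → 0 < b → c ^ 2 < a * b → a - b ≠ k →
      ∀ᶠ x in 𝓝[≠] c, G a b x ≠ 0) :
    volume {p : ℝ × ℝ × ℝ | p ∈ Cone ∧ G p.1 p.2.1 p.2.2 = 0} = 0 := by
  have hm : MeasurableSet {p : ℝ × ℝ × ℝ | p ∈ Cone ∧ G p.1 p.2.1 p.2.2 = 0} := by
    have h1 : IsClosed {p : Cone | G p.1.1 p.1.2.1 p.1.2.2 = 0} :=
      isClosed_eq hG continuous_const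
    have h2 := Cone_open.measurableSet.subtype_image h1.measurableSet
    convert h2 using 1
    ext p
    constructor
    · rintro ⟨hp, h0⟩
      exact ⟨⟨p, hp⟩, h0, rfl⟩
    · rintro ⟨q, hq, rfl⟩
      exact ⟨q.2, hq⟩
  rw [Measure.volume_eq_prod, Measure.measure_prod_null hm]
  refine Eventually.of_forall fun a => ?_
  change volume (Prod.mk a ⁻¹' {p : ℝ × ℝ × ℝ | p ∈ Cone ∧ G p.1 p.2.1 p.2.2 = 0}) = 0
  rw [Measure.volume_eq_prod, Measure.measure_prod_null (measurable_prodMk_left hm)]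
  have hae : ∀ᵐ b : ℝ, b ≠ a - k := by
    rw [ae_iff]
    simp only [not_not, Set.ofPred_eq_eq_singleton, Real.volume_singleton]
  filter_upwards [hae] with b hb
  change volume (Prod.mk b ⁻¹' (Prod.mk a ⁻¹'
    {p : ℝ × ℝ × ℝ | p ∈ Cone ∧ G p.1 p.2.1 p.2.2 = 0})) = 0
  refine measure_null_of_locally_null _ fun c hc => ?_
  obtain ⟨⟨h1, h2, h3⟩, h4⟩ := hc
  have h5 := hT a b c h1 h2 h3 fun h => hb (by linarith)
  refine ⟨{c}, ?_, Real.volume_singleton⟩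
  rw [mem_nhdsWithin_iff_eventually]
  rw [eventually_nhdsWithin_iff] at h5
  filter_upwards [h5] with x hx hx2
  by_contra hne
  exact hx hne hx2.2

end TRTHN

/-- TR-THN1. For `a - b ≠ 4` the zeros of the drift are isolated. -/
theorem Lam_isolated {a b c : ℝ} (ha : 0 < a) (hb : 0 < b) (hc : c ^ 2 < a * b)
    (hab : a - b ≠ 4) : ∀ᶠ x in 𝓝[≠] c, Lam a b x ≠ 0 := by
  have hab0 : 0 < a * b := mul_pos ha hb
  by_contra hcon
  rw [Filter.not_eventually] at hcon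
  have hcon2 : ∃ᶠ x in 𝓝[≠] c, x ^ 2 < a * b ∧ Lam a b x = 0 := by
    have h1 : ∀ᶠ x in 𝓝[≠] c, x ^ 2 < a * b :=
      nhdsWithin_le_nhds ((isOpen_lt (continuous_pow 2) continuous_const).mem_nhds hc)
    refine (hcon.and_eventually h1).mono fun x hx => ⟨hx.2, not_not.1 hx.1⟩
  have htend : Tendsto (fun x : ℝ => (x : ℂ)) (𝓝[≠] c) (𝓝[≠] (c : ℂ)) := by
    refine tendsto_nhdsWithin_iff.2 ⟨(Complex.continuous_ofReal.tendsto c).mono_left
      nhdsWithin_le_nhds, ?_⟩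
    filter_upwards [self_mem_nhdsWithin] with x hx
    exact fun h => hx (Complex.ofReal_injective h)
  have hfreq : ∃ᶠ z in 𝓝[≠] (c : ℂ), TRTHN.Lamc a b z π = 0 := by
    refine htend.frequently (p := fun z => TRTHN.Lamc a b z π = 0) (hcon2.mono fun x hx => ?_)
    rw [TRTHN.Lamc_real ha hb hx.1, hx.2, Complex.ofReal_zero]
  have han : AnalyticOnNhd ℂ (fun z => TRTHN.Lamc a b z π) (TRTHN.Str a b) :=
    ((TRTHN.Lamc_good ha hb).hol π).analyticOnNhd (TRTHN.Str_open a b)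
  have hcm : (c : ℂ) ∈ TRTHN.Str a b := by
    change ((c : ℂ)).re ^ 2 < a * b
    rwa [Complex.ofReal_re]
  have hz := han.eqOn_zero_of_preconnected_of_frequently_eq_zero (TRTHN.Str_conv a b) hcm hfreq
  have h0m : ((0 : ℝ) : ℂ) ∈ TRTHN.Str a b := by
    change (((0 : ℝ) : ℂ)).re ^ 2 < a * b
    rw [Complex.ofReal_re]
    simpa using hab0
  have h00 : (0 : ℝ) ^ 2 < a * b := by simpa using hab0
  have h2 := hz h0m
  simp only [Pi.zero_apply] at h2
  rw [TRTHN.Lamc_real ha hb h00, Complex.ofReal_eq_zero] at h2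
  exact hab ((Lam_diag ha hb).1 h2)

/-- TR-THN1'. The same for the backward flow. -/
theorem Lam_isolated' {a b c : ℝ} (ha : 0 < a) (hb : 0 < b) (hc : c ^ 2 < a * b)
    (hab : b - a ≠ 4) : ∀ᶠ x in 𝓝[≠] c, Lam b a (-x) ≠ 0 := by
  have hc' : (-c) ^ 2 < b * a := by
    rw [neg_sq, mul_comm]
    exact hc
  have h := Lam_isolated hb ha hc' hab
  have htend : Tendsto (fun x : ℝ => -x) (𝓝[≠] c) (𝓝[≠] (-c)) := by
    refine tendsto_nhdsWithin_iff.2 ⟨(continuous_neg.tendsto c).mono_left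
      nhdsWithin_le_nhds, ?_⟩
    filter_upwards [self_mem_nhdsWithin] with x hx
    exact fun h => hx (neg_injective h)
  exact htend.eventually h

/-- TR-THN2. The matrices which the method leaves open form a null set. -/
theorem Lam_null :
    volume {p : ℝ × ℝ × ℝ | (0 < p.1 ∧ 0 < p.2.1 ∧ p.2.2 ^ 2 < p.1 * p.2.1) ∧
      (Lam p.1 p.2.1 p.2.2 = 0 ∨ Lam p.2.1 p.1 (-p.2.2) = 0)} = 0 := by
  have h1 := TRTHN.null_gen (G := Lam) (k := 4) TRTHN.Lam_cont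
    fun a b c ha hb hc hab => Lam_isolated ha hb hc hab
  have h2 := TRTHN.null_gen (G := fun a b c => Lam b a (-c)) (k := -4) TRTHN.Lam_cont'
    fun a b c ha hb hc hab => Lam_isolated' ha hb hc fun h => hab (by linarith)
  refine measure_mono_null ?_ (measure_union_null h1 h2)
  rintro p ⟨hp, h | h⟩
  · exact Or.inl ⟨hp, h⟩
  · exact Or.inr ⟨hp, h⟩

end

end Pool.Agent.SLE
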